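import Pool.Agent.KS6_37.Phi.Inj

/-!
# Blocks: orthogonal pieces of the root system and the corresponding subspaces of `g`
-/

set_option autoImplicit false
set_option linter.unusedSectionVars false

noncomputable section

namespace Pool.Agent.KS6_37.Phi

open Pool.Agent.KS6_37.PhiRP Pool.Agent.KS6_37.Phi.Core

variable {g : Type} [LieRing g] [LieAlgebra ℂ g] [FiniteDimensional ℂ g]
variable [LieAlgebra.IsKilling ℂ g]
variable {H : LieSubalgebra ℂ g} [H.IsCartanSubalgebra]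

/-- weight vectors of weight `ξ` -/
def wv (ξ : Module.Dual ℂ H) : Submodule ℂ g where
  carrier := {x | ∀ h : H, ⁅(h : g), x⁆ = ξ h • x}
  zero_mem' := fun h => by simp
  add_mem' := fun {a b} ha hb h => by rw [lie_add, ha h, hb h, smul_add]
  smul_mem' := fun c a ha h => by rw [lie_smul, ha h, smul_comm]

/-- the span of the coroots, as a subspace of `g` -/
def cog (R : Set (Module.Dual ℂ H × H)) : Submodule ℂ g := (co R).map (H.incl : H →ₗ[ℂ] g)

/-- the subspace of `g` spanned by the coroots and the root spaces of `R` -/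
def bs (R : Set (Module.Dual ℂ H × H)) : Submodule ℂ g := cog R ⊔ ⨆ r ∈ R, wv r.1

/-- the starting set of a block -/
def ES (R : Set (Module.Dual ℂ H × H)) (T : Set (SymmetricAlgebra ℂ H)) :
    Set (ExteriorAlgebra ℂ g) :=
  {v | ∃ t ∈ T, ∃ η ∈ Algebra.adjoin ℂ (ExteriorAlgebra.ι ℂ '' (cog R : Set g)),
    v = tau (H.incl : H →ₗ[ℂ] g) t * η}

/-- a good block -/
structure GB (R : Set (Module.Dual ℂ H × H)) (T : Set (SymmetricAlgebra ℂ H)) : Prop where
  hb : HB R T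
  gen : Gen (bs R) (ES R T)
  sB : ∀ h ∈ co R, sMap g (h : g) ∈
    Algebra.adjoin ℂ (ExteriorAlgebra.ι ℂ '' (bs R : Set g))

theorem cog_le_bs (R : Set (Module.Dual ℂ H × H)) : cog R ≤ bs R := le_sup_left

theorem cog_union (R S : Set (Module.Dual ℂ H × H)) : cog (R ∪ S) = cog R ⊔ cog S := by
  rw [cog, co_union, Submodule.map_sup]; rfl

theorem bs_union (R S : Set (Module.Dual ℂ H × H)) : bs (R ∪ S) = bs R ⊔ bs S := by
  rw [bs, cog_union, iSup_union, bs, bs]
  exact sup_sup_sup_comm _ _ _ _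

theorem adj_mono {V W : Submodule ℂ g} (h : V ≤ W) :
    Algebra.adjoin ℂ (ExteriorAlgebra.ι ℂ '' (V : Set g)) ≤
      Algebra.adjoin ℂ (ExteriorAlgebra.ι ℂ '' (W : Set g)) :=
  Algebra.adjoin_mono (Set.image_mono h)

theorem GB.tau_mem {R : Set (Module.Dual ℂ H × H)} {T : Set (SymmetricAlgebra ℂ H)}
    (h : GB R T) {t : SymmetricAlgebra ℂ H} (ht : t ∈ Sym (co R)) :
    tau (H.incl : H →ₗ[ℂ] g) t ∈ Algebra.adjoin ℂ (ExteriorAlgebra.ι ℂ '' (bs R : Set g)) := by
  induction ht using Algebra.adjoin_induction with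
  | mem x hx =>
    obtain ⟨y, hy, rfl⟩ := hx
    rw [tau_ι]
    exact h.sB y hy
  | algebraMap r => rw [AlgHom.commutes]; exact Subalgebra.algebraMap_mem _ r
  | add x y _ _ hx hy => rw [map_add]; exact add_mem hx hy
  | mul x y _ _ hx hy => rw [map_mul]; exact mul_mem hx hy

theorem tau_central (t : SymmetricAlgebra ℂ H) (w : ExteriorAlgebra ℂ g) :
    tau (H.incl : H →ₗ[ℂ] g) t * w = w * tau (H.incl : H →ₗ[ℂ] g) t := by
  induction t using SymmetricAlgebra.induction with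
  | algebraMap r => rw [AlgHom.commutes]; exact Algebra.commutes r w
  | ι x => rw [tau_ι]; exact sMap_central _ w
  | mul a b ha hb => rw [map_mul, mul_assoc, hb, ← mul_assoc, ha, mul_assoc]
  | add a b ha hb => rw [map_add, add_mul, mul_add, ha, hb]

theorem sgn_mem {V : Submodule ℂ g} {w : ExteriorAlgebra ℂ g}
    (hw : w ∈ Algebra.adjoin ℂ (ExteriorAlgebra.ι ℂ '' (V : Set g))) :
    sgn g w ∈ Algebra.adjoin ℂ (ExteriorAlgebra.ι ℂ '' (V : Set g)) := by
  induction hw using Algebra.adjoin_induction with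
  | mem x hx =>
    obtain ⟨y, hy, rfl⟩ := hx
    have h1 : sgn g (ExteriorAlgebra.ι ℂ y) = -ExteriorAlgebra.ι ℂ y := involute_ι' y
    rw [h1]
    exact neg_mem (Algebra.subset_adjoin ⟨y, hy, rfl⟩)
  | algebraMap r =>
    have : sgn g (algebraMap ℂ (ExteriorAlgebra ℂ g) r) = algebraMap ℂ _ r := AlgHom.commutes _ r
    rw [this]; exact Subalgebra.algebraMap_mem _ r
  | add x y _ _ hx hy => rw [map_add]; exact add_mem hx hy
  | mul x y _ _ hx hy => rw [map_mul]; exact mul_mem hx hy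

theorem ι_mul_sgn (x : g) (w : ExteriorAlgebra ℂ g) :
    ExteriorAlgebra.ι ℂ x * w = sgn g w * ExteriorAlgebra.ι ℂ x := by
  induction w using left_ind with
  | h1 r =>
    have : sgn g (algebraMap ℂ (ExteriorAlgebra ℂ g) r) = algebraMap ℂ _ r := AlgHom.commutes _ r
    rw [this]; exact (Algebra.commutes r _).symm
  | h2 a b ha hb => rw [mul_add, map_add, add_mul, ha, hb]
  | h3 m a ha =>
    rw [← mul_assoc, ι_mul_ι_swap, neg_mul, mul_assoc, ha, sgn_ι_mul, neg_mul, mul_assoc]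

/-- generation for two commuting subspaces -/
theorem Gen.sup {b c : Submodule ℂ g} {E F G : Set (ExteriorAlgebra ℂ g)} (hb : Gen b E)
    (hc : Gen c F) (hbc : ∀ x ∈ b, ∀ y ∈ c, ⁅x, y⁆ = 0)
    (hF : ∀ v ∈ F, v ∈ Algebra.adjoin ℂ (ExteriorAlgebra.ι ℂ '' (c : Set g)))
    (hG : ∀ u ∈ E, ∀ v ∈ F, u * v ∈ G) : Gen (b ⊔ c) G := by
  intro P hP hGP
  have hPb : ∀ x ∈ b, ∀ w ∈ P, ⁅x, w⁆ ∈ P := fun x hx => hP x (Submodule.mem_sup_left hx)
  have hPc : ∀ x ∈ c, ∀ w ∈ P, ⁅x, w⁆ ∈ P := fun x hx => hP x (Submodule.mem_sup_right hx)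
  have h1 : ∀ v ∈ F, ∀ u ∈ Algebra.adjoin ℂ (ExteriorAlgebra.ι ℂ '' (b : Set g)),
      u * v ∈ P := by
    intro v hv
    refine hb (P.comap (LinearMap.mulRight ℂ v)) ?_ ?_
    · intro x hx w hw
      change ⁅x, w⁆ * v ∈ P
      have h2 : ⁅x, v⁆ = 0 := lie_adjoin (fun y hy => hbc x hx y hy) (hF v hv)
      have h3 : ⁅x, w * v⁆ = ⁅x, w⁆ * v := by rw [lie_mul', h2, mul_zero, add_zero]
      rw [← h3]
      exact hPb x hx _ hw
    · intro u hu
      exact hGP (hG u hu v hv)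
  have h2 : ∀ u ∈ Algebra.adjoin ℂ (ExteriorAlgebra.ι ℂ '' (b : Set g)),
      ∀ v ∈ Algebra.adjoin ℂ (ExteriorAlgebra.ι ℂ '' (c : Set g)), u * v ∈ P := by
    intro u hu
    refine hc (P.comap (LinearMap.mulLeft ℂ u)) ?_ ?_
    · intro x hx w hw
      change u * ⁅x, w⁆ ∈ P
      have h2 : ⁅x, u⁆ = 0 := lie_adjoin (fun y hy => by
        rw [← lie_skew, hbc y hy x hx, neg_zero]) hu
      have h3 : ⁅x, u * w⁆ = u * ⁅x, w⁆ := by rw [lie_mul', h2, zero_mul, zero_add]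
      rw [← h3]
      exact hPc x hx _ hw
    · intro v hv
      exact h1 v hv u hu
  -- the products span
  let Z : Submodule ℂ (ExteriorAlgebra ℂ g) := Submodule.span ℂ
    {z | ∃ u ∈ Algebra.adjoin ℂ (ExteriorAlgebra.ι ℂ '' (b : Set g)),
      ∃ v ∈ Algebra.adjoin ℂ (ExteriorAlgebra.ι ℂ '' (c : Set g)), z = u * v}
  have hZP : Z ≤ P := by
    rw [Submodule.span_le]
    rintro _ ⟨u, hu, v, hv, rfl⟩
    exact h2 u hu v hv
  have hZι : ∀ x ∈ b ⊔ c, ∀ z ∈ Z, ExteriorAlgebra.ι ℂ x * z ∈ Z := by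
    intro x hx z hz
    obtain ⟨y, hy, y', hy', rfl⟩ := Submodule.mem_sup.1 hx
    refine Submodule.span_induction (p := fun z _ => ExteriorAlgebra.ι ℂ (y + y') * z ∈ Z)
      ?_ ?_ ?_ ?_ hz
    · rintro _ ⟨u, hu, v, hv, rfl⟩
      rw [map_add, add_mul]
      refine Submodule.add_mem _ ?_ ?_
      · exact Submodule.subset_span ⟨ExteriorAlgebra.ι ℂ y * u,
          mul_mem (Algebra.subset_adjoin ⟨y, hy, rfl⟩) hu, v, hv, (mul_assoc _ _ _).symm⟩
      · refine Submodule.subset_span ⟨sgn g u, sgn_mem hu, ExteriorAlgebra.ι ℂ y' * v,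
          mul_mem (Algebra.subset_adjoin ⟨y', hy', rfl⟩) hv, ?_⟩
        rw [← mul_assoc, ι_mul_sgn, mul_assoc]
    · simp
    · intro a b _ _ ha hb; rw [mul_add]; exact Submodule.add_mem _ ha hb
    · intro k a _ ha; rw [mul_smul_comm]; exact Submodule.smul_mem _ _ ha
  have hZ : ∀ w ∈ Algebra.adjoin ℂ (ExteriorAlgebra.ι ℂ '' ((b ⊔ c : Submodule ℂ g) : Set g)),
      ∀ z ∈ Z, w * z ∈ Z := by
    intro w hw
    induction hw using Algebra.adjoin_induction with
    | mem x hx =>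
      obtain ⟨y, hy, rfl⟩ := hx
      exact hZι y hy
    | algebraMap r =>
      intro z hz
      rw [← Algebra.smul_def]; exact Submodule.smul_mem _ _ hz
    | add x y _ _ hx hy =>
      intro z hz
      rw [add_mul]; exact Submodule.add_mem _ (hx z hz) (hy z hz)
    | mul x y _ _ hx hy =>
      intro z hz
      rw [mul_assoc]; exact hx _ (hy z hz)
  intro v hv
  have h3 := hZ v hv 1 (Submodule.subset_span ⟨1, one_mem _, 1, one_mem _, (mul_one 1).symm⟩)
  rw [mul_one] at h3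
  exact hZP h3

theorem GB.ES_mem {R : Set (Module.Dual ℂ H × H)} {T : Set (SymmetricAlgebra ℂ H)}
    (h : GB R T) (v : ExteriorAlgebra ℂ g) (hv : v ∈ ES R T) :
    v ∈ Algebra.adjoin ℂ (ExteriorAlgebra.ι ℂ '' (bs R : Set g)) := by
  obtain ⟨t, ht, η, hη, rfl⟩ := hv
  exact mul_mem (h.tau_mem (h.hb.sub t ht)) (adj_mono (cog_le_bs R) hη)

theorem GB.union {R S : Set (Module.Dual ℂ H × H)} {T U : Set (SymmetricAlgebra ℂ H)}
    (hR : GB R T) (hS : GB S U) (h : Orth R S) (hc : ∀ x ∈ bs R, ∀ y ∈ bs S, ⁅x, y⁆ = 0) :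
    GB (R ∪ S) {v | ∃ t ∈ T, ∃ u ∈ U, v = t * u} where
  hb := hR.hb.union hS.hb h
  gen := by
    rw [bs_union]
    refine Gen.sup hR.gen hS.gen hc hS.ES_mem ?_
    rintro _ ⟨t, ht, η, hη, rfl⟩ _ ⟨u, hu, θ, hθ, rfl⟩
    refine ⟨t * u, ⟨t, ht, u, hu, rfl⟩, η * θ, ?_, ?_⟩
    · rw [cog_union]
      exact mul_mem (adj_mono le_sup_left hη) (adj_mono le_sup_right hθ)
    · rw [map_mul, mul_assoc, mul_assoc, ← mul_assoc η, ← tau_central u η, mul_assoc]
  sB := by
    intro x hx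
    rw [co_union] at hx
    obtain ⟨y, hy, z, hz, rfl⟩ := Submodule.mem_sup.1 hx
    have : ((y + z : H) : g) = (y : g) + (z : g) := rfl
    rw [this, map_add, bs_union]
    exact add_mem (adj_mono le_sup_left (hR.sB y hy)) (adj_mono le_sup_right (hS.sB z hz))

theorem GB.empty : GB (∅ : Set (Module.Dual ℂ H × H)) {1} where
  hb := HB.empty
  gen := by
    intro P _ hE v hv
    have h1 : bs (∅ : Set (Module.Dual ℂ H × H)) = ⊥ := by
      simp [bs, cog, co]
    have h2 : (1 : ExteriorAlgebra ℂ g) ∈ P :=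
      hE ⟨1, rfl, 1, one_mem _, by rw [map_one, mul_one]⟩
    rw [h1] at hv
    have h3 : v ∈ (⊥ : Subalgebra ℂ (ExteriorAlgebra ℂ g)) := by
      refine (Algebra.adjoin_le ?_) hv
      rintro _ ⟨y, hy, rfl⟩
      have : y = 0 := hy
      rw [this, map_zero]
      exact zero_mem _
    rw [Algebra.mem_bot] at h3
    obtain ⟨r, rfl⟩ := h3
    rw [Algebra.algebraMap_eq_smul_one]
    exact P.smul_mem _ h2
  sB := by
    intro h hh
    have h1 : h = 0 := by
      have : co (∅ : Set (Module.Dual ℂ H × H)) = ⊥ := by simp [co]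
      rw [this] at hh
      exact hh
    subst h1
    have : ((0 : H) : g) = 0 := rfl
    rw [this, map_zero]
    exact zero_mem _

end Pool.Agent.KS6_37.Phi
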