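import Pool.Agent.KS6_37.Phi.Gen

/-!
# The case of `sl(2)`
-/

set_option autoImplicit false

noncomputable section

namespace Pool.Agent.KS6_37.Phi.Core

open Pool.Agent.KS6_37.Phi

/-- the structure constants of `sl(2)`, generators `h, e, f` -/
def tab2 : List (List (List (ℤ × ℕ))) :=
  [[[], [(2, 1)], [(-2, 2)]],
   [[(-2, 1)], [], [(1, 0)]],
   [[(2, 2)], [(-1, 0)], []]]

/-- the structure constants of `sl(2)` -/
def B2 (a b : ℕ) : List (ℤ × ℕ) := (tab2.getD a []).getD b []

/-- the initial polynomials, with their degrees -/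
def init2 : List (ℕ × Poly) :=
  [(0, [(1, [])]), (1, [(1, [0])]), (2, [(1, [1, 2])]), (3, [(1, [0, 1, 2])])]

/-- the initial polynomials of degree `d`, last first -/
def init2D (d : ℕ) : List Poly := ((init2.filter fun t => t.1 == d).map Prod.snd).reverse

/-- the certificate proves that all words of length `d` are in the subspace -/
def goodCert2 (d : ℕ) (ss : List Step) : Bool :=
  match run B2 (init2D d) ss with
  | none => false
  | some K => ((List.range 3).sublistsLen d).all fun w => K.contains [(1, w)]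

theorem good20 : goodCert2 0 [] = true := by decide +kernel
theorem good21 : goodCert2 1 [⟨-2, [(1, [1])], [(1, 0, 1)]⟩, ⟨2, [(1, [2])], [(1, 1, 2)]⟩] = true := by
  decide +kernel
theorem good22 : goodCert2 2
    [⟨-1, [(1, [0, 1])], [(1, 0, 1)]⟩, ⟨-1, [(1, [0, 2])], [(1, 1, 2)]⟩] = true := by
  decide +kernel
theorem good23 : goodCert2 3 [] = true := by decide +kernel

variable {g : Type} [LieRing g] [LieAlgebra ℂ g] [FiniteDimensional ℂ g]

theorem good2_sound {X : ℕ → g} {P : Submodule ℂ (ExteriorAlgebra ℂ g)}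
    (hB : ∀ a b, ⁅X a, X b⁆ = ((B2 a b).map fun t => (t.1 : ℂ) • X t.2).sum)
    (hP : ∀ a, ∀ w ∈ P, ⁅X a, w⁆ ∈ P) (hE : ∀ t ∈ init2, ev X t.2 ∈ P) {d : ℕ} {ss : List Step}
    (h : goodCert2 d ss = true) (w : List ℕ) (hw : w ∈ (List.range 3).sublistsLen d) :
    evw X w ∈ P := by
  rw [goodCert2] at h
  split at h
  · simp at h
  · rename_i K hK
    have h1 := run_sound X P hB hP ss (init2D d) K ?_ hK
    · have h2 := (List.all_eq_true.1 h) w hw
      have h3 : [(1, w)] ∈ K := List.contains_iff_mem.1 h2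
      have h4 := h1 _ h3
      simpa [ev] using h4
    · intro p hp
      rw [init2D, List.mem_reverse, List.mem_map] at hp
      obtain ⟨t, ht, rfl⟩ := hp
      exact hE t (List.mem_filter.1 ht).1

theorem gen2 (X : ℕ → g) (hX : ∀ i, 3 ≤ i → X i = 0)
    (hB : ∀ a b, ⁅X a, X b⁆ = ((B2 a b).map fun t => (t.1 : ℂ) • X t.2).sum)
    (E : Set (ExteriorAlgebra ℂ g)) (hE : ∀ t ∈ init2, ev X t.2 ∈ Submodule.span ℂ E) :
    Gen (Submodule.span ℂ (Set.range X)) E := by
  refine gen_of_words X 3 hX E fun P hP hEP w hw => ?_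
  have hE' : ∀ t ∈ init2, ev X t.2 ∈ P := fun t ht => (Submodule.span_le.2 hEP) (hE t ht)
  have h1 := sorted_mem 3 w hw
  have h2 := sorted_length 3 w hw
  generalize w.length = d at h1 h2
  interval_cases d
  · exact good2_sound hB hP hE' good20 w h1
  · exact good2_sound hB hP hE' good21 w h1
  · exact good2_sound hB hP hE' good22 w h1
  · exact good2_sound hB hP hE' good23 w h1

end Pool.Agent.KS6_37.Phi.Core
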