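import Pool.Agent.KS6_37.Phi.Block
import Pool.Agent.KS6_37.Phi.Gen2

/-!
# Blocks of types `A1` and `A2`: preliminaries
-/

set_option autoImplicit false
set_option linter.unusedSectionVars false

noncomputable section

namespace Pool.Agent.KS6_37.Phi

open Pool.Agent.KS6_37.PhiRP Pool.Agent.KS6_37.Phi.Core
open LieAlgebra LieAlgebra.IsKilling LieModule

variable {g : Type} [LieRing g] [LieAlgebra ℂ g] [FiniteDimensional ℂ g]
variable [LieAlgebra.IsKilling ℂ g]
variable {H : LieSubalgebra ℂ g} [H.IsCartanSubalgebra]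

theorem sMap_of_sum {n : ℕ} (s : Fin n → ℂ) (e f : Fin n → g) (h : g)
    (hT : ∀ x : g, ⁅x, h⁆ = ∑ i, s i • (killingForm ℂ g x (e i) • f i -
      killingForm ℂ g x (f i) • e i)) :
    sMap g h = ∑ i, s i • (ExteriorAlgebra.ι ℂ (e i) * ExteriorAlgebra.ι ℂ (f i)) := by
  have h1 : ∀ y : g, ExteriorAlgebra.ι ℂ y =
      ∑ j, killingForm ℂ g (db g j) y • ExteriorAlgebra.ι ℂ (bb g j) := by
    intro y
    conv_lhs => rw [expand_bb y, map_sum]
    refine Finset.sum_congr rfl fun j _ => ?_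
    rw [map_smul, kill_symm]
  have h2 : sMap g h = (1 / 2 : ℂ) • ∑ j, ExteriorAlgebra.ι ℂ (bb g j) *
      ExteriorAlgebra.ι ℂ ⁅db g j, h⁆ := sMap_apply h
  have h3 : ∀ j, ExteriorAlgebra.ι ℂ (bb g j) * ExteriorAlgebra.ι ℂ ⁅db g j, h⁆ =
      ∑ i, s i • ((killingForm ℂ g (db g j) (e i) • ExteriorAlgebra.ι ℂ (bb g j)) *
        ExteriorAlgebra.ι ℂ (f i) - (killingForm ℂ g (db g j) (f i) •
          ExteriorAlgebra.ι ℂ (bb g j)) * ExteriorAlgebra.ι ℂ (e i)) := by
    intro j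
    rw [hT, map_sum, Finset.mul_sum]
    refine Finset.sum_congr rfl fun i _ => ?_
    rw [map_smul, map_sub, map_smul, map_smul, mul_smul_comm, mul_sub, mul_smul_comm,
      mul_smul_comm, smul_mul_assoc, smul_mul_assoc]
  rw [h2, Finset.sum_congr rfl fun j _ => h3 j, Finset.sum_comm, Finset.smul_sum]
  refine Finset.sum_congr rfl fun i _ => ?_
  rw [← Finset.smul_sum, Finset.sum_sub_distrib, ← Finset.sum_mul, ← Finset.sum_mul, ← h1, ← h1,
    ι_mul_ι_swap (f i) (e i), sub_neg_eq_add, ← two_smul ℂ, smul_smul, smul_smul]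
  congr 1
  ring

theorem mem_rootSpace_zero (h : H) : (h : g) ∈ rootSpace H (0 : H → ℂ) := by
  rw [LieAlgebra.rootSpace_zero_eq, LieSubalgebra.mem_toLieSubmodule]
  exact h.2

theorem wv_eq (χ : Module.Dual ℂ H) : wv (g := g) χ = (rootSpace H (χ : H → ℂ)).toSubmodule := by
  ext x
  constructor
  · intro hx
    rw [LieSubmodule.mem_toSubmodule, LieModule.mem_genWeightSpace]
    intro h
    refine ⟨1, ?_⟩
    have h1 : ⁅(h : g), x⁆ = χ h • x := hx h
    rw [pow_one, LinearMap.sub_apply, LinearMap.smul_apply, Module.End.one_apply]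
    change ⁅(h : g), x⁆ - χ h • x = 0
    rw [h1, sub_self]
  · intro hx h
    exact lie_eq_smul_of_mem_rootSpace hx h

theorem exists_smul_of_mem {α : Weight ℂ H g} (hα : α.IsNonZero) {e x : g}
    (he : e ∈ rootSpace H α) (he0 : e ≠ 0) (hx : x ∈ rootSpace H α) : ∃ t : ℂ, x = t • e := by
  obtain ⟨t, ht⟩ := (finrank_eq_one_iff_of_nonzero' ⟨e, he⟩
    (by rwa [ne_eq, LieSubmodule.mk_eq_zero])).mp (finrank_rootSpace_eq_one α hα) ⟨x, hx⟩
  exact ⟨t, by simpa using (congrArg Subtype.val ht).symm⟩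

theorem wv_span {α : Weight ℂ H g} (hα : α.IsNonZero) {e : g}
    (he : e ∈ rootSpace H α) (he0 : e ≠ 0) : wv (g := g) α.toLinear = Submodule.span ℂ {e} := by
  rw [wv_eq]
  apply le_antisymm
  · intro x hx
    obtain ⟨t, rfl⟩ := exists_smul_of_mem hα he he0 hx
    exact Submodule.smul_mem _ _ (Submodule.subset_span rfl)
  · rw [Submodule.span_le]
    rintro _ rfl
    exact he

section K

variable {α : Weight ℂ H g} (hα : α.IsNonZero) {e f : g}
  (he : e ∈ rootSpace H α) (hf : f ∈ rootSpace H (-α)) {c0 : ℂ}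
  (hk : killingForm ℂ g e f = c0) (hc : c0 ≠ 0)

theorem add_self_ne {χ : H → ℂ} (h : χ ≠ 0) : χ + χ ≠ 0 := by
  intro h'
  apply h
  funext x
  have := congrFun h' x
  simp only [Pi.add_apply, Pi.zero_apply] at this ⊢
  linear_combination this / 2

include hα he hf hk hc in
theorem K_pos {x : g} (hx : x ∈ rootSpace H α) :
    killingForm ℂ g x e • f - killingForm ℂ g x f • e = -(c0 • x) := by
  have he0 : e ≠ 0 := by rintro rfl; apply hc; rw [← hk]; simp
  obtain ⟨t, rfl⟩ := exists_smul_of_mem hα he he0 hx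
  have h1 : killingForm ℂ g (t • e) e = 0 :=
    killingForm_apply_eq_zero_of_mem_rootSpace_of_add_ne_zero ℂ g H hx he (add_self_ne hα)
  rw [h1, map_smul, LinearMap.smul_apply, hk, zero_smul, zero_sub, smul_smul, smul_eq_mul,
    mul_comm]

include hα he hf hk hc in
theorem K_neg {x : g} (hx : x ∈ rootSpace H (-α)) :
    killingForm ℂ g x e • f - killingForm ℂ g x f • e = c0 • x := by
  have hf0 : f ≠ 0 := by rintro rfl; apply hc; rw [← hk]; simp
  have hf' : f ∈ rootSpace H (-α : Weight ℂ H g) := hf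
  have hx' : x ∈ rootSpace H (-α : Weight ℂ H g) := hx
  obtain ⟨t, rfl⟩ := exists_smul_of_mem hα.neg hf' hf0 hx'
  have h1 : killingForm ℂ g (t • f) f = 0 :=
    killingForm_apply_eq_zero_of_mem_rootSpace_of_add_ne_zero ℂ g H hx hf
      (add_self_ne (χ := -(α : H → ℂ)) (neg_ne_zero.2 hα))
  rw [h1, map_smul, LinearMap.smul_apply, kill_symm f e, hk, zero_smul, sub_zero, smul_smul,
    smul_eq_mul, mul_comm]

include he hf in
theorem K_zero {χ : H → ℂ} {x : g} (hx : x ∈ rootSpace H χ) (h1 : χ ≠ α) (h2 : χ ≠ -α) :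
    killingForm ℂ g x e • f - killingForm ℂ g x f • e = 0 := by
  have h3 : killingForm ℂ g x e = 0 :=
    killingForm_apply_eq_zero_of_mem_rootSpace_of_add_ne_zero ℂ g H hx he
      (fun h => h2 (eq_neg_of_add_eq_zero_left h))
  have h4 : killingForm ℂ g x f = 0 :=
    killingForm_apply_eq_zero_of_mem_rootSpace_of_add_ne_zero ℂ g H hx hf
      (fun h => h1 (by rw [eq_neg_of_add_eq_zero_left h, neg_neg]))
  rw [h3, h4, zero_smul, zero_smul, sub_zero]

end K

/-- two linear maps agree if they agree on all root spaces -/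
theorem ext_rootSpace {M : Type} [AddCommGroup M] [Module ℂ M] (S T : g →ₗ[ℂ] M)
    (h0 : ∀ h : H, S (h : g) = T (h : g))
    (h : ∀ α : Weight ℂ H g, α.IsNonZero → ∀ x ∈ rootSpace H α, S x = T x) : S = T := by
  ext x
  have hx := mem_iSup_rootSpace (H := H) x
  induction hx using LieSubmodule.iSup_induction' with
  | mem χ x hx =>
    by_cases hχ : χ = 0
    · subst hχ
      rw [LieAlgebra.rootSpace_zero_eq, LieSubalgebra.mem_toLieSubmodule] at hx
      exact h0 ⟨x, hx⟩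
    · by_cases hb : LieAlgebra.rootSpace H χ = ⊥
      · rw [hb, LieSubmodule.mem_bot] at hx
        rw [hx, map_zero, map_zero]
      · exact h ⟨χ, hb⟩ hχ x hx
  | zero => simp
  | add a b _ _ ha hb => rw [map_add, map_add, ha, hb]

theorem kill_ne_zero {α : Weight ℂ H g} (hα : α.IsNonZero) {e f : g}
    (he : e ∈ rootSpace H α) (hf : f ∈ rootSpace H (-α)) (h : ⁅e, f⁆ = (coroot α : g)) :
    killingForm ℂ g e f ≠ 0 := by
  intro h0
  have h1 := lie_eq_killingForm_smul_of_mem_rootSpace_of_mem_rootSpace_neg he hf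
  rw [h0, zero_smul, h] at h1
  have h2 : coroot α = 0 := by
    apply Subtype.ext
    exact h1
  rw [coroot_eq_zero_iff] at h2
  exact hα h2

/-- root vectors for a root -/
theorem exists_ef {α : Weight ℂ H g} (hα : α.IsNonZero) : ∃ e f : g, e ∈ rootSpace H α ∧
    f ∈ rootSpace H (-α) ∧ ⁅e, f⁆ = (coroot α : g) := by
  obtain ⟨h, e, f, ht, he, hf⟩ := exists_isSl2Triple_of_weight_isNonZero hα
  exact ⟨e, f, he, hf, by rw [ht.lie_e_f, ht.h_eq_coroot hα he hf]⟩

end Pool.Agent.KS6_37.Phi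

end

/-!
# The bivector `s(h)` in terms of root vectors
-/

set_option autoImplicit false
set_option linter.unusedSectionVars false

noncomputable section

namespace Pool.Agent.KS6_37.Phi

open Pool.Agent.KS6_37.PhiRP Pool.Agent.KS6_37.Phi.Core
open LieAlgebra LieAlgebra.IsKilling LieModule

variable {g : Type} [LieRing g] [LieAlgebra ℂ g] [FiniteDimensional ℂ g]
variable [LieAlgebra.IsKilling ℂ g]
variable {H : LieSubalgebra ℂ g} [H.IsCartanSubalgebra]

/-- `x ↦ ⁅x, h⁆` -/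
def rb (h : g) : g →ₗ[ℂ] g where
  toFun x := ⁅x, h⁆
  map_add' x y := add_lie x y h
  map_smul' c x := smul_lie c x h

/-- the right-hand side -/
def rT {n : ℕ} (s : Fin n → ℂ) (e f : Fin n → g) : g →ₗ[ℂ] g :=
  ∑ i, s i • (((killingForm ℂ g).flip (e i)).smulRight (f i) -
    ((killingForm ℂ g).flip (f i)).smulRight (e i))

theorem rT_apply {n : ℕ} (s : Fin n → ℂ) (e f : Fin n → g) (x : g) :
    rT s e f x = ∑ i, s i • (killingForm ℂ g x (e i) • f i - killingForm ℂ g x (f i) • e i) := by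
  simp [rT, LinearMap.sum_apply]

theorem sMap_block {n : ℕ} (w : Fin n → Weight ℂ H g) (hw : ∀ i, (w i).IsNonZero)
    (e f : Fin n → g) (he : ∀ i, e i ∈ rootSpace H (w i)) (hf : ∀ i, f i ∈ rootSpace H (-(w i)))
    {c0 : ℂ} (hk : ∀ i, killingForm ℂ g (e i) (f i) = c0) (hc : c0 ≠ 0)
    (hinj : ∀ i j, i ≠ j → w i ≠ w j ∧ w i ≠ -(w j)) (h : H)
    (hperp : ∀ δ : Weight ℂ H g, δ.IsNonZero → (∀ i, δ ≠ w i ∧ δ ≠ -(w i)) → δ h = 0) :
    sMap g (h : g) = ∑ i, (w i h / c0) •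
      (ExteriorAlgebra.ι ℂ (e i) * ExteriorAlgebra.ι ℂ (f i)) := by
  refine sMap_of_sum (fun i => w i h / c0) e f (h : g) fun x => ?_
  have key : rb (h : g) = rT (fun i => w i h / c0) e f := by
    refine ext_rootSpace (H := H) _ _ ?_ ?_
    · intro h'
      rw [rT_apply]
      have h1 : ⁅(h' : g), (h : g)⁆ = 0 := lie_cartan h' h
      change ⁅(h' : g), (h : g)⁆ = _
      rw [h1, eq_comm]
      refine Finset.sum_eq_zero fun i _ => ?_
      rw [K_zero (he i) (hf i) (mem_rootSpace_zero h') (Ne.symm (hw i))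
        (fun h2 => hw i (neg_eq_zero.1 h2.symm)), smul_zero]
    · intro δ hδ x hx
      rw [rT_apply]
      change ⁅x, (h : g)⁆ = _
      have h1 : ⁅x, (h : g)⁆ = -(δ h • x) := by
        rw [← lie_skew]
        congr 1
        exact lie_eq_smul_of_mem_rootSpace hx h
      rw [h1]
      have hz : ∀ j, δ ≠ w j → δ ≠ -(w j) → (w j h / c0) •
          (killingForm ℂ g x (e j) • f j - killingForm ℂ g x (f j) • e j) = 0 := by
        intro j h2 h3
        rw [K_zero (he j) (hf j) hx (fun h4 => h2 (by ext y; exact congrFun h4 y))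
          (fun h4 => h3 (by ext y; exact congrFun h4 y)), smul_zero]
      by_cases hex : ∃ i, δ = w i
      · obtain ⟨i, rfl⟩ := hex
        rw [Finset.sum_eq_single i]
        · rw [K_pos (hw i) (he i) (hf i) (hk i) hc hx, smul_neg, smul_smul, div_mul_cancel₀ _ hc]
        · intro j _ hj
          exact hz j (hinj i j (Ne.symm hj)).1 (hinj i j (Ne.symm hj)).2
        · intro h2; exact absurd (Finset.mem_univ i) h2
      by_cases hex' : ∃ i, δ = -(w i)
      · obtain ⟨i, rfl⟩ := hex'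
        rw [Finset.sum_eq_single i]
        · rw [K_neg (hw i) (he i) (hf i) (hk i) hc hx, smul_smul, div_mul_cancel₀ _ hc]
          have : (-(w i) : Weight ℂ H g) h = -(w i h) := rfl
          rw [this, neg_smul, neg_neg]
        · intro j _ hj
          refine hz j (fun h2 => (hinj j i hj).2 h2.symm) (fun h2 => (hinj i j (Ne.symm hj)).1 ?_)
          exact neg_injective h2
        · intro h2; exact absurd (Finset.mem_univ i) h2
      · push Not at hex hex'
        rw [hperp δ hδ (fun i => ⟨hex i, hex' i⟩), zero_smul, neg_zero, eq_comm]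
        exact Finset.sum_eq_zero fun i _ => hz i (hex i) (hex' i)
  have := LinearMap.congr_fun key x
  rw [rT_apply] at this
  exact this

end Pool.Agent.KS6_37.Phi

end

/-!
# The block of type `A1`
-/

set_option autoImplicit false
set_option linter.unusedSectionVars false

noncomputable section

namespace Pool.Agent.KS6_37.Phi

open Pool.Agent.KS6_37.PhiRP Pool.Agent.KS6_37.Phi.Core
open LieAlgebra LieAlgebra.IsKilling LieModule

variable {g : Type} [LieRing g] [LieAlgebra ℂ g] [FiniteDimensional ℂ g]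
variable [LieAlgebra.IsKilling ℂ g]
variable {H : LieSubalgebra ℂ g} [H.IsCartanSubalgebra]

theorem bs_le {R : Set (Module.Dual ℂ H × H)} {W : Submodule ℂ g}
    (h1 : ∀ r ∈ R, (r.2 : g) ∈ W) (h2 : ∀ r ∈ R, wv r.1 ≤ W) : bs R ≤ W := by
  rw [bs, sup_le_iff]
  constructor
  · rw [cog, Submodule.map_le_iff_le_comap, co, Submodule.span_le]
    rintro _ ⟨r, hr, rfl⟩
    exact h1 r hr
  · exact iSup₂_le h2

theorem cog_mem {R : Set (Module.Dual ℂ H × H)} {h : H} (hh : h ∈ co R) : (h : g) ∈ cog R :=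
  ⟨h, hh, rfl⟩

theorem mem_co {R : Set (Module.Dual ℂ H × H)} {r : Module.Dual ℂ H × H} (hr : r ∈ R) :
    r.2 ∈ co R := Submodule.subset_span ⟨r, hr, rfl⟩

theorem wv_le_bs {R : Set (Module.Dual ℂ H × H)} {r : Module.Dual ℂ H × H} (hr : r ∈ R) :
    wv r.1 ≤ bs (g := g) R := by
  refine le_trans ?_ (le_sup_right : _ ≤ bs R)
  exact le_iSup₂_of_le r hr le_rfl

theorem zero_on_co {R : Set (Module.Dual ℂ H × H)} (δ : Module.Dual ℂ H)
    (hδ : ∀ r ∈ R, δ r.2 = 0) {h : H} (hh : h ∈ co R) : δ h = 0 := by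
  have : co R ≤ LinearMap.ker δ := by
    rw [co, Submodule.span_le]
    rintro _ ⟨r, hr, rfl⟩
    exact hδ r hr
  exact this hh

/-- the elements of the list, then zeros -/
def seq (l : List g) (i : ℕ) : g := l.getD i 0

theorem seq_mem {l : List g} {W : Submodule ℂ g} (h : ∀ x ∈ l, x ∈ W) (i : ℕ) : seq l i ∈ W := by
  rw [seq]
  by_cases hi : i < l.length
  · rw [List.getD_eq_getElem _ _ hi]
    exact h _ (List.getElem_mem hi)
  · rw [List.getD_eq_default _ _ (not_lt.1 hi)]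
    exact zero_mem _

theorem span_seq_le {l : List g} {W : Submodule ℂ g} (h : ∀ x ∈ l, x ∈ W) :
    Submodule.span ℂ (Set.range (seq l)) ≤ W := by
  rw [Submodule.span_le]
  rintro _ ⟨i, rfl⟩
  exact seq_mem h i

theorem mem_span_seq {l : List g} {x : g} (h : x ∈ l) :
    x ∈ Submodule.span ℂ (Set.range (seq l)) := by
  obtain ⟨i, hi, rfl⟩ := List.getElem_of_mem h
  refine Submodule.subset_span ⟨i, ?_⟩
  rw [seq, List.getD_eq_getElem _ _ hi]

theorem seq_zero {l : List g} {i : ℕ} (h : l.length ≤ i) : seq l i = 0 :=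
  List.getD_eq_default _ _ h

theorem mul_ι_mem {V : Submodule ℂ g} {x y : g} (hx : x ∈ V) (hy : y ∈ V) :
    ExteriorAlgebra.ι ℂ x * ExteriorAlgebra.ι ℂ y ∈
      Algebra.adjoin ℂ (ExteriorAlgebra.ι ℂ '' (V : Set g)) :=
  mul_mem (Algebra.subset_adjoin ⟨x, hx, rfl⟩) (Algebra.subset_adjoin ⟨y, hy, rfl⟩)

/-- the pairs of a root and its coroot, for `±α` -/
def set1 (α : Weight ℂ H g) : Set (Module.Dual ℂ H × H) :=
  {(α.toLinear, coroot α), (-α.toLinear, -coroot α)}

theorem mem_set1 (α : Weight ℂ H g) : (α.toLinear, coroot α) ∈ set1 α := Or.inl rfl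

theorem mem_set1' (α : Weight ℂ H g) : (-α.toLinear, -coroot α) ∈ set1 α := Or.inr rfl

section A1

variable {α : Weight ℂ H g} (hα : α.IsNonZero) {e f : g}
  (he : e ∈ rootSpace H α) (hf : f ∈ rootSpace H (-α)) (hef : ⁅e, f⁆ = (coroot α : g))
  (hperp : ∀ δ : Weight ℂ H g, δ.IsNonZero → δ ≠ α → δ ≠ -α → δ (coroot α) = 0)

include hα he hf hef

theorem he0 : e ≠ 0 := by
  rintro rfl
  exact kill_ne_zero hα he hf hef (by simp)

theorem hf0 : f ≠ 0 := by
  rintro rfl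
  exact kill_ne_zero hα he hf hef (by simp)

theorem wv_pos : wv (g := g) α.toLinear = Submodule.span ℂ {e} :=
  wv_span hα he (he0 hα he hf hef)

theorem wv_neg : wv (g := g) (-α.toLinear) = Submodule.span ℂ {f} :=
  wv_span (α := -α) hα.neg hf (hf0 hα he hf hef)

theorem bs_a1 : bs (set1 α) = Submodule.span ℂ (Set.range (seq [(coroot α : g), e, f])) := by
  apply le_antisymm
  · refine bs_le ?_ ?_
    · rintro r (rfl | rfl)
      · exact mem_span_seq (by simp)
      · exact neg_mem (mem_span_seq (by simp) : (coroot α : g) ∈ _)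
    · rintro r (rfl | rfl)
      · rw [wv_pos hα he hf hef, Submodule.span_le]
        rintro _ rfl
        exact mem_span_seq (by simp)
      · rw [wv_neg hα he hf hef, Submodule.span_le]
        rintro _ rfl
        exact mem_span_seq (by simp)
  · refine span_seq_le ?_
    intro x hx
    simp only [List.mem_cons, List.not_mem_nil, or_false] at hx
    rcases hx with rfl | rfl | rfl
    · exact cog_le_bs _ (cog_mem (mem_co (mem_set1 α)))
    · exact wv_le_bs (mem_set1 α) (by rw [wv_pos hα he hf hef]; exact Submodule.mem_span_singleton_self _)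
    · exact wv_le_bs (mem_set1' α) (by rw [wv_neg hα he hf hef]; exact Submodule.mem_span_singleton_self _)

theorem lie_a1 (a b : ℕ) : ⁅seq [(coroot α : g), e, f] a, seq [(coroot α : g), e, f] b⁆ =
    ((B2 a b).map fun t => (t.1 : ℂ) • seq [(coroot α : g), e, f] t.2).sum := by
  have h1 : ⁅(coroot α : g), e⁆ = (2 : ℂ) • e := by
    have := lie_eq_smul_of_mem_rootSpace he (coroot α)
    rwa [root_apply_coroot hα] at this
  have h2 : ⁅(coroot α : g), f⁆ = -((2 : ℂ) • f) := by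
    have := lie_eq_smul_of_mem_rootSpace hf (coroot α)
    rw [Pi.neg_apply, root_apply_coroot hα, neg_smul] at this
    exact this
  have h3 : ⁅e, (coroot α : g)⁆ = -((2 : ℂ) • e) := by rw [← lie_skew, h1]
  have h4 : ⁅f, (coroot α : g)⁆ = (2 : ℂ) • f := by rw [← lie_skew, h2, neg_neg]
  have h5 : ⁅f, e⁆ = -(coroot α : g) := by rw [← lie_skew, hef]
  by_cases ha : a < 3
  · by_cases hb : b < 3
    · interval_cases a <;> interval_cases b <;>
        simp [seq, B2, tab2, h1, h2, h3, h4, h5, hef]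
    · have h6 : B2 a b = [] := by
        rw [B2]
        apply List.getD_eq_default
        interval_cases a <;> simp [tab2] <;> omega
      rw [h6, seq_zero (i := b) (by simp; omega)]
      simp
  · have h6 : B2 a b = [] := by
      rw [B2, List.getD_eq_default (tab2) _ (by simp [tab2]; omega)]
      simp
    rw [h6, seq_zero (i := a) (by simp; omega)]
    simp

include hperp in
theorem sMap_a1 {h : H} (hh : h ∈ co (set1 α)) : sMap g (h : g) =
    (α h / killingForm ℂ g e f) • (ExteriorAlgebra.ι ℂ e * ExteriorAlgebra.ι ℂ f) := by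
  have := sMap_block (n := 1) (fun _ => α) (fun _ => hα) (fun _ => e) (fun _ => f) (fun _ => he)
    (fun _ => hf) (c0 := killingForm ℂ g e f) (fun _ => rfl) (kill_ne_zero hα he hf hef)
    (fun i j hij => absurd (Subsingleton.elim i j) hij) h (fun δ hδ hδ' => by
      refine zero_on_co δ.toLinear ?_ hh
      rintro r (rfl | rfl)
      · exact hperp δ hδ (hδ' 0).1 (hδ' 0).2
      · rw [map_neg, neg_eq_zero]
        exact hperp δ hδ (hδ' 0).1 (hδ' 0).2)
  rw [this]
  simp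

include hperp in
theorem GB.a1_aux : GB (set1 α) {1, ιS (coroot α)} where
  hb := HB.a1 α.toLinear (coroot α) (root_apply_coroot hα)
  sB := by
    intro h hh
    rw [sMap_a1 hα he hf hef hperp hh]
    refine Subalgebra.smul_mem _ (mul_ι_mem ?_ ?_) _
    · rw [bs_a1 hα he hf hef]; exact mem_span_seq (by simp)
    · rw [bs_a1 hα he hf hef]; exact mem_span_seq (by simp)
  gen := by
    rw [bs_a1 hα he hf hef]
    refine gen2 (seq [(coroot α : g), e, f]) (fun i hi => seq_zero (by simpa using hi))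
      (lie_a1 hα he hf hef) _ ?_
    have hc : (coroot α : g) ∈ cog (set1 α) := cog_mem (mem_co (mem_set1 α))
    have hη : ExteriorAlgebra.ι ℂ (coroot α : g) ∈
        Algebra.adjoin ℂ (ExteriorAlgebra.ι ℂ '' (cog (set1 α) : Set g)) :=
      Algebra.subset_adjoin ⟨_, hc, rfl⟩
    have h1 : (1 : SymmetricAlgebra ℂ H) ∈ ({1, ιS (coroot α)} : Set (SymmetricAlgebra ℂ H)) :=
      Or.inl rfl
    have h2 : ιS (coroot α) ∈ ({1, ιS (coroot α)} : Set (SymmetricAlgebra ℂ H)) := Or.inr rfl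
    have hk := kill_ne_zero hα he hf hef
    have h3 : ExteriorAlgebra.ι ℂ e * ExteriorAlgebra.ι ℂ f =
        (killingForm ℂ g e f / 2) • tau (H.incl : H →ₗ[ℂ] g) (ιS (coroot α)) := by
      rw [tau_ι]
      have h4 := sMap_a1 hα he hf hef hperp (mem_co (mem_set1 α))
      rw [root_apply_coroot hα] at h4
      have h5 : ((H.incl : H →ₗ[ℂ] g) (coroot α)) = (coroot α : g) := rfl
      rw [h5, h4, smul_smul]
      have : killingForm ℂ g e f / 2 * (2 / killingForm ℂ g e f) = 1 := by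
        field_simp
      rw [this, one_smul]
    intro t ht
    simp only [init2, List.mem_cons, List.not_mem_nil, or_false] at ht
    rcases ht with rfl | rfl | rfl | rfl
    · refine Submodule.subset_span ⟨1, h1, 1, one_mem _, ?_⟩
      simp [ev, evw]
    · refine Submodule.subset_span ⟨1, h1, _, hη, ?_⟩
      simp [ev, evw, seq]
    · have : ev (seq [(coroot α : g), e, f]) [(1, [1, 2])] =
          (killingForm ℂ g e f / 2) • (tau (H.incl : H →ₗ[ℂ] g) (ιS (coroot α)) * 1) := by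
        rw [mul_one, ← h3]
        simp [ev, evw, seq]
      rw [this]
      exact Submodule.smul_mem _ _ (Submodule.subset_span ⟨_, h2, 1, one_mem _, rfl⟩)
    · have : ev (seq [(coroot α : g), e, f]) [(1, [0, 1, 2])] =
          (killingForm ℂ g e f / 2) • (tau (H.incl : H →ₗ[ℂ] g) (ιS (coroot α)) *
            ExteriorAlgebra.ι ℂ (coroot α : g)) := by
        rw [tau_central, ← mul_smul_comm, ← h3]
        simp [ev, evw, seq]
      rw [this]
      exact Submodule.smul_mem _ _ (Submodule.subset_span ⟨_, h2, _, hη, rfl⟩)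

end A1

theorem GB.a1 {α : Weight ℂ H g} (hα : α.IsNonZero)
    (hperp : ∀ δ : Weight ℂ H g, δ.IsNonZero → δ ≠ α → δ ≠ -α → δ (coroot α) = 0) :
    GB (set1 α) {1, ιS (coroot α)} := by
  obtain ⟨e, f, he, hf, hef⟩ := exists_ef hα
  exact GB.a1_aux hα he hf hef hperp

end Pool.Agent.KS6_37.Phi

end

/-!
# The block of type `A2`
-/

set_option autoImplicit false
set_option linter.unusedSectionVars false

noncomputable section

namespace Pool.Agent.KS6_37.Phi

open Pool.Agent.KS6_37.PhiRP Pool.Agent.KS6_37.Phi.Core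
open LieAlgebra LieAlgebra.IsKilling LieModule

variable {g : Type} [LieRing g] [LieAlgebra ℂ g] [FiniteDimensional ℂ g]
variable [LieAlgebra.IsKilling ℂ g]
variable {H : LieSubalgebra ℂ g} [H.IsCartanSubalgebra]

/-- the brackets of the standard generators of `sl(3)` -/
structure Br (c d e1 e2 e3 f1 f2 f3 : g) : Prop where
  cd : ⁅c, d⁆ = 0
  ce1 : ⁅c, e1⁆ = (2 : ℂ) • e1
  ce2 : ⁅c, e2⁆ = -e2
  ce3 : ⁅c, e3⁆ = e3
  cf1 : ⁅c, f1⁆ = -((2 : ℂ) • f1)
  cf2 : ⁅c, f2⁆ = f2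
  cf3 : ⁅c, f3⁆ = -f3
  de1 : ⁅d, e1⁆ = -e1
  de2 : ⁅d, e2⁆ = (2 : ℂ) • e2
  de3 : ⁅d, e3⁆ = e3
  df1 : ⁅d, f1⁆ = f1
  df2 : ⁅d, f2⁆ = -((2 : ℂ) • f2)
  df3 : ⁅d, f3⁆ = -f3
  e1e2 : ⁅e1, e2⁆ = e3
  e1e3 : ⁅e1, e3⁆ = 0
  e1f1 : ⁅e1, f1⁆ = c
  e1f2 : ⁅e1, f2⁆ = 0
  e1f3 : ⁅e1, f3⁆ = -f2
  e2e3 : ⁅e2, e3⁆ = 0
  e2f1 : ⁅e2, f1⁆ = 0
  e2f2 : ⁅e2, f2⁆ = d
  e2f3 : ⁅e2, f3⁆ = f1
  e3f1 : ⁅e3, f1⁆ = -e2
  e3f2 : ⁅e3, f2⁆ = e1
  e3f3 : ⁅e3, f3⁆ = c + d
  f1f2 : ⁅f1, f2⁆ = -f3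
  f1f3 : ⁅f1, f3⁆ = 0
  f2f3 : ⁅f2, f3⁆ = 0

theorem swap_lie {x y z : g} (h : ⁅x, y⁆ = z) : ⁅y, x⁆ = -z := by rw [← lie_skew, h]

theorem Br.table {c d e1 e2 e3 f1 f2 f3 : g} (h : Br c d e1 e2 e3 f1 f2 f3) (a b : ℕ) :
    ⁅seq [c, d, e1, e2, e3, f1, f2, f3] a, seq [c, d, e1, e2, e3, f1, f2, f3] b⁆ =
    ((B3 a b).map fun t => (t.1 : ℂ) • seq [c, d, e1, e2, e3, f1, f2, f3] t.2).sum := by
  obtain ⟨a1, a2, a3, a4, a5, a6, a7, a8, a9, a10, a11, a12, a13, a14, a15, a16, a17, a18, a19,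
    a20, a21, a22, a23, a24, a25, a26, a27, a28⟩ := h
  have b1 := swap_lie a1
  have b2 := swap_lie a2
  have b3 := swap_lie a3
  have b4 := swap_lie a4
  have b5 := swap_lie a5
  have b6 := swap_lie a6
  have b7 := swap_lie a7
  have b8 := swap_lie a8
  have b9 := swap_lie a9
  have b10 := swap_lie a10
  have b11 := swap_lie a11
  have b12 := swap_lie a12
  have b13 := swap_lie a13
  have b14 := swap_lie a14
  have b15 := swap_lie a15
  have b16 := swap_lie a16
  have b17 := swap_lie a17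
  have b18 := swap_lie a18
  have b19 := swap_lie a19
  have b20 := swap_lie a20
  have b21 := swap_lie a21
  have b22 := swap_lie a22
  have b23 := swap_lie a23
  have b24 := swap_lie a24
  have b25 := swap_lie a25
  have b26 := swap_lie a26
  have b27 := swap_lie a27
  have b28 := swap_lie a28
  by_cases ha : a < 8
  · by_cases hb : b < 8
    · interval_cases a <;> interval_cases b <;>
        simp [seq, B3, tab3, a1, a2, a3, a4, a5, a6, a7, a8, a9, a10, a11, a12, a13, a14, a15,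
          a16, a17, a18, a19, a20, a21, a22, a23, a24, a25, a26, a27, a28, b1, b2, b3, b4, b5,
          b6, b7, b8, b9, b10, b11, b12, b13, b14, b15, b16, b17, b18, b19, b20, b21, b22, b23,
          b24, b25, b26, b27, b28, add_comm]
    · have h6 : B3 a b = [] := by
        rw [B3]
        apply List.getD_eq_default
        interval_cases a <;> simp [tab3] <;> omega
      rw [h6, seq_zero (i := b) (by simp; omega)]
      simp
  · have h6 : B3 a b = [] := by
      rw [B3, List.getD_eq_default (tab3) _ (by simp [tab3]; omega)]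
      simp
    rw [h6, seq_zero (i := a) (by simp; omega)]
    simp

end Pool.Agent.KS6_37.Phi

end

/-!
# The block of type `A2`
-/

set_option autoImplicit false
set_option linter.unusedSectionVars false

noncomputable section

namespace Pool.Agent.KS6_37.Phi

open Pool.Agent.KS6_37.PhiRP Pool.Agent.KS6_37.Phi.Core
open LieAlgebra LieAlgebra.IsKilling LieModule

variable {g : Type} [LieRing g] [LieAlgebra ℂ g] [FiniteDimensional ℂ g]
variable [LieAlgebra.IsKilling ℂ g]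
variable {H : LieSubalgebra ℂ g} [H.IsCartanSubalgebra]

/-- Two simple roots `α, β` of a subsystem of type `A2`, and `γ = α + β`. -/
structure IsA2 (α β γ : Weight ℂ H g) : Prop where
  hα : α.IsNonZero
  hβ : β.IsNonZero
  hγ : γ.IsNonZero
  hs : (γ : H → ℂ) = α + β
  p1 : α (coroot β) = -1
  p2 : β (coroot α) = -1
  n1 : rootSpace H ((α : H → ℂ) + -β) = ⊥
  n2 : rootSpace H ((β : H → ℂ) + -α) = ⊥
  n3 : rootSpace H ((α : H → ℂ) + γ) = ⊥
  n4 : rootSpace H ((β : H → ℂ) + γ) = ⊥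
  n5 : rootSpace H (-(α : H → ℂ) + -γ) = ⊥
  n6 : rootSpace H (-(β : H → ℂ) + -γ) = ⊥

theorem lie_zero_of_bot {χ ψ : H → ℂ} {x y : g} (hx : x ∈ rootSpace H χ) (hy : y ∈ rootSpace H ψ)
    (h : rootSpace H (χ + ψ) = ⊥) : ⁅x, y⁆ = 0 := by
  have h1 := lie_mem_genWeightSpace_of_mem_genWeightSpace hx hy
  have h2 : ⁅x, y⁆ ∈ rootSpace H (χ + ψ) := h1
  rw [h, LieSubmodule.mem_bot] at h2
  exact h2

section A2

variable {α β γ : Weight ℂ H g} (A : IsA2 α β γ) {e1 e2 f1 f2 : g}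
  (he1 : e1 ∈ rootSpace H α) (he2 : e2 ∈ rootSpace H β)
  (hf1 : f1 ∈ rootSpace H (-α)) (hf2 : f2 ∈ rootSpace H (-β))
  (h1 : ⁅e1, f1⁆ = (coroot α : g)) (h2 : ⁅e2, f2⁆ = (coroot β : g))

include A

theorem IsA2.gc : γ (coroot α) = 1 := by
  rw [A.hs, Pi.add_apply, root_apply_coroot A.hα, A.p2]; norm_num

theorem IsA2.gd : γ (coroot β) = 1 := by
  rw [A.hs, Pi.add_apply, root_apply_coroot A.hβ, A.p1]; norm_num

theorem IsA2.lin : γ.toLinear = α.toLinear + β.toLinear := by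
  ext x
  exact congrFun A.hs x

include he1 he2 in
theorem me3 : ⁅e1, e2⁆ ∈ rootSpace H γ := by
  rw [A.hs]
  exact lie_mem_genWeightSpace_of_mem_genWeightSpace he1 he2

include hf1 hf2 in
theorem mf3 : ⁅f2, f1⁆ ∈ rootSpace H (-γ) := by
  have h := lie_mem_genWeightSpace_of_mem_genWeightSpace hf2 hf1
  have h' : -(β : H → ℂ) + -(α : H → ℂ) = -γ := by rw [A.hs, neg_add, add_comm]
  rw [← h']
  exact h

include he1 he2 hf1 hf2 h1 h2 in
theorem br_a2 : Br (coroot α : g) (coroot β : g) e1 e2 ⁅e1, e2⁆ f1 f2 ⁅f2, f1⁆ := by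
  have w : ∀ {χ : H → ℂ} {x : g} (h : H), x ∈ rootSpace H χ → ⁅(h : g), x⁆ = χ h • x :=
    fun h hx => lie_eq_smul_of_mem_rootSpace hx h
  have he3 := me3 A he1 he2
  have hf3 := mf3 A hf1 hf2
  have x1 : ⁅e1, f2⁆ = 0 := lie_zero_of_bot he1 hf2 A.n1
  have x2 : ⁅e2, f1⁆ = 0 := lie_zero_of_bot he2 hf1 A.n2
  have x3 : ⁅e1, ⁅e1, e2⁆⁆ = 0 := lie_zero_of_bot he1 he3 A.n3
  have x4 : ⁅e2, ⁅e1, e2⁆⁆ = 0 := lie_zero_of_bot he2 he3 A.n4
  have x5 : ⁅f1, ⁅f2, f1⁆⁆ = 0 := lie_zero_of_bot hf1 hf3 A.n5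
  have x6 : ⁅f2, ⁅f2, f1⁆⁆ = 0 := lie_zero_of_bot hf2 hf3 A.n6
  have y1 : ⁅(coroot α : g), e1⁆ = (2 : ℂ) • e1 := by rw [w _ he1, root_apply_coroot A.hα]
  have y2 : ⁅(coroot α : g), e2⁆ = -e2 := by rw [w _ he2, A.p2, neg_one_smul]
  have y3 : ⁅(coroot α : g), ⁅e1, e2⁆⁆ = ⁅e1, e2⁆ := by rw [w _ he3, A.gc, one_smul]
  have y4 : ⁅(coroot α : g), f1⁆ = -((2 : ℂ) • f1) := by
    rw [w _ hf1, Pi.neg_apply, root_apply_coroot A.hα, neg_smul]
  have y5 : ⁅(coroot α : g), f2⁆ = f2 := by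
    rw [w _ hf2, Pi.neg_apply, A.p2, neg_neg, one_smul]
  have y6 : ⁅(coroot α : g), ⁅f2, f1⁆⁆ = -⁅f2, f1⁆ := by
    rw [w _ hf3, Pi.neg_apply, A.gc, neg_one_smul]
  have z1 : ⁅(coroot β : g), e1⁆ = -e1 := by rw [w _ he1, A.p1, neg_one_smul]
  have z2 : ⁅(coroot β : g), e2⁆ = (2 : ℂ) • e2 := by rw [w _ he2, root_apply_coroot A.hβ]
  have z3 : ⁅(coroot β : g), ⁅e1, e2⁆⁆ = ⁅e1, e2⁆ := by rw [w _ he3, A.gd, one_smul]
  have z4 : ⁅(coroot β : g), f1⁆ = f1 := by
    rw [w _ hf1, Pi.neg_apply, A.p1, neg_neg, one_smul]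
  have z5 : ⁅(coroot β : g), f2⁆ = -((2 : ℂ) • f2) := by
    rw [w _ hf2, Pi.neg_apply, root_apply_coroot A.hβ, neg_smul]
  have z6 : ⁅(coroot β : g), ⁅f2, f1⁆⁆ = -⁅f2, f1⁆ := by
    rw [w _ hf3, Pi.neg_apply, A.gd, neg_one_smul]
  have u1 : ⁅e1, ⁅f2, f1⁆⁆ = -f2 := by
    rw [leibniz_lie, x1, zero_lie, zero_add, h1, ← lie_skew, y5]
  have u2 : ⁅e2, ⁅f2, f1⁆⁆ = f1 := by
    rw [leibniz_lie, h2, x2, lie_zero, add_zero, z4]
  have u3 : ⁅⁅e1, e2⁆, f1⁆ = -e2 := by
    rw [lie_lie, x2, lie_zero, zero_sub, h1, lie_skew, y2]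
  have u4 : ⁅⁅e1, e2⁆, f2⁆ = e1 := by
    rw [lie_lie, x1, lie_zero, sub_zero, h2, ← lie_skew, z1, neg_neg]
  have u5 : ⁅⁅e1, e2⁆, ⁅f2, f1⁆⁆ = (coroot α : g) + (coroot β : g) := by
    rw [leibniz_lie, u4, u3, h1, lie_neg, lie_skew, h2]
  exact ⟨lie_cartan _ _, y1, y2, y3, y4, y5, y6, z1, z2, z3, z4, z5, z6, rfl, x3, h1, x1, u1, x4,
    x2, h2, u2, u3, u4, u5, by rw [← lie_skew], x5, x6⟩

include he1 he2 hf1 hf2 h1 h2 in
theorem kill_a2 : killingForm ℂ g ⁅e1, e2⁆ ⁅f2, f1⁆ = killingForm ℂ g e1 f1 ∧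
    killingForm ℂ g e2 f2 = killingForm ℂ g e1 f1 := by
  have b := br_a2 A he1 he2 hf1 hf2 h1 h2
  have h3 : killingForm ℂ g ⁅e1, e2⁆ ⁅f2, f1⁆ = killingForm ℂ g e1 f1 := by
    rw [kill_inv, b.e2f3]
  refine ⟨h3, ?_⟩
  rw [← h3, ← lie_skew e1 e2, map_neg, LinearMap.neg_apply, kill_inv, b.e1f3, map_neg, neg_neg]

include he1 he2 hf1 hf2 h1 h2 in
theorem coroot_a2 : coroot γ = coroot α + coroot β := by
  have b := br_a2 A he1 he2 hf1 hf2 h1 h2
  have he3 := me3 A he1 he2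
  have hf3 := mf3 A hf1 hf2
  have hk := kill_ne_zero A.hα he1 hf1 h1
  rw [← (kill_a2 A he1 he2 hf1 hf2 h1 h2).1] at hk
  have hsum : ((coroot α + coroot β : H) : g) = (coroot α : g) + (coroot β : g) := rfl
  have hg : γ (coroot α + coroot β) = 2 := by
    rw [map_add, A.gc, A.gd]; norm_num
  have ht : IsSl2Triple ((coroot α + coroot β : H) : g) ⁅e1, e2⁆ ⁅f2, f1⁆ := by
    refine ⟨?_, ?_, ?_, ?_⟩
    · intro h0
      have h0' : coroot α + coroot β = 0 := Subtype.ext h0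
      rw [h0', map_zero] at hg
      norm_num at hg
    · rw [hsum, b.e3f3]
    · have : ⁅((coroot α + coroot β : H) : g), ⁅e1, e2⁆⁆ = γ (coroot α + coroot β) • ⁅e1, e2⁆ :=
        lie_eq_smul_of_mem_rootSpace he3 _
      rw [this, hg, two_smul, two_smul]
    · have : ⁅((coroot α + coroot β : H) : g), ⁅f2, f1⁆⁆ =
          (-(γ : H → ℂ)) (coroot α + coroot β) • ⁅f2, f1⁆ :=
        lie_eq_smul_of_mem_rootSpace hf3 _
      rw [this, Pi.neg_apply, hg, neg_smul, two_smul, two_smul]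
  exact (Subtype.ext (ht.h_eq_coroot A.hγ he3 hf3)).symm

end A2

theorem IsA2.coroot {α β γ : Weight ℂ H g} (A : IsA2 α β γ) :
    coroot γ = coroot α + coroot β := by
  obtain ⟨e1, f1, he1, hf1, h1⟩ := exists_ef A.hα
  obtain ⟨e2, f2, he2, hf2, h2⟩ := exists_ef A.hβ
  exact coroot_a2 A he1 he2 hf1 hf2 h1 h2

end Pool.Agent.KS6_37.Phi

end

/-!
# The block of type `A2`: generation
-/

set_option autoImplicit false
set_option linter.unusedSectionVars false

noncomputable section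

namespace Pool.Agent.KS6_37.Phi

open Pool.Agent.KS6_37.PhiRP Pool.Agent.KS6_37.Phi.Core
open LieAlgebra LieAlgebra.IsKilling LieModule

variable {g : Type} [LieRing g] [LieAlgebra ℂ g] [FiniteDimensional ℂ g]
variable [LieAlgebra.IsKilling ℂ g]
variable {H : LieSubalgebra ℂ g} [H.IsCartanSubalgebra]

/-- the pairs of a root and its coroot, for `±α, ±β, ±(α + β)` -/
def set2 (α β : Weight ℂ H g) : Set (Module.Dual ℂ H × H) :=
  setA2 α.toLinear β.toLinear (coroot α) (coroot β)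

theorem co_set2_le {α β : Weight ℂ H g} {h : H} (hh : h ∈ co (set2 α β)) (δ : Module.Dual ℂ H)
    (h1 : δ (coroot α) = 0) (h2 : δ (coroot β) = 0) : δ h = 0 := by
  refine zero_on_co δ ?_ hh
  rintro r (rfl | rfl | rfl | rfl | rfl | rfl)
  · exact h1
  · rw [map_neg, h1, neg_zero]
  · exact h2
  · rw [map_neg, h2, neg_zero]
  · rw [map_add, h1, h2, add_zero]
  · rw [map_neg, map_add, h1, h2, add_zero, neg_zero]

theorem IsA2.ne {α β γ : Weight ℂ H g} (A : IsA2 α β γ) :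
    (α ≠ β ∧ α ≠ -β) ∧ (α ≠ γ ∧ α ≠ -γ) ∧ (β ≠ γ ∧ β ≠ -γ) := by
  have a1 := root_apply_coroot A.hα
  have a2 := root_apply_coroot A.hβ
  have n : ∀ (δ : Weight ℂ H g) (h : H), (-δ) h = -(δ h) := fun _ _ => rfl
  refine ⟨⟨?_, ?_⟩, ⟨?_, ?_⟩, ⟨?_, ?_⟩⟩
  · intro h
    have := DFunLike.congr_fun h (LieAlgebra.IsKilling.coroot β)
    rw [A.p1, a2] at this; norm_num at this
  · intro h
    have := DFunLike.congr_fun h (LieAlgebra.IsKilling.coroot β)
    rw [A.p1, n, a2] at this; norm_num at this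
  · intro h
    have := DFunLike.congr_fun h (LieAlgebra.IsKilling.coroot α)
    rw [a1, A.gc] at this; norm_num at this
  · intro h
    have := DFunLike.congr_fun h (LieAlgebra.IsKilling.coroot α)
    rw [a1, n, A.gc] at this; norm_num at this
  · intro h
    have := DFunLike.congr_fun h (LieAlgebra.IsKilling.coroot β)
    rw [a2, A.gd] at this; norm_num at this
  · intro h
    have := DFunLike.congr_fun h (LieAlgebra.IsKilling.coroot β)
    rw [a2, n, A.gd] at this; norm_num at this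

section A2

variable {α β γ : Weight ℂ H g} (A : IsA2 α β γ) {e1 e2 f1 f2 : g}
  (he1 : e1 ∈ rootSpace H α) (he2 : e2 ∈ rootSpace H β)
  (hf1 : f1 ∈ rootSpace H (-α)) (hf2 : f2 ∈ rootSpace H (-β))
  (h1 : ⁅e1, f1⁆ = (coroot α : g)) (h2 : ⁅e2, f2⁆ = (coroot β : g))
  (hperp : ∀ δ : Weight ℂ H g, δ.IsNonZero → (δ ≠ α ∧ δ ≠ -α) → (δ ≠ β ∧ δ ≠ -β) →
    (δ ≠ γ ∧ δ ≠ -γ) → δ (coroot α) = 0 ∧ δ (coroot β) = 0)

include A he1 he2 hf1 hf2 h1 h2

theorem wv_e3 : wv (g := g) (α.toLinear + β.toLinear) = Submodule.span ℂ {⁅e1, e2⁆} := by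
  have hk := kill_ne_zero A.hα he1 hf1 h1
  rw [← (kill_a2 A he1 he2 hf1 hf2 h1 h2).1] at hk
  rw [← A.lin]
  refine wv_span A.hγ (me3 A he1 he2) ?_
  intro h0
  rw [h0] at hk
  simp at hk

theorem wv_f3 : wv (g := g) (-(α.toLinear + β.toLinear)) = Submodule.span ℂ {⁅f2, f1⁆} := by
  have hk := kill_ne_zero A.hα he1 hf1 h1
  rw [← (kill_a2 A he1 he2 hf1 hf2 h1 h2).1] at hk
  rw [← A.lin]
  refine wv_span (α := -γ) A.hγ.neg (mf3 A hf1 hf2) ?_
  intro h0
  rw [h0] at hk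
  simp at hk

theorem bs_a2 : bs (set2 α β) = Submodule.span ℂ (Set.range
    (seq [(coroot α : g), (coroot β : g), e1, e2, ⁅e1, e2⁆, f1, f2, ⁅f2, f1⁆])) := by
  have c1 : (coroot α : g) ∈ Submodule.span ℂ (Set.range
    (seq [(coroot α : g), (coroot β : g), e1, e2, ⁅e1, e2⁆, f1, f2, ⁅f2, f1⁆])) :=
    mem_span_seq (by simp)
  have c2 : (coroot β : g) ∈ Submodule.span ℂ (Set.range
    (seq [(coroot α : g), (coroot β : g), e1, e2, ⁅e1, e2⁆, f1, f2, ⁅f2, f1⁆])) :=
    mem_span_seq (by simp)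
  have m1 : ((α.toLinear, coroot α) : Module.Dual ℂ H × H) ∈ set2 α β := by simp [set2, setA2]
  have m2 : ((-α.toLinear, -coroot α) : Module.Dual ℂ H × H) ∈ set2 α β := by simp [set2, setA2]
  have m3 : ((β.toLinear, coroot β) : Module.Dual ℂ H × H) ∈ set2 α β := by simp [set2, setA2]
  have m4 : ((-β.toLinear, -coroot β) : Module.Dual ℂ H × H) ∈ set2 α β := by simp [set2, setA2]
  have m5 : ((α.toLinear + β.toLinear, coroot α + coroot β) : Module.Dual ℂ H × H) ∈
    set2 α β := by simp [set2, setA2]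
  have m6 : ((-(α.toLinear + β.toLinear), -(coroot α + coroot β)) : Module.Dual ℂ H × H) ∈
    set2 α β := by simp [set2, setA2]
  have w1 := wv_pos A.hα he1 hf1 h1
  have w2 := wv_neg A.hα he1 hf1 h1
  have w3 := wv_pos A.hβ he2 hf2 h2
  have w4 := wv_neg A.hβ he2 hf2 h2
  have w5 := wv_e3 A he1 he2 hf1 hf2 h1 h2
  have w6 := wv_f3 A he1 he2 hf1 hf2 h1 h2
  apply le_antisymm
  · refine bs_le ?_ ?_
    · rintro r (rfl | rfl | rfl | rfl | rfl | rfl)
      · exact c1
      · exact neg_mem c1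
      · exact c2
      · exact neg_mem c2
      · exact add_mem c1 c2
      · exact neg_mem (add_mem c1 c2)
    · rintro r (rfl | rfl | rfl | rfl | rfl | rfl)
      · rw [w1, Submodule.span_le]
        rintro _ rfl
        exact mem_span_seq (by simp)
      · rw [w2, Submodule.span_le]
        rintro _ rfl
        exact mem_span_seq (by simp)
      · rw [w3, Submodule.span_le]
        rintro _ rfl
        exact mem_span_seq (by simp)
      · rw [w4, Submodule.span_le]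
        rintro _ rfl
        exact mem_span_seq (by simp)
      · rw [w5, Submodule.span_le]
        rintro _ rfl
        exact mem_span_seq (by simp)
      · rw [w6, Submodule.span_le]
        rintro _ rfl
        exact mem_span_seq (by simp)
  · refine span_seq_le ?_
    intro x hx
    simp only [List.mem_cons, List.not_mem_nil, or_false] at hx
    rcases hx with rfl | rfl | rfl | rfl | rfl | rfl | rfl | rfl
    · exact cog_le_bs _ (cog_mem (mem_co m1))
    · exact cog_le_bs _ (cog_mem (mem_co m3))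
    · exact wv_le_bs m1 (by rw [w1]; exact Submodule.mem_span_singleton_self _)
    · exact wv_le_bs m3 (by rw [w3]; exact Submodule.mem_span_singleton_self _)
    · exact wv_le_bs m5 (by rw [w5]; exact Submodule.mem_span_singleton_self _)
    · exact wv_le_bs m2 (by rw [w2]; exact Submodule.mem_span_singleton_self _)
    · exact wv_le_bs m4 (by rw [w4]; exact Submodule.mem_span_singleton_self _)
    · exact wv_le_bs m6 (by rw [w6]; exact Submodule.mem_span_singleton_self _)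

include hperp in
theorem sMap_a2 {h : H} (hh : h ∈ co (set2 α β)) : sMap g (h : g) =
    (α h / killingForm ℂ g e1 f1) • (ExteriorAlgebra.ι ℂ e1 * ExteriorAlgebra.ι ℂ f1) +
    (β h / killingForm ℂ g e1 f1) • (ExteriorAlgebra.ι ℂ e2 * ExteriorAlgebra.ι ℂ f2) +
    (γ h / killingForm ℂ g e1 f1) •
      (ExteriorAlgebra.ι ℂ ⁅e1, e2⁆ * ExteriorAlgebra.ι ℂ ⁅f2, f1⁆) := by
  obtain ⟨⟨x1, x2⟩, ⟨x3, x4⟩, ⟨x5, x6⟩⟩ := A.ne
  have y1 : β ≠ -α := fun h => x2 (by rw [h, neg_neg])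
  have y2 : γ ≠ -α := fun h => x4 (by rw [h, neg_neg])
  have y3 : γ ≠ -β := fun h => x6 (by rw [h, neg_neg])
  obtain ⟨k1, k2⟩ := kill_a2 A he1 he2 hf1 hf2 h1 h2
  have := sMap_block (n := 3) ![α, β, γ] ?_ ![e1, e2, ⁅e1, e2⁆] ![f1, f2, ⁅f2, f1⁆] ?_ ?_
    (c0 := killingForm ℂ g e1 f1) ?_ (kill_ne_zero A.hα he1 hf1 h1) ?_ h ?_
  · rw [this, Fin.sum_univ_three]
    rfl
  · intro i
    fin_cases i
    · exact A.hα
    · exact A.hβ
    · exact A.hγ
  · intro i
    fin_cases i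
    · exact he1
    · exact he2
    · exact me3 A he1 he2
  · intro i
    fin_cases i
    · exact hf1
    · exact hf2
    · exact mf3 A hf1 hf2
  · intro i
    fin_cases i
    · rfl
    · exact k2
    · exact k1
  · intro i j hij
    fin_cases i <;> fin_cases j
    · exact absurd rfl hij
    · exact ⟨x1, x2⟩
    · exact ⟨x3, x4⟩
    · exact ⟨x1.symm, y1⟩
    · exact absurd rfl hij
    · exact ⟨x5, x6⟩
    · exact ⟨x3.symm, y2⟩
    · exact ⟨x5.symm, y3⟩
    · exact absurd rfl hij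
  · intro δ hδ hδ'
    obtain ⟨z1, z2⟩ := hperp δ hδ (hδ' 0) (hδ' 1) (hδ' 2)
    exact co_set2_le hh δ.toLinear z1 z2

end A2

theorem etas_mem (X : ℕ → g) {V : Submodule ℂ g} (h0 : X 0 ∈ V) (h1 : X 1 ∈ V) :
    ∀ e ∈ etas, ev X e.2 ∈ Algebra.adjoin ℂ (ExteriorAlgebra.ι ℂ '' (V : Set g)) := by
  intro e he
  simp only [etas, List.mem_cons, List.not_mem_nil, or_false] at he
  rcases he with rfl | rfl | rfl | rfl
  · simp [ev, evw]
  · simpa [ev, evw] using Algebra.subset_adjoin (s := ExteriorAlgebra.ι ℂ '' (V : Set g))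
      ⟨X 0, h0, rfl⟩
  · simpa [ev, evw] using Algebra.subset_adjoin (s := ExteriorAlgebra.ι ℂ '' (V : Set g))
      ⟨X 1, h1, rfl⟩
  · have := mul_ι_mem h0 h1
    simpa [ev, evw] using this

theorem harms_mem (X : ℕ → g) (c d : H) (k : ℂ)
    (e1 : ev X sg1 = k • tau (H.incl : H →ₗ[ℂ] g) (ιS c))
    (e2 : ev X sg2 = k • tau (H.incl : H →ₗ[ℂ] g) (ιS d)) :
    ∀ u ∈ harms, ∃ t ∈ harA2 c d, ∃ s : ℂ, ev X u.2 = s • tau (H.incl : H →ₗ[ℂ] g) t := by
  intro u hu
  simp only [harms, List.mem_cons, List.not_mem_nil, or_false] at hu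
  rcases hu with rfl | rfl | rfl | rfl | rfl | rfl
  · exact ⟨1, by simp [harA2], 1, by simp [ev, evw]⟩
  · exact ⟨ιS c, by simp [harA2], k, e1⟩
  · exact ⟨ιS d, by simp [harA2], k, e2⟩
  · refine ⟨2 * (ιS c * ιS d) + ιS d * ιS d, by simp [harA2], k * k, ?_⟩
    change ev X hq1 = _
    rw [hq1, ev_append, ev_scale, ev_mulP, ev_mulP, e1, e2, smul_mul_smul_comm,
      smul_mul_smul_comm, map_add, map_mul, map_mul, map_mul, map_ofNat, smul_add, two_mul]
    push_cast
    rw [two_smul, smul_add]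
  · refine ⟨ιS c * ιS c + 2 * (ιS c * ιS d), by simp [harA2], k * k, ?_⟩
    change ev X hq2 = _
    rw [hq2, ev_append, ev_scale, ev_mulP, ev_mulP, e1, e2, smul_mul_smul_comm,
      smul_mul_smul_comm, map_add, map_mul, map_mul, map_mul, map_ofNat, smul_add, two_mul]
    push_cast
    rw [two_smul, smul_add]
  · refine ⟨ιS c * ιS d * (ιS c + ιS d), by simp [harA2], k * (k * k), ?_⟩
    change ev X hcub = _
    rw [hcub, ev_append, ev_mulP, ev_mulP, ev_mulP, ev_mulP, e1, e2, smul_mul_smul_comm,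
      smul_mul_smul_comm, smul_mul_smul_comm, smul_mul_smul_comm, map_mul, map_mul, map_add,
      mul_add, smul_add]
    congr 2
    · exact tau_central (ιS c) _
    · rw [mul_assoc]

theorem init_mem (R : Set (Module.Dual ℂ H × H)) (X : ℕ → g) (c d : H) (k : ℂ)
    (h0 : X 0 ∈ cog R) (h1 : X 1 ∈ cog R)
    (e1 : ev X sg1 = k • tau (H.incl : H →ₗ[ℂ] g) (ιS c))
    (e2 : ev X sg2 = k • tau (H.incl : H →ₗ[ℂ] g) (ιS d)) :
    ∀ t ∈ init, ev X t.2 ∈ Submodule.span ℂ (ES (g := g) R (harA2 c d)) := by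
  intro t ht
  rw [init, List.mem_flatMap] at ht
  obtain ⟨u, hu, ht⟩ := ht
  rw [List.mem_map] at ht
  obtain ⟨e, he, rfl⟩ := ht
  obtain ⟨t, ht, s, hs⟩ := harms_mem X c d k e1 e2 u hu
  have h2 := etas_mem X h0 h1 e he
  change ev X (mulP e.2 u.2) ∈ _
  rw [ev_mulP, hs, mul_smul_comm, ← tau_central]
  exact Submodule.smul_mem _ _ (Submodule.subset_span ⟨t, ht, _, h2, rfl⟩)

theorem GB.a2 {α β γ : Weight ℂ H g} (A : IsA2 α β γ)
    (hperp : ∀ δ : Weight ℂ H g, δ.IsNonZero → (δ ≠ α ∧ δ ≠ -α) → (δ ≠ β ∧ δ ≠ -β) →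
      (δ ≠ γ ∧ δ ≠ -γ) → δ (coroot α) = 0 ∧ δ (coroot β) = 0) :
    GB (set2 α β) (harA2 (coroot α) (coroot β)) := by
  obtain ⟨e1, f1, he1, hf1, h1⟩ := exists_ef A.hα
  obtain ⟨e2, f2, he2, hf2, h2⟩ := exists_ef A.hβ
  have hbs := bs_a2 A he1 he2 hf1 hf2 h1 h2
  have hk := kill_ne_zero A.hα he1 hf1 h1
  have m1 : ((α.toLinear, coroot α) : Module.Dual ℂ H × H) ∈ set2 α β := by simp [set2, setA2]
  have m3 : ((β.toLinear, coroot β) : Module.Dual ℂ H × H) ∈ set2 α β := by simp [set2, setA2]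
  constructor
  · exact HB.a2 (root_apply_coroot A.hα) (root_apply_coroot A.hβ) A.p1 A.p2
  · rw [hbs]
    refine gen3 _ (fun i hi => seq_zero (by simpa using hi))
      (br_a2 A he1 he2 hf1 hf2 h1 h2).table _ ?_
    have a1 := root_apply_coroot A.hα
    have a2 := root_apply_coroot A.hβ
    refine init_mem _ _ (coroot α) (coroot β) (killingForm ℂ g e1 f1) (cog_mem (mem_co m1))
      (cog_mem (mem_co m3)) ?_ ?_
    · have h3 : tau (H.incl : H →ₗ[ℂ] g) (ιS (coroot α)) = sMap g (coroot α : g) := tau_ι _ _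
      rw [h3, sMap_a2 A he1 he2 hf1 hf2 h1 h2 hperp (mem_co m1), smul_add, smul_add, smul_smul,
        smul_smul, smul_smul, mul_div_cancel₀ _ hk, mul_div_cancel₀ _ hk, mul_div_cancel₀ _ hk,
        a1, A.p2, A.gc]
      simp [ev, evw, sg1, seq, add_assoc]
    · have h3 : tau (H.incl : H →ₗ[ℂ] g) (ιS (coroot β)) = sMap g (coroot β : g) := tau_ι _ _
      rw [h3, sMap_a2 A he1 he2 hf1 hf2 h1 h2 hperp (mem_co m3), smul_add, smul_add, smul_smul,
        smul_smul, smul_smul, mul_div_cancel₀ _ hk, mul_div_cancel₀ _ hk, mul_div_cancel₀ _ hk,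
        a2, A.p1, A.gd]
      simp [ev, evw, sg2, seq, add_assoc]
  · intro h hh
    rw [sMap_a2 A he1 he2 hf1 hf2 h1 h2 hperp hh, hbs]
    refine add_mem (add_mem ?_ ?_) ?_
    · exact Subalgebra.smul_mem _ (mul_ι_mem (mem_span_seq (by simp)) (mem_span_seq (by simp))) _
    · exact Subalgebra.smul_mem _ (mul_ι_mem (mem_span_seq (by simp)) (mem_span_seq (by simp))) _
    · exact Subalgebra.smul_mem _ (mul_ι_mem (mem_span_seq (by simp)) (mem_span_seq (by simp))) _

end Pool.Agent.KS6_37.Phi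

end
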