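import Pool.Agent.KS6_37.Phi.Core

/-!
# Certificates for `sl(3)`

The generators are `h1, h2, e1, e2, e3, f1, f2, f3`, with `e3 = [e1, e2]`, `f3 = [f2, f1]`.
-/

set_option autoImplicit false

namespace Pool.Agent.KS6_37.Phi.Core

/-- the structure constants of `sl(3)` -/
def tab3 : List (List (List (ℤ × ℕ))) := [
  [[], [], [(2,2)], [(-1,3)], [(1,4)], [(-2,5)], [(1,6)], [(-1,7)]],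
  [[], [], [(-1,2)], [(2,3)], [(1,4)], [(1,5)], [(-2,6)], [(-1,7)]],
  [[(-2,2)], [(1,2)], [], [(1,4)], [], [(1,0)], [], [(-1,6)]],
  [[(1,3)], [(-2,3)], [(-1,4)], [], [], [], [(1,1)], [(1,5)]],
  [[(-1,4)], [(-1,4)], [], [], [], [(-1,3)], [(1,2)], [(1,0),(1,1)]],
  [[(2,5)], [(-1,5)], [(-1,0)], [], [(1,3)], [], [(-1,7)], []],
  [[(-1,6)], [(2,6)], [], [(-1,1)], [(-1,2)], [(1,7)], [], []],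
  [[(1,7)], [(1,7)], [(1,6)], [(-1,5)], [(-1,0),(-1,1)], [], [], []]]

/-- the structure constants of `sl(3)` -/
def B3 (a b : ℕ) : List (ℤ × ℕ) := (tab3.getD a []).getD b []

/-- certificate in degree 0 -/
def steps0 : List Step := [
  ⟨1,[(1,[])],[(1,0,99)]⟩]

/-- certificate in degree 1 -/
def steps1 : List Step := [
  ⟨-2,[(1,[2])],[(1,1,2)]⟩,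
  ⟨1,[(1,[3])],[(1,2,3)]⟩,
  ⟨-1,[(1,[4])],[(1,3,4)]⟩,
  ⟨2,[(1,[5])],[(1,4,5)]⟩,
  ⟨-1,[(1,[6])],[(1,5,6)]⟩,
  ⟨1,[(1,[7])],[(1,6,7)]⟩,
  ⟨1,[(1,[0])],[(1,7,99)]⟩,
  ⟨1,[(1,[1])],[(1,7,99)]⟩,
  ⟨1,[(1,[2])],[(1,7,99)]⟩,
  ⟨1,[(1,[3])],[(1,7,99)]⟩,
  ⟨1,[(1,[4])],[(1,7,99)]⟩,
  ⟨1,[(1,[5])],[(1,7,99)]⟩,
  ⟨1,[(1,[6])],[(1,7,99)]⟩,
  ⟨1,[(1,[7])],[(1,7,99)]⟩]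

/-- certificate in degree 2 -/
def steps2 : List Step := [
  ⟨1,[(1,[0,2]),(2,[1,2])],[(1,2,2)]⟩,
  ⟨-1,[(2,[0,3]),(1,[1,3])],[(1,3,3)]⟩,
  ⟨-1,[(1,[0,4]),(-1,[1,4])],[(1,4,4)]⟩,
  ⟨-1,[(1,[0,5]),(2,[1,5])],[(1,5,5)]⟩,
  ⟨1,[(2,[0,6]),(1,[1,6])],[(1,6,6)]⟩,
  ⟨1,[(1,[0,7]),(-1,[1,7])],[(1,7,7)]⟩,
  ⟨-2,[(1,[0,2]),(1,[4,6])],[(1,7,2)]⟩,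
  ⟨1,[(1,[1,3]),(-1,[4,5])],[(1,8,3)]⟩,
  ⟨-1,[(1,[0,4]),(1,[1,4]),(1,[2,3])],[(1,9,4)]⟩,
  ⟨-2,[(1,[0,5]),(-1,[3,7])],[(1,10,5)]⟩,
  ⟨1,[(1,[1,6]),(1,[2,7])],[(1,11,6)]⟩,
  ⟨-1,[(1,[0,7]),(1,[1,7]),(1,[5,6])],[(1,12,7)]⟩,
  ⟨-1,[(1,[0,4]),(2,[1,4]),(-3,[2,3])],[(1,11,3)]⟩,
  ⟨3,[(1,[2,4])],[(1,12,4)]⟩,
  ⟨-3,[(1,[2,6])],[(1,13,6)]⟩,
  ⟨1,[(1,[0,6]),(2,[1,6]),(-3,[2,7])],[(1,14,7)]⟩,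
  ⟨3,[(1,[3,4])],[(1,14,4)]⟩,
  ⟨-3,[(1,[3,5])],[(1,15,5)]⟩,
  ⟨-1,[(2,[0,5]),(1,[1,5]),(3,[3,7])],[(1,16,7)]⟩,
  ⟨1,[(1,[0,3]),(-1,[1,3]),(-3,[4,5])],[(1,16,5)]⟩,
  ⟨-1,[(1,[0,2]),(-1,[1,2]),(-3,[4,6])],[(1,17,6)]⟩,
  ⟨1,[(1,[0,7]),(2,[1,7]),(-3,[5,6])],[(1,17,6)]⟩,
  ⟨-3,[(1,[5,7])],[(1,18,7)]⟩,
  ⟨-3,[(1,[6,7])],[(1,18,7)]⟩,
  ⟨1,[(1,[0,1]),(3,[2,5]),(3,[3,6]),(-3,[4,7])],[(1,11,7)]⟩,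
  ⟨1,[(1,[0,1])],[(1,27,99)]⟩,
  ⟨9,[(1,[0,2])],[(1,25,99),(6,19,99),(2,5,99)]⟩,
  ⟨9,[(1,[0,3])],[(4,25,99),(-3,19,99),(1,7,99)]⟩,
  ⟨9,[(1,[0,4])],[(5,25,99),(3,19,99),(1,15,99)]⟩,
  ⟨9,[(1,[0,5])],[(-1,25,99),(6,19,99),(2,10,99)]⟩,
  ⟨9,[(1,[0,6])],[(5,25,99),(-3,19,99),(-1,14,99)]⟩,
  ⟨9,[(1,[0,7])],[(5,25,99),(3,19,99),(1,9,99)]⟩,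
  ⟨9,[(1,[1,2])],[(4,31,99),(-3,25,99),(-1,11,99)]⟩,
  ⟨9,[(1,[1,3])],[(1,31,99),(6,25,99),(-2,13,99)]⟩,
  ⟨9,[(1,[1,4])],[(-4,31,99),(3,25,99),(1,21,99)]⟩,
  ⟨9,[(1,[1,5])],[(5,31,99),(-3,25,99),(-1,16,99)]⟩,
  ⟨9,[(1,[1,6])],[(-1,31,99),(6,25,99),(2,20,99)]⟩,
  ⟨9,[(1,[1,7])],[(-4,31,99),(3,25,99),(1,15,99)]⟩,
  ⟨9,[(1,[2,3])],[(-1,35,99),(3,29,99),(-2,25,99)]⟩,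
  ⟨1,[(1,[2,4])],[(1,25,99)]⟩,
  ⟨9,[(1,[2,5])],[(-1,42,99),(3,41,99),(1,15,99)]⟩,
  ⟨1,[(1,[2,6])],[(1,26,99)]⟩,
  ⟨9,[(1,[2,7])],[(1,37,99),(3,31,99),(-2,26,99)]⟩,
  ⟨1,[(1,[3,4])],[(1,26,99)]⟩,
  ⟨1,[(1,[3,5])],[(1,26,99)]⟩,
  ⟨9,[(1,[3,6])],[(-1,47,99),(3,45,99),(1,20,99)]⟩,
  ⟨9,[(1,[3,7])],[(-1,42,99),(-3,36,99),(2,27,99)]⟩,
  ⟨9,[(1,[4,5])],[(1,45,99),(-3,39,99),(-2,27,99)]⟩,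
  ⟨9,[(1,[4,6])],[(-1,47,99),(3,41,99),(-2,27,99)]⟩,
  ⟨9,[(1,[4,7])],[(1,51,99),(3,50,99),(3,49,99),(-1,24,99)]⟩,
  ⟨9,[(1,[5,6])],[(-1,44,99),(3,38,99),(-2,28,99)]⟩,
  ⟨1,[(1,[5,7])],[(1,28,99)]⟩,
  ⟨1,[(1,[6,7])],[(1,28,99)]⟩]

/-- certificate in degree 3 -/
def steps3 : List Step := [
  ⟨-2,[(1,[0,4,6]),(-1,[2,3,6]),(1,[2,4,7])],[(1,3,2)]⟩,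
  ⟨1,[(1,[0,1,3]),(-1,[0,4,5]),(-2,[2,3,5]),(1,[3,4,7])],[(1,4,3)]⟩,
  ⟨-1,[(1,[0,1,4]),(1,[0,2,3]),(-2,[2,4,5]),(1,[3,4,6])],[(1,5,4)]⟩,
  ⟨2,[(1,[0,3,7]),(1,[3,5,6]),(-1,[4,5,7])],[(1,6,5)]⟩,
  ⟨1,[(1,[0,1,6]),(1,[0,2,7]),(-2,[2,5,6]),(1,[4,6,7])],[(1,7,6)]⟩,
  ⟨-1,[(1,[0,1,7]),(1,[0,5,6]),(-2,[2,5,7]),(1,[3,6,7])],[(1,8,7)]⟩,
  ⟨1,[(2,[0,1,2]),(-2,[1,4,6]),(-1,[2,3,6]),(1,[2,4,7])],[(1,8,2)]⟩,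
  ⟨-1,[(1,[1,4,5]),(-4,[2,3,5]),(2,[3,4,7])],[(1,9,3)]⟩,
  ⟨1,[(1,[0,1,4]),(-1,[1,2,3]),(2,[2,4,5]),(-1,[3,4,6])],[(1,10,4)]⟩,
  ⟨1,[(2,[0,1,5]),(2,[1,3,7]),(-1,[3,5,6]),(1,[4,5,7])],[(1,11,5)]⟩,
  ⟨1,[(1,[1,2,7]),(4,[2,5,6]),(-2,[4,6,7])],[(1,12,6)]⟩,
  ⟨1,[(1,[0,1,7]),(-1,[1,5,6]),(2,[2,5,7]),(-1,[3,6,7])],[(1,13,7)]⟩,
  ⟨1,[(1,[0,4,6]),(-4,[2,3,6]),(-2,[2,4,7])],[(1,13,2)]⟩,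
  ⟨-1,[(2,[0,1,3]),(-2,[0,4,5]),(-1,[2,3,5]),(-1,[3,4,7])],[(1,14,3)]⟩,
  ⟨-1,[(1,[0,1,4]),(1,[0,2,3]),(1,[2,4,5]),(-2,[3,4,6])],[(1,15,4)]⟩,
  ⟨-1,[(1,[0,3,7]),(4,[3,5,6]),(2,[4,5,7])],[(1,16,5)]⟩,
  ⟨-1,[(2,[0,1,6]),(2,[0,2,7]),(-1,[2,5,6]),(-1,[4,6,7])],[(1,17,6)]⟩,
  ⟨-1,[(1,[0,1,7]),(1,[0,5,6]),(1,[2,5,7]),(-2,[3,6,7])],[(1,18,7)]⟩,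
  ⟨-4,[(1,[2,4,6])],[(1,17,2)]⟩,
  ⟨-1,[(1,[0,1,4]),(1,[1,2,3]),(-1,[2,4,5])],[(1,18,3)]⟩,
  ⟨1,[(1,[1,2,4])],[(1,19,4)]⟩,
  ⟨2,[(1,[0,3,6]),(-1,[0,4,7]),(1,[2,3,7]),(-1,[4,5,6])],[(1,20,5)]⟩,
  ⟨-1,[(1,[0,2,6]),(1,[1,2,6])],[(1,21,6)]⟩,
  ⟨-1,[(1,[0,1,6]),(-1,[0,2,7]),(-1,[1,2,7]),(-1,[2,5,6])],[(1,22,7)]⟩,
  ⟨-2,[(1,[3,4,5])],[(1,22,3)]⟩,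
  ⟨1,[(1,[0,3,4])],[(1,23,4)]⟩,
  ⟨2,[(1,[0,3,5]),(1,[1,3,5])],[(1,24,5)]⟩,
  ⟨1,[(1,[0,2,5]),(-2,[0,3,6]),(-1,[0,4,7]),(-2,[1,2,5]),(-1,[1,3,6]),(-1,[1,4,7]),(-1,[2,3,7]),(1,[4,5,6])],[(1,25,6)]⟩,
  ⟨2,[(1,[1,3,7]),(-1,[3,5,6])],[(1,26,7)]⟩,
  ⟨-2,[(1,[2,3,4])],[(1,26,4)]⟩,
  ⟨1,[(1,[0,1,3]),(3,[0,4,5]),(2,[1,4,5]),(-1,[3,4,7])],[(1,27,5)]⟩,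
  ⟨-2,[(1,[0,4,6]),(1,[1,4,6]),(1,[2,4,7])],[(1,28,6)]⟩,
  ⟨-1,[(3,[0,2,5]),(1,[0,4,7]),(2,[1,2,5]),(-1,[1,3,6]),(-1,[1,4,7]),(-1,[2,3,7]),(1,[4,5,6])],[(1,29,7)]⟩,
  ⟨-4,[(1,[3,5,7])],[(1,29,5)]⟩,
  ⟨-1,[(1,[0,1,7]),(1,[1,5,6]),(-1,[2,5,7])],[(1,30,6)]⟩,
  ⟨1,[(1,[1,5,7])],[(1,31,7)]⟩,
  ⟨2,[(1,[2,6,7])],[(1,31,6)]⟩,
  ⟨-1,[(1,[0,6,7])],[(1,32,7)]⟩,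
  ⟨2,[(1,[5,6,7])],[(1,32,7)]⟩,
  ⟨-1,[(2,[0,1,4]),(-4,[0,2,3]),(-1,[1,2,3]),(-1,[2,4,5]),(-3,[3,4,6])],[(1,32,3)]⟩,
  ⟨1,[(3,[0,2,4]),(1,[1,2,4])],[(1,33,4)]⟩,
  ⟨-1,[(4,[0,2,6]),(1,[1,2,6])],[(1,34,6)]⟩,
  ⟨-1,[(1,[0,2,7]),(-3,[1,2,7]),(-1,[2,5,6]),(3,[4,6,7])],[(1,35,7)]⟩,
  ⟨1,[(2,[0,3,4]),(3,[1,3,4])],[(1,35,4)]⟩,
  ⟨1,[(4,[0,3,5]),(1,[1,3,5])],[(1,36,5)]⟩,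
  ⟨1,[(1,[0,1,5]),(2,[0,3,7]),(2,[1,3,7]),(-4,[3,5,6]),(3,[4,5,7])],[(1,37,7)]⟩,
  ⟨-1,[(1,[0,4,5]),(-2,[1,4,5]),(-3,[2,3,5]),(-1,[3,4,7])],[(1,37,5)]⟩,
  ⟨-1,[(1,[0,1,2]),(2,[0,4,6]),(3,[2,3,6]),(-2,[2,4,7])],[(1,38,6)]⟩,
  ⟨1,[(2,[0,1,7]),(-4,[0,5,6]),(-1,[1,5,6]),(-1,[2,5,7]),(-3,[3,6,7])],[(1,38,6)]⟩,
  ⟨-1,[(3,[0,5,7]),(1,[1,5,7])],[(1,39,7)]⟩,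
  ⟨1,[(2,[0,6,7]),(3,[1,6,7])],[(1,39,7)]⟩,
  ⟨1,[(3,[0,2,5]),(1,[0,3,6]),(-2,[0,4,7]),(-2,[1,3,6]),(2,[1,4,7]),(-5,[2,3,7]),(-4,[4,5,6])],[(1,11,7)]⟩,
  ⟨6,[(1,[0,1,2])],[(-7,51,99),(3,45,99),(1,39,99),(6,20,99)]⟩,
  ⟨12,[(1,[0,1,3])],[(13,51,99),(-6,45,99),(-2,39,99),(3,22,99)]⟩,
  ⟨6,[(1,[0,1,4])],[(1,51,99),(3,45,99),(-1,39,99),(3,34,99)]⟩,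
  ⟨6,[(1,[0,1,5])],[(1,51,99),(3,45,99),(-1,39,99),(-6,26,99)]⟩,
  ⟨6,[(1,[0,1,6])],[(5,51,99),(3,45,99),(-1,39,99),(3,32,99)]⟩,
  ⟨6,[(1,[0,1,7])],[(1,51,99),(3,45,99),(-1,39,99),(3,22,99)]⟩,
  ⟨9,[(1,[0,2,3])],[(2,55,99),(-1,49,99),(3,43,99),(-2,38,99),(-1,18,99)]⟩,
  ⟨3,[(1,[0,2,4])],[(-1,38,99),(1,18,99)]⟩,
  ⟨18,[(1,[0,2,5])],[(4,63,99),(2,62,99),(2,61,99),(4,60,99),(6,38,99),(3,32,99),(3,27,99)]⟩,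
  ⟨3,[(1,[0,2,6])],[(-1,38,99),(1,19,99)]⟩,
  ⟨9,[(1,[0,2,7])],[(-2,57,99),(-1,51,99),(3,45,99),(-4,38,99),(1,19,99)]⟩,
  ⟨1,[(1,[0,3,4])],[(1,37,99)]⟩,
  ⟨3,[(1,[0,3,5])],[(-1,37,99),(1,19,99)]⟩,
  ⟨18,[(1,[0,3,6])],[(-2,68,99),(2,67,99),(8,66,99),(4,65,99),(6,43,99),(3,37,99),(3,32,99)]⟩,
  ⟨9,[(1,[0,3,7])],[(5,62,99),(-1,56,99),(-2,37,99),(2,20,99)]⟩,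
  ⟨9,[(1,[0,4,5])],[(4,65,99),(-2,59,99),(-3,53,99),(2,36,99),(1,20,99)]⟩,
  ⟨9,[(1,[0,4,6])],[(7,67,99),(-1,61,99),(-2,36,99),(2,20,99)]⟩,
  ⟨18,[(1,[0,4,7])],[(8,72,99),(-2,71,99),(4,70,99),(-4,69,99),(-6,47,99),(-3,41,99),(-3,36,99)]⟩,
  ⟨9,[(1,[0,5,6])],[(2,64,99),(-1,58,99),(3,52,99),(-2,35,99),(-1,21,99)]⟩,
  ⟨3,[(1,[0,5,7])],[(-1,35,99),(1,21,99)]⟩,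
  ⟨1,[(1,[0,6,7])],[(1,34,99)]⟩,
  ⟨9,[(1,[1,2,3])],[(-4,70,99),(-1,64,99),(7,53,99),(-1,33,99)]⟩,
  ⟨1,[(1,[1,2,4])],[(1,53,99)]⟩,
  ⟨18,[(1,[1,2,5])],[(-5,78,99),(-1,77,99),(-7,76,99),(-2,75,99),(-3,53,99),(-6,47,99),(3,42,99)]⟩,
  ⟨3,[(1,[1,2,6])],[(4,53,99),(-1,34,99)]⟩,
  ⟨9,[(1,[1,2,7])],[(7,72,99),(2,66,99),(-3,60,99),(-1,53,99),(-2,34,99)]⟩,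
  ⟨3,[(1,[1,3,4])],[(-2,52,99),(1,34,99)]⟩,
  ⟨3,[(1,[1,3,5])],[(4,52,99),(-1,34,99)]⟩,
  ⟨18,[(1,[1,3,6])],[(-5,83,99),(-7,82,99),(-7,81,99),(4,80,99),(-3,58,99),(-6,52,99),(3,47,99)]⟩,
  ⟨18,[(1,[1,3,7])],[(1,77,99),(1,71,99),(3,65,99),(20,52,99),(-2,35,99)]⟩,
  ⟨18,[(1,[1,4,5])],[(-13,80,99),(8,74,99),(6,68,99),(1,51,99),(-4,35,99)]⟩,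
  ⟨18,[(1,[1,4,6])],[(-19,82,99),(1,76,99),(3,70,99),(20,51,99),(-2,35,99)]⟩,
  ⟨18,[(1,[1,4,7])],[(5,87,99),(13,86,99),(7,85,99),(8,84,99),(3,62,99),(6,56,99),(-3,51,99)]⟩,
  ⟨9,[(1,[1,5,6])],[(-4,79,99),(-1,73,99),(7,50,99),(-1,36,99)]⟩,
  ⟨1,[(1,[1,5,7])],[(1,50,99)]⟩,
  ⟨3,[(1,[1,6,7])],[(-2,49,99),(1,36,99)]⟩,
  ⟨1,[(1,[2,3,4])],[(1,58,99)]⟩,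
  ⟨36,[(1,[2,3,5])],[(11,87,99),(-10,81,99),(-6,75,99),(1,58,99),(-4,42,99)]⟩,
  ⟨18,[(1,[2,3,6])],[(1,89,99),(-1,83,99),(-3,77,99),(-2,58,99),(2,42,99)]⟩,
  ⟨9,[(1,[2,3,7])],[(3,94,99),(2,93,99),(1,92,99),(4,69,99),(1,63,99),(-1,58,99),(-1,39,99)]⟩,
  ⟨18,[(1,[2,4,5])],[(-5,89,99),(7,83,99),(-3,77,99),(5,72,99),(-2,52,99)]⟩,
  ⟨1,[(1,[2,4,6])],[(1,74,99)]⟩,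
  ⟨18,[(1,[2,4,7])],[(5,93,99),(1,87,99),(-3,81,99),(2,62,99),(-2,46,99)]⟩,
  ⟨18,[(1,[2,5,6])],[(5,90,99),(7,84,99),(-3,78,99),(1,71,99),(2,52,99)]⟩,
  ⟨18,[(1,[2,5,7])],[(-5,90,99),(7,84,99),(-3,78,99),(5,61,99),(-2,47,99)]⟩,
  ⟨1,[(1,[2,6,7])],[(1,60,99)]⟩,
  ⟨1,[(1,[3,4,5])],[(1,73,99)]⟩,
  ⟨18,[(1,[3,4,6])],[(1,96,99),(7,90,99),(-9,84,99),(5,79,99),(-2,59,99)]⟩,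
  ⟨36,[(1,[3,4,7])],[(35,98,99),(-10,92,99),(-18,86,99),(1,69,99),(-4,53,99)]⟩,
  ⟨18,[(1,[3,5,6])],[(1,97,99),(1,91,99),(3,85,99),(2,72,99),(-2,55,99)]⟩,
  ⟨1,[(1,[3,5,7])],[(1,68,99)]⟩,
  ⟨18,[(1,[3,6,7])],[(1,97,99),(7,91,99),(-9,85,99),(5,68,99),(-2,54,99)]⟩,
  ⟨9,[(1,[4,5,6])],[(-2,107,99),(4,106,99),(3,105,99),(4,104,99),(1,82,99),(4,76,99),(2,71,99),(-1,52,99)]⟩,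
  ⟨18,[(1,[4,5,7])],[(-7,101,99),(-1,95,99),(3,89,99),(-2,76,99),(2,59,99)]⟩,
  ⟨18,[(1,[4,6,7])],[(17,101,99),(7,95,99),(-9,89,99),(1,82,99),(2,63,99)]⟩,
  ⟨1,[(1,[5,6,7])],[(1,68,99)]⟩]

/-- certificate in degree 4 -/
def steps4 : List Step := [
  ⟨-1,[(2,[0,1,4,6]),(1,[0,2,3,6]),(-1,[0,2,4,7]),(2,[1,2,3,6]),(-2,[1,2,4,7])],[(1,3,2)]⟩,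
  ⟨-1,[(1,[0,1,4,5]),(-4,[0,2,3,5]),(2,[0,3,4,7]),(-2,[1,2,3,5]),(1,[1,3,4,7])],[(1,4,3)]⟩,
  ⟨-1,[(1,[0,1,2,3]),(-2,[0,2,4,5]),(1,[0,3,4,6]),(2,[1,2,4,5]),(-1,[1,3,4,6])],[(1,5,4)]⟩,
  ⟨1,[(2,[0,1,3,7]),(-1,[0,3,5,6]),(1,[0,4,5,7]),(-2,[1,3,5,6]),(2,[1,4,5,7])],[(1,6,5)]⟩,
  ⟨1,[(1,[0,1,2,7]),(4,[0,2,5,6]),(-2,[0,4,6,7]),(2,[1,2,5,6]),(-1,[1,4,6,7])],[(1,7,6)]⟩,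
  ⟨-1,[(1,[0,1,5,6]),(-2,[0,2,5,7]),(1,[0,3,6,7]),(2,[1,2,5,7]),(-1,[1,3,6,7])],[(1,8,7)]⟩,
  ⟨1,[(1,[0,1,4,6]),(2,[0,2,3,6]),(1,[0,2,4,7]),(4,[1,2,3,6]),(2,[1,2,4,7])],[(1,8,2)]⟩,
  ⟨1,[(2,[0,1,4,5]),(-2,[0,2,3,5]),(-2,[0,3,4,7]),(-1,[1,2,3,5]),(-1,[1,3,4,7])],[(1,9,3)]⟩,
  ⟨-1,[(1,[0,1,2,3]),(1,[0,2,4,5]),(-2,[0,3,4,6]),(-1,[1,2,4,5]),(2,[1,3,4,6])],[(1,10,4)]⟩,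
  ⟨-1,[(1,[0,1,3,7]),(-2,[0,3,5,6]),(-1,[0,4,5,7]),(-4,[1,3,5,6]),(-2,[1,4,5,7])],[(1,11,5)]⟩,
  ⟨-1,[(2,[0,1,2,7]),(2,[0,2,5,6]),(2,[0,4,6,7]),(1,[1,2,5,6]),(1,[1,4,6,7])],[(1,12,6)]⟩,
  ⟨-1,[(1,[0,1,5,6]),(1,[0,2,5,7]),(-2,[0,3,6,7]),(-1,[1,2,5,7]),(2,[1,3,6,7])],[(1,13,7)]⟩,
  ⟨-6,[(1,[0,2,3,6]),(1,[2,4,5,6])],[(1,13,2)]⟩,
  ⟨6,[(1,[1,2,3,5]),(-1,[1,3,4,7])],[(1,14,3)]⟩,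
  ⟨6,[(1,[0,3,4,6]),(1,[1,3,4,6]),(-1,[2,3,4,7])],[(1,15,4)]⟩,
  ⟨6,[(1,[0,3,5,6]),(1,[2,3,5,7])],[(1,16,5)]⟩,
  ⟨-6,[(1,[1,2,5,6]),(-1,[1,4,6,7])],[(1,17,6)]⟩,
  ⟨-6,[(1,[0,3,6,7]),(1,[1,3,6,7]),(1,[4,5,6,7])],[(1,18,7)]⟩,
  ⟨-6,[(1,[0,2,3,6]),(1,[0,2,4,7])],[(1,18,2)]⟩,
  ⟨6,[(1,[1,2,3,5]),(-1,[3,4,5,6])],[(1,19,3)]⟩,
  ⟨6,[(1,[0,2,4,5]),(1,[1,2,4,5]),(-1,[2,3,4,7])],[(1,20,4)]⟩,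
  ⟨6,[(1,[0,3,5,6]),(1,[0,4,5,7])],[(1,21,5)]⟩,
  ⟨-6,[(1,[1,2,5,6]),(-1,[2,3,6,7])],[(1,22,6)]⟩,
  ⟨-6,[(1,[0,2,5,7]),(1,[1,2,5,7]),(1,[4,5,6,7])],[(1,23,7)]⟩,
  ⟨4,[(1,[0,2,4,6]),(2,[1,2,4,6])],[(1,23,2)]⟩,
  ⟨1,[(1,[0,1,2,3]),(-1,[0,2,4,5]),(-3,[0,3,4,6]),(-2,[1,2,4,5]),(-3,[2,3,4,7])],[(1,24,3)]⟩,
  ⟨-1,[(1,[0,1,2,4]),(3,[2,3,4,6])],[(1,25,4)]⟩,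
  ⟨2,[(2,[0,1,3,6]),(-2,[0,1,4,7]),(-1,[0,2,3,7]),(1,[0,4,5,6]),(-2,[1,2,3,7]),(2,[1,4,5,6])],[(1,26,5)]⟩,
  ⟨-1,[(1,[0,1,2,6]),(3,[2,4,6,7])],[(1,27,6)]⟩,
  ⟨1,[(1,[0,1,2,7]),(-1,[0,2,5,6]),(3,[0,4,6,7]),(-2,[1,2,5,6]),(-3,[2,3,6,7])],[(1,28,7)]⟩,
  ⟨-2,[(2,[0,3,4,5]),(1,[1,3,4,5])],[(1,28,3)]⟩,
  ⟨2,[(1,[0,1,3,4]),(3,[2,3,4,5])],[(1,29,4)]⟩,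
  ⟨-1,[(1,[0,1,3,5]),(-3,[3,4,5,7])],[(1,30,5)]⟩,
  ⟨-1,[(5,[0,1,2,5]),(1,[0,1,4,7]),(2,[0,2,3,7]),(-2,[0,4,5,6]),(1,[1,2,3,7]),(-1,[1,4,5,6])],[(1,31,6)]⟩,
  ⟨1,[(1,[0,1,3,7]),(-4,[0,3,5,6]),(3,[0,4,5,7]),(-2,[1,3,5,6]),(6,[2,3,5,7])],[(1,32,7)]⟩,
  ⟨-2,[(1,[0,2,3,4]),(-1,[1,2,3,4])],[(1,32,4)]⟩,
  ⟨1,[(2,[0,1,4,5]),(-3,[0,2,3,5]),(-1,[0,3,4,7]),(1,[1,3,4,7]),(3,[3,4,5,6])],[(1,33,5)]⟩,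
  ⟨-1,[(1,[0,1,4,6]),(-3,[0,2,3,6]),(2,[0,2,4,7]),(-2,[1,2,4,7]),(6,[2,4,5,6])],[(1,34,6)]⟩,
  ⟨-1,[(5,[0,1,2,5]),(-1,[0,1,3,6]),(-1,[0,2,3,7]),(1,[0,4,5,6]),(1,[1,2,3,7]),(-1,[1,4,5,6])],[(1,35,7)]⟩,
  ⟨4,[(1,[0,3,5,7]),(2,[1,3,5,7])],[(1,35,5)]⟩,
  ⟨1,[(1,[0,1,5,6]),(-1,[0,2,5,7]),(-3,[0,3,6,7]),(-2,[1,2,5,7]),(3,[4,5,6,7])],[(1,36,6)]⟩,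
  ⟨-1,[(1,[0,1,5,7]),(-3,[3,5,6,7])],[(1,37,7)]⟩,
  ⟨-2,[(2,[0,2,6,7]),(1,[1,2,6,7])],[(1,37,6)]⟩,
  ⟨2,[(1,[0,1,6,7]),(-3,[2,5,6,7])],[(1,38,7)]⟩,
  ⟨2,[(1,[0,5,6,7]),(-1,[1,5,6,7])],[(1,38,7)]⟩,
  ⟨2,[(1,[0,2,4,6])],[(1,32,2)]⟩,
  ⟨1,[(1,[0,1,2,3]),(1,[0,3,4,6]),(-1,[1,2,4,5])],[(1,33,3)]⟩,
  ⟨-1,[(1,[0,2,3,7]),(1,[0,4,5,6]),(-3,[2,3,5,6]),(1,[2,4,5,7])],[(1,34,5)]⟩,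
  ⟨1,[(1,[0,1,2,6]),(-1,[2,4,6,7])],[(1,35,6)]⟩,
  ⟨1,[(1,[0,1,3,4]),(-1,[2,3,4,5])],[(1,35,4)]⟩,
  ⟨1,[(1,[0,1,3,5]),(1,[3,4,5,7])],[(1,36,5)]⟩,
  ⟨1,[(1,[0,1,3,7]),(1,[1,3,5,6]),(-1,[1,4,5,7]),(-1,[2,3,5,7])],[(1,37,7)]⟩,
  ⟨2,[(1,[0,2,3,4]),(1,[1,2,3,4])],[(1,37,4)]⟩,
  ⟨-1,[(1,[0,1,4,6]),(-1,[0,2,3,6]),(-1,[1,2,3,6]),(1,[1,2,4,7])],[(1,38,6)]⟩,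
  ⟨1,[(1,[0,2,3,7]),(1,[0,4,5,6]),(1,[1,2,3,7]),(1,[1,4,5,6]),(-1,[2,4,5,7]),(-3,[3,4,6,7])],[(1,39,7)]⟩,
  ⟨-2,[(1,[0,3,5,7])],[(1,39,5)]⟩,
  ⟨-1,[(1,[0,1,5,6]),(1,[0,3,6,7]),(-1,[1,2,5,7])],[(1,40,6)]⟩,
  ⟨-1,[(1,[0,1,6,7]),(1,[2,5,6,7])],[(1,40,7)]⟩,
  ⟨-2,[(1,[0,5,6,7]),(1,[1,5,6,7])],[(1,40,7)]⟩,
  ⟨1,[(1,[0,1,2,4]),(-1,[2,3,4,6])],[(1,40,4)]⟩,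
  ⟨1,[(1,[0,1,2,7]),(-1,[0,2,5,6]),(-1,[0,4,6,7]),(-1,[2,3,6,7])],[(1,41,7)]⟩,
  ⟨2,[(1,[1,3,4,5])],[(1,41,3)]⟩,
  ⟨1,[(1,[1,2,3,7]),(1,[1,4,5,6]),(-3,[2,3,5,6]),(1,[3,4,6,7])],[(1,42,6)]⟩,
  ⟨1,[(1,[0,1,4,5]),(1,[0,2,3,5]),(1,[0,3,4,7]),(1,[1,2,3,5])],[(1,42,5)]⟩,
  ⟨-1,[(1,[0,1,5,7]),(1,[3,5,6,7])],[(1,42,7)]⟩,
  ⟨-2,[(1,[1,2,6,7])],[(1,42,6)]⟩,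
  ⟨4,[(1,[0,1,2,3])],[(1,63,99),(1,57,99),(-1,51,99),(1,45,99),(2,19,99)]⟩,
  ⟨4,[(1,[0,1,2,4])],[(1,40,99),(3,7,99)]⟩,
  ⟨12,[(1,[0,1,2,5])],[(1,71,99),(1,40,99),(1,34,99),(1,29,99)]⟩,
  ⟨4,[(1,[0,1,2,6])],[(1,40,99),(3,20,99)]⟩,
  ⟨4,[(1,[0,1,2,7])],[(1,59,99),(1,53,99),(-2,47,99),(2,9,99)]⟩,
  ⟨4,[(1,[0,1,3,4])],[(1,39,99),(3,21,99)]⟩,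
  ⟨4,[(1,[0,1,3,5])],[(1,39,99),(3,21,99)]⟩,
  ⟨12,[(1,[0,1,3,6])],[(-3,76,99),(4,75,99),(1,45,99),(1,39,99),(1,34,99)]⟩,
  ⟨4,[(1,[0,1,3,7])],[(1,70,99),(2,58,99),(-1,52,99),(2,22,99)]⟩,
  ⟨4,[(1,[0,1,4,5])],[(1,67,99),(-1,61,99),(2,11,99)]⟩,
  ⟨4,[(1,[0,1,4,6])],[(1,75,99),(1,57,99),(2,22,99)]⟩,
  ⟨12,[(1,[0,1,4,7])],[(7,80,99),(4,79,99),(-1,49,99),(-1,43,99),(-1,38,99)]⟩,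
  ⟨4,[(1,[0,1,5,6])],[(1,72,99),(1,66,99),(-1,60,99),(1,54,99),(2,21,99)]⟩,
  ⟨4,[(1,[0,1,5,7])],[(1,37,99),(3,14,99)]⟩,
  ⟨4,[(1,[0,1,6,7])],[(1,36,99),(3,22,99)]⟩,
  ⟨2,[(1,[0,2,3,4])],[(1,45,99),(1,28,99)]⟩,
  ⟨36,[(1,[0,2,3,5])],[(-5,80,99),(1,74,99),(-9,68,99),(-9,62,99),(-3,45,99),(9,18,99)]⟩,
  ⟨36,[(1,[0,2,3,6])],[(2,82,99),(-1,76,99),(18,70,99),(9,64,99),(-3,45,99)]⟩,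
  ⟨36,[(1,[0,2,3,7])],[(-2,87,99),(-4,86,99),(-4,85,99),(1,84,99),(6,50,99),(-6,45,99),(12,36,99),(6,29,99),(-6,21,99)]⟩,
  ⟨36,[(1,[0,2,4,5])],[(-7,82,99),(1,76,99),(-9,70,99),(18,64,99),(-3,59,99),(9,38,99)]⟩,
  ⟨1,[(1,[0,2,4,6])],[(1,40,99)]⟩,
  ⟨36,[(1,[0,2,4,7])],[(-2,86,99),(1,80,99),(-18,74,99),(27,68,99),(3,49,99)]⟩,
  ⟨36,[(1,[0,2,5,6])],[(8,83,99),(-1,77,99),(-9,71,99),(3,58,99),(-9,27,99)]⟩,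
  ⟨36,[(1,[0,2,5,7])],[(-7,83,99),(1,77,99),(-9,71,99),(18,65,99),(-3,48,99),(9,32,99)]⟩,
  ⟨2,[(1,[0,2,6,7])],[(1,47,99),(-1,24,99)]⟩,
  ⟨2,[(1,[0,3,4,5])],[(1,60,99),(-1,29,99)]⟩,
  ⟨36,[(1,[0,3,4,6])],[(-1,89,99),(-5,83,99),(9,77,99),(-3,66,99),(9,45,99)]⟩,
  ⟨36,[(1,[0,3,4,7])],[(7,91,99),(-5,85,99),(9,79,99),(-9,73,99),(-3,56,99),(9,29,99)]⟩,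
  ⟨36,[(1,[0,3,5,6])],[(1,90,99),(1,84,99),(18,78,99),(9,72,99),(-3,59,99)]⟩,
  ⟨1,[(1,[0,3,5,7])],[(1,39,99)]⟩,
  ⟨36,[(1,[0,3,6,7])],[(-1,90,99),(-5,84,99),(9,78,99),(-3,55,99),(9,39,99)]⟩,
  ⟨36,[(1,[0,4,5,6])],[(2,100,99),(4,99,99),(-4,98,99),(1,97,99),(-6,63,99),(6,58,99),(12,49,99),(6,42,99),(-6,34,99)]⟩,
  ⟨36,[(1,[0,4,5,7])],[(-1,94,99),(-1,88,99),(-18,82,99),(27,76,99),(3,63,99)]⟩,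
  ⟨36,[(1,[0,4,6,7])],[(-4,94,99),(5,88,99),(9,82,99),(3,69,99),(-9,38,99)]⟩,
  ⟨2,[(1,[0,5,6,7])],[(1,55,99),(1,41,99)]⟩,
  ⟨2,[(1,[1,2,3,4])],[(-1,65,99),(1,48,99)]⟩,
  ⟨36,[(1,[1,2,3,5])],[(-2,100,99),(-5,94,99),(9,88,99),(18,82,99),(6,65,99)]⟩,
  ⟨72,[(1,[1,2,3,6])],[(1,102,99),(13,96,99),(-18,90,99),(-18,84,99),(3,65,99),(-18,49,99)]⟩,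
  ⟨36,[(1,[1,2,3,7])],[(-14,107,99),(2,106,99),(-1,105,99),(-2,104,99),(-6,76,99),(6,65,99),(-6,56,99),(6,49,99),(12,41,99)]⟩,
  ⟨36,[(1,[1,2,4,5])],[(8,102,99),(4,96,99),(9,84,99),(-3,79,99),(-9,58,99)]⟩,
  ⟨2,[(1,[1,2,4,6])],[(1,81,99),(-1,60,99)]⟩,
  ⟨72,[(1,[1,2,4,7])],[(-13,106,99),(11,100,99),(18,94,99),(-18,88,99),(-3,69,99),(18,53,99)]⟩,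
  ⟨36,[(1,[1,2,5,6])],[(-4,103,99),(5,97,99),(9,91,99),(18,85,99),(-6,78,99)]⟩,
  ⟨36,[(1,[1,2,5,7])],[(8,103,99),(4,97,99),(9,85,99),(-3,68,99),(-9,52,99)]⟩,
  ⟨1,[(1,[1,2,6,7])],[(1,44,99)]⟩,
  ⟨1,[(1,[1,3,4,5])],[(1,49,99)]⟩,
  ⟨36,[(1,[1,3,4,6])],[(2,109,99),(10,103,99),(18,97,99),(-9,91,99),(-3,86,99),(-9,65,99)]⟩,
  ⟨36,[(1,[1,3,4,7])],[(-2,111,99),(-5,105,99),(-27,99,99),(18,93,99),(6,76,99)]⟩,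
  ⟨72,[(1,[1,3,5,6])],[(-4,110,99),(-13,104,99),(-18,92,99),(3,79,99),(18,62,99)]⟩,
  ⟨2,[(1,[1,3,5,7])],[(1,75,99),(-1,59,99)]⟩,
  ⟨36,[(1,[1,3,6,7])],[(2,110,99),(10,104,99),(18,98,99),(-9,92,99),(-3,75,99),(-9,59,99)]⟩,
  ⟨36,[(1,[1,4,5,6])],[(14,120,99),(-2,119,99),(-1,118,99),(-2,117,99),(6,89,99),(-6,78,99),(-6,69,99),(6,62,99),(12,54,99)]⟩,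
  ⟨72,[(1,[1,4,5,7])],[(16,114,99),(-11,108,99),(-18,96,99),(-3,83,99),(-18,66,99)]⟩,
  ⟨36,[(1,[1,4,6,7])],[(-4,114,99),(5,108,99),(-27,102,99),(18,96,99),(-6,89,99)]⟩,
  ⟨2,[(1,[1,5,6,7])],[(-1,75,99),(1,61,99)]⟩,
  ⟨4,[(1,[2,3,4,5])],[(1,89,99),(-1,71,99)]⟩,
  ⟨4,[(1,[2,3,4,6])],[(1,95,99),(-1,62,99)]⟩,
  ⟨36,[(1,[2,3,4,7])],[(1,120,99),(5,114,99),(-9,108,99),(-9,102,99),(-6,97,99)]⟩,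
  ⟨36,[(1,[2,3,5,6])],[(-2,125,99),(-1,124,99),(-3,76,99),(3,69,99),(-3,61,99)]⟩,
  ⟨36,[(1,[2,3,5,7])],[(-1,121,99),(-1,115,99),(18,109,99),(-9,103,99),(3,90,99)]⟩,
  ⟨36,[(1,[2,3,6,7])],[(-4,121,99),(5,115,99),(9,109,99),(-18,103,99),(-6,96,99)]⟩,
  ⟨36,[(1,[2,4,5,6])],[(-2,126,99),(1,120,99),(18,114,99),(-9,108,99),(3,89,99)]⟩,
  ⟨36,[(1,[2,4,5,7])],[(2,129,99),(-5,128,99),(3,80,99),(-3,73,99),(3,65,99)]⟩,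
  ⟨4,[(1,[2,4,6,7])],[(1,100,99),(-1,80,99)]⟩,
  ⟨4,[(1,[2,5,6,7])],[(-1,86,99),(1,72,99)]⟩,
  ⟨36,[(1,[3,4,5,6])],[(-2,129,99),(-5,123,99),(9,117,99),(-18,111,99),(6,94,99)]⟩,
  ⟨4,[(1,[3,4,5,7])],[(-1,99,99),(1,81,99)]⟩,
  ⟨36,[(1,[3,4,6,7])],[(-4,134,99),(1,133,99),(3,85,99),(-3,78,99),(3,70,99)]⟩,
  ⟨4,[(1,[3,5,6,7])],[(-1,92,99),(1,69,99)]⟩,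
  ⟨36,[(1,[4,5,6,7])],[(-1,129,99),(-5,123,99),(9,117,99),(9,111,99),(6,94,99)]⟩]

/-- certificate in degree 5 -/
def steps5 : List Step := [
  ⟨-6,[(1,[0,2,4,5,6]),(-2,[2,3,4,6,7])],[(1,3,2)]⟩,
  ⟨6,[(1,[0,1,2,3,5]),(-1,[0,1,3,4,7])],[(1,4,3)]⟩,
  ⟨6,[(1,[0,1,3,4,6]),(-1,[0,2,3,4,7]),(1,[2,3,4,5,6])],[(1,5,4)]⟩,
  ⟨6,[(1,[0,2,3,5,7]),(-2,[3,4,5,6,7])],[(1,6,5)]⟩,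
  ⟨-6,[(1,[0,1,2,5,6]),(-1,[0,1,4,6,7])],[(1,7,6)]⟩,
  ⟨-6,[(1,[0,1,3,6,7]),(1,[0,4,5,6,7]),(1,[2,3,5,6,7])],[(1,8,7)]⟩,
  ⟨6,[(1,[0,1,2,3,6]),(-1,[1,2,4,5,6]),(-1,[2,3,4,6,7])],[(1,8,2)]⟩,
  ⟨-6,[(1,[0,1,3,4,6]),(1,[1,2,3,4,7]),(-1,[2,3,4,5,6])],[(1,9,4)]⟩,
  ⟨-6,[(1,[0,1,3,5,6]),(-1,[1,2,3,5,7]),(-1,[3,4,5,6,7])],[(1,10,5)]⟩,
  ⟨6,[(1,[0,1,3,6,7]),(-1,[1,4,5,6,7]),(-1,[2,3,5,6,7])],[(1,11,7)]⟩,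
  ⟨6,[(1,[0,1,2,3,5]),(-1,[0,3,4,5,6]),(1,[2,3,4,5,7])],[(1,11,3)]⟩,
  ⟨6,[(1,[0,1,2,4,5]),(-1,[0,2,3,4,7]),(1,[2,3,4,5,6])],[(1,12,4)]⟩,
  ⟨-6,[(1,[0,1,2,5,6]),(-1,[0,2,3,6,7]),(1,[2,4,5,6,7])],[(1,13,6)]⟩,
  ⟨-6,[(1,[0,1,2,5,7]),(1,[0,4,5,6,7]),(1,[2,3,5,6,7])],[(1,14,7)]⟩,
  ⟨6,[(1,[0,1,2,3,6]),(1,[0,1,2,4,7])],[(1,14,2)]⟩,
  ⟨-6,[(1,[1,3,4,5,6]),(2,[2,3,4,5,7])],[(1,15,3)]⟩,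
  ⟨-6,[(1,[0,1,3,5,6]),(1,[0,1,4,5,7])],[(1,16,5)]⟩,
  ⟨6,[(1,[1,2,3,6,7]),(2,[2,4,5,6,7])],[(1,17,6)]⟩,
  ⟨-1,[(1,[0,1,2,4,5]),(-2,[1,2,3,4,7]),(-1,[2,3,4,5,6])],[(1,17,3)]⟩,
  ⟨-1,[(1,[0,2,3,4,6]),(2,[1,2,3,4,6])],[(1,18,4)]⟩,
  ⟨-1,[(1,[0,2,4,6,7]),(2,[1,2,4,6,7])],[(1,19,6)]⟩,
  ⟨1,[(1,[0,1,2,5,6]),(2,[0,2,3,6,7]),(2,[1,2,3,6,7]),(-1,[2,4,5,6,7])],[(1,20,7)]⟩,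
  ⟨-1,[(1,[0,2,3,4,5]),(-1,[1,2,3,4,5])],[(1,20,4)]⟩,
  ⟨1,[(1,[0,3,4,5,7]),(2,[1,3,4,5,7])],[(1,21,5)]⟩,
  ⟨1,[(1,[0,1,3,5,6]),(-1,[0,1,4,5,7]),(-1,[0,2,3,5,7]),(1,[1,2,3,5,7])],[(1,22,7)]⟩,
  ⟨2,[(1,[0,1,2,3,4])],[(1,22,4)]⟩,
  ⟨-1,[(1,[0,1,3,4,7]),(2,[0,3,4,5,6]),(2,[1,3,4,5,6]),(-1,[2,3,4,5,7])],[(1,23,5)]⟩,
  ⟨1,[(1,[0,1,2,3,6]),(-1,[0,1,2,4,7]),(1,[1,2,4,5,6]),(-2,[2,3,4,6,7])],[(1,24,6)]⟩,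
  ⟨1,[(1,[0,1,2,3,7]),(1,[0,1,4,5,6]),(-1,[0,2,3,5,6]),(-1,[0,2,4,5,7]),(-2,[0,3,4,6,7]),(-1,[1,2,3,5,6]),(1,[1,3,4,6,7])],[(1,25,7)]⟩,
  ⟨1,[(1,[0,1,2,5,7]),(2,[1,4,5,6,7]),(-1,[2,3,5,6,7])],[(1,25,6)]⟩,
  ⟨-1,[(1,[0,3,5,6,7]),(2,[1,3,5,6,7])],[(1,26,7)]⟩,
  ⟨-1,[(1,[0,2,5,6,7]),(-1,[1,2,5,6,7])],[(1,26,7)]⟩,
  ⟨-2,[(1,[0,1,5,6,7])],[(1,26,7)]⟩,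
  ⟨2,[(1,[0,1,2,4,6])],[(1,26,2)]⟩,
  ⟨-1,[(2,[0,2,3,4,6]),(1,[1,2,3,4,6])],[(1,27,4)]⟩,
  ⟨-1,[(1,[0,1,2,3,7]),(1,[0,1,4,5,6]),(1,[0,2,3,5,6]),(-1,[0,3,4,6,7]),(3,[1,2,3,5,6]),(-1,[1,2,4,5,7])],[(1,28,5)]⟩,
  ⟨2,[(1,[1,2,3,6,7]),(-1,[2,4,5,6,7])],[(1,29,7)]⟩,
  ⟨-2,[(1,[1,3,4,5,6]),(-1,[2,3,4,5,7])],[(1,29,5)]⟩,
  ⟨-2,[(1,[0,1,3,5,7])],[(1,29,5)]⟩,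
  ⟨-1,[(2,[0,3,5,6,7]),(1,[1,3,5,6,7])],[(1,30,7)]⟩,
  ⟨2,[(1,[0,1,3,4,5])],[(1,29,3)]⟩,
  ⟨1,[(1,[0,2,3,4,5]),(2,[1,2,3,4,5])],[(1,30,4)]⟩,
  ⟨1,[(1,[0,1,2,3,7]),(1,[0,1,4,5,6]),(-3,[0,2,3,5,6]),(1,[0,3,4,6,7]),(-1,[1,2,3,5,6]),(1,[1,2,4,5,7])],[(1,31,6)]⟩,
  ⟨-2,[(1,[0,2,3,5,7]),(1,[3,4,5,6,7])],[(1,32,7)]⟩,
  ⟨-2,[(1,[0,2,4,5,6]),(1,[2,3,4,6,7])],[(1,32,6)]⟩,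
  ⟨-2,[(1,[0,1,2,6,7])],[(1,32,6)]⟩,
  ⟨1,[(1,[0,2,5,6,7]),(2,[1,2,5,6,7])],[(1,33,7)]⟩,
  ⟨1,[(1,[0,1,2,4,5]),(1,[0,1,3,4,6]),(2,[0,2,3,4,7]),(1,[1,2,3,4,7])],[(1,32,3)]⟩,
  ⟨1,[(2,[0,2,4,6,7]),(1,[1,2,4,6,7])],[(1,33,6)]⟩,
  ⟨-1,[(2,[0,3,4,5,7]),(1,[1,3,4,5,7])],[(1,33,5)]⟩,
  ⟨-1,[(1,[0,1,2,5,7]),(1,[0,1,3,6,7]),(-2,[0,4,5,6,7]),(-1,[1,4,5,6,7])],[(1,33,6)]⟩,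
  ⟨-1,[(2,[0,1,2,3,7]),(-1,[0,1,4,5,6]),(-1,[0,2,3,5,6]),(1,[0,2,4,5,7]),(-1,[1,2,3,5,6]),(1,[1,2,4,5,7]),(2,[1,3,4,6,7])],[(1,32,7)]⟩,
  ⟨1,[(1,[0,1,2,3,4])],[(1,26,99)]⟩,
  ⟨3,[(1,[0,1,2,3,5])],[(1,51,99),(2,42,99),(-1,37,99),(1,26,99),(-1,15,99)]⟩,
  ⟨3,[(1,[0,1,2,3,6])],[(-1,53,99),(1,47,99),(1,39,99),(1,26,99),(1,9,99)]⟩,
  ⟨18,[(1,[0,1,2,3,7])],[(-1,58,99),(2,57,99),(1,56,99),(6,19,99),(6,3,99)]⟩,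
  ⟨6,[(1,[0,1,2,4,5])],[(-2,53,99),(1,48,99),(4,44,99),(1,37,99),(1,8,99)]⟩,
  ⟨1,[(1,[0,1,2,4,6])],[(1,23,99)]⟩,
  ⟨3,[(1,[0,1,2,4,7])],[(1,57,99),(-1,51,99),(2,43,99),(-1,30,99),(-1,13,99)]⟩,
  ⟨3,[(1,[0,1,2,5,6])],[(2,46,99),(-1,41,99),(1,37,99),(-1,22,99)]⟩,
  ⟨6,[(1,[0,1,2,5,7])],[(-2,54,99),(1,50,99),(4,46,99),(1,30,99),(1,9,99)]⟩,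
  ⟨1,[(1,[0,1,2,6,7])],[(1,15,99)]⟩,
  ⟨1,[(1,[0,1,3,4,5])],[(1,21,99)]⟩,
  ⟨6,[(1,[0,1,3,4,6])],[(4,60,99),(1,55,99),(-2,51,99),(1,44,99),(1,15,99)]⟩,
  ⟨3,[(1,[0,1,3,4,7])],[(-2,62,99),(2,53,99),(-1,48,99),(1,37,99),(-1,26,99)]⟩,
  ⟨3,[(1,[0,1,3,5,6])],[(1,56,99),(1,48,99),(1,40,99),(1,21,99)]⟩,
  ⟨1,[(1,[0,1,3,5,7])],[(1,27,99)]⟩,
  ⟨6,[(1,[0,1,3,6,7])],[(4,61,99),(1,57,99),(-2,53,99),(1,37,99),(1,16,99)]⟩,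
  ⟨18,[(1,[0,1,4,5,6])],[(-1,71,99),(-1,70,99),(-2,69,99),(6,39,99),(6,25,99),(-6,16,99)]⟩,
  ⟨3,[(1,[0,1,4,5,7])],[(-1,60,99),(2,52,99),(-1,44,99),(-1,25,99)]⟩,
  ⟨3,[(1,[0,1,4,6,7])],[(-3,65,99),(2,57,99),(-1,52,99),(1,48,99),(-1,33,99)]⟩,
  ⟨1,[(1,[0,1,5,6,7])],[(1,38,99)]⟩,
  ⟨3,[(1,[0,2,3,4,5])],[(2,49,99),(1,30,99)]⟩,
  ⟨3,[(1,[0,2,3,4,6])],[(-1,53,99),(2,38,99)]⟩,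
  ⟨3,[(1,[0,2,3,4,7])],[(-1,66,99),(-1,62,99),(1,26,99)]⟩,
  ⟨36,[(1,[0,2,3,5,6])],[(-3,78,99),(1,77,99),(-1,76,99),(-1,75,99),(6,46,99),(-6,32,99)]⟩,
  ⟨3,[(1,[0,2,3,5,7])],[(1,72,99),(2,32,99)]⟩,
  ⟨3,[(1,[0,2,3,6,7])],[(-1,64,99),(1,55,99),(-2,40,99)]⟩,
  ⟨3,[(1,[0,2,4,5,6])],[(1,77,99),(2,33,99)]⟩,
  ⟨36,[(1,[0,2,4,5,7])],[(3,82,99),(-1,81,99),(-5,80,99),(1,79,99),(-6,50,99),(6,36,99)]⟩,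
  ⟨3,[(1,[0,2,4,6,7])],[(-1,59,99),(2,31,99)]⟩,
  ⟨3,[(1,[0,2,5,6,7])],[(2,49,99),(1,34,99)]⟩,
  ⟨3,[(1,[0,3,4,5,6])],[(1,80,99),(-1,71,99),(1,55,99),(-2,44,99)]⟩,
  ⟨3,[(1,[0,3,4,5,7])],[(-1,59,99),(2,33,99)]⟩,
  ⟨36,[(1,[0,3,4,6,7])],[(-3,87,99),(-1,86,99),(1,85,99),(1,84,99),(-6,55,99),(6,41,99)]⟩,
  ⟨3,[(1,[0,3,5,6,7])],[(-1,54,99),(2,45,99)]⟩,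
  ⟨3,[(1,[0,4,5,6,7])],[(1,76,99),(1,72,99),(-1,35,99)]⟩,
  ⟨3,[(1,[1,2,3,4,5])],[(-1,64,99),(1,45,99)]⟩,
  ⟨3,[(1,[1,2,3,4,6])],[(2,68,99),(-1,53,99)]⟩,
  ⟨3,[(1,[1,2,3,4,7])],[(-1,86,99),(1,81,99),(1,77,99),(-1,70,99)]⟩,
  ⟨36,[(1,[1,2,3,5,6])],[(1,93,99),(-1,92,99),(1,91,99),(-1,90,99),(-6,61,99),(6,54,99)]⟩,
  ⟨3,[(1,[1,2,3,5,7])],[(1,87,99),(-2,82,99),(1,74,99),(1,66,99)]⟩,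
  ⟨3,[(1,[1,2,3,6,7])],[(1,74,99),(2,55,99)]⟩,
  ⟨3,[(1,[1,2,4,5,6])],[(-2,86,99),(1,78,99),(1,65,99)]⟩,
  ⟨36,[(1,[1,2,4,5,7])],[(-1,97,99),(1,96,99),(-1,95,99),(-5,94,99),(6,65,99),(-6,58,99)]⟩,
  ⟨3,[(1,[1,2,4,6,7])],[(2,74,99),(-1,46,99)]⟩,
  ⟨3,[(1,[1,2,5,6,7])],[(-1,64,99),(1,49,99)]⟩,
  ⟨3,[(1,[1,3,4,5,6])],[(1,81,99),(2,59,99)]⟩,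
  ⟨3,[(1,[1,3,4,5,7])],[(2,74,99),(-1,48,99)]⟩,
  ⟨36,[(1,[1,3,4,6,7])],[(-1,102,99),(-5,101,99),(-1,100,99),(1,99,99),(6,70,99),(-6,63,99)]⟩,
  ⟨3,[(1,[1,3,5,6,7])],[(2,69,99),(-1,60,99)]⟩,
  ⟨3,[(1,[1,4,5,6,7])],[(1,95,99),(-1,91,99),(-1,87,99),(1,71,99)]⟩,
  ⟨6,[(1,[2,3,4,5,6])],[(2,99,99),(-3,94,99),(-1,83,99),(1,54,99)]⟩,
  ⟨3,[(1,[2,3,4,5,7])],[(1,87,99),(-1,65,99)]⟩,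
  ⟨3,[(1,[2,3,4,6,7])],[(-1,103,99),(1,59,99)]⟩,
  ⟨6,[(1,[2,3,5,6,7])],[(2,99,99),(-3,95,99),(-1,75,99),(1,54,99)]⟩,
  ⟨3,[(1,[2,4,5,6,7])],[(1,88,99),(-1,69,99)]⟩,
  ⟨3,[(1,[3,4,5,6,7])],[(-1,103,99),(1,63,99)]⟩]

/-- certificate in degree 6 -/
def steps6 : List Step := [
  ⟨-6,[(1,[0,1,2,4,5,6]),(1,[0,2,3,4,6,7]),(2,[1,2,3,4,6,7])],[(1,2,2)]⟩,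
  ⟨-6,[(1,[0,1,2,3,4,7]),(-1,[0,2,3,4,5,6]),(1,[1,2,3,4,5,6])],[(1,3,4)]⟩,
  ⟨6,[(1,[0,1,2,3,5,7]),(1,[0,3,4,5,6,7]),(2,[1,3,4,5,6,7])],[(1,4,5)]⟩,
  ⟨-6,[(1,[0,1,4,5,6,7]),(1,[0,2,3,5,6,7]),(-1,[1,2,3,5,6,7])],[(1,5,7)]⟩,
  ⟨-6,[(1,[0,1,3,4,5,6]),(2,[0,2,3,4,5,7]),(1,[1,2,3,4,5,7])],[(1,5,3)]⟩,
  ⟨6,[(1,[0,1,2,3,6,7]),(2,[0,2,4,5,6,7]),(1,[1,2,4,5,6,7])],[(1,6,6)]⟩,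
  ⟨12,[(1,[0,2,3,4,6,7])],[(1,6,2)]⟩,
  ⟨-12,[(1,[1,2,3,4,5,7])],[(1,7,3)]⟩,
  ⟨12,[(1,[0,2,3,4,5,6]),(1,[1,2,3,4,5,6])],[(1,8,4)]⟩,
  ⟨12,[(1,[0,3,4,5,6,7])],[(1,9,5)]⟩,
  ⟨-12,[(1,[1,2,4,5,6,7])],[(1,10,6)]⟩,
  ⟨12,[(1,[0,2,3,5,6,7]),(1,[1,2,3,5,6,7])],[(1,11,7)]⟩,
  ⟨-1,[(1,[0,1,2,3,4,7]),(1,[0,2,3,4,5,6])],[(1,5,3)]⟩,
  ⟨1,[(1,[0,1,2,3,4,6])],[(1,6,4)]⟩,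
  ⟨1,[(1,[0,1,2,4,6,7])],[(1,7,6)]⟩,
  ⟨-1,[(1,[0,1,2,3,6,7]),(-1,[0,2,4,5,6,7])],[(1,8,7)]⟩,
  ⟨-1,[(1,[0,1,2,3,4,5])],[(1,8,4)]⟩,
  ⟨1,[(1,[0,1,3,4,5,7])],[(1,9,5)]⟩,
  ⟨1,[(1,[0,1,2,3,5,7]),(-1,[1,3,4,5,6,7])],[(1,10,7)]⟩,
  ⟨1,[(1,[0,1,3,4,5,6]),(-1,[0,2,3,4,5,7]),(-1,[1,2,3,4,5,7])],[(1,10,5)]⟩,
  ⟨1,[(1,[0,1,2,4,5,6]),(-1,[0,2,3,4,6,7]),(-1,[1,2,3,4,6,7])],[(1,11,6)]⟩,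
  ⟨-1,[(1,[0,1,4,5,6,7]),(-1,[0,2,3,5,6,7])],[(1,11,6)]⟩,
  ⟨1,[(1,[0,1,3,5,6,7])],[(1,12,7)]⟩,
  ⟨-1,[(1,[0,1,2,5,6,7])],[(1,12,7)]⟩,
  ⟨-1,[(1,[0,1,2,3,5,6]),(-1,[0,1,2,4,5,7]),(-1,[0,1,3,4,6,7]),(1,[2,3,4,5,6,7])],[(1,11,7)]⟩,
  ⟨1,[(1,[0,1,2,3,4,5])],[(1,8,99)]⟩,
  ⟨1,[(1,[0,1,2,3,4,6])],[(1,12,99)]⟩,
  ⟨3,[(1,[0,1,2,3,4,7])],[(1,25,99),(-1,18,99),(2,14,99)]⟩,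
  ⟨36,[(1,[0,1,2,3,5,6])],[(-2,30,99),(-2,29,99),(1,28,99),(12,3,99)]⟩,
  ⟨3,[(1,[0,1,2,3,5,7])],[(1,26,99),(-1,19,99),(2,10,99)]⟩,
  ⟨3,[(1,[0,1,2,3,6,7])],[(1,24,99),(-1,19,99),(2,14,99)]⟩,
  ⟨3,[(1,[0,1,2,4,5,6])],[(1,30,99),(1,24,99),(2,10,99)]⟩,
  ⟨36,[(1,[0,1,2,4,5,7])],[(2,34,99),(-4,33,99),(-1,32,99),(-12,7,99)]⟩,
  ⟨1,[(1,[0,1,2,4,6,7])],[(1,18,99)]⟩,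
  ⟨1,[(1,[0,1,2,5,6,7])],[(1,10,99)]⟩,
  ⟨3,[(1,[0,1,3,4,5,6])],[(1,30,99),(1,27,99),(2,15,99)]⟩,
  ⟨1,[(1,[0,1,3,4,5,7])],[(1,18,99)]⟩,
  ⟨36,[(1,[0,1,3,4,6,7])],[(-4,39,99),(2,38,99),(-1,37,99),(-12,12,99)]⟩,
  ⟨1,[(1,[0,1,3,5,6,7])],[(1,15,99)]⟩,
  ⟨3,[(1,[0,1,4,5,6,7])],[(1,35,99),(1,27,99),(2,17,99)]⟩,
  ⟨3,[(1,[0,2,3,4,5,6])],[(-1,38,99),(1,31,99),(1,27,99)]⟩,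
  ⟨3,[(1,[0,2,3,4,5,7])],[(1,36,99),(-2,33,99),(-1,21,99)]⟩,
  ⟨1,[(1,[0,2,3,4,6,7])],[(1,35,99)]⟩,
  ⟨3,[(1,[0,2,3,5,6,7])],[(1,39,99),(1,31,99),(-1,21,99)]⟩,
  ⟨3,[(1,[0,2,4,5,6,7])],[(1,38,99),(-1,33,99),(-1,28,99)]⟩,
  ⟨1,[(1,[0,3,4,5,6,7])],[(1,35,99)]⟩,
  ⟨3,[(1,[1,2,3,4,5,6])],[(1,44,99),(2,37,99),(-1,33,99)]⟩,
  ⟨1,[(1,[1,2,3,4,5,7])],[(1,39,99)]⟩,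
  ⟨3,[(1,[1,2,3,4,6,7])],[(1,47,99),(-2,41,99),(-1,27,99)]⟩,
  ⟨3,[(1,[1,2,3,5,6,7])],[(-1,45,99),(2,37,99),(1,27,99)]⟩,
  ⟨1,[(1,[1,2,4,5,6,7])],[(1,39,99)]⟩,
  ⟨3,[(1,[1,3,4,5,6,7])],[(1,48,99),(-1,41,99),(-1,32,99)]⟩,
  ⟨12,[(1,[2,3,4,5,6,7])],[(-1,52,99)]⟩]

/-- certificate in degree 7 -/
def steps7 : List Step := [
  ⟨-12,[(1,[0,1,2,3,4,5,7])],[(1,1,3)]⟩,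
  ⟨12,[(1,[0,1,2,3,4,5,6])],[(1,2,4)]⟩,
  ⟨-12,[(1,[0,1,2,4,5,6,7])],[(1,3,6)]⟩,
  ⟨12,[(1,[0,1,2,3,5,6,7])],[(1,4,7)]⟩,
  ⟨-12,[(1,[0,1,2,3,4,6,7])],[(1,4,2)]⟩,
  ⟨-12,[(1,[0,1,3,4,5,6,7])],[(1,5,5)]⟩,
  ⟨1,[(1,[0,1,2,3,4,5,6])],[(1,4,99)]⟩,
  ⟨1,[(1,[0,1,2,3,4,5,7])],[(1,6,99)]⟩,
  ⟨1,[(1,[0,1,2,3,4,6,7])],[(1,3,99)]⟩,
  ⟨1,[(1,[0,1,2,3,5,6,7])],[(1,5,99)]⟩,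
  ⟨1,[(1,[0,1,2,4,5,6,7])],[(1,7,99)]⟩,
  ⟨1,[(1,[0,1,3,4,5,6,7])],[(1,5,99)]⟩,
  ⟨12,[(1,[0,2,3,4,5,6,7])],[(-1,13,99)]⟩,
  ⟨12,[(1,[1,2,3,4,5,6,7])],[(-1,13,99)]⟩]

/-- certificate in degree 8 -/
def steps8 : List Step := [
  ⟨12,[(1,[0,1,2,3,4,5,6,7])],[(-1,0,99)]⟩]

/-- `∑ α(h1) e_α f_α` -/
def sg1 : Poly := [(2,[2,5]),(-1,[3,6]),(1,[4,7])]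

/-- `∑ α(h2) e_α f_α` -/
def sg2 : Poly := [(-1,[2,5]),(2,[3,6]),(1,[4,7])]

/-- first quadratic harmonic -/
def hq1 : Poly := scale 2 (mulP sg1 sg2) ++ mulP sg2 sg2

/-- second quadratic harmonic -/
def hq2 : Poly := mulP sg1 sg1 ++ scale 2 (mulP sg1 sg2)

/-- the cubic harmonic -/
def hcub : Poly := mulP sg1 (mulP sg1 sg2) ++ mulP sg1 (mulP sg2 sg2)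

/-- products of the elements of `H`, with their degrees -/
def etas : List (ℕ × Poly) := [(0, [(1,[])]), (1, [(1,[0])]), (1, [(1,[1])]), (2, [(1,[0,1])])]

/-- the values of the harmonic polynomials, with their degrees -/
def harms : List (ℕ × Poly) :=
  [(0, [(1,[])]), (2, sg1), (2, sg2), (4, hq1), (4, hq2), (6, hcub)]

/-- the initial polynomials, with their degrees -/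
def init : List (ℕ × Poly) :=
  harms.flatMap fun t => etas.map fun e => (e.1 + t.1, mulP e.2 t.2)

/-- the initial polynomials of degree `d`, last first -/
def initD (d : ℕ) : List Poly := ((init.filter fun t => t.1 == d).map Prod.snd).reverse

/-- the certificate proves that all words of length `d` are in the subspace -/
def goodCert (d : ℕ) (ss : List Step) : Bool :=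
  match run B3 (initD d) ss with
  | none => false
  | some K => ((List.range 8).sublistsLen d).all fun w => K.contains [(1, w)]

theorem good0 : goodCert 0 steps0 = true := by decide +kernel
theorem good1 : goodCert 1 steps1 = true := by decide +kernel
theorem good2 : goodCert 2 steps2 = true := by decide +kernel
theorem good3 : goodCert 3 steps3 = true := by decide +kernel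
theorem good4 : goodCert 4 steps4 = true := by decide +kernel
theorem good5 : goodCert 5 steps5 = true := by decide +kernel
theorem good6 : goodCert 6 steps6 = true := by decide +kernel
theorem good7 : goodCert 7 steps7 = true := by decide +kernel
theorem good8 : goodCert 8 steps8 = true := by decide +kernel

end Pool.Agent.KS6_37.Phi.Core
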