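import Pool.Agent.KS6_37.Phi.Ideals

/-!
# The minimal ideals are isomorphic to `sl(2)` or `sl(3)`
-/

set_option autoImplicit false
set_option linter.unusedSectionVars false

noncomputable section

namespace Pool.Agent.KS6_37.Phi

open LieAlgebra LieAlgebra.IsKilling LieModule Pool.Agent.KS6_37.Phi.Core
open Pool.Agent.KS6_37.PhiRP Module

attribute [local instance 100] LieRing.ofAssociativeRing

section general

variable {g : Type} [LieRing g] [LieAlgebra ℂ g] [FiniteDimensional ℂ g]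

theorem sw_lie {x y z : g} (h : ⁅x, y⁆ = z) : ⁅y, x⁆ = -z := by rw [← lie_skew, h]

/-- the image of a matrix of trace zero -/
def val3 (c d e1 e2 e3 f1 f2 f3 : g) (M : Matrix (Fin 3) (Fin 3) ℂ) : g :=
  M 0 0 • c - M 2 2 • d + M 0 1 • e1 + M 1 2 • e2 + M 0 2 • e3 + M 1 0 • f1 + M 2 1 • f2 +
    M 2 0 • f3

theorem val3_lie {c d e1 e2 e3 f1 f2 f3 : g} (h : Br c d e1 e2 e3 f1 f2 f3)
    (M N : Matrix (Fin 3) (Fin 3) ℂ) (hM : M.trace = 0) (hN : N.trace = 0) :
    val3 c d e1 e2 e3 f1 f2 f3 (M * N - N * M) =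
      ⁅val3 c d e1 e2 e3 f1 f2 f3 M, val3 c d e1 e2 e3 f1 f2 f3 N⁆ := by
  obtain ⟨a1, a2, a3, a4, a5, a6, a7, a8, a9, a10, a11, a12, a13, a14, a15, a16, a17, a18, a19,
    a20, a21, a22, a23, a24, a25, a26, a27, a28⟩ := h
  have b1 := sw_lie a1
  have b2 := sw_lie a2
  have b3 := sw_lie a3
  have b4 := sw_lie a4
  have b5 := sw_lie a5
  have b6 := sw_lie a6
  have b7 := sw_lie a7
  have b8 := sw_lie a8
  have b9 := sw_lie a9
  have b10 := sw_lie a10
  have b11 := sw_lie a11
  have b12 := sw_lie a12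
  have b13 := sw_lie a13
  have b14 := sw_lie a14
  have b15 := sw_lie a15
  have b16 := sw_lie a16
  have b17 := sw_lie a17
  have b18 := sw_lie a18
  have b19 := sw_lie a19
  have b20 := sw_lie a20
  have b21 := sw_lie a21
  have b22 := sw_lie a22
  have b23 := sw_lie a23
  have b24 := sw_lie a24
  have b25 := sw_lie a25
  have b26 := sw_lie a26
  have b27 := sw_lie a27
  have b28 := sw_lie a28
  have tM : M 1 1 = -(M 0 0) - M 2 2 := by
    rw [Matrix.trace, Fin.sum_univ_three] at hM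
    simp only [Matrix.diag_apply] at hM
    linear_combination hM
  have tN : N 1 1 = -(N 0 0) - N 2 2 := by
    rw [Matrix.trace, Fin.sum_univ_three] at hN
    simp only [Matrix.diag_apply] at hN
    linear_combination hN
  simp only [val3, Matrix.sub_apply, Matrix.mul_apply, Fin.sum_univ_three, tM, tN]
  simp only [add_lie, lie_add, sub_lie, lie_sub, smul_lie, lie_smul, lie_self, smul_zero,
    a1, a2, a3, a4, a5, a6, a7, a8, a9, a10, a11, a12, a13, a14, a15,
    a16, a17, a18, a19, a20, a21, a22, a23, a24, a25, a26, a27, a28, b1, b2, b3, b4, b5,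
    b6, b7, b8, b9, b10, b11, b12, b13, b14, b15, b16, b17, b18, b19, b20, b21, b22, b23,
    b24, b25, b26, b27, b28]
  module

/-- the image of a matrix of trace zero -/
def val2 (c e f : g) (M : Matrix (Fin 2) (Fin 2) ℂ) : g :=
  M 0 0 • c + M 0 1 • e + M 1 0 • f

theorem val2_lie {c e f : g} (h1 : ⁅c, e⁆ = (2 : ℂ) • e) (h2 : ⁅c, f⁆ = -((2 : ℂ) • f))
    (h3 : ⁅e, f⁆ = c)
    (M N : Matrix (Fin 2) (Fin 2) ℂ) (hM : M.trace = 0) (hN : N.trace = 0) :
    val2 c e f (M * N - N * M) = ⁅val2 c e f M, val2 c e f N⁆ := by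
  have b1 := sw_lie h1
  have b2 := sw_lie h2
  have b3 := sw_lie h3
  have tM : M 1 1 = -(M 0 0) := by
    rw [Matrix.trace, Fin.sum_univ_two] at hM
    simp only [Matrix.diag_apply] at hM
    linear_combination hM
  have tN : N 1 1 = -(N 0 0) := by
    rw [Matrix.trace, Fin.sum_univ_two] at hN
    simp only [Matrix.diag_apply] at hN
    linear_combination hN
  simp only [val2, Matrix.sub_apply, Matrix.mul_apply, Fin.sum_univ_two, tM, tN]
  simp only [add_lie, lie_add, smul_lie, lie_smul, lie_self, smul_zero, h1, h2, h3, b1, b2, b3]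
  module

end general

end Pool.Agent.KS6_37.Phi

end

/-!
# The minimal ideals are isomorphic to `sl(2)` or `sl(3)`
-/

set_option autoImplicit false
set_option linter.unusedSectionVars false

noncomputable section

namespace Pool.Agent.KS6_37.Phi

open LieAlgebra LieAlgebra.IsKilling LieModule Pool.Agent.KS6_37.Phi.Core
open Pool.Agent.KS6_37.PhiRP Module

attribute [local instance 100] LieRing.ofAssociativeRing

theorem equiv_of {g : Type} [LieRing g] [LieAlgebra ℂ g] {n : ℕ} (I : LieIdeal ℂ g)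
    (v : Matrix (Fin n) (Fin n) ℂ →ₗ[ℂ] g)
    (hlie : ∀ M N : Matrix (Fin n) (Fin n) ℂ, M.trace = 0 → N.trace = 0 →
      v (M * N - N * M) = ⁅v M, v N⁆)
    (hinj : ∀ M : Matrix (Fin n) (Fin n) ℂ, M.trace = 0 → v M = 0 → M = 0)
    (h1 : ∀ M : Matrix (Fin n) (Fin n) ℂ, M.trace = 0 → v M ∈ I)
    (h2 : ∀ x ∈ I, ∃ M : Matrix (Fin n) (Fin n) ℂ, M.trace = 0 ∧ v M = x) :
    Nonempty (I ≃ₗ⁅ℂ⁆ LieAlgebra.SpecialLinear.sl (Fin n) ℂ) := by
  let f : LieAlgebra.SpecialLinear.sl (Fin n) ℂ →ₗ⁅ℂ⁆ I :=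
    { toFun := fun M => ⟨v M.1, h1 M.1 M.2⟩
      map_add' := fun M N => Subtype.ext (map_add v M.1 N.1)
      map_smul' := fun c M => Subtype.ext (map_smul v c M.1)
      map_lie' := fun {M N} => Subtype.ext (hlie M.1 N.1 M.2 N.2) }
  refine ⟨(LieEquiv.ofBijective f ⟨?_, ?_⟩).symm⟩
  · intro M N hMN
    have h3 : v M.1 = v N.1 := congrArg Subtype.val hMN
    have h4 : M.1 - N.1 = 0 := by
      refine hinj _ ?_ (by rw [map_sub, h3, sub_self])
      have hM : M.1.trace = 0 := M.2
      have hN : N.1.trace = 0 := N.2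
      rw [Matrix.trace_sub, hM, hN, sub_zero]
    exact Subtype.ext (sub_eq_zero.1 h4)
  · rintro ⟨x, hx⟩
    obtain ⟨M, hM, rfl⟩ := h2 x hx
    exact ⟨⟨M, hM⟩, rfl⟩

variable {g : Type} [LieRing g] [LieAlgebra ℂ g] [FiniteDimensional ℂ g]
variable [LieAlgebra.IsKilling ℂ g]
variable {H : LieSubalgebra ℂ g} [H.IsCartanSubalgebra]

/-- `val3` as a linear map -/
def lin3 (c d e1 e2 e3 f1 f2 f3 : g) : Matrix (Fin 3) (Fin 3) ℂ →ₗ[ℂ] g where
  toFun := val3 c d e1 e2 e3 f1 f2 f3
  map_add' M N := by simp only [val3, Matrix.add_apply]; module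
  map_smul' a M := by simp only [val3, Matrix.smul_apply, smul_eq_mul, RingHom.id_apply]; module

/-- `val2` as a linear map -/
def lin2 (c e f : g) : Matrix (Fin 2) (Fin 2) ℂ →ₗ[ℂ] g where
  toFun := val2 c e f
  map_add' M N := by simp only [val2, Matrix.add_apply]; module
  map_smul' a M := by simp only [val2, Matrix.smul_apply, smul_eq_mul, RingHom.id_apply]; module

/-- the part in `H` and the coefficients of root vectors vanish if the sum does -/
theorem split_zero {m : ℕ} (W : Fin m → Weight ℂ H g) (hW : ∀ i, (W i).IsNonZero)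
    (hinj : Function.Injective W) (x : Fin m → g) (hx : ∀ i, x i ∈ rootSpace H (W i))
    (hx0 : ∀ i, x i ≠ 0) (h : H) (c : Fin m → ℂ) (hsum : (h : g) + ∑ i, c i • x i = 0) :
    h = 0 ∧ ∀ i, c i = 0 := by
  have hWinj : Function.Injective fun i => ((W i : Weight ℂ H g) : H → ℂ) := by
    intro i j hij
    exact hinj (DFunLike.coe_injective hij)
  have hli := li_of_weights (fun i => (W i : H → ℂ)) hWinj x hx hx0
  have hd := disj_of_weights (fun i => (W i : H → ℂ)) (fun i => hW i) x hx ⊤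
  have h1 : (h : g) ∈ (⊤ : Submodule ℂ H).map (H.incl : H →ₗ[ℂ] g) := ⟨h, trivial, rfl⟩
  have h2 : ∑ i, c i • x i ∈ Submodule.span ℂ (Set.range x) :=
    Submodule.sum_mem _ fun i _ => Submodule.smul_mem _ _ (Submodule.subset_span ⟨i, rfl⟩)
  have h3 : (h : g) ∈ Submodule.span ℂ (Set.range x) := by
    rw [eq_neg_of_add_eq_zero_left hsum]
    exact neg_mem h2
  have h4 : (h : g) = 0 := by
    have h5 : (h : g) ∈ (⊤ : Submodule ℂ H).map (H.incl : H →ₗ[ℂ] g) ⊓
      Submodule.span ℂ (Set.range x) := ⟨h1, h3⟩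
    rwa [hd.eq_bot, Submodule.mem_bot] at h5
  refine ⟨Subtype.ext h4, ?_⟩
  rw [h4, zero_add] at hsum
  exact Fintype.linearIndependent_iff.1 hli c hsum

theorem iso_two {α β : Weight ℂ H g} {γ : Weight ℂ H g} (A : IsA2 α β γ) (I : LieIdeal ℂ g)
    (hI : I.toSubmodule = bs (g := g) (set2 α β)) :
    Nonempty (I ≃ₗ⁅ℂ⁆ LieAlgebra.SpecialLinear.sl (Fin 3) ℂ) := by
  obtain ⟨e1, f1, he1, hf1, h1⟩ := exists_ef A.hα
  obtain ⟨e2, f2, he2, hf2, h2⟩ := exists_ef A.hβ
  have hbr := br_a2 A he1 he2 hf1 hf2 h1 h2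
  rw [bs_a2 A he1 he2 hf1 hf2 h1 h2] at hI
  have hk := kill_ne_zero A.hα he1 hf1 h1
  rw [← (kill_a2 A he1 he2 hf1 hf2 h1 h2).1] at hk
  have ne1 := he0 A.hα he1 hf1 h1
  have ne2 := he0 A.hβ he2 hf2 h2
  have nf1 := hf0 A.hα he1 hf1 h1
  have nf2 := hf0 A.hβ he2 hf2 h2
  have ne3 : ⁅e1, e2⁆ ≠ 0 := by intro h; rw [h] at hk; simp at hk
  have nf3 : ⁅f2, f1⁆ ≠ 0 := by intro h; rw [h] at hk; simp at hk
  have me := me3 A he1 he2
  have mf := mf3 A hf1 hf2
  have hp1 : pz α β = -1 := pz_eq (by rw [A.p1]; norm_num)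
  have hp2 : pz β α = -1 := pz_eq (by rw [A.p2]; norm_num)
  have hp3 : pz γ α = 1 := pz_eq (by rw [A.gc]; norm_num)
  have hp4 : pz γ β = 1 := pz_eq (by rw [A.gd]; norm_num)
  have hp5 := pz_self A.hα
  have hp6 := pz_self A.hβ
  let W : Fin 6 → Weight ℂ H g := ![α, β, γ, -α, -β, -γ]
  let F : Weight ℂ H g → ℤ × ℤ := fun δ => (pz δ α, pz δ β)
  have hFW : F ∘ W = ![(2, -1), (-1, 2), (1, 1), (-2, 1), (1, -2), (-1, -1)] := by
    funext i
    fin_cases i
    · change (pz α α, pz α β) = _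
      rw [hp5, hp1]; rfl
    · change (pz β α, pz β β) = _
      rw [hp6, hp2]; rfl
    · change (pz γ α, pz γ β) = _
      rw [hp3, hp4]; rfl
    · change (pz (-α) α, pz (-α) β) = _
      rw [pz_neg_left, pz_neg_left, hp5, hp1]; rfl
    · change (pz (-β) α, pz (-β) β) = _
      rw [pz_neg_left, pz_neg_left, hp6, hp2]; rfl
    · change (pz (-γ) α, pz (-γ) β) = _
      rw [pz_neg_left, pz_neg_left, hp3, hp4]; rfl
  have hinj : Function.Injective W := by
    apply Function.Injective.of_comp (f := F)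
    rw [hFW]
    decide
  have hWnz : ∀ i, (W i).IsNonZero := by
    intro i
    fin_cases i
    · exact A.hα
    · exact A.hβ
    · exact A.hγ
    · exact A.hα.neg
    · exact A.hβ.neg
    · exact A.hγ.neg
  refine equiv_of I (lin3 (coroot α : g) (coroot β : g) e1 e2 ⁅e1, e2⁆ f1 f2 ⁅f2, f1⁆)
    (fun M N hM hN => val3_lie hbr M N hM hN) ?_ ?_ ?_
  · intro M hM h0
    have h3 := split_zero W hWnz hinj ![e1, e2, ⁅e1, e2⁆, f1, f2, ⁅f2, f1⁆] ?_ ?_
      (M 0 0 • coroot α - M 2 2 • coroot β)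
      ![M 0 1, M 1 2, M 0 2, M 1 0, M 2 1, M 2 0] ?_
    · obtain ⟨h4, h5⟩ := h3
      have h6 := congrArg α h4
      have h7 := congrArg β h4
      rw [map_sub, map_smul, map_smul, map_zero, root_apply_coroot A.hα, A.p1] at h6
      rw [map_sub, map_smul, map_smul, map_zero, root_apply_coroot A.hβ, A.p2] at h7
      simp only [smul_eq_mul] at h6 h7
      have m00 : M 0 0 = 0 := by linear_combination (2 * h6 + h7) / 3
      have m22 : M 2 2 = 0 := by linear_combination (-h6 - 2 * h7) / 3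
      have m11 : M 1 1 = 0 := by
        rw [Matrix.trace, Fin.sum_univ_three] at hM
        simp only [Matrix.diag_apply] at hM
        linear_combination hM - m00 - m22
      have c0 := h5 0
      have c1 := h5 1
      have c2 := h5 2
      have c3 := h5 3
      have c4 := h5 4
      have c5 := h5 5
      ext i j
      fin_cases i <;> fin_cases j
      · exact m00
      · exact c0
      · exact c2
      · exact c3
      · exact m11
      · exact c1
      · exact c5
      · exact c4
      · exact m22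
    · intro i
      fin_cases i
      · exact he1
      · exact he2
      · exact me
      · exact hf1
      · exact hf2
      · exact mf
    · intro i
      fin_cases i
      · exact ne1
      · exact ne2
      · exact ne3
      · exact nf1
      · exact nf2
      · exact nf3
    · rw [← h0]
      simp only [Fin.sum_univ_six]
      change (M 0 0 • (coroot α : g) - M 2 2 • (coroot β : g)) + (M 0 1 • e1 + M 1 2 • e2 +
        M 0 2 • ⁅e1, e2⁆ + M 1 0 • f1 + M 2 1 • f2 + M 2 0 • ⁅f2, f1⁆) =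
        val3 (coroot α : g) (coroot β : g) e1 e2 ⁅e1, e2⁆ f1 f2 ⁅f2, f1⁆ M
      rw [val3]
      abel
  · intro M _
    change val3 (coroot α : g) (coroot β : g) e1 e2 ⁅e1, e2⁆ f1 f2 ⁅f2, f1⁆ M ∈ I.toSubmodule
    rw [hI, val3]
    have m : ∀ x ∈ [(coroot α : g), (coroot β : g), e1, e2, ⁅e1, e2⁆, f1, f2, ⁅f2, f1⁆],
        ∀ c : ℂ, c • x ∈ Submodule.span ℂ (Set.range
          (seq [(coroot α : g), (coroot β : g), e1, e2, ⁅e1, e2⁆, f1, f2, ⁅f2, f1⁆])) :=
      fun x hx c => Submodule.smul_mem _ _ (mem_span_seq hx)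
    refine add_mem (add_mem (add_mem (add_mem (add_mem (add_mem (sub_mem ?_ ?_) ?_) ?_) ?_) ?_)
      ?_) ?_ <;> exact m _ (by simp) _
  · intro x hx
    have hx' : x ∈ Submodule.span ℂ (Set.range
          (seq [(coroot α : g), (coroot β : g), e1, e2, ⁅e1, e2⁆, f1, f2, ⁅f2, f1⁆])) := by
      rw [← hI]; exact hx
    let R : Submodule ℂ g := (LinearMap.ker (Matrix.traceLinearMap (Fin 3) ℂ ℂ)).map
      (lin3 (coroot α : g) (coroot β : g) e1 e2 ⁅e1, e2⁆ f1 f2 ⁅f2, f1⁆)
    have hR : x ∈ R := by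
      refine span_seq_le ?_ hx'
      intro y hy
      simp only [List.mem_cons, List.not_mem_nil, or_false] at hy
      have tr : ∀ (M : Matrix (Fin 3) (Fin 3) ℂ), M 0 0 + M 1 1 + M 2 2 = 0 →
          M ∈ LinearMap.ker (Matrix.traceLinearMap (Fin 3) ℂ ℂ) := by
        intro M h
        rw [LinearMap.mem_ker, Matrix.traceLinearMap_apply, Matrix.trace, Fin.sum_univ_three]
        exact h
      rcases hy with rfl | rfl | rfl | rfl | rfl | rfl | rfl | rfl
      · refine ⟨!![1, 0, 0; 0, -1, 0; 0, 0, 0], tr _ (by simp), ?_⟩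
        change val3 _ _ _ _ _ _ _ _ _ = _
        simp [val3]
      · refine ⟨!![0, 0, 0; 0, 1, 0; 0, 0, -1], tr _ (by simp), ?_⟩
        change val3 _ _ _ _ _ _ _ _ _ = _
        simp [val3]
      · refine ⟨!![0, 1, 0; 0, 0, 0; 0, 0, 0], tr _ (by simp), ?_⟩
        change val3 _ _ _ _ _ _ _ _ _ = _
        simp [val3]
      · refine ⟨!![0, 0, 0; 0, 0, 1; 0, 0, 0], tr _ (by simp), ?_⟩
        change val3 _ _ _ _ _ _ _ _ _ = _
        simp [val3]
      · refine ⟨!![0, 0, 1; 0, 0, 0; 0, 0, 0], tr _ (by simp), ?_⟩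
        change val3 _ _ _ _ _ _ _ _ _ = _
        simp [val3]
      · refine ⟨!![0, 0, 0; 1, 0, 0; 0, 0, 0], tr _ (by simp), ?_⟩
        change val3 _ _ _ _ _ _ _ _ _ = _
        simp [val3]
      · refine ⟨!![0, 0, 0; 0, 0, 0; 0, 1, 0], tr _ (by simp), ?_⟩
        change val3 _ _ _ _ _ _ _ _ _ = _
        simp [val3]
      · refine ⟨!![0, 0, 0; 0, 0, 0; 1, 0, 0], tr _ (by simp), ?_⟩
        change val3 _ _ _ _ _ _ _ _ _ = _
        simp [val3]
    obtain ⟨M, hM, rfl⟩ := hR
    exact ⟨M, hM, rfl⟩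

end Pool.Agent.KS6_37.Phi

end

/-!
# The minimal ideals are isomorphic to `sl(2)` or `sl(3)`: conclusion; the projection
-/

set_option autoImplicit false
set_option linter.unusedSectionVars false

noncomputable section

namespace Pool.Agent.KS6_37.Phi

open LieAlgebra LieAlgebra.IsKilling LieModule Pool.Agent.KS6_37.Phi.Core
open Pool.Agent.KS6_37.PhiRP Module

attribute [local instance 100] LieRing.ofAssociativeRing

variable {g : Type} [LieRing g] [LieAlgebra ℂ g] [FiniteDimensional ℂ g]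
variable [LieAlgebra.IsKilling ℂ g]
variable {H : LieSubalgebra ℂ g} [H.IsCartanSubalgebra]

theorem iso_one {α : Weight ℂ H g} (hα : α.IsNonZero) (I : LieIdeal ℂ g)
    (hI : I.toSubmodule = bs (g := g) (set1 α)) :
    Nonempty (I ≃ₗ⁅ℂ⁆ LieAlgebra.SpecialLinear.sl (Fin 2) ℂ) := by
  obtain ⟨e, f, he, hf, hef⟩ := exists_ef hα
  have l1 : ⁅(coroot α : g), e⁆ = (2 : ℂ) • e := by
    have := lie_eq_smul_of_mem_rootSpace he (coroot α)
    rwa [root_apply_coroot hα] at this
  have l2 : ⁅(coroot α : g), f⁆ = -((2 : ℂ) • f) := by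
    have := lie_eq_smul_of_mem_rootSpace hf (coroot α)
    rw [Pi.neg_apply, root_apply_coroot hα, neg_smul] at this
    exact this
  have ne := he0 hα he hf hef
  have nf := hf0 hα he hf hef
  rw [bs_a1 hα he hf hef] at hI
  have hp5 := pz_self hα
  let W : Fin 2 → Weight ℂ H g := ![α, -α]
  let F : Weight ℂ H g → ℤ := fun δ => pz δ α
  have hFW : F ∘ W = ![2, -2] := by
    funext i
    fin_cases i
    · change pz α α = _
      rw [hp5]; rfl
    · change pz (-α) α = _
      rw [pz_neg_left, hp5]; rfl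
  have hinj : Function.Injective W := by
    apply Function.Injective.of_comp (f := F)
    rw [hFW]
    decide
  have hWnz : ∀ i, (W i).IsNonZero := by
    intro i
    fin_cases i
    · exact hα
    · exact hα.neg
  refine equiv_of I (lin2 (coroot α : g) e f)
    (fun M N hM hN => val2_lie l1 l2 hef M N hM hN) ?_ ?_ ?_
  · intro M hM h0
    have h3 := split_zero W hWnz hinj ![e, f] ?_ ?_ (M 0 0 • coroot α) ![M 0 1, M 1 0] ?_
    · obtain ⟨h4, h5⟩ := h3
      have h6 := congrArg α h4
      rw [map_smul, map_zero, root_apply_coroot hα] at h6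
      simp only [smul_eq_mul] at h6
      have m00 : M 0 0 = 0 := by linear_combination h6 / 2
      have m11 : M 1 1 = 0 := by
        rw [Matrix.trace, Fin.sum_univ_two] at hM
        simp only [Matrix.diag_apply] at hM
        linear_combination hM - m00
      have c0 := h5 0
      have c1 := h5 1
      ext i j
      fin_cases i <;> fin_cases j
      · exact m00
      · exact c0
      · exact c1
      · exact m11
    · intro i
      fin_cases i
      · exact he
      · exact hf
    · intro i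
      fin_cases i
      · exact ne
      · exact nf
    · rw [← h0]
      simp only [Fin.sum_univ_two]
      change M 0 0 • (coroot α : g) + (M 0 1 • e + M 1 0 • f) = val2 (coroot α : g) e f M
      rw [val2]
      abel
  · intro M _
    change val2 (coroot α : g) e f M ∈ I.toSubmodule
    rw [hI, val2]
    have m : ∀ x ∈ [(coroot α : g), e, f],
        ∀ c : ℂ, c • x ∈ Submodule.span ℂ (Set.range (seq [(coroot α : g), e, f])) :=
      fun x hx c => Submodule.smul_mem _ _ (mem_span_seq hx)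
    refine add_mem (add_mem ?_ ?_) ?_ <;> exact m _ (by simp) _
  · intro x hx
    have hx' : x ∈ Submodule.span ℂ (Set.range (seq [(coroot α : g), e, f])) := by
      rw [← hI]; exact hx
    let R : Submodule ℂ g := (LinearMap.ker (Matrix.traceLinearMap (Fin 2) ℂ ℂ)).map
      (lin2 (coroot α : g) e f)
    have hR : x ∈ R := by
      refine span_seq_le ?_ hx'
      intro y hy
      simp only [List.mem_cons, List.not_mem_nil, or_false] at hy
      have tr : ∀ (M : Matrix (Fin 2) (Fin 2) ℂ), M 0 0 + M 1 1 = 0 →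
          M ∈ LinearMap.ker (Matrix.traceLinearMap (Fin 2) ℂ ℂ) := by
        intro M h
        rw [LinearMap.mem_ker, Matrix.traceLinearMap_apply, Matrix.trace, Fin.sum_univ_two]
        exact h
      rcases hy with rfl | rfl | rfl
      · refine ⟨!![1, 0; 0, -1], tr _ (by simp), ?_⟩
        change val2 _ _ _ _ = _
        simp [val2]
      · refine ⟨!![0, 1; 0, 0], tr _ (by simp), ?_⟩
        change val2 _ _ _ _ = _
        simp [val2]
      · refine ⟨!![0, 0; 1, 0], tr _ (by simp), ?_⟩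
        change val2 _ _ _ _ = _
        simp [val2]
    obtain ⟨M, hM, rfl⟩ := hR
    exact ⟨M, hM, rfl⟩

theorem atom_iso (hC : C1 H) (hC2 : C2 H) (I : LieIdeal ℂ g) (hI : IsAtom I) :
    Nonempty (I ≃ₗ⁅ℂ⁆ LieAlgebra.SpecialLinear.sl (Fin 2) ℂ) ∨
      Nonempty (I ≃ₗ⁅ℂ⁆ LieAlgebra.SpecialLinear.sl (Fin 3) ℂ) := by
  obtain ⟨F, hF, hIF⟩ := atom_eq_block hC hC2 I hI
  have h1 : I.toSubmodule = bs (g := g) (prs F) := by rw [hIF]; rfl
  clear hIF
  cases hF with
  | one α hα h0 =>
    left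
    rw [prs_F1] at h1
    exact iso_one hα I h1
  | two α β hα hβ h =>
    right
    have A := isA2_sm hC hα hβ h
    rw [prs_F2 A] at h1
    exact iso_two A I h1

theorem finrank_sl_lt (n : ℕ) [NeZero n] :
    finrank ℂ (LieAlgebra.SpecialLinear.sl (Fin n) ℂ) < n * n := by
  have h1 : (LieAlgebra.SpecialLinear.sl (Fin n) ℂ).toSubmodule < ⊤ := by
    rw [lt_top_iff_ne_top]
    intro h
    have h2 : (1 : Matrix (Fin n) (Fin n) ℂ) ∈
        (LieAlgebra.SpecialLinear.sl (Fin n) ℂ).toSubmodule := by rw [h]; trivial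
    have h3 : (1 : Matrix (Fin n) (Fin n) ℂ).trace = 0 := h2
    rw [Matrix.trace_one, Fintype.card_fin] at h3
    exact NeZero.ne n (by exact_mod_cast h3)
  have h2 := Submodule.finrank_lt h1.ne
  rw [Module.finrank_matrix] at h2
  have h3 : finrank ℂ (LieAlgebra.SpecialLinear.sl (Fin n) ℂ).toSubmodule < n * n := by
    simpa using h2
  exact h3

theorem small_of_iso (I : LieIdeal ℂ g)
    (h : Nonempty (I ≃ₗ⁅ℂ⁆ LieAlgebra.SpecialLinear.sl (Fin 2) ℂ) ∨
      Nonempty (I ≃ₗ⁅ℂ⁆ LieAlgebra.SpecialLinear.sl (Fin 3) ℂ)) : finrank ℂ I ≤ 8 := by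
  rcases h with ⟨⟨e⟩⟩ | ⟨⟨e⟩⟩
  · have h1 := finrank_sl_lt 2
    have h2 := e.toLinearEquiv.finrank_eq
    omega
  · have h1 := finrank_sl_lt 3
    have h2 := e.toLinearEquiv.finrank_eq
    omega

/-- the projection onto `H` exists -/
theorem exists_proj : ∃ q : g →ₗ[ℂ] H, IsProj H q := by
  let p : Submodule ℂ g := H.toSubmodule
  let p' : Submodule ℂ g := ⨆ (χ : H → ℂ) (_ : χ ≠ 0), (rootSpace H χ).toSubmodule
  have hi : iSupIndep fun χ : H → ℂ => (rootSpace H χ).toSubmodule :=
    LieSubmodule.iSupIndep_toSubmodule.mpr (iSupIndep_genWeightSpace ℂ H g)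
  have h0 : (rootSpace H (0 : H → ℂ)).toSubmodule = p := by
    ext x
    rw [LieAlgebra.rootSpace_zero_eq]
    rfl
  have hd : Disjoint p p' := by
    rw [← h0]
    exact hi 0
  have hc : Codisjoint p p' := by
    rw [codisjoint_iff, eq_top_iff]
    intro x _
    have hx := mem_iSup_rootSpace (H := H) x
    induction hx using LieSubmodule.iSup_induction' with
    | mem χ x hx =>
      by_cases hχ : χ = 0
      · subst hχ
        exact Submodule.mem_sup_left (h0 ▸ hx)
      · refine Submodule.mem_sup_right ?_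
        have : (rootSpace H χ).toSubmodule ≤ p' := le_iSup₂_of_le χ hχ le_rfl
        exact this hx
    | zero => exact zero_mem _
    | add a b _ _ ha hb => exact add_mem (ha trivial) (hb trivial)
  have hcompl : IsCompl p p' := ⟨hd, hc⟩
  refine ⟨Submodule.projectionOnto p p' hcompl, ?_, ?_⟩
  · intro h
    exact Submodule.projectionOnto_apply_left hcompl h
  · intro α hα x hx
    have h1 : (rootSpace H α).toSubmodule ≤ p' := le_iSup₂_of_le (α : H → ℂ) hα le_rfl
    exact Submodule.projectionOnto_apply_of_mem_right hcompl (h1 hx)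

theorem proj_unique {q q' : g →ₗ[ℂ] H} (hq : IsProj H q) (hq' : IsProj H q') : q = q' := by
  refine ext_rootSpace (H := H) _ _ (fun h => ?_) fun α hα x hx => ?_
  · rw [hq.self, hq'.self]
  · rw [hq.root α hα x hx, hq'.root α hα x hx]

end Pool.Agent.KS6_37.Phi

end

/-!
# The classification
-/

set_option autoImplicit false
set_option linter.unusedSectionVars false

open scoped TensorProduct

noncomputable section

namespace Pool.Agent.KS6_37.Phi

open LieAlgebra LieAlgebra.IsKilling LieModule Pool.Agent.KS6_37.Phi.Core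
open Pool.Agent.KS6_37.PhiRP Module

attribute [local instance 100] LieRing.ofAssociativeRing

section general

variable {g : Type} [LieRing g] [LieAlgebra ℂ g] [FiniteDimensional ℂ g]
variable [LieAlgebra.IsKilling ℂ g]
variable (H : LieSubalgebra ℂ g)

/-- There are a finite-dimensional irreducible `g`-module `V` and a nonzero homomorphism
`f : V → Λ g` such that `Φ (f v) = 0` for all `v ∈ V` (not only for those of weight zero), where
`Φ : Λ g → Λ H ⊗ A^*` may be formed with any linear map `q : g → H` in place of the projection,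
and with any subspace `A` of `S(H)` in place of the space of harmonic polynomials. -/
def StronglyNonInjective : Prop :=
  ∃ (V : Type) (_ : AddCommGroup V) (_ : Module ℂ V) (_ : LieRingModule g V)
    (_ : LieModule ℂ g V) (_ : FiniteDimensional ℂ V) (_ : LieModule.IsIrreducible ℂ g V)
    (f : V →ₗ⁅ℂ,g⁆ ExteriorAlgebra ℂ g), f ≠ 0 ∧
    ∀ (q : g →ₗ[ℂ] H) (A : Submodule ℂ (SymmetricAlgebra ℂ H)) (v : V),
      bigPhi q (H.incl : H →ₗ[ℂ] g) A (f v) = 0

variable {H}

theorem strong_of_NN {k : ℕ} (hk : finrank ℂ H < k) (hne : NN g k ≠ ⊥) :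
    StronglyNonInjective H := by
  obtain ⟨W, hW⟩ := exists_irr hne
  refine ⟨W, inferInstance, inferInstance, inferInstance, inferInstance, inferInstance, hW,
    (NN g k).incl.comp W.incl, ?_, ?_⟩
  · intro h1
    have hnt : Nontrivial W := LieModule.nontrivial_of_isIrreducible ℂ g W
    obtain ⟨v, hv⟩ := exists_ne (0 : W)
    apply hv
    have h2 := DFunLike.congr_fun h1 v
    apply Subtype.ext
    apply Subtype.ext
    exact h2
  · intro q A v
    exact bigPhi_NN q (H.incl : H →ₗ[ℂ] g) A hk _ (W.incl v).2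

theorem strong_of_abelian (a : LieSubalgebra ℂ g) (ha : IsLieAbelian a)
    (h : finrank ℂ H < finrank ℂ a) : StronglyNonInjective H :=
  strong_of_NN h (NN_ne_bot_of_abelian a)

variable [H.IsCartanSubalgebra]

theorem not_of_strong (h : StronglyNonInjective H) (q : g →ₗ[ℂ] H) : ¬ AllInjective H q := by
  intro hall
  obtain ⟨V, i1, i2, i3, i4, i5, i6, f, hf, h1⟩ := h
  exact hf (hall V f fun v _ => h1 q (harmonic H) v)

theorem strong_of_not_C (h : ¬ (C1 H ∧ C2 H)) : StronglyNonInjective H := by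
  obtain ⟨L, hL⟩ := exists_conf h
  obtain ⟨a, ha, hlt⟩ := hL.ab
  exact strong_of_abelian a ha hlt

/-- **The classification.** -/
theorem tfae_injective {q : g →ₗ[ℂ] H} (hq : IsProj H q) :
    List.TFAE [
      AllInjective H q,
      ¬ StronglyNonInjective H,
      ∀ a : LieSubalgebra ℂ g, IsLieAbelian a → finrank ℂ a ≤ finrank ℂ H,
      ∀ I : LieIdeal ℂ g, IsAtom I → finrank ℂ I ≤ 8,
      ∀ I : LieIdeal ℂ g, IsAtom I →
        Nonempty (I ≃ₗ⁅ℂ⁆ LieAlgebra.SpecialLinear.sl (Fin 2) ℂ) ∨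
        Nonempty (I ≃ₗ⁅ℂ⁆ LieAlgebra.SpecialLinear.sl (Fin 3) ℂ)] := by
  have hCI : C1 H ∧ C2 H → AllInjective H q := fun h => allInjective_of_C hq h.1 h.2
  tfae_have 1 → 2 := fun h1 h2 => not_of_strong h2 q h1
  tfae_have 2 → 3 := by
    intro h2 a ha
    by_contra hlt
    exact h2 (strong_of_abelian a ha (not_le.1 hlt))
  tfae_have 3 → 5 := by
    intro h3
    have hC : C1 H ∧ C2 H := by
      by_contra hC
      obtain ⟨L, hL⟩ := exists_conf hC
      obtain ⟨a, ha, hlt⟩ := hL.ab
      exact absurd (h3 a ha) (not_le.2 hlt)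
    exact fun I hI => atom_iso hC.1 hC.2 I hI
  tfae_have 5 → 4 := fun h5 I hI => small_of_iso I (h5 I hI)
  tfae_have 4 → 1 := by
    intro h4
    apply hCI
    by_contra hC
    obtain ⟨L, hL⟩ := exists_conf hC
    obtain ⟨I, hI, h9⟩ := hL.exists_big
    have := h4 I hI
    omega
  tfae_finish

theorem strong_of_dim (h : 4 * finrank ℂ H < finrank ℂ g) : StronglyNonInjective H := by
  refine strong_of_not_C fun hC => ?_
  have := finrank_le_four_mul hC.1 hC.2
  omega

end general

/-- the case of `sl(n)` -/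
theorem sl_iff (n : ℕ) (hn : 2 ≤ n) :
    ∃ (_ : LieAlgebra.IsKilling ℂ (LieAlgebra.SpecialLinear.sl (Fin n) ℂ))
      (H : LieSubalgebra ℂ (LieAlgebra.SpecialLinear.sl (Fin n) ℂ)) (_ : H.IsCartanSubalgebra),
      (∀ x : LieAlgebra.SpecialLinear.sl (Fin n) ℂ,
        x ∈ H ↔ (x : Matrix (Fin n) (Fin n) ℂ).IsDiag) ∧
      ∀ q, IsProj H q → (AllInjective H q ↔ n ≤ 3) := by
  have hK := Sl.isKilling n hn
  refine ⟨hK, Sl.diag n, inferInstance, fun x => ?_, fun q hq => ?_⟩
  · constructor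
    · intro hx i j hij
      exact hx i j hij
    · intro hx i j hij
      exact hx hij
  · constructor
    · intro hall
      by_contra hn4
      obtain ⟨k, v, hk, hv, hc⟩ := Sl.commuting (n := n) (by omega)
      have h1 := Sl.finrank_diag (n := n) (by omega)
      exact not_of_strong (strong_of_NN (lt_of_lt_of_le h1 hk) (NN_ne_bot v hv hc)) q hall
    · intro hn3
      refine ((tfae_injective hq).out 0 3).2 fun I _ => ?_
      have h1 := Submodule.finrank_le I.toSubmodule
      have : NeZero n := ⟨by omega⟩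
      have h2 := finrank_sl_lt n
      have h3 : finrank ℂ I ≤ finrank ℂ (LieAlgebra.SpecialLinear.sl (Fin n) ℂ) := h1
      have h4 : n * n ≤ 9 := by
        interval_cases n <;> norm_num
      omega

end Pool.Agent.KS6_37.Phi

end
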