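import Pool.Agent.KS6_37.Phi.LibC

/-!
# Contractions of exterior vectors by the bivectors `s(h)`
-/

set_option autoImplicit false
set_option linter.unusedSectionVars false

open scoped TensorProduct

noncomputable section

namespace Pool.Agent.KS6_37.PhiRP

open Pool.Agent.KS6_37.Phi

section Lin

variable {g : Type} [AddCommGroup g] [Module ℂ g]

/-- the main involution -/
abbrev sgn (g : Type) [AddCommGroup g] [Module ℂ g] :
    ExteriorAlgebra ℂ g →ₐ[ℂ] ExteriorAlgebra ℂ g :=
  CliffordAlgebra.involute (Q := (0 : QuadraticForm ℂ g))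

theorem sgn_ι_mul (x : g) (w : ExteriorAlgebra ℂ g) :
    sgn g (ExteriorAlgebra.ι ℂ x * w) = -(ExteriorAlgebra.ι ℂ x * sgn g w) := involute_ι_mul x w

theorem sgn_sgn (w : ExteriorAlgebra ℂ g) : sgn g (sgn g w) = w :=
  CliffordAlgebra.involute_involute w

theorem ct_algebraMap (d : Module.Dual ℂ g) (r : ℂ) :
    ct d (algebraMap ℂ (ExteriorAlgebra ℂ g) r) = 0 := by
  rw [ct, CliffordAlgebra.contractLeft_algebraMap]

theorem ct_sgn (d : Module.Dual ℂ g) (w : ExteriorAlgebra ℂ g) :
    ct d (sgn g w) = -sgn g (ct d w) := by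
  induction w using left_ind with
  | h1 r =>
    rw [ct_algebraMap, map_zero, neg_zero]
    have : sgn g (algebraMap ℂ (ExteriorAlgebra ℂ g) r) = algebraMap ℂ _ r := AlgHom.commutes _ r
    rw [this, ct_algebraMap]
  | h2 x y hx hy => simp only [map_add, hx, hy, neg_add]
  | h3 m x hx =>
    rw [sgn_ι_mul, map_neg, ct_ι_mul, hx, ct_ι_mul, map_sub, map_smul, sgn_ι_mul]
    simp only [mul_neg]

theorem map_one_algebraMap (r : ℂ) :
    coproduct g (algebraMap ℂ (ExteriorAlgebra ℂ g) r) = r • (1 ⊗ₜ[ℂ] 1) := by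
  rw [Algebra.algebraMap_eq_smul_one, map_smul, coproduct_one]

theorem step_ct (d : Module.Dual ℂ g) (m : g)
    (T : ExteriorAlgebra ℂ g ⊗[ℂ] ExteriorAlgebra ℂ g) :
    TensorProduct.map LinearMap.id (ct d) (step m T) =
      d m • TensorProduct.map (sgn g).toLinearMap LinearMap.id T -
        TensorProduct.map (sgn g).toLinearMap LinearMap.id
          (step m (TensorProduct.map (sgn g).toLinearMap LinearMap.id
            (TensorProduct.map LinearMap.id (ct d) T))) := by
  induction T using TensorProduct.induction_on with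
  | zero => simp
  | add x y hx hy => simp only [map_add, hx, hy, smul_add]; abel
  | tmul a b =>
    simp only [TensorProduct.map_tmul, step_tmul, map_add, LinearMap.id_apply,
      AlgHom.toLinearMap_apply, ct_ι_mul]
    have h1 : sgn g (ExteriorAlgebra.ι ℂ m * sgn g a) = -(ExteriorAlgebra.ι ℂ m * a) := by
      rw [sgn_ι_mul, sgn_sgn]
    have h2 : (sgn g) (CliffordAlgebra.involute ((sgn g) a)) = sgn g a :=
      congrArg (sgn g) (sgn_sgn a)
    rw [h1, h2, TensorProduct.tmul_sub, TensorProduct.tmul_smul, TensorProduct.neg_tmul]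
    change _ + (d m • (sgn g a ⊗ₜ[ℂ] b) - sgn g a ⊗ₜ[ℂ] (ExteriorAlgebra.ι ℂ m * ct d b)) = _
    abel

theorem map_sgn_sgn (T : ExteriorAlgebra ℂ g ⊗[ℂ] ExteriorAlgebra ℂ g) :
    TensorProduct.map (sgn g).toLinearMap LinearMap.id
      (TensorProduct.map (sgn g).toLinearMap LinearMap.id T) = T := by
  induction T using TensorProduct.induction_on with
  | zero => simp
  | add x y hx hy => simp only [map_add, hx, hy]
  | tmul a b =>
    simp only [TensorProduct.map_tmul, LinearMap.id_apply, AlgHom.toLinearMap_apply, sgn_sgn]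

/-- contraction of the second leg of the coproduct -/
theorem cop_ct (d : Module.Dual ℂ g) (w : ExteriorAlgebra ℂ g) :
    TensorProduct.map LinearMap.id (ct d) (coproduct g w) =
      TensorProduct.map (sgn g).toLinearMap LinearMap.id (coproduct g (ct d w)) := by
  induction w using left_ind with
  | h1 r =>
    rw [ct_algebraMap, map_one_algebraMap, map_zero, map_zero, map_smul, TensorProduct.map_tmul]
    have : ct d (1 : ExteriorAlgebra ℂ g) = 0 := by
      rw [← map_one (algebraMap ℂ (ExteriorAlgebra ℂ g)), ct_algebraMap]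
    rw [this, TensorProduct.tmul_zero, smul_zero]
  | h2 x y hx hy => simp only [map_add, hx, hy]
  | h3 m x hx =>
    rw [coproduct_ι_mul, step_ct, hx, map_sgn_sgn, ct_ι_mul, map_sub, map_sub, map_smul, map_smul,
      coproduct_ι_mul]

theorem cop_ct_ct (d e : Module.Dual ℂ g) (w : ExteriorAlgebra ℂ g) :
    TensorProduct.map LinearMap.id (ct e ∘ₗ ct d) (coproduct g w) =
      coproduct g (ct e (ct d w)) := by
  have h1 : TensorProduct.map LinearMap.id (ct e ∘ₗ ct d) (coproduct g w) =
      TensorProduct.map LinearMap.id (ct e)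
        (TensorProduct.map LinearMap.id (ct d) (coproduct g w)) := by
    generalize coproduct g w = T
    induction T using TensorProduct.induction_on with
    | zero => simp
    | add x y hx hy => simp only [map_add, hx, hy]
    | tmul a b => simp only [TensorProduct.map_tmul, LinearMap.id_apply, LinearMap.comp_apply]
  have h2 : ∀ T : ExteriorAlgebra ℂ g ⊗[ℂ] ExteriorAlgebra ℂ g,
      TensorProduct.map LinearMap.id (ct e)
        (TensorProduct.map (sgn g).toLinearMap LinearMap.id T) =
      TensorProduct.map (sgn g).toLinearMap LinearMap.id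
        (TensorProduct.map LinearMap.id (ct e) T) := by
    intro T
    induction T using TensorProduct.induction_on with
    | zero => simp
    | add x y hx hy => simp only [map_add, hx, hy]
    | tmul a b => simp only [TensorProduct.map_tmul, LinearMap.id_apply]
  rw [h1, cop_ct, h2, cop_ct, map_sgn_sgn]

/-- the pairing: multiplication in the second slot is adjoint to contraction in the first -/
theorem pair_mul (κ : g →ₗ[ℂ] Module.Dual ℂ g) (hκ : ∀ x y, κ x y = κ y x) (x : g)
    (w a : ExteriorAlgebra ℂ g) :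
    pairLin κ w (ExteriorAlgebra.ι ℂ x * a) = pairLin κ (ct (κ x) w) a := by
  induction w using left_ind generalizing a with
  | h1 r =>
    rw [ct_algebraMap, map_zero, LinearMap.zero_apply, Algebra.algebraMap_eq_smul_one, map_smul,
      LinearMap.smul_apply, pairing_one, eps_ι_mul, smul_zero]
  | h2 u v hu hv => simp only [map_add, LinearMap.add_apply, hu, hv]
  | h3 m u hu =>
    rw [pairing_ι_mul, ct_ι_mul, ct_ι_mul, map_sub, map_smul, map_sub, map_smul,
      LinearMap.sub_apply, LinearMap.smul_apply, hu, pairing_ι_mul, hκ m x]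

end Lin

section Lie

variable {g : Type} [LieRing g] [LieAlgebra ℂ g] [FiniteDimensional ℂ g]
variable [LieAlgebra.IsKilling ℂ g]

variable (g) in
/-- a basis -/
abbrev bb : Module.Basis (Fin (Module.finrank ℂ g)) ℂ g := Module.finBasis ℂ g

variable (g) in
/-- its dual basis -/
abbrev db : Module.Basis (Fin (Module.finrank ℂ g)) ℂ g :=
  LinearMap.BilinForm.dualBasis (killingForm ℂ g)
    (LieAlgebra.IsKilling.killingForm_nondegenerate ℂ g) (Module.finBasis ℂ g)

/-- contraction by the bivector `s(h)` -/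
def Ih (h : g) : ExteriorAlgebra ℂ g →ₗ[ℂ] ExteriorAlgebra ℂ g :=
  (1 / 2 : ℂ) • ∑ i, ct (killingForm ℂ g ⁅db g i, h⁆) ∘ₗ ct (killingForm ℂ g (bb g i))

theorem Ih_apply (h : g) (w : ExteriorAlgebra ℂ g) : Ih h w =
    (1 / 2 : ℂ) • ∑ i, ct (killingForm ℂ g ⁅db g i, h⁆) (ct (killingForm ℂ g (bb g i)) w) := by
  simp [Ih, LinearMap.sum_apply]

theorem pair_s (h : g) (w a : ExteriorAlgebra ℂ g) :
    pairLin (killingForm ℂ g) w (sMap g h * a) = pairLin (killingForm ℂ g) (Ih h w) a := by
  rw [sMap_apply, Ih_apply, smul_mul_assoc, Finset.sum_mul, map_smul, map_sum, map_smul, map_sum,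
    LinearMap.smul_apply, LinearMap.sum_apply]
  congr 1
  refine Finset.sum_congr rfl fun i _ => ?_
  rw [mul_assoc, pair_mul _ kill_symm, pair_mul _ kill_symm]

theorem Ih_sgn (h : g) (w : ExteriorAlgebra ℂ g) : Ih h (sgn g w) = sgn g (Ih h w) := by
  rw [Ih_apply, Ih_apply, map_smul, map_sum]
  congr 1
  refine Finset.sum_congr rfl fun i _ => ?_
  rw [ct_sgn, map_neg, ct_sgn, neg_neg]

theorem Ih_even (h : g) (w : ExteriorAlgebra ℂ g) : Ih h (evenProj g w) = evenProj g (Ih h w) := by
  rw [evenProj_def, evenProj_def, map_smul, map_add]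
  have := Ih_sgn h w
  rw [this]

theorem cop_Ih (h : g) (w : ExteriorAlgebra ℂ g) :
    TensorProduct.map LinearMap.id (Ih h) (coproduct g w) = coproduct g (Ih h w) := by
  have h1 : ∀ T : ExteriorAlgebra ℂ g ⊗[ℂ] ExteriorAlgebra ℂ g,
      TensorProduct.map LinearMap.id (Ih h) T = (1 / 2 : ℂ) • ∑ i,
        TensorProduct.map LinearMap.id
          (ct (killingForm ℂ g ⁅db g i, h⁆) ∘ₗ ct (killingForm ℂ g (bb g i))) T := by
    intro T
    induction T using TensorProduct.induction_on with
    | zero => simp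
    | add x y hx hy => simp only [map_add, hx, hy, Finset.sum_add_distrib, smul_add]
    | tmul a b =>
      simp only [TensorProduct.map_tmul, LinearMap.id_apply, LinearMap.comp_apply, Ih_apply]
      rw [TensorProduct.tmul_smul, TensorProduct.tmul_sum]
  rw [h1, Ih_apply, map_smul, map_sum]
  congr 1
  exact Finset.sum_congr rfl fun i _ => cop_ct_ct _ _ w

/-- `s(h)` and multiplication by a vector -/
theorem Ih_ι_mul (h x : g) (u : ExteriorAlgebra ℂ g) :
    Ih h (ExteriorAlgebra.ι ℂ x * u) =
      ct (killingForm ℂ g ⁅x, h⁆) u + ExteriorAlgebra.ι ℂ x * Ih h u := by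
  have key : (killingForm ℂ g ⁅x, h⁆ : Module.Dual ℂ g) = (1 / 2 : ℂ) • ∑ i,
      (killingForm ℂ g (bb g i) x • killingForm ℂ g ⁅db g i, h⁆ -
        killingForm ℂ g ⁅db g i, h⁆ x • killingForm ℂ g (bb g i)) := by
    refine LinearMap.ext fun y => ?_
    rw [LinearMap.smul_apply, LinearMap.sum_apply]
    have e1 := sum_dual x ⁅h, y⁆
    have e2 := sum_dual y ⁅h, x⁆
    have e3 : ∀ i, (killingForm ℂ g (bb g i) x • killingForm ℂ g ⁅db g i, h⁆ -
        killingForm ℂ g ⁅db g i, h⁆ x • killingForm ℂ g (bb g i)) y =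
        killingForm ℂ g x (bb g i) * killingForm ℂ g ⁅h, y⁆ (db g i) -
          killingForm ℂ g y (bb g i) * killingForm ℂ g ⁅h, x⁆ (db g i) := by
      intro i
      rw [LinearMap.sub_apply, LinearMap.smul_apply, LinearMap.smul_apply, smul_eq_mul,
        smul_eq_mul, kill_inv, kill_inv, kill_symm (bb g i) x, kill_symm (bb g i) y,
        kill_symm (db g i), kill_symm (db g i)]
      ring
    rw [Finset.sum_congr rfl fun i _ => e3 i, Finset.sum_sub_distrib, e1, e2, ← kill_inv x h y,
      kill_symm y ⁅h, x⁆, ← lie_skew h x, map_neg, LinearMap.neg_apply, smul_eq_mul]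
    ring
  rw [key, Ih_apply, Ih_apply, mul_smul_comm, Finset.mul_sum]
  have h4 : ct ((1 / 2 : ℂ) • ∑ i, (killingForm ℂ g (bb g i) x • killingForm ℂ g ⁅db g i, h⁆ -
        killingForm ℂ g ⁅db g i, h⁆ x • killingForm ℂ g (bb g i))) u =
      (1 / 2 : ℂ) • ∑ i, (killingForm ℂ g (bb g i) x • ct (killingForm ℂ g ⁅db g i, h⁆) u -
        killingForm ℂ g ⁅db g i, h⁆ x • ct (killingForm ℂ g (bb g i)) u) := by
    simp only [ct, map_smul, map_sum, map_sub, LinearMap.smul_apply, LinearMap.sum_apply,
      LinearMap.sub_apply]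
  rw [h4, ← smul_add, ← Finset.sum_add_distrib]
  congr 1
  refine Finset.sum_congr rfl fun i _ => ?_
  rw [ct_ι_mul, map_sub, map_smul, ct_ι_mul]
  abel

end Lie

end Pool.Agent.KS6_37.PhiRP
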