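import Pool.Agent.KS6_37.Phi.LibA

/-!
# A checker for membership in subspaces of an exterior algebra

Words are lists of indices of elements `X i` of `g`, polynomials are lists of words with integer
coefficients. The structure constants `⁅X a, X b⁆ = ∑ c • X k` are given by a function `B`.
-/

set_option autoImplicit false

noncomputable section

namespace Pool.Agent.KS6_37.Phi.Core

open Pool.Agent.KS6_37.Phi

/-- a list of words with coefficients -/
abbrev Poly := List (ℤ × List ℕ)

/-- a letter times a sorted word -/
def mulGen (y : ℕ) : List ℕ → ℤ × List ℕ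
  | [] => (1, [y])
  | z :: w => if y < z then (1, y :: z :: w) else if y = z then (0, []) else
      (-(mulGen y w).1, z :: (mulGen y w).2)

/-- a letter times a polynomial -/
def mulGenP (y : ℕ) (p : Poly) : Poly :=
  p.map fun t => (t.1 * (mulGen y t.2).1, (mulGen y t.2).2)

/-- multiplication by an integer -/
def scale (c : ℤ) (p : Poly) : Poly := p.map fun t => (c * t.1, t.2)

/-- a word times a polynomial -/
def mulW : List ℕ → Poly → Poly
  | [], q => q
  | z :: w, q => mulGenP z (mulW w q)

/-- product of polynomials -/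
def mulP (p q : Poly) : Poly := p.flatMap fun t => scale t.1 (mulW t.2 q)

/-- the derivation `ad X a` on words, for structure constants `B` -/
def actW (B : ℕ → ℕ → List (ℤ × ℕ)) (a : ℕ) : List ℕ → Poly
  | [] => []
  | z :: w => ((B a z).flatMap fun t => scale t.1 (mulGenP t.2 [(1, w)])) ++
      mulGenP z (actW B a w)

/-- the derivation `ad X a` on polynomials -/
def actP (B : ℕ → ℕ → List (ℤ × ℕ)) (a : ℕ) (p : Poly) : Poly :=
  p.flatMap fun t => scale t.1 (actW B a t.2)

/-- the coefficient of a word -/
def coeff (p : Poly) (w : List ℕ) : ℤ :=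
  p.foldr (fun t acc => if t.2 = w then t.1 + acc else acc) 0

/-- a sufficient condition for the polynomial to be zero -/
def isZero (p : Poly) : Bool := p.all fun t => decide (coeff p t.2 = 0)

/-- the operation in a step: `ad X a`, or the identity for `a = 99` -/
def op (B : ℕ → ℕ → List (ℤ × ℕ)) (a : ℕ) (p : Poly) : Poly := if a = 99 then p else actP B a p

/-- a step: `N * target = ∑ c * op a (K i)` -/
structure Step where
  N : ℤ
  target : Poly
  combo : List (ℤ × ℕ × ℕ)

/-- the value of the right hand side of a step -/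
def comboVal (B : ℕ → ℕ → List (ℤ × ℕ)) (K : List Poly) (c : List (ℤ × ℕ × ℕ)) : Poly :=
  c.flatMap fun t => scale t.1 (op B t.2.2 (K.getD t.2.1 []))

/-- the check of a step -/
def chk (B : ℕ → ℕ → List (ℤ × ℕ)) (K : List Poly) (s : Step) : Bool :=
  decide (s.N ≠ 0) && isZero (scale s.N s.target ++ scale (-1) (comboVal B K s.combo))

/-- run the steps -/
def run (B : ℕ → ℕ → List (ℤ × ℕ)) : List Poly → List Step → Option (List Poly)
  | K, [] => some K
  | K, s :: ss => if chk B K s then run B (s.target :: K) ss else none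

section sound

variable {g : Type} [AddCommGroup g] [Module ℂ g] (X : ℕ → g)

/-- the value of a word -/
def evw (w : List ℕ) : ExteriorAlgebra ℂ g := (w.map fun i => ExteriorAlgebra.ι ℂ (X i)).prod

/-- the value of a polynomial -/
def ev (p : Poly) : ExteriorAlgebra ℂ g := (p.map fun t => (t.1 : ℂ) • evw X t.2).sum

@[simp] theorem evw_nil : evw X [] = 1 := rfl

theorem evw_cons (z : ℕ) (w : List ℕ) :
    evw X (z :: w) = ExteriorAlgebra.ι ℂ (X z) * evw X w := by
  simp [evw]

@[simp] theorem ev_nil : ev X [] = 0 := rfl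

theorem ev_cons (t : ℤ × List ℕ) (p : Poly) :
    ev X (t :: p) = (t.1 : ℂ) • evw X t.2 + ev X p := by
  simp [ev]

theorem ev_append (p q : Poly) : ev X (p ++ q) = ev X p + ev X q := by
  simp [ev]

theorem ev_scale (c : ℤ) (p : Poly) : ev X (scale c p) = (c : ℂ) • ev X p := by
  induction p with
  | nil => simp [scale]
  | cons t p ih =>
    have : scale c (t :: p) = (c * t.1, t.2) :: scale c p := rfl
    rw [this, ev_cons, ev_cons, ih, smul_add, smul_smul]
    push_cast
    rfl

theorem mulGen_sound (y : ℕ) (w : List ℕ) :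
    ExteriorAlgebra.ι ℂ (X y) * evw X w = ((mulGen y w).1 : ℂ) • evw X (mulGen y w).2 := by
  induction w with
  | nil => simp [mulGen, evw_cons]
  | cons z w ih =>
    rw [mulGen]
    split_ifs with h1 h2
    · simp [evw_cons]
    · subst h2
      rw [evw_cons, ← mul_assoc, ExteriorAlgebra.ι_sq_zero, zero_mul]
      simp
    · rw [evw_cons, ← mul_assoc, ι_mul_ι_swap, neg_mul, mul_assoc, ih, evw_cons, mul_smul_comm]
      push_cast
      rw [neg_smul]

theorem ev_mulGenP (y : ℕ) (p : Poly) :
    ev X (mulGenP y p) = ExteriorAlgebra.ι ℂ (X y) * ev X p := by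
  induction p with
  | nil => simp [mulGenP]
  | cons t p ih =>
    have : mulGenP y (t :: p) = (t.1 * (mulGen y t.2).1, (mulGen y t.2).2) :: mulGenP y p := rfl
    rw [this, ev_cons, ev_cons, ih, mul_add, mul_smul_comm, mulGen_sound, smul_smul]
    push_cast
    rfl

theorem ev_mulW (w : List ℕ) (q : Poly) : ev X (mulW w q) = evw X w * ev X q := by
  induction w with
  | nil => simp [mulW]
  | cons z w ih => rw [mulW, ev_mulGenP, ih, evw_cons, mul_assoc]

theorem ev_mulP (p q : Poly) : ev X (mulP p q) = ev X p * ev X q := by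
  induction p with
  | nil => simp [mulP]
  | cons t p ih =>
    have : mulP (t :: p) q = scale t.1 (mulW t.2 q) ++ mulP p q := by simp [mulP]
    rw [this, ev_append, ev_scale, ev_mulW, ih, ev_cons, add_mul, smul_mul_assoc]

/-- the polynomial as a finitely supported function -/
def toF (p : Poly) : List ℕ →₀ ℤ := (p.map fun t => Finsupp.single t.2 t.1).sum

theorem toF_apply (p : Poly) (w : List ℕ) : toF p w = coeff p w := by
  induction p with
  | nil => simp [toF, coeff]
  | cons t p ih =>
    have h1 : toF (t :: p) = Finsupp.single t.2 t.1 + toF p := by simp [toF]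
    have h2 : coeff (t :: p) w = if t.2 = w then t.1 + coeff p w else coeff p w := rfl
    rw [h1, h2, Finsupp.add_apply, ih, Finsupp.single_apply]
    split_ifs <;> simp

theorem ev_eq_toF (p : Poly) : ev X p = (toF p).sum fun w c => (c : ℂ) • evw X w := by
  induction p with
  | nil => simp [toF]
  | cons t p ih =>
    have h1 : toF (t :: p) = Finsupp.single t.2 t.1 + toF p := by simp [toF]
    rw [h1, Finsupp.sum_add_index', Finsupp.sum_single_index, ev_cons, ih]
    · simp
    · intro a; simp
    · intro a b c; push_cast; rw [add_smul]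

theorem ev_eq_zero_of_isZero (p : Poly) (h : isZero p = true) : ev X p = 0 := by
  have h1 : toF p = 0 := by
    ext w
    rw [toF_apply]
    by_cases hw : w ∈ p.map Prod.snd
    · obtain ⟨t, ht, rfl⟩ := List.mem_map.1 hw
      have := (List.all_eq_true.1 h) t ht
      simpa using this
    · have : ∀ q : Poly, (∀ t ∈ q, t.2 ≠ w) → coeff q w = 0 := by
        intro q
        induction q with
        | nil => intro _; rfl
        | cons t q ih =>
          intro hq
          have h2 : coeff (t :: q) w = if t.2 = w then t.1 + coeff q w else coeff q w := rfl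
          rw [h2, if_neg (hq t (by simp)), ih fun t ht => hq t (by simp [ht])]
      rw [this p]
      · rfl
      · intro t ht he
        exact hw (List.mem_map.2 ⟨t, ht, he⟩)
  rw [ev_eq_toF, h1, Finsupp.sum_zero_index]

end sound

section lie

variable {g : Type} [LieRing g] [LieAlgebra ℂ g] [FiniteDimensional ℂ g] (X : ℕ → g)

theorem lie_one' (x : g) : ⁅x, (1 : ExteriorAlgebra ℂ g)⁆ = 0 := by
  rw [lie_ext_def]
  exact deriv_one (LieAlgebra.ad ℂ g x : g →ₗ[ℂ] g)

theorem lie_ι_mul (x y : g) (w : ExteriorAlgebra ℂ g) :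
    ⁅x, ExteriorAlgebra.ι ℂ y * w⁆ =
      ExteriorAlgebra.ι ℂ ⁅x, y⁆ * w + ExteriorAlgebra.ι ℂ y * ⁅x, w⁆ := by
  rw [lie_ext_def, lie_ext_def]
  exact deriv_ι_mul (LieAlgebra.ad ℂ g x : g →ₗ[ℂ] g) y w

variable {B : ℕ → ℕ → List (ℤ × ℕ)}

theorem ev_actW (hB : ∀ a b, ⁅X a, X b⁆ = ((B a b).map fun t => (t.1 : ℂ) • X t.2).sum)
    (a : ℕ) (w : List ℕ) : ev X (actW B a w) = ⁅X a, evw X w⁆ := by
  induction w with
  | nil => simp [actW, lie_one']
  | cons z w ih =>
    rw [actW, ev_append, ev_mulGenP, ih, evw_cons, lie_ι_mul, hB]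
    congr 1
    generalize B a z = l
    induction l with
    | nil => simp
    | cons t l ih2 =>
      rw [List.flatMap_cons, ev_append, ih2, List.map_cons, List.sum_cons, map_add, add_mul,
        ev_scale, ev_mulGenP, map_smul, smul_mul_assoc]
      simp [ev]

theorem ev_actP (hB : ∀ a b, ⁅X a, X b⁆ = ((B a b).map fun t => (t.1 : ℂ) • X t.2).sum)
    (a : ℕ) (p : Poly) : ev X (actP B a p) = ⁅X a, ev X p⁆ := by
  induction p with
  | nil => simp [actP]
  | cons t p ih =>
    have : actP B a (t :: p) = scale t.1 (actW B a t.2) ++ actP B a p := by simp [actP]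
    rw [this, ev_append, ev_scale, ev_actW X hB, ih, ev_cons, lie_add, lie_smul]

variable (P : Submodule ℂ (ExteriorAlgebra ℂ g))

theorem run_sound (hB : ∀ a b, ⁅X a, X b⁆ = ((B a b).map fun t => (t.1 : ℂ) • X t.2).sum)
    (hP : ∀ a, ∀ w ∈ P, ⁅X a, w⁆ ∈ P) (ss : List Step) :
    ∀ (K K' : List Poly), (∀ p ∈ K, ev X p ∈ P) → run B K ss = some K' → ∀ p ∈ K', ev X p ∈ P := by
  induction ss with
  | nil =>
    intro K K' hK h
    rw [run, Option.some.injEq] at h
    subst h
    exact hK
  | cons s ss ih =>
    intro K K' hK h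
    rw [run] at h
    split_ifs at h with hs
    refine ih _ _ ?_ h
    intro p hp
    rcases List.mem_cons.1 hp with rfl | hp
    · rw [chk, Bool.and_eq_true, decide_eq_true_eq] at hs
      have h1 := ev_eq_zero_of_isZero X _ hs.2
      rw [ev_append, ev_scale, ev_scale] at h1
      have h2 : ev X (comboVal B K s.combo) ∈ P := by
        rw [comboVal]
        generalize s.combo = c
        induction c with
        | nil => simp
        | cons t c ihc =>
          rw [List.flatMap_cons, ev_append, ev_scale]
          refine P.add_mem (P.smul_mem _ ?_) ihc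
          have h3 : ev X (K.getD t.2.1 []) ∈ P := by
            rw [List.getD_eq_getElem?_getD]
            cases h4 : K[t.2.1]? with
            | none => simp
            | some q => exact hK q (List.mem_of_getElem? h4)
          rw [op]
          split_ifs
          · exact h3
          · rw [ev_actP X hB]; exact hP _ _ h3
      have h3 : (s.N : ℂ) • ev X s.target ∈ P := by
        have : (s.N : ℂ) • ev X s.target = ev X (comboVal B K s.combo) := by
          have h5 : ((-1 : ℤ) : ℂ) • ev X (comboVal B K s.combo) =
            - ev X (comboVal B K s.combo) := by push_cast; rw [neg_one_smul]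
          rw [h5] at h1
          exact eq_of_sub_eq_zero (by rw [sub_eq_add_neg]; exact h1)
        rw [this]; exact h2
      have h4 : (s.N : ℂ) ≠ 0 := Int.cast_ne_zero.2 hs.1
      have h5 := P.smul_mem (s.N : ℂ)⁻¹ h3
      rwa [smul_smul, inv_mul_cancel₀ h4, one_smul] at h5
    · exact hK p hp

end lie

end Pool.Agent.KS6_37.Phi.Core
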