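import Mathlib

/-!
# Definitions for the map `Φ : Λ g → Λ h ⊗ A^*`

The pairing on `Λ g` induced by the Killing form, the coproduct of `Λ g`, the projection on the even
part, the action of `g` on `Λ g` and the map `s : g → Λ² g`.
-/

open scoped TensorProduct

noncomputable section

namespace Pool.Agent.KS6_37.Phi

section Linear

variable {g : Type} [AddCommGroup g] [Module ℂ g]

/-- The map `(x, ω) ↦ κ(x) ⌋ ω` (contraction of `ω ∈ Λ g` by the functional `κ x` on `g`). -/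
def kcontr (κ : g →ₗ[ℂ] Module.Dual ℂ g) :
    g →ₗ[ℂ] ExteriorAlgebra ℂ g →ₗ[ℂ] ExteriorAlgebra ℂ g :=
  (CliffordAlgebra.contractLeft (Q := (0 : QuadraticForm ℂ g))) ∘ₗ κ

theorem kcontr_kcontr (κ : g →ₗ[ℂ] Module.Dual ℂ g) (m : g) (w : ExteriorAlgebra ℂ g) :
    kcontr κ m (kcontr κ m w) = (0 : QuadraticForm ℂ g) m • w := by
  rw [zero_apply, zero_smul]
  exact CliffordAlgebra.contractLeft_contractLeft (κ m) w

/-- The pairing on `Λ g` induced by a bilinear form `κ` on `g`: one has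
`⟨x₁ ∧ ⋯ ∧ x_k, y₁ ∧ ⋯ ∧ y_k⟩ = det (κ (x_i, y_j))`, and different degrees are orthogonal.
Here `⟨x₁ ∧ ⋯ ∧ x_k, ω⟩` is the constant term of `κ(x_k) ⌋ (⋯ ⌋ (κ(x₁) ⌋ ω))`. -/
def pairing (κ : g →ₗ[ℂ] Module.Dual ℂ g) (a w : ExteriorAlgebra ℂ g) : ℂ :=
  ExteriorAlgebra.algebraMapInv
    (CliffordAlgebra.foldl (0 : QuadraticForm ℂ g) (kcontr κ) (kcontr_kcontr κ) w a)

/-- Left multiplication by `x ⊗ 1 + 1 ⊗ x` on the (super) tensor product `Λ g ⊗ Λ g`:
`a ⊗ b ↦ (x ∧ a) ⊗ b + (-1)^{|a|} a ⊗ (x ∧ b)`. -/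
def step (x : g) : ExteriorAlgebra ℂ g ⊗[ℂ] ExteriorAlgebra ℂ g →ₗ[ℂ]
    ExteriorAlgebra ℂ g ⊗[ℂ] ExteriorAlgebra ℂ g :=
  TensorProduct.map (LinearMap.mulLeft ℂ (ExteriorAlgebra.ι ℂ x)) LinearMap.id +
    TensorProduct.map (CliffordAlgebra.involute (Q := (0 : QuadraticForm ℂ g))).toLinearMap
      (LinearMap.mulLeft ℂ (ExteriorAlgebra.ι ℂ x))

theorem step_tmul (x : g) (a b : ExteriorAlgebra ℂ g) :
    step x (a ⊗ₜ[ℂ] b) = (ExteriorAlgebra.ι ℂ x * a) ⊗ₜ[ℂ] b +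
      CliffordAlgebra.involute (Q := (0 : QuadraticForm ℂ g)) a ⊗ₜ[ℂ]
        (ExteriorAlgebra.ι ℂ x * b) := rfl

theorem step_add (x y : g) : step (x + y) = step x + step y := by
  refine TensorProduct.ext' fun a b => ?_
  rw [LinearMap.add_apply, step_tmul, step_tmul, step_tmul, map_add, add_mul, add_mul,
    TensorProduct.add_tmul, TensorProduct.tmul_add]
  abel

theorem step_smul (c : ℂ) (x : g) : step (c • x) = c • step x := by
  refine TensorProduct.ext' fun a b => ?_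
  rw [LinearMap.smul_apply, step_tmul, step_tmul, map_smul, smul_mul_assoc, smul_mul_assoc,
    TensorProduct.tmul_smul, ← TensorProduct.smul_tmul', smul_add]

/-- The linear map `x ↦ step x`. -/
def stepLin (g : Type) [AddCommGroup g] [Module ℂ g] :
    g →ₗ[ℂ] (ExteriorAlgebra ℂ g ⊗[ℂ] ExteriorAlgebra ℂ g →ₗ[ℂ]
      ExteriorAlgebra ℂ g ⊗[ℂ] ExteriorAlgebra ℂ g) where
  toFun := step
  map_add' := step_add
  map_smul' := step_smul

theorem involute_ι_mul (x : g) (w : ExteriorAlgebra ℂ g) :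
    CliffordAlgebra.involute (Q := (0 : QuadraticForm ℂ g)) (ExteriorAlgebra.ι ℂ x * w) =
      -(ExteriorAlgebra.ι ℂ x * CliffordAlgebra.involute (Q := (0 : QuadraticForm ℂ g)) w) := by
  rw [map_mul]
  erw [CliffordAlgebra.involute_ι]
  rw [neg_mul]

theorem stepLin_stepLin (x : g) (t : ExteriorAlgebra ℂ g ⊗[ℂ] ExteriorAlgebra ℂ g) :
    stepLin g x (stepLin g x t) = (0 : QuadraticForm ℂ g) x • t := by
  rw [zero_apply, zero_smul]
  change step x (step x t) = 0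
  have h : step x ∘ₗ step x = 0 := by
    refine TensorProduct.ext' fun a b => ?_
    rw [LinearMap.comp_apply, step_tmul, map_add, step_tmul, step_tmul, involute_ι_mul,
      ← mul_assoc, ← mul_assoc, ExteriorAlgebra.ι_sq_zero, zero_mul, zero_mul,
      TensorProduct.zero_tmul, TensorProduct.tmul_zero, TensorProduct.neg_tmul]
    simp
  exact LinearMap.congr_fun h t

/-- The coproduct `Δ` of `Λ g`: `Δ(x₁ ∧ ⋯ ∧ x_k) = Δ(x₁) ⋯ Δ(x_k)`, a product in the (super)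
tensor product `Λ g ⊗ Λ g`, where `Δ(x) = x ⊗ 1 + 1 ⊗ x` for `x ∈ g`. -/
def coproduct (g : Type) [AddCommGroup g] [Module ℂ g] :
    ExteriorAlgebra ℂ g →ₗ[ℂ] ExteriorAlgebra ℂ g ⊗[ℂ] ExteriorAlgebra ℂ g :=
  CliffordAlgebra.foldr (0 : QuadraticForm ℂ g) (stepLin g) stepLin_stepLin (1 ⊗ₜ[ℂ] 1)

/-- The projection `π` of `Λ g` onto its even part. -/
def evenProj (g : Type) [AddCommGroup g] [Module ℂ g] :
    ExteriorAlgebra ℂ g →ₗ[ℂ] ExteriorAlgebra ℂ g :=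
  (1 / 2 : ℂ) • (LinearMap.id +
    (CliffordAlgebra.involute (Q := (0 : QuadraticForm ℂ g))).toLinearMap)

/-- The (even) derivation of the algebra `Λ g` extending an endomorphism `T` of `g`:
`ω ↦ ∑ i, T b_i ∧ (b_i^* ⌋ ω)` for a basis `b` of `g` with dual basis `b^*`. -/
def deriv [FiniteDimensional ℂ g] (T : g → g) (w : ExteriorAlgebra ℂ g) : ExteriorAlgebra ℂ g :=
  ∑ i, ExteriorAlgebra.ι ℂ (T (Module.finBasis ℂ g i)) *
    CliffordAlgebra.contractLeft (Q := (0 : QuadraticForm ℂ g)) ((Module.finBasis ℂ g).coord i) w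

end Linear

section Lie

variable {g : Type} [LieRing g] [LieAlgebra ℂ g] [FiniteDimensional ℂ g]

/-- The action of `g` on `Λ g`: `x ∈ g` acts by the derivation extending `ad x = ⁅x, ·⁆`. -/
def act (x : g) (w : ExteriorAlgebra ℂ g) : ExteriorAlgebra ℂ g := deriv (fun y => ⁅x, y⁆) w

/-- The map `s : g → Λ² g`, `s x = 1/2 ∑ i, x_i ∧ [x^i, x]`, for a basis `x_i` of `g`
and its dual basis `x^i` with respect to the Killing form. -/
def sFun [LieAlgebra.IsKilling ℂ g] (x : g) : ExteriorAlgebra ℂ g :=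
  (1 / 2 : ℂ) • ∑ i, ExteriorAlgebra.ι ℂ (Module.finBasis ℂ g i) *
    ExteriorAlgebra.ι ℂ ⁅LinearMap.BilinForm.dualBasis (killingForm ℂ g)
      (LieAlgebra.IsKilling.killingForm_nondegenerate ℂ g) (Module.finBasis ℂ g) i, x⁆

end Lie

end Pool.Agent.KS6_37.Phi
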