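import Pool.Agent.KS6_37.Phi.Cert

/-!
# Generation of an exterior subalgebra by the action of a subalgebra of `g`
-/

set_option autoImplicit false

noncomputable section

namespace Pool.Agent.KS6_37.Phi.Core

open Pool.Agent.KS6_37.Phi

section words

variable {g : Type} [AddCommGroup g] [Module ℂ g] (X : ℕ → g) (n : ℕ)

/-- sorted words in the letters `< n` -/
def Sorted (w : List ℕ) : Prop := w.Pairwise (· < ·) ∧ ∀ x ∈ w, x < n

theorem mulGen_sorted (y : ℕ) (hy : y < n) (w : List ℕ) (hw : Sorted n w) :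
    (mulGen y w).1 = 0 ∨ (Sorted n (mulGen y w).2 ∧ ∀ x ∈ (mulGen y w).2, x = y ∨ x ∈ w) := by
  induction w with
  | nil =>
    right
    simp [mulGen, Sorted, hy]
  | cons z w ih =>
    rw [mulGen]
    split_ifs with h1 h2
    · right
      refine ⟨⟨?_, ?_⟩, ?_⟩
      · rw [List.pairwise_cons]
        refine ⟨?_, hw.1⟩
        intro a ha
        rcases List.mem_cons.1 ha with rfl | ha
        · exact h1
        · exact h1.trans ((List.pairwise_cons.1 hw.1).1 a ha)
      · intro x hx
        rcases List.mem_cons.1 hx with rfl | hx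
        · exact hy
        · exact hw.2 x hx
      · intro x hx
        exact List.mem_cons.1 hx
    · left; rfl
    · have hw' : Sorted n w := ⟨(List.pairwise_cons.1 hw.1).2, fun x hx => hw.2 x (by simp [hx])⟩
      rcases ih hw' with h | ⟨h, h'⟩
      · left; simp [h]
      · right
        refine ⟨⟨?_, ?_⟩, ?_⟩
        · rw [List.pairwise_cons]
          refine ⟨fun a ha => ?_, h.1⟩
          rcases h' a ha with rfl | h3
          · omega
          · exact (List.pairwise_cons.1 hw.1).1 a h3
        · intro x hx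
          rcases List.mem_cons.1 hx with rfl | hx
          · exact hw.2 _ (by simp)
          · exact h.2 x hx
        · intro x hx
          rcases List.mem_cons.1 hx with rfl | hx
          · right; simp
          · rcases h' x hx with h4 | h4
            · left; exact h4
            · right; simp [h4]

/-- the span of the sorted words -/
def Q : Submodule ℂ (ExteriorAlgebra ℂ g) := Submodule.span ℂ {v | ∃ w, Sorted n w ∧ evw X w = v}

variable (hX : ∀ i, n ≤ i → X i = 0)

include hX in
theorem mul_mem_Q (y : ℕ) (v : ExteriorAlgebra ℂ g) (hv : v ∈ Q X n) :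
    ExteriorAlgebra.ι ℂ (X y) * v ∈ Q X n := by
  by_cases hy : y < n
  · refine Submodule.span_induction (p := fun v _ => ExteriorAlgebra.ι ℂ (X y) * v ∈ Q X n)
      ?_ ?_ ?_ ?_ hv
    · rintro _ ⟨w, hw, rfl⟩
      rw [mulGen_sound]
      rcases mulGen_sorted n y hy w hw with h | ⟨h, _⟩
      · rw [h]; simp
      · exact Submodule.smul_mem _ _ (Submodule.subset_span ⟨_, h, rfl⟩)
    · simp
    · intro a b _ _ ha hb; rw [mul_add]; exact Submodule.add_mem _ ha hb
    · intro c a _ ha; rw [mul_smul_comm]; exact Submodule.smul_mem _ _ ha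
  · rw [hX y (not_lt.1 hy)]; simp

include hX in
theorem evw_mem_Q (w : List ℕ) : evw X w ∈ Q X n := by
  induction w with
  | nil => exact Submodule.subset_span ⟨[], ⟨by simp, by simp⟩, rfl⟩
  | cons z w ih => rw [evw_cons]; exact mul_mem_Q X n hX z _ ih

include hX in
theorem evw_mul_mem_Q (w : List ℕ) (v : ExteriorAlgebra ℂ g) (hv : v ∈ Q X n) :
    evw X w * v ∈ Q X n := by
  induction w with
  | nil => simpa using hv
  | cons z w ih => rw [evw_cons, mul_assoc]; exact mul_mem_Q X n hX z _ ih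

include hX in
theorem mul_mem_Q' (u v : ExteriorAlgebra ℂ g) (hu : u ∈ Q X n) (hv : v ∈ Q X n) :
    u * v ∈ Q X n := by
  refine Submodule.span_induction (p := fun u _ => u * v ∈ Q X n) ?_ ?_ ?_ ?_ hu
  · rintro _ ⟨w, _, rfl⟩
    exact evw_mul_mem_Q X n hX w v hv
  · simp
  · intro a b _ _ ha hb; rw [add_mul]; exact Submodule.add_mem _ ha hb
  · intro c a _ ha; rw [smul_mul_assoc]; exact Submodule.smul_mem _ _ ha

include hX in
theorem adjoin_le_Q (v : ExteriorAlgebra ℂ g)
    (hv : v ∈ Algebra.adjoin ℂ (ExteriorAlgebra.ι ℂ '' (Submodule.span ℂ (Set.range X) : Set g))) :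
    v ∈ Q X n := by
  induction hv using Algebra.adjoin_induction with
  | mem x hx =>
    obtain ⟨y, hy, rfl⟩ := hx
    refine Submodule.span_induction (p := fun y _ => ExteriorAlgebra.ι ℂ y ∈ Q X n)
      ?_ ?_ ?_ ?_ hy
    · rintro _ ⟨i, rfl⟩
      have := evw_mem_Q X n hX [i]
      rwa [evw_cons, evw_nil, mul_one] at this
    · simp
    · intro a b _ _ ha hb; rw [map_add]; exact Submodule.add_mem _ ha hb
    · intro c a _ ha; rw [map_smul]; exact Submodule.smul_mem _ _ ha
  | algebraMap r =>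
    rw [Algebra.algebraMap_eq_smul_one]
    exact Submodule.smul_mem _ _ (evw_mem_Q X n hX [])
  | add x y _ _ hx hy => exact Submodule.add_mem _ hx hy
  | mul x y _ _ hx hy => exact mul_mem_Q' X n hX x y hx hy

theorem sorted_mem (w : List ℕ) (hw : Sorted n w) : w ∈ (List.range n).sublistsLen w.length := by
  rw [List.mem_sublistsLen]
  refine ⟨?_, rfl⟩
  have h1 : w ⊆ List.range n := fun x hx => List.mem_range.2 (hw.2 x hx)
  have h2 : w.Nodup := hw.1.imp fun h => ne_of_lt h
  exact List.sublist_of_subperm_of_pairwise (List.subperm_of_subset h2 h1) hw.1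
    List.pairwise_lt_range

theorem sorted_length (w : List ℕ) (hw : Sorted n w) : w.length ≤ n := by
  have h := sorted_mem n w hw
  rw [List.mem_sublistsLen] at h
  simpa using h.1.length_le

end words

section lie

variable {g : Type} [LieRing g] [LieAlgebra ℂ g] [FiniteDimensional ℂ g]

/-- The subalgebra of `Λ g` generated by `b` is obtained from the elements of `E` by the action
of `b`. -/
def Gen (b : Submodule ℂ g) (E : Set (ExteriorAlgebra ℂ g)) : Prop :=
  ∀ P : Submodule ℂ (ExteriorAlgebra ℂ g), (∀ x ∈ b, ∀ w ∈ P, ⁅x, w⁆ ∈ P) → E ⊆ P →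
    ∀ v ∈ Algebra.adjoin ℂ (ExteriorAlgebra.ι ℂ '' (b : Set g)), v ∈ P

theorem gen_of_words (X : ℕ → g) (n : ℕ) (hX : ∀ i, n ≤ i → X i = 0)
    (E : Set (ExteriorAlgebra ℂ g))
    (h : ∀ P : Submodule ℂ (ExteriorAlgebra ℂ g), (∀ a, ∀ w ∈ P, ⁅X a, w⁆ ∈ P) → E ⊆ P →
      ∀ w, Sorted n w → evw X w ∈ P) : Gen (Submodule.span ℂ (Set.range X)) E := by
  intro P hP hE v hv
  have h1 := adjoin_le_Q X n hX v hv
  have h2 := h P (fun a w hw => hP _ (Submodule.subset_span ⟨a, rfl⟩) w hw) hE
  refine (Submodule.span_le.2 ?_) h1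
  rintro _ ⟨w, hw, rfl⟩
  exact h2 w hw

theorem good_sound {X : ℕ → g} {P : Submodule ℂ (ExteriorAlgebra ℂ g)}
    (hB : ∀ a b, ⁅X a, X b⁆ = ((B3 a b).map fun t => (t.1 : ℂ) • X t.2).sum)
    (hP : ∀ a, ∀ w ∈ P, ⁅X a, w⁆ ∈ P) (hE : ∀ t ∈ init, ev X t.2 ∈ P) {d : ℕ} {ss : List Step}
    (h : goodCert d ss = true) (w : List ℕ) (hw : w ∈ (List.range 8).sublistsLen d) :
    evw X w ∈ P := by
  rw [goodCert] at h
  split at h
  · simp at h
  · rename_i K hK
    have h1 := run_sound X P hB hP ss (initD d) K ?_ hK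
    · have h2 := (List.all_eq_true.1 h) w hw
      have h3 : [(1, w)] ∈ K := List.contains_iff_mem.1 h2
      have h4 := h1 _ h3
      simpa [ev] using h4
    · intro p hp
      rw [initD, List.mem_reverse, List.mem_map] at hp
      obtain ⟨t, ht, rfl⟩ := hp
      exact hE t (List.mem_filter.1 ht).1

theorem gen3 (X : ℕ → g) (hX : ∀ i, 8 ≤ i → X i = 0)
    (hB : ∀ a b, ⁅X a, X b⁆ = ((B3 a b).map fun t => (t.1 : ℂ) • X t.2).sum)
    (E : Set (ExteriorAlgebra ℂ g)) (hE : ∀ t ∈ init, ev X t.2 ∈ Submodule.span ℂ E) :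
    Gen (Submodule.span ℂ (Set.range X)) E := by
  refine gen_of_words X 8 hX E fun P hP hEP w hw => ?_
  have hE' : ∀ t ∈ init, ev X t.2 ∈ P := fun t ht => (Submodule.span_le.2 hEP) (hE t ht)
  have h1 := sorted_mem 8 w hw
  have h2 := sorted_length 8 w hw
  generalize w.length = d at h1 h2
  interval_cases d
  · exact good_sound hB hP hE' good0 w h1
  · exact good_sound hB hP hE' good1 w h1
  · exact good_sound hB hP hE' good2 w h1
  · exact good_sound hB hP hE' good3 w h1
  · exact good_sound hB hP hE' good4 w h1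
  · exact good_sound hB hP hE' good5 w h1
  · exact good_sound hB hP hE' good6 w h1
  · exact good_sound hB hP hE' good7 w h1
  · exact good_sound hB hP hE' good8 w h1

end lie

end Pool.Agent.KS6_37.Phi.Core
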