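import Pool.Agent.KS6_37.Phi.Harm

/-!
# Harmonic polynomials for orthogonal unions of reflection systems of types `A1` and `A2`
-/

set_option autoImplicit false

noncomputable section

namespace Pool.Agent.KS6_37.Phi

variable {H : Type} [AddCommGroup H] [Module ℂ H]

/-- the span of the coroots -/
def co (R : Set (Module.Dual ℂ H × H)) : Submodule ℂ H := Submodule.span ℂ (Prod.snd '' R)

/-- the common kernel of the roots -/
def perp (R : Set (Module.Dual ℂ H × H)) : Submodule ℂ H where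
  carrier := {h | ∀ r ∈ R, r.1 h = 0}
  zero_mem' := fun r _ => map_zero _
  add_mem' := fun {a b} ha hb r hr => by rw [map_add, ha r hr, hb r hr, add_zero]
  smul_mem' := fun c a ha r hr => by rw [map_smul, ha r hr, smul_zero]

/-- the subalgebra of `S(H)` generated by a subspace -/
def Sym (V : Submodule ℂ H) : Subalgebra ℂ (SymmetricAlgebra ℂ H) :=
  Algebra.adjoin ℂ (ιS '' (V : Set H))

theorem ι_mem_Sym {V : Submodule ℂ H} {h : H} (hh : h ∈ V) : ιS h ∈ Sym V :=
  Algebra.subset_adjoin ⟨h, hh, rfl⟩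

theorem Sym_mono {V W : Submodule ℂ H} (h : V ≤ W) : Sym V ≤ Sym W :=
  Algebra.adjoin_mono (Set.image_mono h)

/-- the product of a list of elements of `H` -/
def pr (l : List H) : SymmetricAlgebra ℂ H := (l.map fun h => ιS h).prod

theorem pr_append (l m : List H) : pr (l ++ m) = pr l * pr m := by simp [pr]

theorem pr_mem {l : List H} {V : Submodule ℂ H} (h : ∀ c ∈ l, c ∈ V) : pr l ∈ Sym V := by
  induction l with
  | nil => exact one_mem _
  | cons x l ih =>
    rw [pr, List.map_cons, List.prod_cons]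
    exact mul_mem (ι_mem_Sym (h x (by simp))) (ih fun c hc => h c (by simp [hc]))

theorem refl_fix {α : Module.Dual ℂ H} {c : H} {V : Submodule ℂ H} (hV : ∀ h ∈ V, α h = 0)
    {u : SymmetricAlgebra ℂ H} (hu : u ∈ Sym V) : refl α c u = u := by
  induction hu using Algebra.adjoin_induction with
  | mem x hx =>
    obtain ⟨h, hh, rfl⟩ := hx
    rw [refl_ι, hV h hh, zero_smul, sub_zero]
  | algebraMap r => exact AlgHom.commutes _ r
  | add x y _ _ hx hy => rw [map_add, hx, hy]
  | mul x y _ _ hx hy => rw [map_mul, hx, hy]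

theorem pd_zero {ξ : Module.Dual ℂ H} {V : Submodule ℂ H} (hV : ∀ h ∈ V, ξ h = 0)
    {u : SymmetricAlgebra ℂ H} (hu : u ∈ Sym V) : pd ξ u = 0 := by
  induction hu using Algebra.adjoin_induction with
  | mem x hx =>
    obtain ⟨h, hh, rfl⟩ := hx
    rw [pd_ι, hV h hh, map_zero]
  | algebraMap r => exact (pd ξ).map_algebraMap r
  | add x y _ _ hx hy => rw [map_add, hx, hy, add_zero]
  | mul x y _ _ hx hy => rw [pd_mul, hx, hy, mul_zero, mul_zero, add_zero]

/-- The elements of `T` are obtained by differential operators with constant coefficients from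
a generator of the module of anti-invariants. -/
structure HB (R : Set (Module.Dual ℂ H × H)) (T : Set (SymmetricAlgebra ℂ H)) : Prop where
  ex : ∃ l : List H, (∀ c ∈ l, c ≠ 0) ∧ (∀ c ∈ l, c ∈ co R) ∧
    (∀ r ∈ R, refl r.1 r.2 (pr l) = -pr l) ∧
    (∀ Q, (∀ r ∈ R, refl r.1 r.2 Q = -Q) → pr l ∣ Q) ∧
    (∀ t ∈ T, ∃ D ∈ constDiff H, ∀ u ∈ Sym (perp R), D (pr l * u) = t * u)
  sub : ∀ t ∈ T, t ∈ Sym (co R)

theorem HB.harm [FiniteDimensional ℂ H] {R : Set (Module.Dual ℂ H × H)}
    {T : Set (SymmetricAlgebra ℂ H)} (h : HB R T) (t : SymmetricAlgebra ℂ H) (ht : t ∈ T) :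
    t ∈ harm R := by
  obtain ⟨l, _, _, h3, h4, h5⟩ := h.ex
  obtain ⟨D0, hD0, h6⟩ := h5 t ht
  have h7 := h6 1 (one_mem _)
  rw [mul_one, mul_one] at h7
  rw [mem_harm]
  intro D hD hcomm hD1
  rw [← h7, constDiff_comm D D0 hD hD0]
  have h8 : pr l ∈ fil H (l.length + 1) := Submodule.subset_span ⟨l, by omega, rfl⟩
  have h9 := constDiff_fil' D hD hD1 h8
  rw [Nat.add_sub_cancel] at h9
  have h10 : D (pr l) = 0 := by
    refine eq_zero_of_dvd_of_fil l (h4 _ fun r hr => ?_) h9
    rw [← hcomm r hr, h3 r hr, map_neg]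
  rw [h10, map_zero]

theorem HB.empty : HB (∅ : Set (Module.Dual ℂ H × H)) {1} where
  ex := by
    refine ⟨[], by simp, by simp, by simp, ?_, ?_⟩
    · intro Q _
      exact one_dvd Q
    · rintro t rfl
      refine ⟨1, one_mem _, fun u _ => ?_⟩
      simp [pr]
  sub := by
    rintro t rfl
    exact one_mem _

theorem co_union (R S : Set (Module.Dual ℂ H × H)) : co (R ∪ S) = co R ⊔ co S := by
  rw [co, Set.image_union, Submodule.span_union]; rfl

theorem perp_union_left {R S : Set (Module.Dual ℂ H × H)} : perp (R ∪ S) ≤ perp R :=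
  fun _ hh r hr => hh r (Or.inl hr)

theorem perp_union_right {R S : Set (Module.Dual ℂ H × H)} : perp (R ∪ S) ≤ perp S :=
  fun _ hh r hr => hh r (Or.inr hr)

/-- `R` and `S` are orthogonal -/
def Orth (R S : Set (Module.Dual ℂ H × H)) : Prop :=
  ∀ r ∈ R, ∀ s ∈ S, r.1 s.2 = 0 ∧ s.1 r.2 = 0

theorem Orth.symm {R S : Set (Module.Dual ℂ H × H)} (h : Orth R S) : Orth S R :=
  fun s hs r hr => ⟨(h r hr s hs).2, (h r hr s hs).1⟩

theorem Orth.co_le {R S : Set (Module.Dual ℂ H × H)} (h : Orth R S) : co S ≤ perp R := by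
  rw [co, Submodule.span_le]
  rintro _ ⟨s, hs, rfl⟩ r hr
  exact (h r hr s hs).1

theorem HB.union {R S : Set (Module.Dual ℂ H × H)} {T U : Set (SymmetricAlgebra ℂ H)}
    (hR : HB R T) (hS : HB S U) (h : Orth R S) :
    HB (R ∪ S) {v | ∃ t ∈ T, ∃ u ∈ U, v = t * u} where
  ex := by
    obtain ⟨l, a1, a2, a3, a4, a5⟩ := hR.ex
    obtain ⟨m, b1, b2, b3, b4, b5⟩ := hS.ex
    have e1 : pr l ∈ Sym (perp S) := Sym_mono h.symm.co_le (pr_mem a2)
    have e2 : pr m ∈ Sym (perp R) := Sym_mono h.co_le (pr_mem b2)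
    refine ⟨l ++ m, ?_, ?_, ?_, ?_, ?_⟩
    · intro c hc
      rcases List.mem_append.1 hc with hc | hc
      · exact a1 c hc
      · exact b1 c hc
    · intro c hc
      rw [co_union]
      rcases List.mem_append.1 hc with hc | hc
      · exact Submodule.mem_sup_left (a2 c hc)
      · exact Submodule.mem_sup_right (b2 c hc)
    · intro r hr
      rw [pr_append, map_mul]
      rcases hr with hr | hr
      · rw [a3 r hr, refl_fix (V := perp R) (fun x hx => hx r hr) e2, neg_mul]
      · rw [b3 r hr, refl_fix (V := perp S) (fun x hx => hx r hr) e1, mul_neg]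
    · intro Q hQ
      obtain ⟨Q', hQ'⟩ := a4 Q fun r hr => hQ r (Or.inl hr)
      have h1 : pr m ∣ Q' := by
        refine b4 Q' fun r hr => ?_
        have h2 := hQ r (Or.inr hr)
        rw [hQ', map_mul, refl_fix (V := perp S) (fun x hx => hx r hr) e1, ← mul_neg] at h2
        exact mul_left_cancel₀ (list_prod_ne_zero l a1) h2
      rw [pr_append, hQ']
      exact mul_dvd_mul_left _ h1
    · rintro _ ⟨t, ht, u, hu, rfl⟩
      obtain ⟨D, hD, hD'⟩ := a5 t ht
      obtain ⟨E, hE, hE'⟩ := b5 u hu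
      refine ⟨D * E, mul_mem hD hE, fun v hv => ?_⟩
      have hv1 : v ∈ Sym (perp R) := Sym_mono perp_union_left hv
      have hv2 : v ∈ Sym (perp S) := Sym_mono perp_union_right hv
      rw [Module.End.mul_apply, pr_append, mul_comm (pr l), mul_assoc, hE' _ (mul_mem e1 hv2)]
      have h3 : u * (pr l * v) = pr l * (u * v) := by ring
      rw [h3, hD' _ (mul_mem (Sym_mono h.co_le (hS.sub u hu)) hv1), mul_assoc]
  sub := by
    rintro _ ⟨t, ht, u, hu, rfl⟩
    rw [co_union]
    exact mul_mem (Sym_mono le_sup_left (hR.sub t ht)) (Sym_mono le_sup_right (hS.sub u hu))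

theorem refl_neg (α : Module.Dual ℂ H) (c : H) : refl (-α) (-c) = refl α c := by
  apply SymmetricAlgebra.algHom_ext
  ext h
  change refl (-α) (-c) (ιS h) = refl α c (ιS h)
  rw [refl_ι, refl_ι]
  simp

/-- type `A1` -/
theorem HB.a1 (α : Module.Dual ℂ H) (c : H) (h : α c = 2) :
    HB {(α, c), (-α, -c)} {1, ιS c} where
  ex := by
    have hc : c ≠ 0 := by rintro rfl; simp at h
    have h0 : pr [c] = ιS c := by simp [pr]
    refine ⟨[c], by simpa using hc, ?_, ?_, ?_, ?_⟩
    · intro x hx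
      rw [List.mem_singleton] at hx
      subst hx
      exact Submodule.subset_span ⟨(α, x), by simp, rfl⟩
    · intro r hr
      rw [h0]
      have h1 : refl α c (ιS c) = -ιS c := by
        rw [refl_ι, h, two_smul, sub_add_cancel_left, map_neg]
      rcases hr with rfl | hr
      · exact h1
      · rw [Set.mem_singleton_iff] at hr
        subst hr
        change refl (-α) (-c) (ιS c) = _
        rw [refl_neg, h1]
    · intro Q hQ
      rw [h0]
      exact dvd_of_anti (hQ (α, c) (by simp))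
    · intro t ht
      rcases ht with rfl | ht
      · refine ⟨(1 / 2 : ℂ) • (pd α).toLinearMap, Subalgebra.smul_mem _ (pd_mem α) _,
          fun u hu => ?_⟩
        have h1 : pd α u = 0 := pd_zero (V := perp {(α, c), (-α, -c)})
          (fun x hx => hx (α, c) (by simp)) hu
        rw [h0, LinearMap.smul_apply]
        change (1 / 2 : ℂ) • pd α (ιS c * u) = _
        rw [pd_mul, h1, mul_zero, zero_add, pd_ι, h, mul_comm, ← Algebra.smul_def, smul_smul]
        norm_num
      · rw [Set.mem_singleton_iff] at ht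
        subst ht
        exact ⟨1, one_mem _, fun u _ => by rw [h0]; rfl⟩
  sub := by
    intro t ht
    rcases ht with rfl | ht
    · exact one_mem _
    · rw [Set.mem_singleton_iff] at ht
      subst ht
      exact ι_mem_Sym (Submodule.subset_span ⟨(α, c), by simp, rfl⟩)

/-- the roots of type `A2` with simple roots `α, β` and simple coroots `c, d` -/
def setA2 (α β : Module.Dual ℂ H) (c d : H) : Set (Module.Dual ℂ H × H) :=
  {(α, c), (-α, -c), (β, d), (-β, -d), (α + β, c + d), (-(α + β), -(c + d))}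

/-- harmonic polynomials of type `A2` -/
def harA2 (c d : H) : Set (SymmetricAlgebra ℂ H) :=
  {1, ιS c, ιS d, 2 * (ιS c * ιS d) + ιS d * ιS d, ιS c * ιS c + 2 * (ιS c * ιS d),
    ιS c * ιS d * (ιS c + ιS d)}

theorem dvd3 {R : Type*} [CommRing R] {x y z Q : R} (hy : Prime y) (hz : Prime z)
    (n1 : ¬ y ∣ x) (n2 : ¬ z ∣ x) (n3 : ¬ z ∣ y) (d1 : x ∣ Q) (d2 : y ∣ Q) (d3 : z ∣ Q) :
    x * y * z ∣ Q := by
  obtain ⟨r, rfl⟩ := d1
  obtain ⟨s, rfl⟩ := (hy.dvd_mul.1 d2).resolve_left n1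
  have d4 := (hz.dvd_mul.1 d3).resolve_left n2
  obtain ⟨t, rfl⟩ := (hz.dvd_mul.1 d4).resolve_left n3
  exact ⟨t, by ring⟩

section calc1

variable {R : Type*} [CommRing R] (D : R → R) (hadd : ∀ a b, D (a + b) = D a + D b)
  (hmul : ∀ a b, D (a * b) = a * D b + b * D a) (x y u : R)

include hmul

theorem calc_q5 (hx : D x = 1) (hu : D u = 0) (h2 : D 2 = 0) :
    D (2 * (x * u)) = 2 * u := by
  simp only [hmul, hx, hu, h2]
  ring

include hadd

theorem calc_q1 (hx : D x = 1) (hy : D y = 0) (hu : D u = 0) :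
    D (x * y * (x + y) * u) = (2 * (x * y) + y * y) * u := by
  simp only [hmul, hadd, hx, hy, hu]
  ring

theorem calc_q2 (hx : D x = 0) (hy : D y = 1) (hu : D u = 0) :
    D (x * y * (x + y) * u) = (x * x + 2 * (x * y)) * u := by
  simp only [hmul, hadd, hx, hy, hu]
  ring

theorem calc_q3 (hx : D x = 0) (hy : D y = 1) (hu : D u = 0) (h2 : D 2 = 0) :
    D ((x * x + 2 * (x * y)) * u) = 2 * (x * u) := by
  simp only [hmul, hadd, hx, hy, hu, h2]
  ring

theorem calc_q4 (hx : D x = 1) (hy : D y = 0) (hu : D u = 0) (h2 : D 2 = 0) :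
    D ((2 * (x * y) + y * y) * u) = 2 * (y * u) := by
  simp only [hmul, hadd, hx, hy, hu, h2]
  ring

end calc1

theorem calc_r1 {R : Type*} [CommRing R] (x y : R) :
    -x * (x + y) * (-x + (x + y)) = -(x * y * (x + y)) := by ring

theorem calc_r2 {R : Type*} [CommRing R] (x y : R) :
    (x + y) * -y * (x + y + -y) = -(x * y * (x + y)) := by ring

theorem calc_r3 {R : Type*} [CommRing R] (x y : R) :
    -y * -x * (-y + -x) = -(x * y * (x + y)) := by ring

theorem half_two_mul (v : SymmetricAlgebra ℂ H) : (1 / 2 : ℂ) • (2 * v) = v := by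
  have : (2 : SymmetricAlgebra ℂ H) * v = (2 : ℂ) • v := by
    rw [two_smul, two_mul]
  rw [this, smul_smul]
  norm_num

theorem pd_two (ξ : Module.Dual ℂ H) : pd ξ (2 : SymmetricAlgebra ℂ H) = 0 := by
  have := (pd ξ).map_natCast 2
  simpa using this

section A2

variable {α β : Module.Dual ℂ H} {c d : H} (h1 : α c = 2) (h2 : β d = 2) (h3 : α d = -1)
  (h4 : β c = -1)

include h1 h3 in
theorem refl_a2_1 : refl α c (ιS c * ιS d * (ιS c + ιS d)) = -(ιS c * ιS d * (ιS c + ιS d)) := by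
  have e1 : c - (2 : ℂ) • c = -c := by rw [two_smul, sub_add_cancel_left]
  have e2 : d - (-1 : ℂ) • c = c + d := by rw [neg_one_smul, sub_neg_eq_add, add_comm]
  rw [map_mul, map_mul, map_add, refl_ι, refl_ι, h1, h3, e1, e2, map_neg, map_add]
  exact calc_r1 _ _

include h2 h4 in
theorem refl_a2_2 : refl β d (ιS c * ιS d * (ιS c + ιS d)) = -(ιS c * ιS d * (ιS c + ιS d)) := by
  have e1 : d - (2 : ℂ) • d = -d := by rw [two_smul, sub_add_cancel_left]
  have e2 : c - (-1 : ℂ) • d = c + d := by rw [neg_one_smul, sub_neg_eq_add]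
  rw [map_mul, map_mul, map_add, refl_ι, refl_ι, h2, h4, e1, e2, map_neg, map_add]
  exact calc_r2 _ _

include h1 h2 h3 h4 in
theorem refl_a2_3 : refl (α + β) (c + d) (ιS c * ιS d * (ιS c + ιS d)) =
    -(ιS c * ιS d * (ιS c + ιS d)) := by
  have e1 : (α + β) c = 1 := by rw [LinearMap.add_apply, h1, h4]; norm_num
  have e2 : (α + β) d = 1 := by rw [LinearMap.add_apply, h2, h3]; norm_num
  have e3 : c - (1 : ℂ) • (c + d) = -d := by rw [one_smul]; abel
  have e4 : d - (1 : ℂ) • (c + d) = -c := by rw [one_smul]; abel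
  rw [map_mul, map_mul, map_add, refl_ι, refl_ι, e1, e2, e3, e4, map_neg, map_neg]
  exact calc_r3 _ _

include h1 h2 h3 h4 in
theorem dvd_a2 [FiniteDimensional ℂ H] (Q : SymmetricAlgebra ℂ H)
    (hQ : ∀ r ∈ setA2 α β c d, refl r.1 r.2 Q = -Q) : ιS c * ιS d * (ιS c + ιS d) ∣ Q := by
  have hd : d ≠ 0 := by rintro rfl; simp at h2
  have hcd : c + d ≠ 0 := by
    intro h
    have := congrArg α h
    rw [map_add, h1, h3, map_zero] at this
    norm_num at this
  have d1 : ιS c ∣ Q := dvd_of_anti (α := α) (c := c) (p := Q) (hQ (α, c) (by simp [setA2]))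
  have d2 : ιS d ∣ Q := dvd_of_anti (α := β) (c := d) (p := Q) (hQ (β, d) (by simp [setA2]))
  have d3 : ιS (c + d) ∣ Q := dvd_of_anti (α := α + β) (c := c + d) (p := Q)
    (hQ (α + β, c + d) (by simp [setA2]))
  have n1 : ¬ (ιS d : SymmetricAlgebra ℂ H) ∣ ιS c := by
    refine not_dvd ((2 : ℂ) • α + β) ?_ ?_
    · simp [h3, h2]
    · simp only [LinearMap.add_apply, LinearMap.smul_apply, h1, h4, smul_eq_mul]; norm_num
  have n2 : ¬ (ιS (c + d) : SymmetricAlgebra ℂ H) ∣ ιS c := by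
    refine not_dvd (α - β) ?_ ?_
    · simp only [LinearMap.sub_apply, map_add, h1, h2, h3, h4]; norm_num
    · simp only [LinearMap.sub_apply, h1, h4]; norm_num
  have n3 : ¬ (ιS (c + d) : SymmetricAlgebra ℂ H) ∣ ιS d := by
    refine not_dvd (α - β) ?_ ?_
    · simp only [LinearMap.sub_apply, map_add, h1, h2, h3, h4]; norm_num
    · simp only [LinearMap.sub_apply, h2, h3]; norm_num
  have h := dvd3 (prime_ι hd) (prime_ι hcd) n1 n2 n3 d1 d2 d3
  rwa [map_add] at h

/-- first fundamental weight -/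
def om1 (α β : Module.Dual ℂ H) : Module.Dual ℂ H := (1 / 3 : ℂ) • ((2 : ℂ) • α + β)

/-- second fundamental weight -/
def om2 (α β : Module.Dual ℂ H) : Module.Dual ℂ H := (1 / 3 : ℂ) • (α + (2 : ℂ) • β)

include h1 h4 in
theorem p1c : pd (om1 α β) (ιS c) = 1 := by
  have : om1 α β c = 1 := by
    simp only [om1, LinearMap.add_apply, LinearMap.smul_apply, h1, h4, smul_eq_mul]
    norm_num
  rw [pd_ι, this, map_one]

include h2 h3 in
theorem p1d : pd (om1 α β) (ιS d) = 0 := by
  have : om1 α β d = 0 := by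
    simp only [om1, LinearMap.add_apply, LinearMap.smul_apply, h2, h3, smul_eq_mul]
    norm_num
  rw [pd_ι, this, map_zero]

include h1 h4 in
theorem p2c : pd (om2 α β) (ιS c) = 0 := by
  have : om2 α β c = 0 := by
    simp only [om2, LinearMap.add_apply, LinearMap.smul_apply, h1, h4, smul_eq_mul]
    norm_num
  rw [pd_ι, this, map_zero]

include h2 h3 in
theorem p2d : pd (om2 α β) (ιS d) = 1 := by
  have : om2 α β d = 1 := by
    simp only [om2, LinearMap.add_apply, LinearMap.smul_apply, h2, h3, smul_eq_mul]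
    norm_num
  rw [pd_ι, this, map_one]

theorem z1 {u : SymmetricAlgebra ℂ H} (hu : u ∈ Sym (perp (setA2 α β c d))) :
    pd (om1 α β) u = 0 :=
  pd_zero (V := perp (setA2 α β c d)) (fun x hx => by
    have h := hx (α, c) (by simp [setA2])
    have h' := hx (β, d) (by simp [setA2])
    simp only at h h'
    simp only [om1, LinearMap.add_apply, LinearMap.smul_apply, h, h', smul_zero, add_zero]) hu

theorem z2 {u : SymmetricAlgebra ℂ H} (hu : u ∈ Sym (perp (setA2 α β c d))) :
    pd (om2 α β) u = 0 :=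
  pd_zero (V := perp (setA2 α β c d)) (fun x hx => by
    have h := hx (α, c) (by simp [setA2])
    have h' := hx (β, d) (by simp [setA2])
    simp only at h h'
    simp only [om2, LinearMap.add_apply, LinearMap.smul_apply, h, h', smul_zero, add_zero]) hu

include h1 h2 h3 h4

theorem q1 {u : SymmetricAlgebra ℂ H} (hu : u ∈ Sym (perp (setA2 α β c d))) :
    pd (om1 α β) (ιS c * ιS d * (ιS c + ιS d) * u) =
      (2 * (ιS c * ιS d) + ιS d * ιS d) * u :=
  calc_q1 (fun v => pd (om1 α β) v) (fun a b => map_add _ a b) (fun a b => pd_mul _ a b) _ _ _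
    (p1c h1 h4) (p1d h2 h3) (z1 hu)

theorem q2 {u : SymmetricAlgebra ℂ H} (hu : u ∈ Sym (perp (setA2 α β c d))) :
    pd (om2 α β) (ιS c * ιS d * (ιS c + ιS d) * u) =
      (ιS c * ιS c + 2 * (ιS c * ιS d)) * u :=
  calc_q2 (fun v => pd (om2 α β) v) (fun a b => map_add _ a b) (fun a b => pd_mul _ a b) _ _ _
    (p2c h1 h4) (p2d h2 h3) (z2 hu)

theorem q3 {u : SymmetricAlgebra ℂ H} (hu : u ∈ Sym (perp (setA2 α β c d))) :
    pd (om2 α β) (pd (om2 α β) (ιS c * ιS d * (ιS c + ιS d) * u)) = 2 * (ιS c * u) := by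
  rw [q2 h1 h2 h3 h4 hu]
  exact calc_q3 (fun v => pd (om2 α β) v) (fun a b => map_add _ a b) (fun a b => pd_mul _ a b)
    _ _ _ (p2c h1 h4) (p2d h2 h3) (z2 hu) (pd_two _)

theorem q4 {u : SymmetricAlgebra ℂ H} (hu : u ∈ Sym (perp (setA2 α β c d))) :
    pd (om1 α β) (pd (om1 α β) (ιS c * ιS d * (ιS c + ιS d) * u)) = 2 * (ιS d * u) := by
  rw [q1 h1 h2 h3 h4 hu]
  exact calc_q4 (fun v => pd (om1 α β) v) (fun a b => map_add _ a b) (fun a b => pd_mul _ a b)
    _ _ _ (p1c h1 h4) (p1d h2 h3) (z1 hu) (pd_two _)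

theorem q5 {u : SymmetricAlgebra ℂ H} (hu : u ∈ Sym (perp (setA2 α β c d))) :
    pd (om1 α β) (pd (om2 α β) (pd (om2 α β) (ιS c * ιS d * (ιS c + ιS d) * u))) = 2 * u := by
  rw [q3 h1 h2 h3 h4 hu]
  exact calc_q5 (fun v => pd (om1 α β) v) (fun a b => pd_mul _ a b)
    _ _ (p1c h1 h4) (z1 hu) (pd_two _)

theorem ops_a2 : ∀ t ∈ harA2 c d, ∃ D ∈ constDiff H, ∀ u ∈ Sym (perp (setA2 α β c d)),
    D (ιS c * ιS d * (ιS c + ιS d) * u) = t * u := by
  intro t ht
  simp only [harA2, Set.mem_insert_iff, Set.mem_singleton_iff] at ht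
  rcases ht with rfl | rfl | rfl | rfl | rfl | rfl
  · refine ⟨(1 / 2 : ℂ) • ((pd (om1 α β)).toLinearMap *
        ((pd (om2 α β)).toLinearMap * (pd (om2 α β)).toLinearMap)),
      Subalgebra.smul_mem _ (mul_mem (pd_mem _) (mul_mem (pd_mem _) (pd_mem _))) _,
      fun u hu => ?_⟩
    change (1 / 2 : ℂ) • (pd (om1 α β) (pd (om2 α β) (pd (om2 α β)
      (ιS c * ιS d * (ιS c + ιS d) * u)))) = _
    rw [q5 h1 h2 h3 h4 hu, half_two_mul, one_mul]
  · refine ⟨(1 / 2 : ℂ) • ((pd (om2 α β)).toLinearMap * (pd (om2 α β)).toLinearMap),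
      Subalgebra.smul_mem _ (mul_mem (pd_mem _) (pd_mem _)) _, fun u hu => ?_⟩
    change (1 / 2 : ℂ) • (pd (om2 α β) (pd (om2 α β) (ιS c * ιS d * (ιS c + ιS d) * u))) = _
    rw [q3 h1 h2 h3 h4 hu, half_two_mul]
  · refine ⟨(1 / 2 : ℂ) • ((pd (om1 α β)).toLinearMap * (pd (om1 α β)).toLinearMap),
      Subalgebra.smul_mem _ (mul_mem (pd_mem _) (pd_mem _)) _, fun u hu => ?_⟩
    change (1 / 2 : ℂ) • (pd (om1 α β) (pd (om1 α β) (ιS c * ιS d * (ιS c + ιS d) * u))) = _
    rw [q4 h1 h2 h3 h4 hu, half_two_mul]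
  · exact ⟨(pd (om1 α β)).toLinearMap, pd_mem _, fun u hu => q1 h1 h2 h3 h4 hu⟩
  · exact ⟨(pd (om2 α β)).toLinearMap, pd_mem _, fun u hu => q2 h1 h2 h3 h4 hu⟩
  · exact ⟨1, one_mem _, fun u _ => rfl⟩

/-- type `A2` -/
theorem HB.a2 [FiniteDimensional ℂ H] : HB (setA2 α β c d) (harA2 c d) where
  ex := by
    have hc : c ≠ 0 := by rintro rfl; simp at h1
    have hd : d ≠ 0 := by rintro rfl; simp at h2
    have hcd : c + d ≠ 0 := by
      intro h
      have := congrArg α h
      rw [map_add, h1, h3, map_zero] at this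
      norm_num at this
    have hp : pr [c, d, c + d] = ιS c * ιS d * (ιS c + ιS d) := by
      simp [pr, mul_assoc]
    refine ⟨[c, d, c + d], ?_, ?_, ?_, ?_, ?_⟩
    · intro x hx
      simp only [List.mem_cons, List.not_mem_nil, or_false] at hx
      rcases hx with rfl | rfl | rfl
      · exact hc
      · exact hd
      · exact hcd
    · intro x hx
      simp only [List.mem_cons, List.not_mem_nil, or_false] at hx
      rcases hx with rfl | rfl | rfl
      · exact Submodule.subset_span ⟨(α, x), by simp [setA2], rfl⟩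
      · exact Submodule.subset_span ⟨(β, x), by simp [setA2], rfl⟩
      · exact Submodule.subset_span ⟨(α + β, c + d), by simp [setA2], rfl⟩
    · intro r hr
      rw [hp]
      simp only [setA2, Set.mem_insert_iff, Set.mem_singleton_iff] at hr
      rcases hr with rfl | rfl | rfl | rfl | rfl | rfl
      · exact refl_a2_1 h1 h3
      · rw [refl_neg]; exact refl_a2_1 h1 h3
      · exact refl_a2_2 h2 h4
      · rw [refl_neg]; exact refl_a2_2 h2 h4
      · exact refl_a2_3 h1 h2 h3 h4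
      · rw [refl_neg]; exact refl_a2_3 h1 h2 h3 h4
    · intro Q hQ
      rw [hp]
      exact dvd_a2 h1 h2 h3 h4 Q hQ
    · rw [hp]
      exact ops_a2 h1 h2 h3 h4
  sub := by
    have m1 : ιS c ∈ Sym (co (setA2 α β c d)) :=
      ι_mem_Sym (Submodule.subset_span ⟨(α, c), by simp [setA2], rfl⟩)
    have m2 : ιS d ∈ Sym (co (setA2 α β c d)) :=
      ι_mem_Sym (Submodule.subset_span ⟨(β, d), by simp [setA2], rfl⟩)
    have m0 : (2 : SymmetricAlgebra ℂ H) ∈ Sym (co (setA2 α β c d)) := by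
      have := (Sym (co (setA2 α β c d))).natCast_mem 2
      simpa using this
    intro t ht
    simp only [harA2, Set.mem_insert_iff, Set.mem_singleton_iff] at ht
    rcases ht with rfl | rfl | rfl | rfl | rfl | rfl
    · exact one_mem _
    · exact m1
    · exact m2
    · exact add_mem (mul_mem m0 (mul_mem m1 m2)) (mul_mem m2 m2)
    · exact add_mem (mul_mem m1 m1) (mul_mem m0 (mul_mem m1 m2))
    · exact mul_mem (mul_mem m1 m2) (add_mem m1 m2)

end A2

end Pool.Agent.KS6_37.Phi
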