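import Mathlib

/-!
# Harmonic polynomials in `S(H)`
-/

set_option autoImplicit false

noncomputable section

namespace Pool.Agent.KS6_37.Phi

variable {H : Type} [AddCommGroup H] [Module ℂ H]

/-- the embedding `H → S(H)` -/
abbrev ιS : H →ₗ[ℂ] SymmetricAlgebra ℂ H := SymmetricAlgebra.ι ℂ H

/-- auxiliary linear map to the dual numbers, `h ↦ h + ξ(h) ε` -/
def auxL (ξ : Module.Dual ℂ H) :
    H →ₗ[ℂ] TrivSqZeroExt (SymmetricAlgebra ℂ H) (SymmetricAlgebra ℂ H) :=
  (TrivSqZeroExt.inlAlgHom ℂ (SymmetricAlgebra ℂ H) (SymmetricAlgebra ℂ H)).toLinearMap ∘ₗ ιS +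
  ((TrivSqZeroExt.inrHom (SymmetricAlgebra ℂ H) (SymmetricAlgebra ℂ H)).restrictScalars ℂ) ∘ₗ
    (Algebra.linearMap ℂ (SymmetricAlgebra ℂ H)) ∘ₗ ξ

/-- auxiliary homomorphism to the dual numbers, `h ↦ h + ξ(h) ε` -/
def pdHom (ξ : Module.Dual ℂ H) :
    SymmetricAlgebra ℂ H →ₐ[ℂ] TrivSqZeroExt (SymmetricAlgebra ℂ H) (SymmetricAlgebra ℂ H) :=
  SymmetricAlgebra.lift (auxL ξ)

theorem pdHom_ι_fst (ξ : Module.Dual ℂ H) (h : H) : (pdHom ξ (ιS h)).fst = ιS h := by
  rw [pdHom, SymmetricAlgebra.lift_ι_apply, auxL]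
  simp

theorem pdHom_ι_snd (ξ : Module.Dual ℂ H) (h : H) :
    (pdHom ξ (ιS h)).snd = algebraMap ℂ (SymmetricAlgebra ℂ H) (ξ h) := by
  rw [pdHom, SymmetricAlgebra.lift_ι_apply, auxL]
  simp only [LinearMap.add_apply, LinearMap.comp_apply, TrivSqZeroExt.snd_add]
  simp
  exact (Algebra.algebraMap_eq_smul_one _).symm

theorem pdHom_fst (ξ : Module.Dual ℂ H) (p : SymmetricAlgebra ℂ H) : (pdHom ξ p).fst = p := by
  induction p using SymmetricAlgebra.induction with
  | algebraMap r => rw [AlgHom.commutes]; rfl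
  | ι x => exact pdHom_ι_fst ξ x
  | mul a b ha hb => rw [map_mul, TrivSqZeroExt.fst_mul, ha, hb]
  | add a b ha hb => rw [map_add, TrivSqZeroExt.fst_add, ha, hb]

/-- `∂_ξ` as a linear map -/
def pdLin (ξ : Module.Dual ℂ H) : SymmetricAlgebra ℂ H →ₗ[ℂ] SymmetricAlgebra ℂ H where
  toFun := fun p => (pdHom ξ p).snd
  map_add' := fun a b => by simp
  map_smul' := fun c a => by simp

/-- The derivation `∂_ξ` of `S(H)` with `∂_ξ h = ξ(h)` for `h ∈ H`. -/
def pd (ξ : Module.Dual ℂ H) : Derivation ℂ (SymmetricAlgebra ℂ H) (SymmetricAlgebra ℂ H) :=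
  Derivation.mk' (pdLin ξ)
    (fun a b => by
      change (pdHom ξ (a * b)).snd = a • (pdHom ξ b).snd + b • (pdHom ξ a).snd
      rw [map_mul, TrivSqZeroExt.snd_mul, pdHom_fst, pdHom_fst, op_smul_eq_smul])

theorem pd_ι (ξ : Module.Dual ℂ H) (h : H) :
    pd ξ (ιS h) = algebraMap ℂ (SymmetricAlgebra ℂ H) (ξ h) := pdHom_ι_snd ξ h

theorem pd_mul (ξ : Module.Dual ℂ H) (a b : SymmetricAlgebra ℂ H) :
    pd ξ (a * b) = a * pd ξ b + b * pd ξ a := by
  rw [Derivation.leibniz]; rfl

theorem pd_comm (ξ η : Module.Dual ℂ H) (p : SymmetricAlgebra ℂ H) :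
    pd ξ (pd η p) = pd η (pd ξ p) := by
  induction p using SymmetricAlgebra.induction with
  | algebraMap r => simp
  | ι x => rw [pd_ι, pd_ι]; simp
  | mul a b ha hb =>
    rw [pd_mul, pd_mul, map_add, map_add, pd_mul, pd_mul, pd_mul, pd_mul, ha, hb]
    ring
  | add a b ha hb => simp only [map_add, ha, hb]

/-- The differential operators with constant coefficients on `S(H)`: the algebra generated by
the derivations `∂_ξ`, `ξ ∈ H^*`. -/
def constDiff (H : Type) [AddCommGroup H] [Module ℂ H] :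
    Subalgebra ℂ (Module.End ℂ (SymmetricAlgebra ℂ H)) :=
  Algebra.adjoin ℂ (Set.range fun ξ : Module.Dual ℂ H => (pd ξ).toLinearMap)

theorem constDiff_comm (D E : Module.End ℂ (SymmetricAlgebra ℂ H)) (hD : D ∈ constDiff H)
    (hE : E ∈ constDiff H) (p : SymmetricAlgebra ℂ H) : D (E p) = E (D p) := by
  have h := Algebra.isMulCommutative_adjoin ℂ (A := Module.End ℂ (SymmetricAlgebra ℂ H))
    (s := Set.range fun ξ : Module.Dual ℂ H => (pd ξ).toLinearMap)
    (by
      rintro _ ⟨x, rfl⟩ _ ⟨y, rfl⟩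
      refine LinearMap.ext fun p => ?_
      exact pd_comm x y p)
  have h2 := h.is_comm.comm (⟨D, hD⟩ : constDiff H) ⟨E, hE⟩
  have h3 : D * E = E * D := congrArg Subtype.val h2
  exact LinearMap.congr_fun h3 p

theorem pd_mem (ξ : Module.Dual ℂ H) : (pd ξ).toLinearMap ∈ constDiff H :=
  Algebra.subset_adjoin ⟨ξ, rfl⟩

/-- The automorphism of `S(H)` extending the reflection `h ↦ h - α(h) c` of `H`. -/
def refl (α : Module.Dual ℂ H) (c : H) : SymmetricAlgebra ℂ H →ₐ[ℂ] SymmetricAlgebra ℂ H :=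
  SymmetricAlgebra.lift (ιS ∘ₗ (LinearMap.id - α.smulRight c))

theorem refl_ι (α : Module.Dual ℂ H) (c h : H) : refl α c (ιS h) = ιS (h - α h • c) := by
  rw [refl, SymmetricAlgebra.lift_ι_apply]
  rfl

/-- The harmonic polynomials for the group generated by the reflections in `R`: the elements of
`S(H)` annihilated by every differential operator `D` with constant coefficients which commutes
with the reflections and has no constant term (`D 1 = 0`). -/
def harm (R : Set (Module.Dual ℂ H × H)) : Submodule ℂ (SymmetricAlgebra ℂ H) where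
  carrier := {a | ∀ D ∈ constDiff H, (∀ r ∈ R, ∀ p, D (refl r.1 r.2 p) = refl r.1 r.2 (D p)) →
    D 1 = 0 → D a = 0}
  zero_mem' := fun D _ _ _ => map_zero D
  add_mem' := fun {a b} ha hb D h1 h2 h3 => by rw [map_add, ha D h1 h2 h3, hb D h1 h2 h3, add_zero]
  smul_mem' := fun c a ha D h1 h2 h3 => by rw [map_smul, ha D h1 h2 h3, smul_zero]

theorem mem_harm {R : Set (Module.Dual ℂ H × H)} {a : SymmetricAlgebra ℂ H} : a ∈ harm R ↔
    ∀ D ∈ constDiff H, (∀ r ∈ R, ∀ p, D (refl r.1 r.2 p) = refl r.1 r.2 (D p)) →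
      D 1 = 0 → D a = 0 := Iff.rfl

/-! ### The filtration by the degree -/

/-- the span of the products of less than `n` elements of `H` -/
def fil (H : Type) [AddCommGroup H] [Module ℂ H] (n : ℕ) : Submodule ℂ (SymmetricAlgebra ℂ H) :=
  Submodule.span ℂ {p | ∃ l : List H, l.length < n ∧ (l.map fun h => ιS h).prod = p}

theorem fil_mono {m n : ℕ} (h : m ≤ n) : fil H m ≤ fil H n := by
  apply Submodule.span_mono
  rintro _ ⟨l, hl, rfl⟩
  exact ⟨l, by omega, rfl⟩

theorem ι_mul_fil (x : H) {n : ℕ} {p : SymmetricAlgebra ℂ H} (hp : p ∈ fil H n) :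
    ιS x * p ∈ fil H (n + 1) := by
  refine Submodule.span_induction (p := fun p _ => ιS x * p ∈ fil H (n + 1)) ?_ ?_ ?_ ?_ hp
  · rintro _ ⟨l, hl, rfl⟩
    exact Submodule.subset_span ⟨x :: l, by simp; omega, by simp⟩
  · simp
  · intro a b _ _ ha hb; rw [mul_add]; exact Submodule.add_mem _ ha hb
  · intro c a _ ha; rw [mul_smul_comm]; exact Submodule.smul_mem _ _ ha

theorem pd_list (ξ : Module.Dual ℂ H) (l : List H) :
    pd ξ (l.map fun h => ιS h).prod ∈ fil H l.length := by
  induction l with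
  | nil => simp
  | cons x l ih =>
    rw [List.map_cons, List.prod_cons, pd_mul, pd_ι]
    refine Submodule.add_mem _ (ι_mul_fil x ih) ?_
    rw [mul_comm, ← Algebra.smul_def]
    exact Submodule.smul_mem _ _ (Submodule.subset_span ⟨l, by simp, rfl⟩)

theorem pd_fil (ξ : Module.Dual ℂ H) {n : ℕ} {p : SymmetricAlgebra ℂ H} (hp : p ∈ fil H n) :
    pd ξ p ∈ fil H (n - 1) := by
  refine Submodule.span_induction (p := fun p _ => pd ξ p ∈ fil H (n - 1)) ?_ ?_ ?_ ?_ hp
  · rintro _ ⟨l, hl, rfl⟩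
    exact fil_mono (by omega) (pd_list ξ l)
  · simp
  · intro a b _ _ ha hb; rw [map_add]; exact Submodule.add_mem _ ha hb
  · intro c a _ ha; rw [(pd ξ).map_smul c a]; exact Submodule.smul_mem _ _ ha

theorem constDiff_fil (D : Module.End ℂ (SymmetricAlgebra ℂ H)) (hD : D ∈ constDiff H) :
    ∃ c : ℂ, ∀ n, ∀ p ∈ fil H n, D p - c • p ∈ fil H (n - 1) := by
  induction hD using Algebra.adjoin_induction with
  | mem x hx =>
    obtain ⟨ξ, rfl⟩ := hx
    refine ⟨0, fun n p hp => ?_⟩
    rw [zero_smul, sub_zero]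
    exact pd_fil ξ hp
  | algebraMap r =>
    refine ⟨r, fun n p _ => ?_⟩
    have : (algebraMap ℂ (Module.End ℂ (SymmetricAlgebra ℂ H)) r) p = r • p := rfl
    rw [this, sub_self]
    exact Submodule.zero_mem _
  | add x y _ _ hx hy =>
    obtain ⟨c, hc⟩ := hx
    obtain ⟨d, hd⟩ := hy
    refine ⟨c + d, fun n p hp => ?_⟩
    have : (x + y) p - (c + d) • p = (x p - c • p) + (y p - d • p) := by
      rw [LinearMap.add_apply, add_smul]; abel
    rw [this]
    exact Submodule.add_mem _ (hc n p hp) (hd n p hp)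
  | mul x y _ _ hx hy =>
    obtain ⟨c, hc⟩ := hx
    obtain ⟨d, hd⟩ := hy
    refine ⟨c * d, fun n p hp => ?_⟩
    have h1 : (x * y) p - (c * d) • p =
        (x (y p - d • p) - c • (y p - d • p)) + c • (y p - d • p) + d • (x p - c • p) := by
      rw [Module.End.mul_apply, map_sub, map_smul, smul_sub, smul_sub, smul_smul, smul_smul,
        mul_comm d c]
      abel
    rw [h1]
    refine Submodule.add_mem _ (Submodule.add_mem _ ?_ ?_) ?_
    · exact fil_mono (by omega) (hc _ _ (hd n p hp))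
    · exact Submodule.smul_mem _ _ (hd n p hp)
    · exact Submodule.smul_mem _ _ (hc n p hp)

theorem constDiff_fil' (D : Module.End ℂ (SymmetricAlgebra ℂ H)) (hD : D ∈ constDiff H)
    (h1 : D 1 = 0) {n : ℕ} {p : SymmetricAlgebra ℂ H} (hp : p ∈ fil H n) :
    D p ∈ fil H (n - 1) := by
  obtain ⟨c, hc⟩ := constDiff_fil D hD
  have h2 : (1 : SymmetricAlgebra ℂ H) ∈ fil H 1 := Submodule.subset_span ⟨[], by simp, by simp⟩
  have h3 := hc 1 1 h2
  rw [h1, zero_sub] at h3
  have h4 : fil H 0 = ⊥ := by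
    rw [fil, Submodule.span_eq_bot]
    rintro _ ⟨l, hl, rfl⟩
    omega
  rw [h4, Submodule.mem_bot, neg_eq_zero, smul_eq_zero] at h3
  rcases h3 with h3 | h3
  · have := hc n p hp
    rwa [h3, zero_smul, sub_zero] at this
  · exact absurd h3 one_ne_zero

theorem degree_ι (b : Module.Basis (Fin (Module.finrank ℂ H)) ℂ H) (x : H) :
    (SymmetricAlgebra.equivMvPolynomial b (ιS x)).IsHomogeneous 1 := by
  have h1 : ιS x = ∑ i, b.repr x i • ιS (b i) := by
    conv_lhs => rw [← b.sum_repr x]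
    rw [map_sum]
    exact Finset.sum_congr rfl fun i _ => map_smul _ _ _
  rw [h1, map_sum]
  refine MvPolynomial.IsHomogeneous.sum _ _ _ fun i _ => ?_
  rw [map_smul, SymmetricAlgebra.equivMvPolynomial_ι_apply, MvPolynomial.smul_eq_C_mul]
  have := (MvPolynomial.isHomogeneous_C (Fin (Module.finrank ℂ H)) (b.repr x i)).mul
    (MvPolynomial.isHomogeneous_X ℂ i)
  rwa [zero_add] at this

theorem exists_dual {x : H} (hx : x ≠ 0) : ∃ f : Module.Dual ℂ H, f x ≠ 0 := by
  by_contra hcon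
  push Not at hcon
  exact hx ((Module.forall_dual_apply_eq_zero_iff ℂ x).1 hcon)

theorem ι_ne_zero {x : H} (hx : x ≠ 0) : (ιS x : SymmetricAlgebra ℂ H) ≠ 0 := by
  intro h
  obtain ⟨f, hf⟩ := exists_dual hx
  have h2 := congrArg (SymmetricAlgebra.lift (f : H →ₗ[ℂ] ℂ)) h
  rw [SymmetricAlgebra.lift_ι_apply, map_zero] at h2
  exact hf h2

theorem list_prod_ne_zero (l : List H) (hl : ∀ x ∈ l, x ≠ 0) :
    (l.map fun h => (ιS h : SymmetricAlgebra ℂ H)).prod ≠ 0 := by
  rw [Ne, List.prod_eq_zero_iff, List.mem_map]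
  rintro ⟨x, hx, h⟩
  exact ι_ne_zero (hl x hx) h

theorem degree_list (b : Module.Basis (Fin (Module.finrank ℂ H)) ℂ H) (l : List H) :
    (SymmetricAlgebra.equivMvPolynomial b (l.map fun h => ιS h).prod).IsHomogeneous l.length := by
  induction l with
  | nil => simpa using MvPolynomial.isHomogeneous_one (Fin (Module.finrank ℂ H)) ℂ
  | cons x l ih =>
    rw [List.map_cons, List.prod_cons, map_mul, List.length_cons, add_comm]
    exact (degree_ι b x).mul ih

theorem degree_fil (b : Module.Basis (Fin (Module.finrank ℂ H)) ℂ H) {n : ℕ}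
    {p : SymmetricAlgebra ℂ H} (hp : p ∈ fil H n) :
    SymmetricAlgebra.equivMvPolynomial b p = 0 ∨
      (SymmetricAlgebra.equivMvPolynomial b p).totalDegree < n := by
  refine Submodule.span_induction (p := fun p _ => SymmetricAlgebra.equivMvPolynomial b p = 0 ∨
      (SymmetricAlgebra.equivMvPolynomial b p).totalDegree < n) ?_ ?_ ?_ ?_ hp
  · rintro _ ⟨l, hl, rfl⟩
    right
    exact lt_of_le_of_lt (degree_list b l).totalDegree_le hl
  · left; simp
  · intro x y _ _ hx hy
    rw [map_add]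
    rcases hx with hx | hx
    · rw [hx, zero_add]; exact hy
    · rcases hy with hy | hy
      · rw [hy, add_zero]; exact Or.inr hx
      · right
        exact lt_of_le_of_lt (MvPolynomial.totalDegree_add _ _) (max_lt hx hy)
  · intro c x _ hx
    rw [map_smul]
    rcases hx with hx | hx
    · left; rw [hx, smul_zero]
    · right
      exact lt_of_le_of_lt (MvPolynomial.totalDegree_smul_le _ _) hx

/-- a nonzero multiple of a product of `n` nonzero elements of `H` has degree at least `n` -/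
theorem eq_zero_of_dvd_of_fil [FiniteDimensional ℂ H] (l : List H)
    {p : SymmetricAlgebra ℂ H} (h : (l.map fun h => ιS h).prod ∣ p) (hp : p ∈ fil H l.length) :
    p = 0 := by
  let b := Module.finBasis ℂ H
  obtain ⟨r, rfl⟩ := h
  by_contra hne
  have h1 := (mul_ne_zero_iff.1 hne).1
  have h2 := (mul_ne_zero_iff.1 hne).2
  have e1 : SymmetricAlgebra.equivMvPolynomial b (l.map fun h => ιS h).prod ≠ 0 :=
    (map_ne_zero_iff _ (SymmetricAlgebra.equivMvPolynomial b).injective).2 h1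
  have e2 : SymmetricAlgebra.equivMvPolynomial b r ≠ 0 :=
    (map_ne_zero_iff _ (SymmetricAlgebra.equivMvPolynomial b).injective).2 h2
  rcases degree_fil b hp with h3 | h3
  · exact (map_ne_zero_iff _ (SymmetricAlgebra.equivMvPolynomial b).injective).2 hne h3
  · rw [map_mul, MvPolynomial.totalDegree_mul_of_isDomain e1 e2,
      (degree_list b l).totalDegree e1] at h3
    omega

/-! ### Divisibility -/

theorem dvd_sub_refl (α : Module.Dual ℂ H) (c : H) (p : SymmetricAlgebra ℂ H) :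
    ιS c ∣ p - refl α c p := by
  induction p using SymmetricAlgebra.induction with
  | algebraMap r => rw [AlgHom.commutes, sub_self]; exact dvd_zero _
  | ι x =>
    rw [refl_ι, map_sub, map_smul, sub_sub_cancel, Algebra.smul_def]
    exact Dvd.intro_left _ rfl
  | mul a b ha hb =>
    have : a * b - refl α c (a * b) =
        (a - refl α c a) * b + refl α c a * (b - refl α c b) := by
      rw [map_mul]; ring
    rw [this]
    exact dvd_add (Dvd.dvd.mul_right ha _) (Dvd.dvd.mul_left hb _)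
  | add a b ha hb =>
    have : a + b - refl α c (a + b) = (a - refl α c a) + (b - refl α c b) := by
      rw [map_add]; ring
    rw [this]
    exact dvd_add ha hb

/-- an anti-invariant polynomial is divisible by the coroot -/
theorem dvd_of_anti {α : Module.Dual ℂ H} {c : H} {p : SymmetricAlgebra ℂ H}
    (h : refl α c p = -p) : ιS c ∣ p := by
  have h1 := dvd_sub_refl α c p
  rw [h, sub_neg_eq_add] at h1
  obtain ⟨r, hr⟩ := h1
  refine ⟨(1 / 2 : ℂ) • r, ?_⟩
  rw [mul_smul_comm, ← hr, ← two_smul ℂ p, smul_smul]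
  norm_num

theorem prime_ι [FiniteDimensional ℂ H] {c : H} (hc : c ≠ 0) :
    Prime (ιS c : SymmetricAlgebra ℂ H) := by
  have hli : LinearIndepOn ℂ id ({c} : Set H) := LinearIndepOn.singleton (R := ℂ) (v := id) (i := c) hc
  let b := Module.Basis.extend hli
  have hmem : c ∈ hli.extend (Set.subset_univ _) := hli.subset_extend _ rfl
  have hb : b ⟨c, hmem⟩ = c := Module.Basis.extend_apply_self hli _
  have h1 := SymmetricAlgebra.equivMvPolynomial_ι_apply b ⟨c, hmem⟩
  rw [hb] at h1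
  rw [← MulEquiv.prime_iff (SymmetricAlgebra.equivMvPolynomial b).toMulEquiv]
  change Prime (SymmetricAlgebra.equivMvPolynomial b (ιS c))
  rw [h1]
  exact MvPolynomial.X_prime

theorem not_dvd {c d : H} (f : Module.Dual ℂ H) (hc : f c = 0) (hd : f d ≠ 0) :
    ¬ (ιS c : SymmetricAlgebra ℂ H) ∣ ιS d := by
  rintro ⟨r, hr⟩
  have h2 := congrArg (SymmetricAlgebra.lift (f : H →ₗ[ℂ] ℂ)) hr
  rw [map_mul, SymmetricAlgebra.lift_ι_apply, SymmetricAlgebra.lift_ι_apply, hc, zero_mul] at h2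
  exact hd h2

end Pool.Agent.KS6_37.Phi
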