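import Pool.Agent.KS6_37.Phi.Large

/-!
# Ideals and bad configurations
-/

set_option autoImplicit false
set_option linter.unusedSectionVars false

noncomputable section

namespace Pool.Agent.KS6_37.Phi

open LieAlgebra LieAlgebra.IsKilling LieModule Pool.Agent.KS6_37.Phi.Core
open Pool.Agent.KS6_37.PhiRP Module

variable {g : Type} [LieRing g] [LieAlgebra ℂ g] [FiniteDimensional ℂ g]
variable [LieAlgebra.IsKilling ℂ g]
variable {H : LieSubalgebra ℂ g} [H.IsCartanSubalgebra]

theorem coroot_mem_ideal {I : LieIdeal ℂ g} {α : Weight ℂ H g}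
    (hα : rootSpace H α ≤ I.restr H) : (coroot α : g) ∈ I :=
  I.corootSubmodule_le hα (coe_coroot_mem_corootSubmodule α)

theorem neg_mem_ideal {I : LieIdeal ℂ g} {α : Weight ℂ H g} (h0 : α.IsNonZero)
    (hα : rootSpace H α ≤ I.restr H) : rootSpace H (-α : Weight ℂ H g) ≤ I.restr H := by
  refine step_cl hα ?_
  rw [pz_neg_left, pz_self h0]
  norm_num

/-- an ideal containing the first root space of a bad configuration has dimension at least 9 -/
theorem Conf.nine_le {L : Fin 4 → Weight ℂ H g} (hL : Conf L) (I : LieIdeal ℂ g)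
    (h0 : rootSpace H (L 0) ≤ I.restr H) : 9 ≤ finrank ℂ I := by
  choose x hx hx0 using fun i => (L i).exists_ne_zero
  choose y hy hy0 using fun i => (-(L i)).exists_ne_zero
  let W : Option (Fin 4 ⊕ Fin 4) → H → ℂ := fun o => match o with
    | none => 0
    | some (Sum.inl i) => L i
    | some (Sum.inr i) => (-(L i) : Weight ℂ H g)
  let z : Option (Fin 4 ⊕ Fin 4) → g := fun o => match o with
    | none => (coroot (L 0) : g)
    | some (Sum.inl i) => x i
    | some (Sum.inr i) => y i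
  have hne : ∀ i j, i ≠ j → L i ≠ L j := by
    intro i j hij
    rcases lt_or_gt_of_ne hij with h | h
    · exact hL.ne i j h
    · exact (hL.ne j i h).symm
  have hne' : ∀ i j, L i ≠ -(L j) := by
    intro i j
    rcases lt_trichotomy i j with h | h | h
    · exact hL.ne' i j h
    · subst h
      refine ne_neg_of_pz (L i) ?_
      rw [pz_self (hL.nz i)]; norm_num
    · intro h'
      exact hL.ne' j i h (by rw [h', neg_neg])
  have hcoe : ∀ a b : Weight ℂ H g, (a : H → ℂ) = b → a = b := fun a b h =>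
    DFunLike.coe_injective h
  have hWinj : Function.Injective W := by
    rintro (_ | (i | i)) (_ | (j | j)) h
    · rfl
    · exact absurd h.symm (hL.nz j)
    · exact absurd h.symm (hL.nz j).neg
    · exact absurd h (hL.nz i)
    · by_cases hij : i = j
      · rw [hij]
      · exact absurd (hcoe _ _ h) (hne i j hij)
    · exact absurd (hcoe _ _ h) (hne' i j)
    · exact absurd h (hL.nz i).neg
    · exact absurd (hcoe _ _ h).symm (hne' j i)
    · by_cases hij : i = j
      · rw [hij]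
      · exact absurd (neg_injective (hcoe _ _ h)) (hne i j hij)
  have hz : ∀ o, z o ∈ rootSpace H (W o) := by
    rintro (_ | (i | i))
    · exact mem_rootSpace_zero _
    · exact hx i
    · exact hy i
  have hz0 : ∀ o, z o ≠ 0 := by
    rintro (_ | (i | i))
    · intro h
      have h1 : coroot (L 0) = 0 := Subtype.ext h
      rw [coroot_eq_zero_iff] at h1
      exact hL.nz 0 h1
    · exact hx0 i
    · exact hy0 i
  have hzI : ∀ o, z o ∈ I := by
    rintro (_ | (i | i))
    · exact coroot_mem_ideal h0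
    · exact hL.cl I h0 i (hx i)
    · exact neg_mem_ideal (hL.nz i) (hL.cl I h0 i) (hy i)
  have hli := li_of_weights W hWinj z hz hz0
  have hli' : LinearIndependent ℂ (fun o => (⟨z o, hzI o⟩ : I)) :=
    LinearIndependent.of_comp (I.toSubmodule.subtype) hli
  have := hli'.fintype_card_le_finrank
  simpa using this

/-- every root space is contained in a minimal ideal -/
theorem exists_atom (α : Weight ℂ H g) (hα : α.IsNonZero) :
    ∃ I : LieIdeal ℂ g, IsAtom I ∧ rootSpace H α ≤ I.restr H := by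
  by_contra hcon
  push Not at hcon
  let C : LieSubmodule ℂ H g := ⨆ (χ : H → ℂ) (_ : χ ≠ α), rootSpace H χ
  have hle : ∀ χ : H → ℂ, χ ≠ α → rootSpace H χ ≤ C := fun χ hχ => le_iSup₂_of_le χ hχ le_rfl
  have h1 : ∀ I : LieIdeal ℂ g, IsAtom I → I.restr H ≤ C := by
    intro I hI
    rw [I.restr_eq_iSup_sl2SubmoduleOfRoot (H := H)]
    refine iSup₂_le fun δ hδ => ?_
    rw [LieIdeal.mem_rootSet] at hδ
    have hδ0 : (δ : Weight ℂ H g).IsNonZero := H.isNonZero_coe_root δ
    rw [sl2SubmoduleOfRoot_eq_sup]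
    refine sup_le (sup_le (hle _ ?_) (hle _ ?_)) ?_
    · intro h
      apply hcon I hI
      rw [← h]
      exact hδ
    · intro h
      apply hcon I hI
      have h2 := neg_mem_ideal hδ0 hδ
      rw [← h]
      exact h2
    · refine le_trans ?_ (hle 0 (Ne.symm hα))
      intro x hx
      obtain ⟨y, _, rfl⟩ := (LieSubmodule.mem_map _).1 hx
      exact mem_rootSpace_zero y
  have h2 : (⊤ : LieIdeal ℂ g).toSubmodule ≤ C.toSubmodule := by
    rw [← LieAlgebra.IsSemisimple.sSup_atoms_eq_top (R := ℂ) (L := g),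
      LieSubmodule.sSup_toSubmodule, sSup_le_iff]
    rintro _ ⟨I, hI, rfl⟩
    exact h1 I hI
  obtain ⟨e, he, he0⟩ := α.exists_ne_zero
  have h3 : e ∈ C := h2 trivial
  have h4 : Disjoint (rootSpace H α) C := iSupIndep_genWeightSpace ℂ H g (α : H → ℂ)
  have h5 : e ∈ rootSpace H α ⊓ C := ⟨he, h3⟩
  rw [h4.eq_bot, LieSubmodule.mem_bot] at h5
  exact he0 h5

/-- a bad configuration yields a minimal ideal of dimension at least 9 -/
theorem Conf.exists_big {L : Fin 4 → Weight ℂ H g} (hL : Conf L) :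
    ∃ I : LieIdeal ℂ g, IsAtom I ∧ 9 ≤ finrank ℂ I := by
  obtain ⟨I, hI, h⟩ := exists_atom (L 0) (hL.nz 0)
  exact ⟨I, hI, hL.nine_le I h⟩

end Pool.Agent.KS6_37.Phi

end

/-!
# The minimal ideals when all components have type `A1` or `A2`
-/

set_option autoImplicit false
set_option linter.unusedSectionVars false

noncomputable section

namespace Pool.Agent.KS6_37.Phi

open LieAlgebra LieAlgebra.IsKilling LieModule Pool.Agent.KS6_37.Phi.Core
open Pool.Agent.KS6_37.PhiRP Module

variable {g : Type} [LieRing g] [LieAlgebra ℂ g] [FiniteDimensional ℂ g]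
variable [LieAlgebra.IsKilling ℂ g]
variable {H : LieSubalgebra ℂ g} [H.IsCartanSubalgebra]

/-- the components of type `A1` and `A2` -/
inductive IsBlock : Set (Weight ℂ H g) → Prop
  | one (α : Weight ℂ H g) (hα : α.IsNonZero)
      (h0 : ∀ β : Weight ℂ H g, β.IsNonZero → β ∉ F1 α → pz β α = 0) : IsBlock (F1 α)
  | two (α β : Weight ℂ H g) (hα : α.IsNonZero) (hβ : β.IsNonZero) (h : pz α β = -1) :
      IsBlock (F2 α β (sm α β))

theorem IsBlock.nz (hC : C1 H) {F : Set (Weight ℂ H g)} (hF : IsBlock F) :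
    ∀ δ ∈ F, δ.IsNonZero := by
  cases hF with
  | one α hα h0 => exact F1_nonzero hα
  | two α β hα hβ h => exact F2_nonzero (isA2_sm hC hα hβ h)

theorem IsBlock.perp (hC : C1 H) (hC2 : C2 H) {F : Set (Weight ℂ H g)} (hF : IsBlock F) :
    ∀ δ : Weight ℂ H g, δ.IsNonZero → δ ∉ F → ∀ η ∈ F, pz δ η = 0 := by
  cases hF with
  | one α hα h0 => exact fun δ hδ hδF => F1_perp h0 hδ hδF
  | two α β hα hβ h => exact fun δ hδ hδF => F2_perp hC hC2 hα hβ h hδ hδF

/-- every root is in a block, and the block is contained in every ideal containing the root -/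
theorem exists_block (hC : C1 H) (hC2 : C2 H) (α : Weight ℂ H g) (hα : α.IsNonZero) :
    ∃ F : Set (Weight ℂ H g), IsBlock F ∧ α ∈ F ∧ (∀ δ ∈ F, pz δ α ≠ 0) := by
  by_cases hex : ∃ β : Weight ℂ H g, β.IsNonZero ∧ β ∉ F1 α ∧ pz β α ≠ 0
  · obtain ⟨β₀, hβ₀, hF, hne⟩ := hex
    have h1 : α ≠ β₀ := fun h => hF (Or.inl h.symm)
    have h2 : α ≠ -β₀ := fun h => hF (Or.inr (by rw [h]; simp))
    have hne' : pz α β₀ ≠ 0 := fun h => hne (pz_zero_symm hα hβ₀ h)
    obtain ⟨β, hβ, hpz⟩ : ∃ β : Weight ℂ H g, β.IsNonZero ∧ pz α β = -1 := by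
      have h3 := hC α β₀ hα hβ₀ h1 h2
      rcases (by omega : pz α β₀ = -1 ∨ pz α β₀ = 1) with h4 | h4
      · exact ⟨β₀, hβ₀, h4⟩
      · exact ⟨-β₀, hβ₀.neg, by rw [pz_neg_right, h4]⟩
    have hsym := hC.symm hα hβ hpz
    refine ⟨_, IsBlock.two α β hα hβ hpz, Or.inl rfl, ?_⟩
    rintro δ (rfl | rfl | rfl | rfl | rfl | rfl)
    · rw [pz_self hα]; norm_num
    · rw [pz_neg_left, pz_self hα]; norm_num
    · rw [hsym]; norm_num
    · rw [pz_neg_left, hsym]; norm_num
    · rw [pz_sm_left hpz, pz_self hα, hsym]; norm_num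
    · rw [pz_neg_left, pz_sm_left hpz, pz_self hα, hsym]; norm_num
  · push Not at hex
    refine ⟨_, IsBlock.one α hα hex, Or.inl rfl, ?_⟩
    rintro δ (rfl | rfl)
    · rw [pz_self hα]; norm_num
    · rw [pz_neg_left, pz_self hα]; norm_num

theorem span_seq_closed (l : List g) (B : ℕ → ℕ → List (ℤ × ℕ))
    (hB : ∀ a b, ⁅seq l a, seq l b⁆ = ((B a b).map fun t => (t.1 : ℂ) • seq l t.2).sum) :
    ∀ x ∈ Submodule.span ℂ (Set.range (seq l)), ∀ y ∈ Submodule.span ℂ (Set.range (seq l)),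
      ⁅x, y⁆ ∈ Submodule.span ℂ (Set.range (seq l)) := by
  have h0 : ∀ a b, ⁅seq l a, seq l b⁆ ∈ Submodule.span ℂ (Set.range (seq l)) := by
    intro a b
    rw [hB]
    refine list_sum_mem ?_
    intro x hx
    obtain ⟨t, _, rfl⟩ := List.mem_map.1 hx
    exact Submodule.smul_mem _ _ (Submodule.subset_span ⟨_, rfl⟩)
  intro x hx y hy
  refine Submodule.span_induction
    (p := fun x _ => ⁅x, y⁆ ∈ Submodule.span ℂ (Set.range (seq l))) ?_ ?_ ?_ ?_ hx
  · rintro _ ⟨a, rfl⟩
    refine Submodule.span_induction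
      (p := fun y _ => ⁅seq l a, y⁆ ∈ Submodule.span ℂ (Set.range (seq l))) ?_ ?_ ?_ ?_ hy
    · rintro _ ⟨b, rfl⟩
      exact h0 a b
    · rw [lie_zero]; exact zero_mem _
    · intro u v _ _ hu hv; rw [lie_add]; exact add_mem hu hv
    · intro c u _ hu; rw [lie_smul]; exact Submodule.smul_mem _ _ hu
  · rw [zero_lie]; exact zero_mem _
  · intro u v _ _ hu hv; rw [add_lie]; exact add_mem hu hv
  · intro c u _ hu; rw [smul_lie]; exact Submodule.smul_mem _ _ hu

theorem finrank_seq_le (l : List g) :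
    finrank ℂ (Submodule.span ℂ (Set.range (seq l))) ≤ l.length := by
  have h1 : Submodule.span ℂ (Set.range (seq l)) ≤
      Submodule.span ℂ (Set.range fun i : Fin l.length => l.get i) := by
    refine span_seq_le fun x hx => ?_
    obtain ⟨i, hi⟩ := List.mem_iff_get.1 hx
    exact Submodule.subset_span ⟨i, hi⟩
  refine (Submodule.finrank_mono h1).trans ?_
  have := finrank_range_le_card (R := ℂ) (fun i : Fin l.length => l.get i)
  simpa [Set.finrank] using this

theorem IsBlock.closed (hC : C1 H) {F : Set (Weight ℂ H g)} (hF : IsBlock F) :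
    ∀ x ∈ bs (g := g) (prs F), ∀ y ∈ bs (g := g) (prs F), ⁅x, y⁆ ∈ bs (g := g) (prs F) := by
  cases hF with
  | one α hα h0 =>
    obtain ⟨e, f, he, hf, hef⟩ := exists_ef hα
    rw [prs_F1, bs_a1 hα he hf hef]
    exact span_seq_closed _ _ (lie_a1 hα he hf hef)
  | two α β hα hβ h =>
    have A := isA2_sm hC hα hβ h
    obtain ⟨e1, f1, he1, hf1, h1⟩ := exists_ef A.hα
    obtain ⟨e2, f2, he2, hf2, h2⟩ := exists_ef A.hβ
    rw [prs_F2 A, bs_a2 A he1 he2 hf1 hf2 h1 h2]
    exact span_seq_closed _ _ (br_a2 A he1 he2 hf1 hf2 h1 h2).table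

theorem co_ge_one {R : Set (Module.Dual ℂ H × H)} {c : H} (hc : c ∈ co R) (h0 : c ≠ 0) :
    1 ≤ finrank ℂ (co R) := by
  have : Nontrivial (co R) := ⟨⟨c, hc⟩, 0, fun h => h0 (congrArg Subtype.val h)⟩
  exact Module.finrank_pos

theorem IsBlock.bounds (hC : C1 H) {F : Set (Weight ℂ H g)} (hF : IsBlock F) :
    finrank ℂ (bs (g := g) (prs F)) ≤ 8 ∧
      finrank ℂ (bs (g := g) (prs F)) ≤ 4 * finrank ℂ (co (prs F)) := by
  cases hF with
  | one α hα h0 =>
    obtain ⟨e, f, he, hf, hef⟩ := exists_ef hα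
    have h1 : finrank ℂ (bs (g := g) (prs (F1 α))) ≤ 3 := by
      rw [prs_F1, bs_a1 hα he hf hef]
      exact finrank_seq_le _
    have h2 : 1 ≤ finrank ℂ (co (prs (F1 α))) := by
      rw [prs_F1]
      refine co_ge_one (mem_co (mem_set1 α)) fun h => ?_
      rw [coroot_eq_zero_iff] at h
      exact hα h
    omega
  | two α β hα hβ h =>
    have A := isA2_sm hC hα hβ h
    obtain ⟨e1, f1, he1, hf1, h1⟩ := exists_ef A.hα
    obtain ⟨e2, f2, he2, hf2, h2⟩ := exists_ef A.hβ
    have h3 : finrank ℂ (bs (g := g) (prs (F2 α β (sm α β)))) ≤ 8 := by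
      rw [prs_F2 A, bs_a2 A he1 he2 hf1 hf2 h1 h2]
      exact finrank_seq_le _
    have h4 : 2 ≤ finrank ℂ (co (prs (F2 α β (sm α β)))) := by
      rw [prs_F2 A]
      have m1 : coroot α ∈ co (set2 α β) :=
        mem_co (r := (α.toLinear, coroot α)) (by simp [set2, setA2])
      have m2 : coroot β ∈ co (set2 α β) :=
        mem_co (r := (β.toLinear, coroot β)) (by simp [set2, setA2])
      have hli : LinearIndependent ℂ ![(⟨coroot α, m1⟩ : co (set2 α β)), ⟨coroot β, m2⟩] := by
        rw [LinearIndependent.pair_iff]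
        intro s t hst
        have h5 : s • coroot α + t • coroot β = 0 := congrArg Subtype.val hst
        have h6 := congrArg α h5
        have h7 := congrArg β h5
        rw [map_add, map_smul, map_smul, map_zero, root_apply_coroot hα, A.p1] at h6
        rw [map_add, map_smul, map_smul, map_zero, root_apply_coroot hβ, A.p2] at h7
        simp only [smul_eq_mul] at h6 h7
        constructor
        · linear_combination (2 * h6 + h7) / 3
        · linear_combination (h6 + 2 * h7) / 3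
      have := hli.fintype_card_le_finrank
      simpa using this
    omega

theorem coe_ne_zero_of_all (h : H) (hh : ∀ δ : Weight ℂ H g, δ.IsNonZero → δ h = 0) : h = 0 := by
  have h1 : h ∈ (⨅ α : Weight ℂ H g, α.ker : Submodule ℂ H) := by
    rw [Submodule.mem_iInf]
    intro δ
    by_cases hδ : δ.IsNonZero
    · exact hh δ hδ
    · have : (δ : H → ℂ) = 0 := by
        by_contra h2; exact hδ h2
      exact congrFun this h
  rw [iInf_ker_weight_eq_bot] at h1
  exact h1

end Pool.Agent.KS6_37.Phi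

end

/-!
# The minimal ideals are the blocks; the dimension of `g`
-/

set_option autoImplicit false
set_option linter.unusedSectionVars false

noncomputable section

namespace Pool.Agent.KS6_37.Phi

open LieAlgebra LieAlgebra.IsKilling LieModule Pool.Agent.KS6_37.Phi.Core
open Pool.Agent.KS6_37.PhiRP Module

variable {g : Type} [LieRing g] [LieAlgebra ℂ g] [FiniteDimensional ℂ g]
variable [LieAlgebra.IsKilling ℂ g]
variable {H : LieSubalgebra ℂ g} [H.IsCartanSubalgebra]

/-- the space spanned by a block is an ideal -/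
def blockIdeal (hC : C1 H) (hC2 : C2 H) {F : Set (Weight ℂ H g)} (hF : IsBlock F) :
    LieIdeal ℂ g where
  toSubmodule := bs (g := g) (prs F)
  lie_mem := by
    intro x y hy
    change ⁅x, y⁆ ∈ bs (g := g) (prs F)
    have hx : x ∈ bs (g := g) (rootPairs H) := by rw [bs_rootPairs]; trivial
    have hsp : {δ : Weight ℂ H g | δ.IsNonZero} = F ∪ {δ | δ.IsNonZero ∧ δ ∉ F} := by
      ext δ
      constructor
      · intro hδ
        by_cases h : δ ∈ F
        · exact Or.inl h
        · exact Or.inr ⟨hδ, h⟩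
      · rintro (h | h)
        · exact hF.nz hC δ h
        · exact h.1
    rw [rootPairs_eq, hsp, prs_union, bs_union] at hx
    obtain ⟨a, ha, b, hb, rfl⟩ := Submodule.mem_sup.1 hx
    rw [add_lie]
    have h1 : ⁅b, y⁆ = 0 := comm_prs hC (fun δ hδ => hδ.1) (hF.nz hC)
      (fun δ hδ η hη => hF.perp hC hC2 δ hδ.1 hδ.2 η hη) b hb y hy
    rw [h1, add_zero]
    exact hF.closed hC a ha y hy

/-- every minimal ideal is spanned by a block -/
theorem atom_eq_block (hC : C1 H) (hC2 : C2 H) (I : LieIdeal ℂ g) (hI : IsAtom I) :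
    ∃ (F : Set (Weight ℂ H g)) (hF : IsBlock F), I = blockIdeal hC hC2 hF := by
  obtain ⟨α, hα⟩ : ∃ α : H.root, α ∈ I.rootSet := by
    by_contra hcon
    push Not at hcon
    apply hI.1
    have h1 := I.restr_eq_iSup_sl2SubmoduleOfRoot (H := H)
    have h2 : (⨆ (α : H.root) (_ : α ∈ I.rootSet),
        sl2SubmoduleOfRoot (H.isNonZero_coe_root α)) = ⊥ := by
      rw [iSup_eq_bot]
      intro α
      rw [iSup_eq_bot]
      intro h
      exact absurd h (hcon α)
    rw [h2] at h1
    rw [LieSubmodule.eq_bot_iff]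
    intro x hx
    have h3 : x ∈ I.restr H := hx
    rwa [h1, LieSubmodule.mem_bot] at h3
  rw [LieIdeal.mem_rootSet] at hα
  obtain ⟨F, hF, hαF, hne⟩ := exists_block hC hC2 α.1 (H.isNonZero_coe_root α)
  refine ⟨F, hF, ?_⟩
  have hle : blockIdeal hC hC2 hF ≤ I := by
    change bs (g := g) (prs F) ≤ I.toSubmodule
    refine bs_le ?_ ?_
    · rintro _ ⟨δ, hδ, rfl⟩
      exact coroot_mem_ideal (step_cl hα (hne δ hδ))
    · rintro _ ⟨δ, hδ, rfl⟩
      rw [wv_eq]
      exact step_cl hα (hne δ hδ)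
  rcases (hI.le_iff.1 hle) with h | h
  · exfalso
    have h1 : (coroot α.1 : g) ∈ blockIdeal hC hC2 hF :=
      cog_le_bs _ (cog_mem (mem_co (r := (α.1.toLinear, coroot α.1)) ⟨α.1, hαF, rfl⟩))
    rw [h, LieSubmodule.mem_bot] at h1
    have h2 : coroot α.1 = 0 := Subtype.ext h1
    rw [coroot_eq_zero_iff] at h2
    exact H.isNonZero_coe_root α h2
  · exact h.symm

theorem atom_le_eight (hC : C1 H) (hC2 : C2 H) (I : LieIdeal ℂ g) (hI : IsAtom I) :
    finrank ℂ I ≤ 8 := by
  obtain ⟨F, hF, rfl⟩ := atom_eq_block hC hC2 I hI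
  exact (hF.bounds hC).1

/-- induction over the blocks -/
theorem block_ind (hC : C1 H) (hC2 : C2 H) (P : Set (Weight ℂ H g) → Prop) (h0 : P ∅)
    (hstep : ∀ F S : Set (Weight ℂ H g), IsBlock F → (∀ δ ∈ S, δ.IsNonZero) →
      (∀ δ ∈ F, ∀ η ∈ S, pz δ η = 0) → (∀ δ ∈ S, ∀ η ∈ F, pz δ η = 0) →
      (∀ δ : Weight ℂ H g, δ.IsNonZero → δ ∉ S → ∀ η ∈ S, pz δ η = 0) → P S → P (F ∪ S)) :
    P {δ | δ.IsNonZero} := by
  have key : ∀ (n : ℕ) (S : Set (Weight ℂ H g)), S.ncard = n → (∀ δ ∈ S, δ.IsNonZero) →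
      (∀ δ : Weight ℂ H g, δ.IsNonZero → δ ∉ S → ∀ η ∈ S, pz δ η = 0) → P S := by
    intro n
    induction n using Nat.strong_induction_on with
    | _ n ih =>
      intro S hn hS hsat
      rcases S.eq_empty_or_nonempty with rfl | ⟨α, hαS⟩
      · exact h0
      obtain ⟨F, hF, hαF, hne⟩ := exists_block hC hC2 α (hS α hαS)
      have hFS : F ⊆ S := by
        intro δ hδ
        by_contra h
        exact hne δ hδ (hsat δ (hF.nz hC δ hδ) h α hαS)
      have hFS' : F ∪ (S \ F) = S := Set.union_sdiff_cancel hFS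
      have hn1 : (S \ F).ncard < n := by
        rw [← hn]
        refine Set.ncard_lt_ncard ⟨Set.sdiff_subset, fun h => ?_⟩ (Set.toFinite S)
        exact (h hαS).2 hαF
      have hnz : ∀ δ ∈ S \ F, δ.IsNonZero := fun δ hδ => hS δ hδ.1
      have hsat' : ∀ δ : Weight ℂ H g, δ.IsNonZero → δ ∉ S \ F → ∀ η ∈ S \ F, pz δ η = 0 := by
        intro δ hδ hδ' η hη
        by_cases h1 : δ ∈ S
        · have h2 : δ ∈ F := by
            by_contra h3
            exact hδ' ⟨h1, h3⟩
          exact pz_zero_symm (hS η hη.1) hδ (hF.perp hC hC2 η (hS η hη.1) hη.2 δ h2)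
        · exact hsat δ hδ h1 η hη.1
      have h5 : ∀ δ ∈ S \ F, ∀ η ∈ F, pz δ η = 0 := fun δ hδ η hη =>
        hF.perp hC hC2 δ (hnz δ hδ) hδ.2 η hη
      have h6 : ∀ δ ∈ F, ∀ η ∈ S \ F, pz δ η = 0 := fun δ hδ η hη =>
        pz_zero_symm (hnz η hη) (hF.nz hC δ hδ) (h5 η hη δ hδ)
      rw [← hFS']
      exact hstep F (S \ F) hF hnz h6 h5 hsat' (ih _ hn1 (S \ F) rfl hnz hsat')
  exact key _ _ rfl (fun δ hδ => hδ) (fun δ hδ h => absurd hδ h)

theorem finrank_le_four_mul (hC : C1 H) (hC2 : C2 H) : finrank ℂ g ≤ 4 * finrank ℂ H := by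
  have key := block_ind hC hC2
    (fun S => finrank ℂ (bs (g := g) (prs S)) ≤ 4 * finrank ℂ (co (prs S))) ?_ ?_
  · have h1 : prs {δ : Weight ℂ H g | δ.IsNonZero} = rootPairs H := rfl
    rw [h1, bs_rootPairs, co_rootPairs, finrank_top, finrank_top] at key
    exact key
  · have h0 : prs (∅ : Set (Weight ℂ H g)) = ∅ := by ext r; simp [prs]
    have e1 : bs (g := g) (∅ : Set (Module.Dual ℂ H × H)) = ⊥ := by simp [bs, cog, co]
    rw [h0, e1, finrank_bot]
    exact Nat.zero_le _
  · intro F S hF hS h1 h2 h3 ih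
    rw [prs_union, bs_union, co_union]
    have h4 := Submodule.finrank_add_le_finrank_add_finrank (bs (g := g) (prs F))
      (bs (g := g) (prs S))
    have h5 := (hF.bounds hC).2
    have h6 : Disjoint (co (prs F)) (co (prs S)) := by
      rw [disjoint_iff, Submodule.eq_bot_iff]
      rintro x ⟨hx1, hx2⟩
      refine coe_ne_zero_of_all (g := g) x fun δ hδ => ?_
      by_cases hF' : δ ∈ F
      · refine zero_on_co δ.toLinear ?_ hx2
        rintro _ ⟨η, hη, rfl⟩
        change δ (coroot η) = 0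
        rw [pz_cast, h1 δ hF' η hη]; norm_num
      · refine zero_on_co δ.toLinear ?_ hx1
        rintro _ ⟨η, hη, rfl⟩
        change δ (coroot η) = 0
        rw [pz_cast, hF.perp hC hC2 δ hδ hF' η hη]; norm_num
    have h7 := Submodule.finrank_sup_add_finrank_inf_eq (co (prs F)) (co (prs S))
    rw [h6.eq_bot, finrank_bot, add_zero] at h7
    omega

end Pool.Agent.KS6_37.Phi

end
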