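import Pool.Agent.KS6_37.Phi.Trans

/-!
# Injectivity of all maps `Φ^V` from a generation property
-/

set_option autoImplicit false
set_option linter.unusedSectionVars false

open scoped TensorProduct

noncomputable section

namespace Pool.Agent.KS6_37.Phi

open Pool.Agent.KS6_37.PhiRP Pool.Agent.KS6_37.Phi.Core

variable {g : Type} [LieRing g] [LieAlgebra ℂ g] [FiniteDimensional ℂ g]
variable [LieAlgebra.IsKilling ℂ g]

section defs

variable (H : LieSubalgebra ℂ g) [H.IsCartanSubalgebra]

/-- `q` is the projection `g = H ⊕ ⨁ g_α → H`. -/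
structure IsProj (q : g →ₗ[ℂ] H) : Prop where
  self : ∀ h : H, q (h : g) = h
  root : ∀ α : LieModule.Weight ℂ H g, α.IsNonZero → ∀ x ∈ LieAlgebra.rootSpace H α, q x = 0

/-- The pairs consisting of a root and its coroot. -/
def rootPairs : Set (Module.Dual ℂ H × H) :=
  {r | ∃ α : LieModule.Weight ℂ H g, α.IsNonZero ∧
    r = (α.toLinear, LieAlgebra.IsKilling.coroot α)}

/-- The space of harmonic polynomials: the elements of `S(H)` annihilated by every differential
operator with constant coefficients which commutes with the Weyl group and has no constant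
term. -/
def harmonic : Submodule ℂ (SymmetricAlgebra ℂ H) := harm (rootPairs H)

/-- The map `Φ = (p ⊗ φ) ∘ (Id ⊗ π) ∘ Δ : Λ g → Λ H ⊗ A^*`, where `p = Λ q` and `A` is the space
of harmonic polynomials. -/
def PhiMap (q : g →ₗ[ℂ] H) :
    ExteriorAlgebra ℂ g →ₗ[ℂ] ExteriorAlgebra ℂ H ⊗[ℂ] Module.Dual ℂ (harmonic H) :=
  bigPhi q (H.incl : H →ₗ[ℂ] g) (harmonic H)

/-- All the maps `Φ^V`, for `V` a finite-dimensional irreducible `g`-module, are injective: if
`f : V → Λ g` is a homomorphism of `g`-modules and `Φ (f v) = 0` for all vectors `v` of weight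
zero, then `f = 0`. -/
def AllInjective (q : g →ₗ[ℂ] H) : Prop :=
  ∀ (V : Type) [AddCommGroup V] [Module ℂ V] [LieRingModule g V] [LieModule ℂ g V]
    [FiniteDimensional ℂ V] [LieModule.IsIrreducible ℂ g V]
    (f : V →ₗ⁅ℂ,g⁆ ExteriorAlgebra ℂ g),
    (∀ v : V, (∀ h : H, ⁅(h : g), v⁆ = 0) → PhiMap H q (f v) = 0) → f = 0

end defs

variable {H : LieSubalgebra ℂ g} [H.IsCartanSubalgebra]

theorem mem_iSup_rootSpace (x : g) : x ∈ ⨆ α : H → ℂ, LieAlgebra.rootSpace H α := by
  simp [LieModule.iSup_genWeightSpace_eq_top]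

theorem kill_proj {q : g →ₗ[ℂ] H} (hq : IsProj H q) (x : g) (y : H) :
    killingForm ℂ g (y : g) (q x : g) = killingForm ℂ g (y : g) x := by
  have hx := mem_iSup_rootSpace (H := H) x
  induction hx using LieSubmodule.iSup_induction' with
  | mem χ x hx =>
    by_cases hχ : χ = 0
    · subst hχ
      rw [LieAlgebra.rootSpace_zero_eq, LieSubalgebra.mem_toLieSubmodule] at hx
      have := hq.self ⟨x, hx⟩
      rw [this]
    · have h1 : killingForm ℂ g (y : g) x = 0 := by
        refine LieAlgebra.killingForm_apply_eq_zero_of_mem_rootSpace_of_add_ne_zero ℂ g H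
          (α := 0) (β := χ) ?_ hx (by rwa [zero_add])
        rw [LieAlgebra.rootSpace_zero_eq, LieSubalgebra.mem_toLieSubmodule]
        exact y.2
      have h2 : q x = 0 := by
        by_cases hb : LieAlgebra.rootSpace H χ = ⊥
        · rw [hb, LieSubmodule.mem_bot] at hx
          rw [hx, map_zero]
        · exact hq.root ⟨χ, hb⟩ hχ x hx
      rw [h1, h2]
      simp
  | zero => simp
  | add a b _ _ ha hb =>
    have e : (q (a + b) : g) = (q a : g) + (q b : g) := by rw [map_add]; rfl
    rw [e, map_add, map_add, ha, hb]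

/-- the action of `x` on `Λ g` -/
abbrev actE (x : g) : Module.End ℂ (ExteriorAlgebra ℂ g) :=
  LieModule.toEnd ℂ g (ExteriorAlgebra ℂ g) x

theorem mem_iSup_eigen (h : H) (w : ExteriorAlgebra ℂ g) :
    w ∈ ⨆ μ : ℂ, Module.End.eigenspace (actE (h : g)) μ := by
  induction w using left_ind with
  | h1 r =>
    refine Submodule.mem_iSup_of_mem 0 ?_
    rw [Module.End.mem_eigenspace_iff, zero_smul]
    change ⁅(h : g), algebraMap ℂ (ExteriorAlgebra ℂ g) r⁆ = 0
    rw [lie_ext_def, deriv_algebraMap]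
  | h2 x y hx hy => exact Submodule.add_mem _ hx hy
  | h3 m x hx =>
    have hm : m ∈ ⨆ μ : ℂ, Module.End.eigenspace (LieAlgebra.ad ℂ g (h : g)) μ := by
      rw [(LieAlgebra.IsKilling.isSemisimple_ad_of_mem_isCartanSubalgebra
        (H := H) h.2).iSup_eigenspace_eq_top]
      trivial
    refine Submodule.iSup_induction _ (motive := fun m => ExteriorAlgebra.ι ℂ m * x ∈
      ⨆ μ : ℂ, Module.End.eigenspace (actE (h : g)) μ) hm ?_ ?_ ?_
    · intro μ m hm
      refine Submodule.iSup_induction _ (motive := fun x => ExteriorAlgebra.ι ℂ m * x ∈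
        ⨆ μ : ℂ, Module.End.eigenspace (actE (h : g)) μ) hx ?_ ?_ ?_
      · intro ν x hx
        refine Submodule.mem_iSup_of_mem (μ + ν) ?_
        rw [Module.End.mem_eigenspace_iff] at hm hx ⊢
        change ⁅(h : g), ExteriorAlgebra.ι ℂ m * x⁆ = _
        change ⁅(h : g), m⁆ = _ at hm
        change ⁅(h : g), x⁆ = _ at hx
        rw [lie_ι_mul, hm, hx, map_smul, smul_mul_assoc, mul_smul_comm, add_smul]
      · simp
      · intro a b ha hb
        rw [mul_add]; exact Submodule.add_mem _ ha hb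
    · simp
    · intro a b ha hb
      rw [map_add, add_mul]; exact Submodule.add_mem _ ha hb

theorem lie_eq_zero_of_pow (h : H) (w : ExteriorAlgebra ℂ g) (k : ℕ)
    (hk : ((actE (h : g)) ^ k) w = 0) : ⁅(h : g), w⁆ = 0 := by
  set F := actE (h : g) with hF
  have h1 : w ∈ F.maxGenEigenspace 0 := by
    rw [Module.End.mem_maxGenEigenspace]
    exact ⟨k, by simpa using hk⟩
  have h2 := mem_iSup_eigen h w
  rw [← hF, iSup_split_single _ (0 : ℂ), Submodule.mem_sup] at h2
  obtain ⟨w0, hw0, w1, hw1, rfl⟩ := h2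
  have h3 := (Module.End.independent_maxGenEigenspace F) 0
  rw [Submodule.disjoint_def] at h3
  have h4 : w1 ∈ ⨆ j, ⨆ (_ : j ≠ 0), F.maxGenEigenspace j := by
    have h5 : (⨆ j, ⨆ (_ : j ≠ 0), F.eigenspace j) ≤ ⨆ j, ⨆ (_ : j ≠ 0), F.maxGenEigenspace j :=
      iSup₂_mono fun j _ => Module.End.eigenspace_le_maxGenEigenspace
    exact h5 hw1
  have h6 : w1 ∈ F.maxGenEigenspace 0 := by
    have h7 := Submodule.sub_mem _ h1
      (Module.End.eigenspace_le_maxGenEigenspace (f := F) (μ := 0) hw0)
    rwa [add_sub_cancel_left] at h7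
  have h8 := h3 w1 h6 h4
  rw [h8, add_zero]
  rw [Module.End.mem_eigenspace_iff, zero_smul] at hw0
  exact hw0

/-- the elements `τ(t) η` for `t` harmonic and `η ∈ Λ H` -/
def startSet (H : LieSubalgebra ℂ g) [H.IsCartanSubalgebra] : Set (ExteriorAlgebra ℂ g) :=
  {v | ∃ t ∈ harmonic H, ∃ η ∈ Algebra.adjoin ℂ
    (ExteriorAlgebra.ι ℂ '' Set.range (H.incl : H →ₗ[ℂ] g)),
    v = tau (H.incl : H →ₗ[ℂ] g) t * η}

theorem lie_cartan (h h' : H) : ⁅(h : g), (h' : g)⁆ = 0 := by
  have := trivial_lie_zero H H h h'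
  have h2 := congrArg (fun z : H => (z : g)) this
  exact h2

/-- the Leibniz rule -/
theorem lie_mul' (x : g) (u v : ExteriorAlgebra ℂ g) : ⁅x, u * v⁆ = ⁅x, u⁆ * v + u * ⁅x, v⁆ := by
  induction u using left_ind with
  | h1 r =>
    have h1 : ⁅x, algebraMap ℂ (ExteriorAlgebra ℂ g) r⁆ = 0 := by
      rw [lie_ext_def, deriv_algebraMap]
    rw [h1, zero_mul, zero_add, ← Algebra.smul_def, lie_smul, Algebra.smul_def]
  | h2 a b ha hb => rw [add_mul, lie_add, ha, hb, lie_add, add_mul, add_mul]; abel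
  | h3 m a ha => rw [mul_assoc, lie_ι_mul, ha, lie_ι_mul, add_mul, mul_add, mul_assoc, mul_assoc,
      mul_assoc, add_assoc]

theorem lie_adjoin {x : g} {V : Set g} (hV : ∀ y ∈ V, ⁅x, y⁆ = 0) {w : ExteriorAlgebra ℂ g}
    (hw : w ∈ Algebra.adjoin ℂ (ExteriorAlgebra.ι ℂ '' V)) : ⁅x, w⁆ = 0 := by
  induction hw using Algebra.adjoin_induction with
  | mem z hz =>
    obtain ⟨y, hy, rfl⟩ := hz
    have := lie_ι_mul x y (1 : ExteriorAlgebra ℂ g)
    rw [mul_one, mul_one, lie_one', mul_zero, add_zero, hV y hy, map_zero] at this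
    exact this
  | algebraMap r => rw [lie_ext_def, deriv_algebraMap]
  | add a b _ _ ha hb => rw [lie_add, ha, hb, add_zero]
  | mul a b _ _ ha hb => rw [lie_mul', ha, hb, zero_mul, mul_zero, add_zero]

/-- equivariance of `s` -/
theorem lie_sMap (x h : g) : ⁅x, sMap g h⁆ = sMap g ⁅x, h⁆ := by
  let F : g →ₗ[ℂ] g →ₗ[ℂ] ExteriorAlgebra ℂ g :=
    LinearMap.mk₂ ℂ (fun y z => ExteriorAlgebra.ι ℂ y * ExteriorAlgebra.ι ℂ ⁅z, h⁆)
      (by intro a b c; simp [add_mul]) (by intro a b c; simp) (by intro a b c; simp [mul_add])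
      (by intro a b c; simp)
  have h1 := casimir F x
  have hι : ∀ y : g, ⁅x, ExteriorAlgebra.ι ℂ y⁆ = ExteriorAlgebra.ι ℂ ⁅x, y⁆ := by
    intro y
    have := lie_ι_mul x y (1 : ExteriorAlgebra ℂ g)
    rwa [mul_one, mul_one, lie_one', mul_zero, add_zero] at this
  rw [sMap_apply, sMap_apply, lie_smul]
  congr 1
  have h2 : ⁅x, ∑ i, ExteriorAlgebra.ι ℂ (bb g i) * ExteriorAlgebra.ι ℂ ⁅db g i, h⁆⁆ =
      ∑ i, ⁅x, ExteriorAlgebra.ι ℂ (bb g i) * ExteriorAlgebra.ι ℂ ⁅db g i, h⁆⁆ :=
    map_sum (LieModule.toEnd ℂ g (ExteriorAlgebra ℂ g) x) _ _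
  rw [h2, ← sub_eq_zero, ← Finset.sum_sub_distrib, ← h1]
  refine Finset.sum_congr rfl fun i _ => ?_
  rw [lie_mul', hι, hι, leibniz_lie x (db g i) h, map_add, mul_add]
  change _ = ExteriorAlgebra.ι ℂ ⁅x, bb g i⁆ * ExteriorAlgebra.ι ℂ ⁅db g i, h⁆ +
    ExteriorAlgebra.ι ℂ (bb g i) * ExteriorAlgebra.ι ℂ ⁅⁅x, db g i⁆, h⁆
  abel

theorem lie_tau (h : H) (t : SymmetricAlgebra ℂ H) : ⁅(h : g), tau (H.incl : H →ₗ[ℂ] g) t⁆ = 0 := by
  induction t using SymmetricAlgebra.induction with
  | algebraMap r => rw [AlgHom.commutes, lie_ext_def, deriv_algebraMap]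
  | ι x =>
    rw [tau_ι, lie_sMap]
    have : ⁅(h : g), (H.incl : H →ₗ[ℂ] g) x⁆ = 0 := lie_cartan h x
    rw [this, map_zero]
  | mul a b ha hb => rw [map_mul (tau _), lie_mul', ha, hb, zero_mul, mul_zero, add_zero]
  | add a b ha hb => rw [map_add, lie_add, ha, hb, add_zero]

/-- the elements of the starting set are invariant under `H` -/
theorem lie_start (h : H) (v : ExteriorAlgebra ℂ g) (hv : v ∈ startSet H) :
    ⁅(h : g), v⁆ = 0 := by
  obtain ⟨t, _, η, hη, rfl⟩ := hv
  rw [lie_mul', lie_tau, zero_mul, zero_add, lie_adjoin (x := (h : g)) ?_ hη, mul_zero]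
  rintro _ ⟨y, rfl⟩
  exact lie_cartan h y

/-- **Injectivity from generation.** -/
theorem allInjective_of_gen {q : g →ₗ[ℂ] H} (hq : IsProj H q) (hgen : Gen ⊤ (startSet H)) :
    AllInjective H q := by
  intro V _ _ _ _ _ _ f hf
  by_contra hne
  have hker : f.ker = ⊥ := by
    by_contra hk
    have hnt : Nontrivial f.ker := (LieSubmodule.nontrivial_iff_ne_bot ℂ g V).mpr hk
    have h1 := LieSubmodule.eq_top_of_isIrreducible ℂ g V f.ker
    apply hne
    ext v
    have : v ∈ f.ker := by rw [h1]; trivial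
    rwa [LieModuleHom.mem_ker] at this
  have hinj : ∀ v, f v = 0 → v = 0 := by
    intro v hv
    have : v ∈ f.ker := by rwa [LieModuleHom.mem_ker]
    rwa [hker, LieSubmodule.mem_bot] at this
  -- the pairing with the starting set vanishes
  have key : ∀ v : V, ∀ b ∈ startSet H, pairLin (killingForm ℂ g) (f v) b = 0 := by
    intro v b hb
    have hv : v ∈ ⨆ χ : H → ℂ, LieModule.genWeightSpace V χ := by
      simp [LieModule.iSup_genWeightSpace_eq_top]
    have hstep : ∀ (h : H) (v : V), pairLin (killingForm ℂ g) (f ⁅(h : g), v⁆) b = 0 := by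
      intro h v
      rw [LieModuleHom.map_lie, pair_lie, lie_start h b hb, map_zero, neg_zero]
    induction hv using LieSubmodule.iSup_induction' with
    | mem χ v hv =>
      rw [LieModule.mem_genWeightSpace] at hv
      by_cases hχ : χ = 0
      · subst hχ
        have h0 : ∀ h : H, ⁅(h : g), v⁆ = 0 := by
          intro h
          obtain ⟨k, hk⟩ := hv h
          apply hinj
          rw [LieModuleHom.map_lie]
          refine lie_eq_zero_of_pow h (f v) k ?_
          have h2 : ∀ (n : ℕ) (u : V), ((actE (h : g)) ^ n) (f u) =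
              f (((LieModule.toEnd ℂ H V h) ^ n) u) := by
            intro n
            induction n with
            | zero => intro u; simp
            | succ n ih =>
              intro u
              rw [pow_succ', pow_succ', Module.End.mul_apply, Module.End.mul_apply, ih]
              exact (LieModuleHom.map_lie f (h : g) _).symm
          rw [h2]
          have h3 : ((LieModule.toEnd ℂ H V h) ^ k) v = 0 := by simpa using hk
          rw [h3, map_zero]
        obtain ⟨t, ht, η, hη, rfl⟩ := hb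
        exact pair_zero_of_bigPhi q (H.incl : H →ₗ[ℂ] g) (fun x y => kill_proj hq x y)
          (harmonic H) (f v) (hf v h0) t ht η hη
      · obtain ⟨h, hh⟩ : ∃ h, χ h ≠ 0 := by
          by_contra hcon
          push Not at hcon
          exact hχ (funext hcon)
        obtain ⟨k, hk⟩ := hv h
        have h2 : ∀ (n : ℕ) (u : V), pairLin (killingForm ℂ g)
            (f (((LieModule.toEnd ℂ H V h - χ h • 1) ^ n) u)) b =
            (-χ h) ^ n * pairLin (killingForm ℂ g) (f u) b := by
          intro n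
          induction n with
          | zero => intro u; simp
          | succ n ih =>
            intro u
            rw [pow_succ', Module.End.mul_apply, LinearMap.sub_apply, map_sub, map_sub,
              LinearMap.sub_apply]
            have h4 := hstep h (((LieModule.toEnd ℂ H V h - χ h • 1) ^ n) u)
            have h5 : pairLin (killingForm ℂ g) (f ((LieModule.toEnd ℂ H V h)
              (((LieModule.toEnd ℂ H V h - χ h • 1) ^ n) u))) b = 0 := h4
            rw [h5]
            simp only [LinearMap.smul_apply, Module.End.one_apply, map_smul, smul_eq_mul]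
            rw [ih]
            ring
        have h3 := h2 k v
        rw [hk, map_zero, map_zero, LinearMap.zero_apply] at h3
        rcases mul_eq_zero.1 h3.symm with h4 | h4
        · exact absurd h4 (pow_ne_zero _ (neg_ne_zero.2 hh))
        · exact h4
    | zero => simp
    | add a b' _ _ ha hb' => rw [map_add, map_add, LinearMap.add_apply, ha, hb', add_zero]
  -- conclusion
  let P : Submodule ℂ (ExteriorAlgebra ℂ g) :=
    { carrier := {u | ∀ v : V, pairLin (killingForm ℂ g) (f v) u = 0}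
      zero_mem' := fun v => map_zero _
      add_mem' := fun {a b} ha hb v => by rw [map_add, ha v, hb v, add_zero]
      smul_mem' := fun c a ha v => by rw [map_smul, ha v, smul_zero] }
  have hP := hgen P (by
    intro x _ w hw v
    have h1 := pair_lie x (f v) w
    rw [← LieModuleHom.map_lie, hw ⁅x, v⁆] at h1
    exact neg_eq_zero.1 h1.symm) (fun b hb v => key v b hb)
  apply hne
  ext v
  refine pair_nondeg _ fun u => ?_
  have hu : u ∈ Algebra.adjoin ℂ (ExteriorAlgebra.ι ℂ '' ((⊤ : Submodule ℂ g) : Set g)) := by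
    induction u using left_ind with
    | h1 r => exact Subalgebra.algebraMap_mem _ r
    | h2 x y hx hy => exact add_mem hx hy
    | h3 m x hx => exact mul_mem (Algebra.subset_adjoin ⟨m, trivial, rfl⟩) hx
  exact hP u hu v

end Pool.Agent.KS6_37.Phi
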