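import Pool.Agent.KS6_37.Phi.Roots
import Pool.Agent.KS6_37.Phi.Sl

/-!
# Large abelian subalgebras
-/

set_option autoImplicit false
set_option linter.unusedSectionVars false

noncomputable section

namespace Pool.Agent.KS6_37.Phi

open LieAlgebra LieAlgebra.IsKilling LieModule Pool.Agent.KS6_37.Phi.Core
open Pool.Agent.KS6_37.PhiRP Module

variable {g : Type} [LieRing g] [LieAlgebra ℂ g] [FiniteDimensional ℂ g]
variable [LieAlgebra.IsKilling ℂ g]
variable {H : LieSubalgebra ℂ g} [H.IsCartanSubalgebra]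

/-- **The negative half.** -/
theorem not_allInjective_of_NN (q : g →ₗ[ℂ] H) {k : ℕ} (hk : finrank ℂ H < k)
    (hne : NN g k ≠ ⊥) : ¬ AllInjective H q := by
  intro hall
  obtain ⟨W, hW⟩ := exists_irr hne
  have h1 := hall W ((NN g k).incl.comp W.incl) (fun v _ => by
    exact bigPhi_NN q (H.incl : H →ₗ[ℂ] g) (harmonic H) hk _ (W.incl v).2)
  have hnt : Nontrivial W := LieModule.nontrivial_of_isIrreducible ℂ g W
  obtain ⟨v, hv⟩ := exists_ne (0 : W)
  apply hv
  have h2 := DFunLike.congr_fun h1 v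
  apply Subtype.ext
  apply Subtype.ext
  exact h2

theorem not_allInjective (q : g →ₗ[ℂ] H) (a : LieSubalgebra ℂ g) [IsLieAbelian a]
    (h : finrank ℂ H < finrank ℂ a) : ¬ AllInjective H q :=
  not_allInjective_of_NN q h (NN_ne_bot_of_abelian a)

/-- a subspace with zero brackets, as a subalgebra -/
def absub (A : Submodule ℂ g) (hA : ∀ x ∈ A, ∀ y ∈ A, ⁅x, y⁆ = 0) : LieSubalgebra ℂ g where
  toSubmodule := A
  lie_mem' := fun {x y} hx hy => by rw [hA x hx y hy]; exact A.zero_mem

theorem absub_abelian (A : Submodule ℂ g) (hA : ∀ x ∈ A, ∀ y ∈ A, ⁅x, y⁆ = 0) :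
    IsLieAbelian (absub A hA) :=
  ⟨fun x y => Subtype.ext (hA x x.2 y y.2)⟩

/-- vectors in distinct weight spaces are linearly independent -/
theorem li_of_weights {ι : Type} (W : ι → H → ℂ) (hW : Function.Injective W) (x : ι → g)
    (hx : ∀ i, x i ∈ rootSpace H (W i)) (h0 : ∀ i, x i ≠ 0) : LinearIndependent ℂ x := by
  have h1 : iSupIndep fun i => (rootSpace H (W i)).toSubmodule :=
    (LieSubmodule.iSupIndep_toSubmodule.mpr (iSupIndep_genWeightSpace ℂ H g)).comp hW
  exact h1.linearIndependent _ hx h0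

theorem disj_of_weights {ι : Type} (W : ι → H → ℂ) (hW : ∀ i, W i ≠ 0) (x : ι → g)
    (hx : ∀ i, x i ∈ rootSpace H (W i)) (K : Submodule ℂ H) :
    Disjoint (K.map (H.incl : H →ₗ[ℂ] g)) (Submodule.span ℂ (Set.range x)) := by
  have h1 : iSupIndep fun χ : H → ℂ => (rootSpace H χ).toSubmodule :=
    LieSubmodule.iSupIndep_toSubmodule.mpr (iSupIndep_genWeightSpace ℂ H g)
  refine (h1 0).mono ?_ ?_
  · rintro _ ⟨h, _, rfl⟩
    exact mem_rootSpace_zero h
  · rw [Submodule.span_le]
    rintro _ ⟨i, rfl⟩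
    have h2 : (rootSpace H (W i)).toSubmodule ≤
        ⨆ (χ : H → ℂ) (_ : χ ≠ 0), (rootSpace H χ).toSubmodule :=
      le_iSup₂_of_le (W i) (hW i) le_rfl
    exact h2 (hx i)

/-- an abelian subalgebra from a family of roots -/
theorem exists_abelian {m : ℕ} (L : Fin m → Weight ℂ H g) (hL : ∀ i, (L i).IsNonZero)
    (hinj : Function.Injective L)
    (hsum : ∀ i j, i ≠ j → rootSpace H ((L i : H → ℂ) + L j) = ⊥)
    {n : ℕ} (φ : Fin n → Module.Dual ℂ H) (hφ : ∀ h : H, (∀ i, φ i h = 0) → ∀ j, L j h = 0)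
    (hnm : n < m) : ∃ a : LieSubalgebra ℂ g, IsLieAbelian a ∧ finrank ℂ H < finrank ℂ a := by
  choose x hx hx0 using fun i => (L i).exists_ne_zero
  let K : Submodule ℂ H := LinearMap.ker (LinearMap.pi φ)
  have hK : ∀ h ∈ K, ∀ j, L j h = 0 := fun h hh j =>
    hφ h (fun i => congrFun (LinearMap.mem_ker.1 hh) i) j
  have hKdim : finrank ℂ H ≤ finrank ℂ K + n := by
    have h1 := LinearMap.finrank_range_add_finrank_ker (LinearMap.pi φ)
    have h2 : finrank ℂ (LinearMap.range (LinearMap.pi φ)) ≤ n := by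
      have := Submodule.finrank_le (LinearMap.range (LinearMap.pi φ))
      simpa using this
    have h3 : finrank ℂ K = finrank ℂ (LinearMap.ker (LinearMap.pi φ)) := rfl
    omega
  let A : Submodule ℂ g := K.map (H.incl : H →ₗ[ℂ] g) ⊔ Submodule.span ℂ (Set.range x)
  have hcom : ∀ y z : g, (y ∈ (H.incl : H →ₗ[ℂ] g) '' (K : Set H) ∨ y ∈ Set.range x) →
      (z ∈ (H.incl : H →ₗ[ℂ] g) '' (K : Set H) ∨ z ∈ Set.range x) → ⁅y, z⁆ = 0 := by
    have h1 : ∀ (h : H) (i : Fin m), h ∈ K → ⁅(h : g), x i⁆ = 0 := by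
      intro h i hh
      have : ⁅(h : g), x i⁆ = L i h • x i := lie_eq_smul_of_mem_rootSpace (hx i) h
      rw [this, hK h hh i, zero_smul]
    rintro y z (⟨h, hh, rfl⟩ | ⟨i, rfl⟩) (⟨h', hh', rfl⟩ | ⟨j, rfl⟩)
    · exact lie_cartan h h'
    · exact h1 h j hh
    · rw [← lie_skew]
      have := h1 h' i hh'
      rw [neg_eq_zero]
      exact this
    · by_cases hij : i = j
      · subst hij; exact lie_self _
      · exact lie_zero_of_bot (hx i) (hx j) (hsum i j hij)
  have hAspan : A = Submodule.span ℂ ((H.incl : H →ₗ[ℂ] g) '' (K : Set H) ∪ Set.range x) := by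
    rw [Submodule.span_union, Submodule.span_image, Submodule.span_eq]
  have hA : ∀ y ∈ A, ∀ z ∈ A, ⁅y, z⁆ = 0 := by
    intro y hy z hz
    rw [hAspan] at hy hz
    refine Submodule.span_induction (p := fun y _ => ⁅y, z⁆ = 0) ?_ ?_ ?_ ?_ hy
    · intro y hy
      refine Submodule.span_induction (p := fun z _ => ⁅y, z⁆ = 0) ?_ ?_ ?_ ?_ hz
      · intro z hz
        exact hcom y z hy hz
      · exact lie_zero y
      · intro a b _ _ ha hb; rw [lie_add, ha, hb, add_zero]
      · intro c a _ ha; rw [lie_smul, ha, smul_zero]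
    · exact zero_lie z
    · intro a b _ _ ha hb; rw [add_lie, ha, hb, add_zero]
    · intro c a _ ha; rw [smul_lie, ha, smul_zero]
  refine ⟨absub A hA, absub_abelian A hA, ?_⟩
  change finrank ℂ H < finrank ℂ A
  have hWinj : Function.Injective fun i => ((L i : Weight ℂ H g) : H → ℂ) := by
    intro i j hij
    exact hinj (DFunLike.coe_injective hij)
  have hli := li_of_weights (fun i => (L i : H → ℂ)) hWinj x hx hx0
  have hd := disj_of_weights (fun i => (L i : H → ℂ)) (fun i => hL i) x hx K
  have h4 := Submodule.finrank_sup_add_finrank_inf_eq (K.map (H.incl : H →ₗ[ℂ] g))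
    (Submodule.span ℂ (Set.range x))
  rw [hd.eq_bot, finrank_bot, add_zero, finrank_span_eq_card hli, Fintype.card_fin] at h4
  have h5 : finrank ℂ (K.map (H.incl : H →ₗ[ℂ] g)) = finrank ℂ K :=
    (Submodule.equivMapOfInjective (H.incl : H →ₗ[ℂ] g) Subtype.val_injective K).finrank_eq.symm
  change finrank ℂ A = _ at h4
  omega

end Pool.Agent.KS6_37.Phi

end

/-!
# Bad configurations of roots
-/

set_option autoImplicit false
set_option linter.unusedSectionVars false

noncomputable section

namespace Pool.Agent.KS6_37.Phi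

open LieAlgebra LieAlgebra.IsKilling LieModule Pool.Agent.KS6_37.Phi.Core
open Pool.Agent.KS6_37.PhiRP Module

variable {g : Type} [LieRing g] [LieAlgebra ℂ g] [FiniteDimensional ℂ g]
variable [LieAlgebra.IsKilling ℂ g]
variable {H : LieSubalgebra ℂ g} [H.IsCartanSubalgebra]

theorem coroot_reflectRoot {α β : Weight ℂ H g} (hα : α.IsNonZero) (hβ : β.IsNonZero) :
    coroot (reflectRoot α β) = coroot β - α (coroot β) • coroot α := by
  have hi : α ∈ H.root := by simpa [LieSubalgebra.root] using hα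
  have hj : β ∈ H.root := by simpa [LieSubalgebra.root] using hβ
  have h1 : (((rootSystem H).reflectionPerm ⟨α, hi⟩ ⟨β, hj⟩ : H.root) : Weight ℂ H g) =
      reflectRoot α β := by
    ext x
    have h2 := LinearMap.congr_fun ((rootSystem H).root_reflectionPerm ⟨α, hi⟩ ⟨β, hj⟩) x
    rw [RootPairing.reflection_apply] at h2
    exact h2
  rw [← h1]
  exact (rootSystem H).coroot_reflectionPerm ⟨α, hi⟩ ⟨β, hj⟩

/-- A bad configuration: four roots which are pairwise distinct and not opposite and which are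
all roots of any ideal of which the first one is a root, and an abelian subalgebra of dimension
larger than the rank. -/
structure Conf (L : Fin 4 → Weight ℂ H g) : Prop where
  nz : ∀ i, (L i).IsNonZero
  ne : ∀ i j, i < j → L i ≠ L j
  ne' : ∀ i j, i < j → L i ≠ -(L j)
  cl : ∀ I : LieIdeal ℂ g, rootSpace H (L 0) ≤ I.restr H → ∀ i, rootSpace H (L i) ≤ I.restr H
  ab : ∃ a : LieSubalgebra ℂ g, IsLieAbelian a ∧ finrank ℂ H < finrank ℂ a

theorem ne_of_pz {α β : Weight ℂ H g} (η : Weight ℂ H g) (h : pz α η ≠ pz β η) : α ≠ β := by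
  rintro rfl; exact h rfl

theorem ne_neg_of_pz {α β : Weight ℂ H g} (η : Weight ℂ H g) (h : pz α η ≠ -pz β η) :
    α ≠ -β := by
  rintro rfl; exact h (pz_neg_left _ _)

theorem step_cl {I : LieIdeal ℂ g} {α β : Weight ℂ H g} (hα : rootSpace H α ≤ I.restr H)
    (h : pz β α ≠ 0) : rootSpace H β ≤ I.restr H := by
  refine I.rootSpace_le_of_apply_coroot_ne_zero hα ?_
  rw [pz_cast]
  exact_mod_cast h

/-- the sum of two root spaces is not a root space -/
theorem bot_of_pz {α β η : Weight ℂ H g} (hη : η.IsNonZero) (h : 3 < pz α η + pz β η) :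
    rootSpace H ((α : H → ℂ) + β) = ⊥ := by
  refine bot_of_big hη (pz α η + pz β η) ?_ (Or.inr h)
  rw [Pi.add_apply, pz_cast, pz_cast]
  push_cast
  rfl

theorem C1.bot_of_pz (hC : C1 H) {α β η : Weight ℂ H g} (hη : η.IsNonZero)
    (h : 2 < pz α η + pz β η) : rootSpace H ((α : H → ℂ) + β) = ⊥ := by
  refine hC.bot hη (pz α η + pz β η) ?_ (Or.inr h)
  rw [Pi.add_apply, pz_cast, pz_cast]
  push_cast
  rfl

theorem C1.bot_of_pz2 (hC : C1 H) {α β η ξ : Weight ℂ H g} (hη : η.IsNonZero)
    (h : pz α η + pz β η = 2) (h' : pz α ξ + pz β ξ ≠ pz η ξ) :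
    rootSpace H ((α : H → ℂ) + β) = ⊥ := by
  refine hC.bot2 hη ?_ ?_
  · rw [Pi.add_apply, pz_cast, pz_cast]
    exact_mod_cast h
  · intro h3
    apply h'
    have h4 := congrFun h3 (coroot ξ)
    rw [Pi.add_apply, pz_cast, pz_cast, pz_cast] at h4
    exact_mod_cast h4

/-- not simply laced -/
theorem conf_a {α β : Weight ℂ H g} (hα : α.IsNonZero) (hβ : β.IsNonZero) (q : ℤ)
    (hq : q = 2 ∨ q = 3) (h1 : pz α β = -q) (h2 : pz β α = -1) :
    ∃ L : Fin 4 → Weight ℂ H g, Conf L := by
  set σ : Weight ℂ H g := sm β α with hσdef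
  have hσ : σ.IsNonZero := reflectRoot_isNonZero _ _ hβ
  have hσe : (σ : H → ℂ) = β + α := sm_coe h2
  have hσc : coroot σ = coroot β - α (coroot β) • coroot α := coroot_reflectRoot hα hβ
  have pσ : ∀ η : Weight ℂ H g, pz σ η = pz β η + pz α η := by
    intro η
    refine pz_eq ?_
    rw [hσe, Pi.add_apply, pz_cast, pz_cast]; push_cast; rfl
  have pσ' : ∀ η : Weight ℂ H g, pz η σ = pz η β + q * pz η α := by
    intro η
    refine pz_eq ?_
    rw [hσc, map_sub, map_smul, pz_cast, pz_cast, pz_cast, h1]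
    push_cast
    rw [smul_eq_mul]
    ring
  set γ : Weight ℂ H g := -(reflectRoot σ α) with hγdef
  have hγ : γ.IsNonZero := (reflectRoot_isNonZero _ _ hα).neg
  have a1 := pz_self hα
  have b1 := pz_self hβ
  have e1 : pz α σ = q := by rw [pσ' α, h1, a1]; ring
  have hγe : ∀ h : H, γ h = q * σ h - α h := by
    intro h
    have : γ h = -(α h - α (coroot σ) * σ h) := rfl
    rw [this, pz_cast, e1]; ring
  have pγ : ∀ η : Weight ℂ H g, pz γ η = q * pz σ η - pz α η := by
    intro η
    refine pz_eq ?_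
    rw [hγe, pz_cast, pz_cast]; push_cast; rfl
  have s1 : pz σ α = 1 := by rw [pσ, h2, a1]; norm_num
  have s2 : pz σ β = 2 - q := by rw [pσ, b1, h1]; ring
  have s3 : pz σ σ = 2 := pz_self hσ
  have g1 : pz γ α = q - 2 := by rw [pγ, s1, a1]; ring
  have g2 : pz γ β = q * (2 - q) + q := by rw [pγ, s2, h1]; ring
  have g3 : pz γ σ = q := by rw [pγ, s3, e1]; ring
  have k1 : rootSpace H ((α : H → ℂ) + σ) = ⊥ := bot_of_pz hσ (by omega)
  have k2 : rootSpace H ((α : H → ℂ) + γ) = ⊥ := bot_of_pz hσ (by omega)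
  have k3 : rootSpace H ((σ : H → ℂ) + γ) = ⊥ := bot_of_pz hσ (by omega)
  have n1 : α ≠ σ := ne_of_pz α (by omega)
  have n2 : α ≠ γ := ne_of_pz α (by omega)
  have n3 : σ ≠ γ := by
    rcases hq with rfl | rfl
    · exact ne_of_pz α (by omega)
    · exact ne_of_pz β (by omega)
  refine ⟨![α, σ, γ, β], ?_, ?_, ?_, ?_, ?_⟩
  · intro i
    fin_cases i
    · exact hα
    · exact hσ
    · exact hγ
    · exact hβ
  · intro i j hij
    fin_cases i <;> fin_cases j <;>
      first
        | exact absurd hij (by decide)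
        | skip
    · exact n1
    · exact n2
    · exact ne_of_pz α (by omega : pz α α ≠ pz β α)
    · exact n3
    · exact ne_of_pz α (by omega : pz σ α ≠ pz β α)
    · exact ne_of_pz α (by omega : pz γ α ≠ pz β α)
  · intro i j hij
    fin_cases i <;> fin_cases j <;>
      first
        | exact absurd hij (by decide)
        | skip
    · exact ne_neg_of_pz α (by omega : pz α α ≠ -pz σ α)
    · exact ne_neg_of_pz α (by omega : pz α α ≠ -pz γ α)
    · exact ne_neg_of_pz α (by omega : pz α α ≠ -pz β α)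
    · exact ne_neg_of_pz α (by omega : pz σ α ≠ -pz γ α)
    · exact ne_neg_of_pz β (by rcases hq with rfl | rfl <;> omega : pz σ β ≠ -pz β β)
    · refine ne_neg_of_pz β (?_ : pz γ β ≠ -pz β β)
      rcases hq with rfl | rfl <;> omega
  · intro I h0 i
    have c1 : rootSpace H σ ≤ I.restr H := step_cl (α := α) h0 (by omega)
    fin_cases i
    · exact h0
    · exact c1
    · refine step_cl (α := σ) (β := γ) c1 ?_
      rw [g3]; rcases hq with rfl | rfl <;> norm_num
    · refine step_cl (α := α) (β := β) h0 ?_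
      rw [h2]; norm_num
  · refine exists_abelian ![α, σ, γ] ?_ ?_ ?_ ![α.toLinear, β.toLinear] ?_ (by norm_num)
    · intro i
      fin_cases i
      · exact hα
      · exact hσ
      · exact hγ
    · intro i j hij
      fin_cases i <;> fin_cases j <;>
        first
          | rfl
          | skip
      · exact absurd hij n1
      · exact absurd hij n2
      · exact absurd hij.symm n1
      · exact absurd hij n3
      · exact absurd hij.symm n2
      · exact absurd hij.symm n3
    · intro i j hij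
      fin_cases i <;> fin_cases j <;>
        first
          | exact absurd rfl hij
          | skip
      · exact k1
      · exact k2
      · rw [add_comm]; exact k1
      · exact k3
      · rw [add_comm]; exact k2
      · rw [add_comm]; exact k3
    · intro h hh j
      have z1 : α h = 0 := hh 0
      have z2 : β h = 0 := hh 1
      have z3 : σ h = 0 := by rw [hσe, Pi.add_apply, z1, z2, add_zero]
      fin_cases j
      · exact z1
      · exact z3
      · change γ h = 0
        rw [hγe, z3, z1]; ring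

/-- a subsystem of type `A3` -/
theorem conf_b (hC : C1 H) {α β γ : Weight ℂ H g} (hα : α.IsNonZero) (hβ : β.IsNonZero)
    (hγ : γ.IsNonZero) (h1 : pz α β = -1) (h2 : pz β γ = -1) (h3 : pz α γ = 0) :
    ∃ L : Fin 4 → Weight ℂ H g, Conf L := by
  have h1' := hC.symm hα hβ h1
  have h2' := hC.symm hβ hγ h2
  have h3' := pz_zero_symm hα hγ h3
  set σ : Weight ℂ H g := sm α β with hσdef
  set ρ : Weight ℂ H g := sm β γ with hρdef
  have hσ : σ.IsNonZero := reflectRoot_isNonZero _ _ hα
  have hρ : ρ.IsNonZero := reflectRoot_isNonZero _ _ hβ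
  have pσ : ∀ η : Weight ℂ H g, pz σ η = pz α η + pz β η := pz_sm_left h1
  have pρ : ∀ η : Weight ℂ H g, pz ρ η = pz β η + pz γ η := pz_sm_left h2
  have hσγ : pz σ γ = -1 := by rw [pσ, h3, h2]; norm_num
  set τ : Weight ℂ H g := sm σ γ with hτdef
  have hτ : τ.IsNonZero := reflectRoot_isNonZero _ _ hσ
  have pτ : ∀ η : Weight ℂ H g, pz τ η = pz σ η + pz γ η := pz_sm_left hσγ
  have hσe : (σ : H → ℂ) = α + β := sm_coe h1
  have hρe : (ρ : H → ℂ) = β + γ := sm_coe h2
  have hτe : (τ : H → ℂ) = σ + γ := sm_coe hσγ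
  have a1 := pz_self hα
  have b1 := pz_self hβ
  have c1 := pz_self hγ
  have sa := pσ α
  have sb := pσ β
  have sc := pσ γ
  have ra := pρ α
  have rb := pρ β
  have rc := pρ γ
  have ta := pτ α
  have tb := pτ β
  have tc := pτ γ
  have tσ : pz τ σ = 1 := by
    rw [pz_sm_right hC hα hβ h1]; omega
  have k1 : rootSpace H ((β : H → ℂ) + σ) = ⊥ := hC.bot_of_pz hβ (by omega)
  have k2 : rootSpace H ((β : H → ℂ) + ρ) = ⊥ := hC.bot_of_pz hβ (by omega)
  have k3 : rootSpace H ((β : H → ℂ) + τ) = ⊥ :=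
    hC.bot_of_pz2 (ξ := α) hβ (by omega) (by omega)
  have k4 : rootSpace H ((σ : H → ℂ) + ρ) = ⊥ :=
    hC.bot_of_pz2 (ξ := α) hβ (by omega) (by omega)
  have k5 : rootSpace H ((σ : H → ℂ) + τ) = ⊥ :=
    hC.bot_of_pz2 (ξ := β) hα (by omega) (by omega)
  have k6 : rootSpace H ((ρ : H → ℂ) + τ) = ⊥ :=
    hC.bot_of_pz2 (ξ := β) hγ (by omega) (by omega)
  have n1 : β ≠ σ := ne_of_pz α (by omega)
  have n2 : β ≠ ρ := ne_of_pz β (by omega)
  have n3 : β ≠ τ := ne_of_pz α (by omega)
  have n4 : σ ≠ ρ := ne_of_pz α (by omega)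
  have n5 : σ ≠ τ := ne_of_pz β (by omega)
  have n6 : ρ ≠ τ := ne_of_pz α (by omega)
  refine ⟨![β, σ, ρ, τ], ?_, ?_, ?_, ?_, ?_⟩
  · intro i
    fin_cases i
    · exact hβ
    · exact hσ
    · exact hρ
    · exact hτ
  · intro i j hij
    fin_cases i <;> fin_cases j <;>
      first
        | exact absurd hij (by decide)
        | skip
    · exact n1
    · exact n2
    · exact n3
    · exact n4
    · exact n5
    · exact n6
  · intro i j hij
    fin_cases i <;> fin_cases j <;>
      first
        | exact absurd hij (by decide)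
        | skip
    · exact ne_neg_of_pz β (by omega : pz β β ≠ -pz σ β)
    · exact ne_neg_of_pz β (by omega : pz β β ≠ -pz ρ β)
    · exact ne_neg_of_pz β (by omega : pz β β ≠ -pz τ β)
    · exact ne_neg_of_pz β (by omega : pz σ β ≠ -pz ρ β)
    · exact ne_neg_of_pz β (by omega : pz σ β ≠ -pz τ β)
    · exact ne_neg_of_pz β (by omega : pz ρ β ≠ -pz τ β)
  · intro I h0 i
    have c1 : rootSpace H σ ≤ I.restr H := step_cl (α := β) h0 (by omega)
    fin_cases i
    · exact h0
    · exact c1
    · exact step_cl (α := β) (β := ρ) h0 (by omega)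
    · exact step_cl (α := σ) (β := τ) c1 (by omega)
  · refine exists_abelian ![β, σ, ρ, τ] ?_ ?_ ?_ ![α.toLinear, β.toLinear, γ.toLinear] ?_
      (by norm_num)
    · intro i
      fin_cases i
      · exact hβ
      · exact hσ
      · exact hρ
      · exact hτ
    · intro i j hij
      fin_cases i <;> fin_cases j <;>
        first
          | rfl
          | skip
      · exact absurd hij n1
      · exact absurd hij n2
      · exact absurd hij n3
      · exact absurd hij.symm n1
      · exact absurd hij n4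
      · exact absurd hij n5
      · exact absurd hij.symm n2
      · exact absurd hij.symm n4
      · exact absurd hij n6
      · exact absurd hij.symm n3
      · exact absurd hij.symm n5
      · exact absurd hij.symm n6
    · intro i j hij
      fin_cases i <;> fin_cases j <;>
        first
          | exact absurd rfl hij
          | skip
      · exact k1
      · exact k2
      · exact k3
      · rw [add_comm]; exact k1
      · exact k4
      · exact k5
      · rw [add_comm]; exact k2
      · rw [add_comm]; exact k4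
      · exact k6
      · rw [add_comm]; exact k3
      · rw [add_comm]; exact k5
      · rw [add_comm]; exact k6
    · intro h hh j
      have z1 : α h = 0 := hh 0
      have z2 : β h = 0 := hh 1
      have z3 : γ h = 0 := hh 2
      have z4 : σ h = 0 := by rw [hσe, Pi.add_apply, z1, z2, add_zero]
      have z5 : ρ h = 0 := by rw [hρe, Pi.add_apply, z2, z3, add_zero]
      have z6 : τ h = 0 := by rw [hτe, Pi.add_apply, z4, z3, add_zero]
      fin_cases j
      · exact z2
      · exact z4
      · exact z5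
      · exact z6

/-- if the root system is not a union of components of types `A1` and `A2`, there is a bad
configuration -/
theorem exists_conf (h : ¬ (C1 H ∧ C2 H)) : ∃ L : Fin 4 → Weight ℂ H g, Conf L := by
  by_cases hC : C1 H
  · have hC2 : ¬ C2 H := fun h' => h ⟨hC, h'⟩
    simp only [C2, not_forall, not_not] at hC2
    obtain ⟨α, β, γ, hα, hβ, hγ, h1, h2, h3⟩ := hC2
    exact conf_b hC hα hβ hγ h1 h2 h3
  · simp only [C1, not_forall] at hC
    obtain ⟨α, β, hα, hβ, n1, n2, h1⟩ := hC
    have h2 := pz_mem hα hβ n1 n2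
    simp only [Set.mem_insert_iff, Set.mem_singleton_iff, Prod.mk.injEq] at h2
    by_cases h3 : 0 < pz α β
    · refine conf_a hα hβ.neg (pz α β) (by omega) (pz_neg_right _ _) ?_
      rw [pz_neg_left]
      omega
    · refine conf_a hα hβ (-pz α β) (by omega) (by omega) (by omega)

end Pool.Agent.KS6_37.Phi

end
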