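import Mathlib

/-!
# The notions of the statement

`g` is a finite-dimensional complex semisimple Lie algebra and `H` a Cartan subalgebra.
-/

set_option autoImplicit false

open scoped TensorProduct

namespace Pool.Agent.KS6_37.PhiStmt

open Module

section Exterior

variable {g : Type} [LieRing g] [LieAlgebra ℂ g]

/-- `B` is the form on `Λ g` induced by the Killing form:
`B (x₁ ∧ ⋯ ∧ x_n, y₁ ∧ ⋯ ∧ y_n) = det (x_i, y_j)`, and different degrees are orthogonal. -/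
structure IsInducedForm (B : ExteriorAlgebra ℂ g →ₗ[ℂ] ExteriorAlgebra ℂ g →ₗ[ℂ] ℂ) : Prop where
  det : ∀ (n : ℕ) (x y : Fin n → g),
    B (ExteriorAlgebra.ιMulti ℂ n x) (ExteriorAlgebra.ιMulti ℂ n y) =
      (Matrix.of fun i j => killingForm ℂ g (x i) (y j)).det
  orth : ∀ (m n : ℕ) (x : Fin m → g) (y : Fin n → g), m ≠ n →
    B (ExteriorAlgebra.ιMulti ℂ m x) (ExteriorAlgebra.ιMulti ℂ n y) = 0

/-- `Δ` is the coproduct of `Λ g`: `Δ 1 = 1 ⊗ 1` and `Δ (x ∧ w) = (x ⊗ 1 + 1 ⊗ x) Δ w` for `x ∈ g`,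
where `(x ⊗ 1) (a ⊗ b) = (x ∧ a) ⊗ b` and `(1 ⊗ x) (a ⊗ b) = (-1)^{deg a} a ⊗ (x ∧ b)`. -/
structure IsCoproduct
    (Δ : ExteriorAlgebra ℂ g →ₗ[ℂ] ExteriorAlgebra ℂ g ⊗[ℂ] ExteriorAlgebra ℂ g) : Prop where
  one : Δ 1 = 1 ⊗ₜ[ℂ] 1
  ι_mul : ∀ (x : g) (w : ExteriorAlgebra ℂ g), Δ (ExteriorAlgebra.ι ℂ x * w) =
    TensorProduct.map (LinearMap.mulLeft ℂ (ExteriorAlgebra.ι ℂ x)) LinearMap.id (Δ w) +
    TensorProduct.map (CliffordAlgebra.involute (Q := (0 : QuadraticForm ℂ g))).toLinearMap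
      (LinearMap.mulLeft ℂ (ExteriorAlgebra.ι ℂ x)) (Δ w)

/-- `π` is the projection of `Λ g` onto its even part. -/
structure IsEvenPart (π : ExteriorAlgebra ℂ g →ₗ[ℂ] ExteriorAlgebra ℂ g) : Prop where
  apply : ∀ (n : ℕ) (x : Fin n → g), π (ExteriorAlgebra.ιMulti ℂ n x) =
    if Even n then ExteriorAlgebra.ιMulti ℂ n x else 0

/-- `τ : S(H) → Λ g` is the algebra homomorphism with `τ(x) = 1/2 ∑ i, b_i ∧ [b'_i, x]` for `x ∈ H`
and all pairs `b`, `b'` of bases of `g` which are dual with respect to the Killing form. -/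
structure IsTau (H : LieSubalgebra ℂ g) (τ : SymmetricAlgebra ℂ H →ₐ[ℂ] ExteriorAlgebra ℂ g) :
    Prop where
  apply : ∀ (n : ℕ) (b b' : Basis (Fin n) ℂ g),
    (∀ i j, killingForm ℂ g (b i) (b' j) = if i = j then 1 else 0) → ∀ x : H,
      τ (SymmetricAlgebra.ι ℂ H x) =
        (1 / 2 : ℂ) • ∑ i, ExteriorAlgebra.ι ℂ (b i) * ExteriorAlgebra.ι ℂ ⁅b' i, (x : g)⁆

/-- `Φ = (Λ q ⊗ φ) ∘ (Id ⊗ π) ∘ Δ : Λ g → Λ H ⊗ A^*`, where `φ : Λ g → A^*` is the transpose of the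
restriction of `τ` to `A ⊆ S(H)`. -/
structure IsPhi (H : LieSubalgebra ℂ g) (q : g →ₗ[ℂ] H) (A : Submodule ℂ (SymmetricAlgebra ℂ H))
    (Φ : ExteriorAlgebra ℂ g →ₗ[ℂ] ExteriorAlgebra ℂ H ⊗[ℂ] Dual ℂ A) : Prop where
  out : ∃ (τ : SymmetricAlgebra ℂ H →ₐ[ℂ] ExteriorAlgebra ℂ g)
    (B : ExteriorAlgebra ℂ g →ₗ[ℂ] ExteriorAlgebra ℂ g →ₗ[ℂ] ℂ)
    (φ : ExteriorAlgebra ℂ g →ₗ[ℂ] Dual ℂ A) (π : ExteriorAlgebra ℂ g →ₗ[ℂ] ExteriorAlgebra ℂ g)
    (Δ : ExteriorAlgebra ℂ g →ₗ[ℂ] ExteriorAlgebra ℂ g ⊗[ℂ] ExteriorAlgebra ℂ g),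
    IsTau H τ ∧ IsInducedForm B ∧ (∀ w (a : A), φ w a = B w (τ a)) ∧ IsEvenPart π ∧ IsCoproduct Δ ∧
    Φ = TensorProduct.map (ExteriorAlgebra.map q).toLinearMap φ ∘ₗ
      TensorProduct.map LinearMap.id π ∘ₗ Δ

/-- `f : V → Λ g` is a homomorphism of `g`-modules; `x ∈ g` acts on `Λ g` by the derivation `D`
extending `ad x`. -/
structure IsEquivariant {V : Type} [AddCommGroup V] [Module ℂ V] [LieRingModule g V]
    (f : V →ₗ[ℂ] ExteriorAlgebra ℂ g) : Prop where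
  apply : ∀ (x : g) (D : ExteriorAlgebra ℂ g →ₗ[ℂ] ExteriorAlgebra ℂ g),
    (∀ a b, D (a * b) = D a * b + a * D b) →
    (∀ y : g, D (ExteriorAlgebra.ι ℂ y) = ExteriorAlgebra.ι ℂ ⁅x, y⁆) →
    ∀ v : V, f ⁅x, v⁆ = D (f v)

/-- All the maps `Φ^V` are injective: if `V` is a finite-dimensional irreducible `g`-module and
`f : V → Λ g` a homomorphism of `g`-modules with `Φ (f v) = 0` for all `v ∈ V` of weight zero, then
`f = 0`. -/
structure AllInjective (H : LieSubalgebra ℂ g) {M : Type} [AddCommGroup M] [Module ℂ M]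
    (Φ : ExteriorAlgebra ℂ g →ₗ[ℂ] M) : Prop where
  eq_zero : ∀ (V : Type) [AddCommGroup V] [Module ℂ V] [LieRingModule g V] [LieModule ℂ g V]
    [FiniteDimensional ℂ V] [LieModule.IsIrreducible ℂ g V] (f : V →ₗ[ℂ] ExteriorAlgebra ℂ g),
    IsEquivariant f → (∀ v : V, (∀ h : H, ⁅(h : g), v⁆ = 0) → Φ (f v) = 0) → f = 0

/-- `w ∈ Λ g` is killed by every `Φ`, whatever linear map `q : g → H` and whatever subspace `A` of
`S(H)` one forms `Φ` with. -/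
structure IsKilled (H : LieSubalgebra ℂ g) (w : ExteriorAlgebra ℂ g) : Prop where
  eq_zero : ∀ (q : g →ₗ[ℂ] H) (A : Submodule ℂ (SymmetricAlgebra ℂ H))
    (Φ : ExteriorAlgebra ℂ g →ₗ[ℂ] ExteriorAlgebra ℂ H ⊗[ℂ] Dual ℂ A), IsPhi H q A Φ → Φ w = 0

/-- Failure of injectivity in a strong sense: there are a finite-dimensional irreducible `g`-module
`V` and a nonzero homomorphism `f : V → Λ g` of `g`-modules such that every `Φ` kills every `f v`,
`v ∈ V`. -/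
structure StronglyFails (H : LieSubalgebra ℂ g) : Prop where
  out : ∃ (V : Type) (_ : AddCommGroup V) (_ : Module ℂ V) (_ : LieRingModule g V)
    (_ : LieModule ℂ g V) (_ : FiniteDimensional ℂ V) (_ : LieModule.IsIrreducible ℂ g V)
    (f : V →ₗ[ℂ] ExteriorAlgebra ℂ g), f ≠ 0 ∧ IsEquivariant f ∧ ∀ v : V, IsKilled H (f v)

end Exterior

section Cartan

variable {g : Type} [LieRing g] [LieAlgebra ℂ g] [FiniteDimensional ℂ g]
variable [LieAlgebra.IsKilling ℂ g] (H : LieSubalgebra ℂ g) [H.IsCartanSubalgebra]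

/-- `q` is the projection `g = H ⊕ ⨁ g_α → H`. -/
structure IsProjection (q : g →ₗ[ℂ] H) : Prop where
  self : ∀ h : H, q (h : g) = h
  root : ∀ α : LieModule.Weight ℂ H g, α.IsNonZero → ∀ x ∈ LieAlgebra.rootSpace H α, q x = 0

/-- `D` is a differential operator with constant coefficients on `S(H)`: it lies in the algebra
generated by the derivations of `S(H)` which map the elements of `H` to constants. -/
structure IsConstCoeff (D : SymmetricAlgebra ℂ H →ₗ[ℂ] SymmetricAlgebra ℂ H) : Prop where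
  mem : D ∈ Algebra.adjoin ℂ {T : Module.End ℂ (SymmetricAlgebra ℂ H) |
    (∀ a b, T (a * b) = a * T b + b * T a) ∧ ∃ ξ : Dual ℂ H,
      ∀ h : H, T (SymmetricAlgebra.ι ℂ H h) = algebraMap ℂ (SymmetricAlgebra ℂ H) (ξ h)}

/-- The space `A ⊆ S(H)` of harmonic polynomials: the elements annihilated by every differential
operator `D` with constant coefficients which has no constant term (`D 1 = 0`) and commutes with the
reflections `σ` in all roots `α`. -/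
structure IsHarmonics (A : Submodule ℂ (SymmetricAlgebra ℂ H)) : Prop where
  mem_iff : ∀ a, a ∈ A ↔ ∀ D, IsConstCoeff H D → D 1 = 0 →
    (∀ α : LieModule.Weight ℂ H g, α.IsNonZero →
      ∀ σ : SymmetricAlgebra ℂ H →ₐ[ℂ] SymmetricAlgebra ℂ H,
        (∀ h : H, σ (SymmetricAlgebra.ι ℂ H h) =
          SymmetricAlgebra.ι ℂ H (h - α h • LieAlgebra.IsKilling.coroot α)) →
        ∀ p, D (σ p) = σ (D p)) → D a = 0

end Cartan

end Pool.Agent.KS6_37.PhiStmt
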