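import Pool.Agent.KS6_37.Phi.Class
import Pool.Agent.KS6_37.Phi.Stmt

/-!
# The notions of the statement and those of the proof
-/

set_option autoImplicit false
set_option linter.unusedSectionVars false

open scoped TensorProduct

noncomputable section

namespace Pool.Agent.KS6_37.PhiStmt

open Pool.Agent.KS6_37.Phi Pool.Agent.KS6_37.PhiRP Module

section lin

variable {g : Type} [AddCommGroup g] [Module ℂ g]

theorem ct_one (d : Module.Dual ℂ g) : ct d (1 : ExteriorAlgebra ℂ g) = 0 := by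
  rw [← map_one (algebraMap ℂ (ExteriorAlgebra ℂ g)), ct_algebraMap]

/-- contraction of a product of vectors -/
theorem ct_ιMulti (d : Module.Dual ℂ g) : ∀ (n : ℕ) (x : Fin (n + 1) → g),
    ct d (ExteriorAlgebra.ιMulti ℂ (n + 1) x) =
      ∑ j : Fin (n + 1), ((-1 : ℂ) ^ (j : ℕ) * d (x j)) •
        ExteriorAlgebra.ιMulti ℂ n (fun i => x (j.succAbove i)) := by
  intro n
  induction n with
  | zero =>
    intro x
    rw [ExteriorAlgebra.ιMulti_succ_apply, ct_ι_mul, ExteriorAlgebra.ιMulti_zero_apply, ct_one]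
    simp
  | succ n ih =>
    intro x
    rw [ExteriorAlgebra.ιMulti_succ_apply, ct_ι_mul, ih, Fin.sum_univ_succ (n := n + 1),
      Finset.mul_sum, sub_eq_add_neg, ← Finset.sum_neg_distrib]
    congr 1
    · simp [Matrix.vecTail, Function.comp_def]
    · refine Finset.sum_congr rfl fun j _ => ?_
      rw [ExteriorAlgebra.ιMulti_succ_apply]
      simp only [Matrix.vecTail, Function.comp_def, Fin.succ_succAbove_zero,
        Fin.succ_succAbove_succ, mul_smul_comm, Fin.val_succ, pow_succ, mul_neg, mul_one, neg_mul,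
        neg_smul]

theorem pair_det (κ : g →ₗ[ℂ] Module.Dual ℂ g) : ∀ (n : ℕ) (x y : Fin n → g),
    pairLin κ (ExteriorAlgebra.ιMulti ℂ n x) (ExteriorAlgebra.ιMulti ℂ n y) =
      (Matrix.of fun i j => κ (x i) (y j)).det := by
  intro n
  induction n with
  | zero =>
    intro x y
    rw [ExteriorAlgebra.ιMulti_zero_apply, ExteriorAlgebra.ιMulti_zero_apply, pairing_one]
    simp
  | succ n ih =>
    intro x y
    rw [ExteriorAlgebra.ιMulti_succ_apply (R := ℂ) x, pairing_ι_mul, ct_ιMulti, map_sum,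
      Matrix.det_succ_row_zero]
    refine Finset.sum_congr rfl fun j _ => ?_
    rw [map_smul, ih, smul_eq_mul]
    rfl

theorem pair_orth (κ : g →ₗ[ℂ] Module.Dual ℂ g) : ∀ (m n : ℕ) (x : Fin m → g) (y : Fin n → g),
    m ≠ n → pairLin κ (ExteriorAlgebra.ιMulti ℂ m x) (ExteriorAlgebra.ιMulti ℂ n y) = 0 := by
  intro m
  induction m with
  | zero =>
    intro n x y h
    obtain ⟨n, rfl⟩ : ∃ k, n = k + 1 := ⟨n - 1, by omega⟩
    rw [ExteriorAlgebra.ιMulti_zero_apply, pairing_one, ExteriorAlgebra.ιMulti_succ_apply,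
      eps_ι_mul]
  | succ m ih =>
    intro n x y h
    rw [ExteriorAlgebra.ιMulti_succ_apply (R := ℂ) x, pairing_ι_mul]
    rcases n with _ | n
    · rw [ExteriorAlgebra.ιMulti_zero_apply, ct_one, map_zero]
    · rw [ct_ιMulti, map_sum]
      refine Finset.sum_eq_zero fun j _ => ?_
      rw [map_smul, ih n _ _ (by omega), smul_zero]

/-- induction on products of vectors -/
theorem ιMulti_ind {P : ExteriorAlgebra ℂ g → Prop}
    (h1 : ∀ (n : ℕ) (x : Fin n → g), P (ExteriorAlgebra.ιMulti ℂ n x)) (h0 : P 0)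
    (h2 : ∀ x y, P x → P y → P (x + y)) (h3 : ∀ (c : ℂ) x, P x → P (c • x))
    (w : ExteriorAlgebra ℂ g) : P w := by
  have hw : w ∈ Submodule.span ℂ (Set.range fun x : Σ n, (Fin n → g) =>
      ExteriorAlgebra.ιMulti ℂ x.1 x.2) := by
    rw [ExteriorAlgebra.ιMulti_span]
    trivial
  induction hw using Submodule.span_induction with
  | mem x hx =>
    obtain ⟨v, rfl⟩ := hx
    exact h1 v.1 v.2
  | zero => exact h0
  | add x y _ _ hx hy => exact h2 x y hx hy
  | smul c x _ hx => exact h3 c x hx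

theorem hom_ext {M : Type} [AddCommGroup M] [Module ℂ M] {F G : ExteriorAlgebra ℂ g →ₗ[ℂ] M}
    (h : ∀ (n : ℕ) (x : Fin n → g),
      F (ExteriorAlgebra.ιMulti ℂ n x) = G (ExteriorAlgebra.ιMulti ℂ n x)) : F = G := by
  refine LinearMap.ext fun w => ?_
  refine ιMulti_ind (P := fun w => F w = G w) h ?_ ?_ ?_ w
  · rw [map_zero, map_zero]
  · intro x y hx hy
    rw [map_add, map_add, hx, hy]
  · intro c x hx
    rw [map_smul, map_smul, hx]

theorem sgn_ιMulti : ∀ (n : ℕ) (x : Fin n → g), sgn g (ExteriorAlgebra.ιMulti ℂ n x) =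
    (-1 : ℂ) ^ n • ExteriorAlgebra.ιMulti ℂ n x := by
  intro n
  induction n with
  | zero =>
    intro x
    rw [ExteriorAlgebra.ιMulti_zero_apply, map_one, pow_zero, one_smul]
  | succ n ih =>
    intro x
    rw [ExteriorAlgebra.ιMulti_succ_apply, sgn_ι_mul, ih, mul_smul_comm, pow_succ, mul_neg,
      mul_one, neg_smul]

theorem even_ιMulti (n : ℕ) (x : Fin n → g) : evenProj g (ExteriorAlgebra.ιMulti ℂ n x) =
    if Even n then ExteriorAlgebra.ιMulti ℂ n x else 0 := by
  have h : evenProj g (ExteriorAlgebra.ιMulti ℂ n x) = (1 / 2 : ℂ) •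
    (ExteriorAlgebra.ιMulti ℂ n x + sgn g (ExteriorAlgebra.ιMulti ℂ n x)) := rfl
  rw [h, sgn_ιMulti]
  split_ifs with hn
  · rw [hn.neg_one_pow, one_smul, ← two_smul ℂ (ExteriorAlgebra.ιMulti ℂ n x), smul_smul]
    norm_num
  · rw [(Nat.not_even_iff_odd.1 hn).neg_one_pow, neg_smul, one_smul, add_neg_cancel, smul_zero]

end lin

section lie

variable {g : Type} [LieRing g] [LieAlgebra ℂ g]

theorem isInducedForm_pairLin : IsInducedForm (pairLin (killingForm ℂ g)) :=
  ⟨fun n x y => pair_det _ n x y, fun m n x y h => pair_orth _ m n x y h⟩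

theorem IsInducedForm.unique {B : ExteriorAlgebra ℂ g →ₗ[ℂ] ExteriorAlgebra ℂ g →ₗ[ℂ] ℂ}
    (h : IsInducedForm B) : B = pairLin (killingForm ℂ g) := by
  refine hom_ext fun m x => hom_ext fun n y => ?_
  by_cases hmn : m = n
  · subst hmn
    rw [h.det, pair_det]
  · rw [h.orth m n x y hmn, pair_orth _ m n x y hmn]

theorem isCoproduct_coproduct : IsCoproduct (coproduct g) :=
  ⟨coproduct_one, fun x w => coproduct_ι_mul x w⟩

theorem IsCoproduct.unique
    {Δ : ExteriorAlgebra ℂ g →ₗ[ℂ] ExteriorAlgebra ℂ g ⊗[ℂ] ExteriorAlgebra ℂ g}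
    (h : IsCoproduct Δ) : Δ = coproduct g := by
  refine hom_ext fun n => ?_
  induction n with
  | zero =>
    intro x
    rw [ExteriorAlgebra.ιMulti_zero_apply, h.one, coproduct_one]
  | succ n ih =>
    intro x
    rw [ExteriorAlgebra.ιMulti_succ_apply, h.ι_mul, ih, coproduct_ι_mul]
    rfl

theorem isEvenPart_evenProj : IsEvenPart (evenProj g) := ⟨fun n x => even_ιMulti n x⟩

theorem IsEvenPart.unique {π : ExteriorAlgebra ℂ g →ₗ[ℂ] ExteriorAlgebra ℂ g}
    (h : IsEvenPart π) : π = evenProj g :=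
  hom_ext fun n x => by rw [h.apply, even_ιMulti]

end lie

section kill

variable {g : Type} [LieRing g] [LieAlgebra ℂ g] [FiniteDimensional ℂ g]

theorem deriv_unique {x : g} {D : ExteriorAlgebra ℂ g →ₗ[ℂ] ExteriorAlgebra ℂ g}
    (h1 : ∀ a b, D (a * b) = D a * b + a * D b)
    (h2 : ∀ y : g, D (ExteriorAlgebra.ι ℂ y) = ExteriorAlgebra.ι ℂ ⁅x, y⁆)
    (w : ExteriorAlgebra ℂ g) : D w = act x w := by
  have hone : D 1 = 0 := by
    have := h1 1 1
    rw [mul_one, one_mul, mul_one] at this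
    exact left_eq_add.1 this
  have h3 : D = derivLin (LieAlgebra.ad ℂ g x : g →ₗ[ℂ] g) := by
    refine hom_ext fun n => ?_
    induction n with
    | zero =>
      intro x
      rw [ExteriorAlgebra.ιMulti_zero_apply, hone, Phi.deriv_one]
    | succ n ih =>
      intro x
      rw [ExteriorAlgebra.ιMulti_succ_apply, h1, ih, h2, deriv_ι_mul]
      rfl
  rw [h3]
  rfl

theorem act_mul (x : g) (a b : ExteriorAlgebra ℂ g) :
    act x (a * b) = act x a * b + a * act x b := by
  refine ιMulti_ind (P := fun a => ∀ b, act x (a * b) = act x a * b + a * act x b) ?_ ?_ ?_ ?_ a b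
  · intro n
    induction n with
    | zero =>
      intro y b
      have h : act x (1 : ExteriorAlgebra ℂ g) = 0 := Phi.deriv_one (LieAlgebra.ad ℂ g x : g →ₗ[ℂ] g)
      rw [ExteriorAlgebra.ιMulti_zero_apply, one_mul, one_mul, h, zero_mul, zero_add]
    | succ n ih =>
      intro y b
      have h : ∀ (z : g) (w : ExteriorAlgebra ℂ g), act x (ExteriorAlgebra.ι ℂ z * w) =
        ExteriorAlgebra.ι ℂ ⁅x, z⁆ * w + ExteriorAlgebra.ι ℂ z * act x w := fun z w =>
          Core.lie_ι_mul x z w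
      rw [ExteriorAlgebra.ιMulti_succ_apply, mul_assoc, h, ih, h, add_mul, mul_add, mul_assoc,
        mul_assoc, mul_assoc, add_assoc]
  · intro b
    rw [zero_mul, act_apply, map_zero, zero_mul, zero_mul, add_zero]
  · intro a a' ha ha' b
    have h : ∀ u v : ExteriorAlgebra ℂ g, act x (u + v) = act x u + act x v := fun u v => by
      rw [act_apply, act_apply, act_apply, map_add]
    rw [add_mul, h, ha, ha', h, add_mul, add_mul]
    abel
  · intro c a ha b
    have h : ∀ u : ExteriorAlgebra ℂ g, act x (c • u) = c • act x u := fun u => by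
      rw [act_apply, act_apply, map_smul]
    rw [smul_mul_assoc, h, ha, h, smul_mul_assoc, smul_mul_assoc, smul_add]

theorem act_ι (x y : g) : act x (ExteriorAlgebra.ι ℂ y) = ExteriorAlgebra.ι ℂ ⁅x, y⁆ :=
  deriv_ι (LieAlgebra.ad ℂ g x : g →ₗ[ℂ] g) y

theorem isEquivariant_iff {V : Type} [AddCommGroup V] [Module ℂ V] [LieRingModule g V]
    (f : V →ₗ[ℂ] ExteriorAlgebra ℂ g) :
    IsEquivariant f ↔ ∀ (x : g) (v : V), f ⁅x, v⁆ = act x (f v) := by
  constructor
  · intro h x v
    exact h.apply x (derivLin (LieAlgebra.ad ℂ g x : g →ₗ[ℂ] g)) (fun a b => act_mul x a b)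
      (fun y => act_ι x y) v
  · intro h
    refine ⟨fun x D h1 h2 v => ?_⟩
    rw [h, deriv_unique h1 h2]

variable [LieAlgebra.IsKilling ℂ g]

/-- the sum over a pair of dual bases does not depend on the pair -/
theorem sum_dual_indep {n : ℕ} (b b' : Basis (Fin n) ℂ g)
    (h : ∀ i j, killingForm ℂ g (b i) (b' j) = if i = j then 1 else 0) (x : g) :
    (1 / 2 : ℂ) • ∑ i, ExteriorAlgebra.ι ℂ (b i) * ExteriorAlgebra.ι ℂ ⁅b' i, x⁆ = sMap g x := by
  set c := Module.finBasis ℂ g with hc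
  set d := LinearMap.BilinForm.dualBasis (killingForm ℂ g)
        (LieAlgebra.IsKilling.killingForm_nondegenerate ℂ g) c with hd
  have h1 : ∀ y i, killingForm ℂ g y (d i) = c.repr y i := by
    intro y i
    conv_lhs => rw [← c.sum_repr y]
    rw [map_sum, LinearMap.sum_apply]
    simp only [map_smul, LinearMap.smul_apply, smul_eq_mul]
    rw [Finset.sum_eq_single i]
    · rw [kill_symm, hd, LinearMap.BilinForm.apply_dualBasis_left, if_pos rfl, mul_one]
    · intro j _ hj
      rw [kill_symm, hd, LinearMap.BilinForm.apply_dualBasis_left, if_neg hj, mul_zero]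
    · intro h; exact absurd (Finset.mem_univ i) h
  have h2 : ∀ y i, killingForm ℂ g y (b i) = b'.repr y i := by
    intro y i
    conv_lhs => rw [← b'.sum_repr y]
    rw [map_sum, LinearMap.sum_apply]
    simp only [map_smul, LinearMap.smul_apply, smul_eq_mul]
    rw [Finset.sum_eq_single i]
    · rw [kill_symm, h, if_pos rfl, mul_one]
    · intro j _ hj
      rw [kill_symm, h, if_neg (Ne.symm hj), mul_zero]
    · intro h; exact absurd (Finset.mem_univ i) h
  rw [sMap_apply]
  congr 1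
  calc ∑ i, ExteriorAlgebra.ι ℂ (b i) * ExteriorAlgebra.ι ℂ ⁅b' i, x⁆
      = ∑ i, ∑ j, killingForm ℂ g (b i) (d j) •
          (ExteriorAlgebra.ι ℂ (c j) * ExteriorAlgebra.ι ℂ ⁅b' i, x⁆) := by
        refine Finset.sum_congr rfl fun i _ => ?_
        conv_lhs => rw [← c.sum_repr (b i), map_sum, Finset.sum_mul]
        refine Finset.sum_congr rfl fun j _ => ?_
        rw [map_smul, smul_mul_assoc, h1]
    _ = ∑ j, ExteriorAlgebra.ι ℂ (c j) * ExteriorAlgebra.ι ℂ ⁅d j, x⁆ := by
        rw [Finset.sum_comm]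
        refine Finset.sum_congr rfl fun j _ => ?_
        have h3 : d j = ∑ i, killingForm ℂ g (b i) (d j) • b' i := by
          conv_lhs => rw [← b'.sum_repr (d j)]
          refine Finset.sum_congr rfl fun i _ => ?_
          rw [← h2, kill_symm]
        have h4 : ⁅d j, x⁆ = ∑ i, killingForm ℂ g (b i) (d j) • ⁅b' i, x⁆ := by
          conv_lhs => rw [h3]
          rw [sum_lie]
          exact Finset.sum_congr rfl fun i _ => smul_lie _ _ _
        rw [h4, map_sum, Finset.mul_sum]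
        refine Finset.sum_congr rfl fun i _ => ?_
        rw [map_smul, mul_smul_comm]

variable (H : LieSubalgebra ℂ g)

theorem isTau_tau : IsTau H (tau (H.incl : H →ₗ[ℂ] g)) := by
  refine ⟨fun n b b' h x => ?_⟩
  rw [tau_ι, sum_dual_indep b b' h]
  rfl

variable {H}

theorem IsTau.unique {τ : SymmetricAlgebra ℂ H →ₐ[ℂ] ExteriorAlgebra ℂ g} (h : IsTau H τ) :
    τ = tau (H.incl : H →ₗ[ℂ] g) := by
  refine AlgHom.ext fun p => ?_
  induction p using SymmetricAlgebra.induction with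
  | algebraMap r => rw [AlgHom.commutes, AlgHom.commutes]
  | ι x =>
    have h1 := h.apply (finrank ℂ g) (Module.finBasis ℂ g) (LinearMap.BilinForm.dualBasis
      (killingForm ℂ g) (LieAlgebra.IsKilling.killingForm_nondegenerate ℂ g)
      (Module.finBasis ℂ g))
      (fun i j => by
        rw [kill_symm, LinearMap.BilinForm.apply_dualBasis_left]) x
    have h2 : tau (H.incl : H →ₗ[ℂ] g) (SymmetricAlgebra.ι ℂ H x) = sMap g (x : g) :=
      tau_ι (H.incl : H →ₗ[ℂ] g) x
    rw [h1, h2, sMap_apply]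
  | mul a b ha hb => rw [map_mul τ, map_mul (tau _), ha, hb]
  | add a b ha hb => rw [map_add, map_add, ha, hb]

theorem isPhi_iff {q : g →ₗ[ℂ] H} {A : Submodule ℂ (SymmetricAlgebra ℂ H)}
    {Φ : ExteriorAlgebra ℂ g →ₗ[ℂ] ExteriorAlgebra ℂ H ⊗[ℂ] Dual ℂ A} :
    IsPhi H q A Φ ↔ Φ = bigPhi q (H.incl : H →ₗ[ℂ] g) A := by
  constructor
  · rintro ⟨τ, B, φ, π, Δ, h1, h2, h3, h4, h5, rfl⟩
    obtain rfl := h1.unique
    obtain rfl := h2.unique
    obtain rfl := h4.unique
    obtain rfl := h5.unique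
    have h6 : φ = phi (H.incl : H →ₗ[ℂ] g) A :=
      LinearMap.ext fun w => LinearMap.ext fun a => h3 w a
    rw [h6]
    rfl
  · rintro rfl
    exact ⟨tau (H.incl : H →ₗ[ℂ] g), pairLin (killingForm ℂ g), phi (H.incl : H →ₗ[ℂ] g) A,
      evenProj g, coproduct g, isTau_tau H, isInducedForm_pairLin, fun w a => rfl,
      isEvenPart_evenProj, isCoproduct_coproduct, rfl⟩

theorem stronglyFails_iff : StronglyFails H ↔ StronglyNonInjective H := by
  constructor
  · rintro ⟨V, i1, i2, i3, i4, i5, i6, f, h0, h1, h2⟩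
    rw [isEquivariant_iff] at h1
    refine ⟨V, i1, i2, i3, i4, i5, i6, ⟨f, fun {x v} => h1 x v⟩, fun h => h0 ?_, ?_⟩
    · ext v
      exact DFunLike.congr_fun h v
    · intro q A v
      exact (h2 v).eq_zero q A _ (isPhi_iff.2 rfl)
  · rintro ⟨V, i1, i2, i3, i4, i5, i6, f, h0, h1⟩
    refine ⟨V, i1, i2, i3, i4, i5, i6, (f : V →ₗ[ℂ] ExteriorAlgebra ℂ g), fun h => h0 ?_, ?_, ?_⟩
    · ext v
      exact LinearMap.congr_fun h v
    · rw [isEquivariant_iff]
      intro x v
      exact LieModuleHom.map_lie f x v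
    · intro v
      refine ⟨fun q A Φ hΦ => ?_⟩
      rw [isPhi_iff] at hΦ
      rw [hΦ]
      exact h1 q A v

variable [H.IsCartanSubalgebra]

theorem isProjection_iff {q : g →ₗ[ℂ] H} : IsProjection H q ↔ IsProj H q :=
  ⟨fun h => ⟨h.1, h.2⟩, fun h => ⟨h.self, h.root⟩⟩

theorem allInjective_iff {q : g →ₗ[ℂ] H} :
    AllInjective H (PhiMap H q) ↔ Phi.AllInjective H q := by
  constructor
  · intro h V i1 i2 i3 i4 i5 i6 f hf
    have h1 := h.eq_zero V (f : V →ₗ[ℂ] ExteriorAlgebra ℂ g)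
      ((isEquivariant_iff _).2 fun x v => LieModuleHom.map_lie f x v) (fun v hv => hf v hv)
    ext v
    exact LinearMap.congr_fun h1 v
  · intro h
    refine ⟨fun V i1 i2 i3 i4 i5 i6 f h1 hf => ?_⟩
    rw [isEquivariant_iff] at h1
    have h2 := h V ⟨f, fun {x v} => h1 x v⟩ (fun v hv => hf v hv)
    ext v
    exact DFunLike.congr_fun h2 v

theorem isConstCoeff_iff {D : SymmetricAlgebra ℂ H →ₗ[ℂ] SymmetricAlgebra ℂ H} :
    IsConstCoeff H D ↔ D ∈ constDiff H := by
  have h : {T : Module.End ℂ (SymmetricAlgebra ℂ H) |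
      (∀ a b, T (a * b) = a * T b + b * T a) ∧ ∃ ξ : Dual ℂ H,
        ∀ h : H, T (SymmetricAlgebra.ι ℂ H h) = algebraMap ℂ (SymmetricAlgebra ℂ H) (ξ h)} =
      Set.range fun ξ : Module.Dual ℂ H => (pd ξ).toLinearMap := by
    ext D
    constructor
    · rintro ⟨h1, ξ, h2⟩
      refine ⟨ξ, LinearMap.ext fun p => ?_⟩
      change pd ξ p = D p
      have hone : D 1 = 0 := by
        have := h1 1 1
        rw [mul_one, one_mul] at this
        exact left_eq_add.1 this
      induction p using SymmetricAlgebra.induction with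
      | algebraMap r =>
        rw [(pd ξ).map_algebraMap, Algebra.algebraMap_eq_smul_one, map_smul, hone, smul_zero]
      | ι x => rw [pd_ι, h2]
      | mul a b ha hb => rw [pd_mul, ha, hb, h1]
      | add a b ha hb => rw [map_add, map_add, ha, hb]
    · rintro ⟨ξ, rfl⟩
      exact ⟨fun a b => pd_mul ξ a b, ξ, fun h => pd_ι ξ h⟩
  constructor
  · intro hD
    have := hD.mem
    rwa [h] at this
  · intro hD
    refine ⟨?_⟩
    rw [h]
    exact hD

theorem isHarmonics_iff {A : Submodule ℂ (SymmetricAlgebra ℂ H)} :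
    IsHarmonics H A ↔ A = Phi.harmonic H := by
  have hσ : ∀ (α : LieModule.Weight ℂ H g)
      (σ : SymmetricAlgebra ℂ H →ₐ[ℂ] SymmetricAlgebra ℂ H),
      (∀ h : H, σ (SymmetricAlgebra.ι ℂ H h) =
          SymmetricAlgebra.ι ℂ H (h - α h • LieAlgebra.IsKilling.coroot α)) →
      σ = refl α.toLinear (LieAlgebra.IsKilling.coroot α) := by
    intro α σ h
    refine SymmetricAlgebra.algHom_ext (LinearMap.ext fun x => ?_)
    have h1 : refl α.toLinear (LieAlgebra.IsKilling.coroot α) (SymmetricAlgebra.ι ℂ H x) =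
        SymmetricAlgebra.ι ℂ H (x - α x • LieAlgebra.IsKilling.coroot α) := refl_ι _ _ x
    exact (h x).trans h1.symm
  have key : ∀ a, (∀ D, IsConstCoeff H D → D 1 = 0 →
      (∀ α : LieModule.Weight ℂ H g, α.IsNonZero →
        ∀ σ : SymmetricAlgebra ℂ H →ₐ[ℂ] SymmetricAlgebra ℂ H,
          (∀ h : H, σ (SymmetricAlgebra.ι ℂ H h) =
            SymmetricAlgebra.ι ℂ H (h - α h • LieAlgebra.IsKilling.coroot α)) →
          ∀ p, D (σ p) = σ (D p)) → D a = 0) ↔ a ∈ Phi.harmonic H := by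
    intro a
    rw [Phi.harmonic, mem_harm]
    constructor
    · intro h D hD h1 h2
      refine h D (isConstCoeff_iff.2 hD) h2 ?_
      intro α hα σ hs p
      rw [hσ α σ hs]
      exact h1 _ ⟨α, hα, rfl⟩ p
    · intro h D hD h1 h2
      refine h D (isConstCoeff_iff.1 hD) ?_ h1
      rintro _ ⟨α, hα, rfl⟩ p
      exact h2 α hα _ (fun x => refl_ι _ _ x) p
  constructor
  · intro h
    ext a
    rw [h.mem_iff, key]
  · rintro rfl
    exact ⟨fun a => (key a).symm⟩

end kill

end Pool.Agent.KS6_37.PhiStmt
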