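import Pool.Agent.KS6_37.Phi.Kill

/-!
# The map `Φ` vanishes on wedges of commuting elements
-/

set_option autoImplicit false
set_option linter.unusedSectionVars false

open scoped TensorProduct

noncomputable section

namespace Pool.Agent.KS6_37.PhiRP

open Pool.Agent.KS6_37.Phi

variable {g : Type} [LieRing g] [LieAlgebra ℂ g] [FiniteDimensional ℂ g]
variable [LieAlgebra.IsKilling ℂ g]

theorem expand_bb (w : g) : w = ∑ j, killingForm ℂ g w (db g j) • bb g j := by
  conv_lhs => rw [← (bb g).sum_repr w]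
  refine Finset.sum_congr rfl fun i _ => ?_
  congr 1
  conv_rhs => rw [← (bb g).sum_repr w]
  rw [map_sum, LinearMap.sum_apply]
  simp only [map_smul, LinearMap.smul_apply, smul_eq_mul]
  rw [Finset.sum_eq_single i]
  · rw [kill_symm, LinearMap.BilinForm.apply_dualBasis_left, if_pos rfl, mul_one]
  · intro j _ hj
    rw [kill_symm, LinearMap.BilinForm.apply_dualBasis_left, if_neg hj, mul_zero]
  · intro h; exact absurd (Finset.mem_univ i) h

theorem expand_db (w : g) : w = ∑ j, killingForm ℂ g w (bb g j) • db g j := by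
  conv_lhs => rw [← (db g).sum_repr w]
  refine Finset.sum_congr rfl fun i _ => ?_
  congr 1
  conv_rhs => rw [← (db g).sum_repr w]
  rw [map_sum, LinearMap.sum_apply]
  simp only [map_smul, LinearMap.smul_apply, smul_eq_mul]
  rw [Finset.sum_eq_single i]
  · rw [LinearMap.BilinForm.apply_dualBasis_left, if_pos rfl, mul_one]
  · intro j _ hj
    rw [LinearMap.BilinForm.apply_dualBasis_left, if_neg (Ne.symm hj), mul_zero]
  · intro h; exact absurd (Finset.mem_univ i) h

/-- invariance of the Casimir tensor -/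
theorem casimir {M : Type} [AddCommGroup M] [Module ℂ M] (f : g →ₗ[ℂ] g →ₗ[ℂ] M) (x : g) :
    ∑ i, (f ⁅x, bb g i⁆ (db g i) + f (bb g i) ⁅x, db g i⁆) = 0 := by
  have e1 : ∀ i, f ⁅x, bb g i⁆ (db g i) =
      ∑ j, killingForm ℂ g ⁅x, bb g i⁆ (db g j) • f (bb g j) (db g i) := by
    intro i
    conv_lhs => rw [expand_bb ⁅x, bb g i⁆]
    rw [map_sum, LinearMap.sum_apply]
    refine Finset.sum_congr rfl fun j _ => ?_
    rw [map_smul, LinearMap.smul_apply]
  have e2 : ∀ i, f (bb g i) ⁅x, db g i⁆ =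
      ∑ j, killingForm ℂ g ⁅x, db g i⁆ (bb g j) • f (bb g i) (db g j) := by
    intro i
    conv_lhs => rw [expand_db ⁅x, db g i⁆]
    rw [map_sum]
    refine Finset.sum_congr rfl fun j _ => ?_
    rw [map_smul]
  rw [Finset.sum_add_distrib, Finset.sum_congr rfl fun i _ => e1 i,
    Finset.sum_congr rfl fun i _ => e2 i, Finset.sum_comm, ← Finset.sum_add_distrib]
  refine Finset.sum_eq_zero fun i _ => ?_
  rw [← Finset.sum_add_distrib]
  refine Finset.sum_eq_zero fun j _ => ?_
  rw [← add_smul]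
  have : killingForm ℂ g ⁅x, bb g j⁆ (db g i) + killingForm ℂ g ⁅x, db g i⁆ (bb g j) = 0 := by
    rw [← lie_skew x (bb g j), map_neg, LinearMap.neg_apply, kill_inv, kill_symm (bb g j)]
    ring
  rw [this, zero_smul]

/-- the action of `g` on double contractions -/
theorem deriv_ct_ct (x : g) (y z : g) (w : ExteriorAlgebra ℂ g) :
    derivLin (LieAlgebra.ad ℂ g x : g →ₗ[ℂ] g) (ct (killingForm ℂ g z) (ct (killingForm ℂ g y) w)) =
      ct (killingForm ℂ g z) (ct (killingForm ℂ g y)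
        (derivLin (LieAlgebra.ad ℂ g x : g →ₗ[ℂ] g) w)) +
      ct (killingForm ℂ g z) (ct (killingForm ℂ g ⁅x, y⁆) w) +
      ct (killingForm ℂ g ⁅x, z⁆) (ct (killingForm ℂ g y) w) := by
  have h1 : ∀ (y : g) (w : ExteriorAlgebra ℂ g),
      derivLin (LieAlgebra.ad ℂ g x : g →ₗ[ℂ] g) (ct (killingForm ℂ g y) w) =
      ct (killingForm ℂ g y) (derivLin (LieAlgebra.ad ℂ g x : g →ₗ[ℂ] g) w) +
        ct (killingForm ℂ g ⁅x, y⁆) w := by
    intro y w
    have h2 := ct_deriv (killingForm ℂ g y) (LieAlgebra.ad ℂ g x : g →ₗ[ℂ] g) w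
    have h3 : (killingForm ℂ g y : Module.Dual ℂ g) ∘ₗ (LieAlgebra.ad ℂ g x : g →ₗ[ℂ] g) =
        -(killingForm ℂ g ⁅x, y⁆ : Module.Dual ℂ g) := by
      refine LinearMap.ext fun v => ?_
      rw [LinearMap.comp_apply, LieAlgebra.ad_apply, ← kill_inv, ← lie_skew x y, map_neg]
      simp
    rw [h3] at h2
    have h4 : ct (-(killingForm ℂ g ⁅x, y⁆ : Module.Dual ℂ g)) w =
        -ct (killingForm ℂ g ⁅x, y⁆) w := by simp [ct]
    rw [h4] at h2
    rw [h2]
    abel
  rw [h1, h1, map_add]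

/-- equivariance of the contraction by `s(h)` -/
theorem deriv_Ih (x h : g) (w : ExteriorAlgebra ℂ g) :
    derivLin (LieAlgebra.ad ℂ g x : g →ₗ[ℂ] g) (Ih h w) =
      Ih h (derivLin (LieAlgebra.ad ℂ g x : g →ₗ[ℂ] g) w) + Ih ⁅x, h⁆ w := by
  let F : g →ₗ[ℂ] g →ₗ[ℂ] ExteriorAlgebra ℂ g :=
    LinearMap.mk₂ ℂ (fun y z => ct (killingForm ℂ g ⁅z, h⁆) (ct (killingForm ℂ g y) w))
      (by intro a b c; simp [ct]) (by intro a b c; simp [ct]) (by intro a b c; simp [ct])
      (by intro a b c; simp [ct])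
  have h1 := casimir F x
  rw [Ih_apply, Ih_apply, Ih_apply, map_smul, map_sum, ← smul_add, ← Finset.sum_add_distrib]
  congr 1
  rw [← sub_eq_zero, ← Finset.sum_sub_distrib, ← h1]
  refine Finset.sum_congr rfl fun i _ => ?_
  rw [deriv_ct_ct]
  have h2 : ct (killingForm ℂ g ⁅x, ⁅db g i, h⁆⁆) (ct (killingForm ℂ g (bb g i)) w) =
      ct (killingForm ℂ g ⁅⁅x, db g i⁆, h⁆) (ct (killingForm ℂ g (bb g i)) w) +
        ct (killingForm ℂ g ⁅db g i, ⁅x, h⁆⁆) (ct (killingForm ℂ g (bb g i)) w) := by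
    rw [leibniz_lie, map_add]
    simp [ct]
  rw [h2]
  change _ = ct (killingForm ℂ g ⁅db g i, h⁆) (ct (killingForm ℂ g ⁅x, bb g i⁆) w) +
    ct (killingForm ℂ g ⁅⁅x, db g i⁆, h⁆) (ct (killingForm ℂ g (bb g i)) w)
  abel

/-- all exterior vectors of degree `k` killed by the contractions by `s(h)`, `h ∈ g` -/
def NN (g : Type) [LieRing g] [LieAlgebra ℂ g] [FiniteDimensional ℂ g]
    [LieAlgebra.IsKilling ℂ g] (k : ℕ) : LieSubmodule ℂ g (ExteriorAlgebra ℂ g) where
  carrier := {w | w ∈ ⋀[ℂ]^k g ∧ ∀ h : g, Ih h w = 0}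
  zero_mem' := ⟨Submodule.zero_mem _, fun h => map_zero _⟩
  add_mem' := fun {a b} ha hb => ⟨Submodule.add_mem _ ha.1 hb.1, fun h => by
    rw [map_add, ha.2 h, hb.2 h, add_zero]⟩
  smul_mem' := fun c a ha => ⟨Submodule.smul_mem _ c ha.1, fun h => by
    rw [map_smul, ha.2 h, smul_zero]⟩
  lie_mem := fun {x w} hw => by
    change ⁅x, w⁆ ∈ ⋀[ℂ]^k g ∧ ∀ h : g, Ih h ⁅x, w⁆ = 0
    rw [lie_ext_def]
    refine ⟨deriv_mem' _ hw.1, fun h => ?_⟩
    have h1 := deriv_Ih x h w
    rw [hw.2 h, hw.2 ⁅x, h⁆, map_zero, add_zero] at h1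
    exact h1.symm

instance (k : ℕ) : FiniteDimensional ℂ (NN g k) := by
  have h : (NN g k).toSubmodule ≤ ⋀[ℂ]^k g := fun w hw => hw.1
  exact Submodule.finiteDimensional_of_le h

theorem ιMulti_mem_NN : ∀ (k : ℕ) (v : Fin k → g), (∀ i j, ⁅v i, v j⁆ = 0) →
    ExteriorAlgebra.ιMulti ℂ k v ∈ NN g k := by
  have key : ∀ (k : ℕ) (v : Fin k → g), (∀ i j, ⁅v i, v j⁆ = 0) → ∀ h : g,
      Ih h (ExteriorAlgebra.ιMulti ℂ k v) = 0 := by
    intro k
    induction k with
    | zero =>
      intro v _ h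
      rw [ExteriorAlgebra.ιMulti_zero_apply, Ih_apply]
      simp only [← map_one (algebraMap ℂ (ExteriorAlgebra ℂ g)), ct_algebraMap, map_zero,
        Finset.sum_const_zero, smul_zero]
    | succ k ih =>
      intro v hv h
      rw [ExteriorAlgebra.ιMulti_succ_apply, Ih_ι_mul]
      have h1 : Ih h (ExteriorAlgebra.ιMulti ℂ k (Matrix.vecTail v)) = 0 :=
        ih _ (fun i j => hv i.succ j.succ) h
      have h2 : ct (killingForm ℂ g ⁅v 0, h⁆) (ExteriorAlgebra.ιMulti ℂ k (Matrix.vecTail v)) =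
          0 := by
        refine ct_ιMulti_zero _ _ _ fun i => ?_
        change killingForm ℂ g ⁅v 0, h⁆ (v i.succ) = 0
        rw [kill_inv, ← lie_skew, map_neg, ← kill_inv, hv 0 i.succ, map_zero,
          LinearMap.zero_apply, neg_zero]
      change ct (killingForm ℂ g ⁅v 0, h⁆) (ExteriorAlgebra.ιMulti ℂ k (Matrix.vecTail v)) +
        ExteriorAlgebra.ι ℂ (v 0) * Ih h (ExteriorAlgebra.ιMulti ℂ k (Matrix.vecTail v)) = 0
      rw [h1, h2, mul_zero, add_zero]
  intro k v hv
  exact ⟨ιMulti_mem v, key k v hv⟩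

section Phi

variable {h' : Type} [AddCommGroup h'] [Module ℂ h']

/-- `Φ` vanishes on `NN g k` if `k > dim h` -/
theorem bigPhi_NN [FiniteDimensional ℂ h'] (q : g →ₗ[ℂ] h') (j : h' →ₗ[ℂ] g)
    (A : Submodule ℂ (SymmetricAlgebra ℂ h')) {k : ℕ} (hk : Module.finrank ℂ h' < k)
    (w : ExteriorAlgebra ℂ g) (hw : w ∈ NN g k) : bigPhi q j A w = 0 := by
  set T := TensorProduct.map LinearMap.id (evenProj g) (coproduct g w) with hT
  have hT0 : ∀ h : g, TensorProduct.map LinearMap.id (Ih h) T = 0 := by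
    intro h
    have h1 : ∀ U : ExteriorAlgebra ℂ g ⊗[ℂ] ExteriorAlgebra ℂ g,
        TensorProduct.map LinearMap.id (Ih h) (TensorProduct.map LinearMap.id (evenProj g) U) =
        TensorProduct.map LinearMap.id (evenProj g) (TensorProduct.map LinearMap.id (Ih h) U) := by
      intro U
      induction U using TensorProduct.induction_on with
      | zero => simp
      | add x y hx hy => simp only [map_add, hx, hy]
      | tmul a b => simp only [TensorProduct.map_tmul, LinearMap.id_apply, Ih_even]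
    rw [hT, h1, cop_Ih, hw.2 h, map_zero, map_zero]
  let ψ : SymmetricAlgebra ℂ h' → ExteriorAlgebra ℂ g →ₗ[ℂ] ℂ :=
    fun a => (pairLin (killingForm ℂ g)).flip (tau j a)
  have hψ : ∀ a u, ψ a u = pairLin (killingForm ℂ g) u (tau j a) := fun a u => rfl
  have key : ∀ a : SymmetricAlgebra ℂ h', ∃ c : ℂ, ∀ b : SymmetricAlgebra ℂ h',
      leg q (ψ (a * b)) T = c • leg q (ψ b) T := by
    intro a
    induction a using SymmetricAlgebra.induction with
    | algebraMap r =>
      refine ⟨r, fun b => ?_⟩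
      have : ψ (algebraMap ℂ _ r * b) = r • ψ b := by
        refine LinearMap.ext fun u => ?_
        rw [LinearMap.smul_apply, hψ, hψ, ← Algebra.smul_def, map_smul, map_smul]
      rw [this, leg_smul]
    | ι u =>
      refine ⟨0, fun b => ?_⟩
      have : ψ (SymmetricAlgebra.ι ℂ h' u * b) = ψ b ∘ₗ Ih (j u) := by
        refine LinearMap.ext fun v => ?_
        rw [LinearMap.comp_apply, hψ, hψ, map_mul, tau_ι, pair_s]
      rw [this, leg_comp, hT0, map_zero, zero_smul]
    | mul a b ha hb =>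
      obtain ⟨c1, h1⟩ := ha
      obtain ⟨c2, h2⟩ := hb
      exact ⟨c1 * c2, fun b' => by rw [mul_assoc, h1, h2, smul_smul]⟩
    | add a b ha hb =>
      obtain ⟨c1, h1⟩ := ha
      obtain ⟨c2, h2⟩ := hb
      refine ⟨c1 + c2, fun b' => ?_⟩
      have : ψ ((a + b) * b') = ψ (a * b') + ψ (b * b') := by
        refine LinearMap.ext fun u => ?_
        rw [LinearMap.add_apply, hψ, hψ, hψ, add_mul, map_add, map_add]
      rw [this, leg_add, h1, h2, add_smul]
  have h1 : leg q (ψ 1) T = 0 := by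
    have e1 : ψ 1 = (eps (g := g)).toLinearMap := by
      refine LinearMap.ext fun u => ?_
      rw [hψ, map_one, pairing_one_right]
      rfl
    have e2 : (eps (g := g)).toLinearMap ∘ₗ evenProj g = (eps (g := g)).toLinearMap :=
      LinearMap.ext fun u => eps_even u
    rw [e1, hT, ← leg_comp, e2, leg_cop, map_zero_of_lt q hk hw.1]
  have hall : ∀ a : SymmetricAlgebra ℂ h', leg q (ψ a) T = 0 := by
    intro a
    obtain ⟨c, hc⟩ := key a
    have := hc 1
    rwa [mul_one, h1, smul_zero] at this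
  rw [bigPhi_apply]
  apply eq_zero_of_eval
  intro a
  have h2 : ∀ U : ExteriorAlgebra ℂ g ⊗[ℂ] ExteriorAlgebra ℂ g,
      TensorProduct.rid ℂ (ExteriorAlgebra ℂ h') (TensorProduct.map LinearMap.id
        (Module.Dual.eval ℂ A a) (TensorProduct.map (ExteriorAlgebra.map q).toLinearMap
          (phi j A) U)) = leg q (ψ (a : SymmetricAlgebra ℂ h')) U := by
    intro U
    induction U using TensorProduct.induction_on with
    | zero => simp
    | add x y hx hy => simp only [map_add, hx, hy]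
    | tmul u v =>
      rw [leg_tmul, TensorProduct.map_tmul, TensorProduct.map_tmul, TensorProduct.rid_tmul]
      rfl
  rw [h2]
  exact hall a

end Phi

theorem exists_irr {k : ℕ} (hne : NN g k ≠ ⊥) :
    ∃ W : LieSubmodule ℂ g (NN g k), LieModule.IsIrreducible ℂ g W := by
  have hnt : Nontrivial (NN g k) := (LieSubmodule.nontrivial_iff_ne_bot ℂ g _).mpr hne
  obtain ⟨W, hW⟩ := IsAtomic.exists_atom (LieSubmodule ℂ g (NN g k))
  refine ⟨W, ?_⟩
  have hWnt : Nontrivial W := (LieSubmodule.nontrivial_iff_ne_bot ℂ g _).mpr hW.1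
  refine LieModule.IsIrreducible.mk fun U hU => ?_
  have hle : U.map W.incl ≤ W := by
    rw [LieSubmodule.map_le_iff_le_comap]
    intro u _
    rw [LieSubmodule.mem_comap]
    exact u.2
  have hcase := hW.le_iff.mp hle
  rcases hcase with h | h
  · exfalso
    apply hU
    rw [LieSubmodule.eq_bot_iff]
    intro u hu
    have h1 : W.incl u ∈ U.map W.incl := LieSubmodule.mem_map_of_mem hu
    rw [h, LieSubmodule.mem_bot] at h1
    exact Subtype.ext h1
  · rw [eq_top_iff]
    intro u _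
    have h1 : (u : NN g k) ∈ U.map W.incl := by
      rw [h]
      exact u.2
    rw [LieSubmodule.mem_map] at h1
    obtain ⟨v, hv, hvu⟩ := h1
    have : v = u := Subtype.ext hvu
    rwa [← this]

/-- a commuting linearly independent family gives a nonzero element -/
theorem NN_ne_bot {k : ℕ} (v : Fin k → g) (hv : LinearIndependent ℂ v)
    (hc : ∀ i j, ⁅v i, v j⁆ = 0) : NN g k ≠ ⊥ := by
  intro hbot
  have h1 := ιMulti_mem_NN k v hc
  rw [hbot, LieSubmodule.mem_bot] at h1
  exact ιMulti_ne_zero k v hv h1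

/-- the same for an abelian subalgebra -/
theorem NN_ne_bot_of_abelian (a : LieSubalgebra ℂ g) [IsLieAbelian a] :
    NN g (Module.finrank ℂ a) ≠ ⊥ := by
  have : FiniteDimensional ℂ a := inferInstanceAs (FiniteDimensional ℂ a.toSubmodule)
  let b := Module.finBasis ℂ a
  refine NN_ne_bot (fun i => (b i : g)) ?_ ?_
  · exact b.linearIndependent.map' a.toSubmodule.subtype (Submodule.ker_subtype _)
  · intro i j
    have h1 : ⁅b i, b j⁆ = 0 := trivial_lie_zero a a (b i) (b j)
    have h2 := congrArg (fun z : a => (z : g)) h1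
    exact h2

end Pool.Agent.KS6_37.PhiRP
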