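import Pool.Agent.KS6_37.Phi.Main
import Pool.Agent.KS6_37.Phi.Gen2
import Pool.Agent.KS6_37.Phi.HBlock

/-!
# Nondegeneracy and invariance of the pairing, and the transpose of `Φ`
-/

set_option autoImplicit false
set_option linter.unusedSectionVars false

open scoped TensorProduct

noncomputable section

namespace Pool.Agent.KS6_37.Phi

open Pool.Agent.KS6_37.PhiRP Pool.Agent.KS6_37.Phi.Core

section Euler

variable {g : Type} [AddCommGroup g] [Module ℂ g] [FiniteDimensional ℂ g]

theorem euler_ιMulti (k : ℕ) : ∀ v : Fin k → g,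
    derivLin (LinearMap.id : g →ₗ[ℂ] g) (ExteriorAlgebra.ιMulti ℂ k v) =
      (k : ℂ) • ExteriorAlgebra.ιMulti ℂ k v := by
  induction k with
  | zero =>
    intro v
    rw [ExteriorAlgebra.ιMulti_zero_apply, deriv_one]
    simp
  | succ k ih =>
    intro v
    rw [ExteriorAlgebra.ιMulti_succ_apply, deriv_ι_mul, ih]
    simp only [LinearMap.id_coe, id_eq, Nat.cast_add, Nat.cast_one, add_smul, one_smul,
      mul_smul_comm]
    abel

theorem euler_mem {k : ℕ} {w : ExteriorAlgebra ℂ g} (hw : w ∈ ⋀[ℂ]^k g) :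
    derivLin (LinearMap.id : g →ₗ[ℂ] g) w = (k : ℂ) • w := by
  rw [← ExteriorAlgebra.ιMulti_span_fixedDegree] at hw
  induction hw using Submodule.span_induction with
  | mem x hx =>
    obtain ⟨v, rfl⟩ := hx
    exact euler_ιMulti k v
  | zero => simp
  | add x y _ _ hx hy => rw [map_add, hx, hy, smul_add]
  | smul c x _ hx => rw [map_smul, hx, smul_comm]

theorem euler_proj (k : ℕ) (w : ExteriorAlgebra ℂ g) :
    GradedAlgebra.proj (fun i : ℕ => ⋀[ℂ]^i g) k (derivLin (LinearMap.id : g →ₗ[ℂ] g) w) =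
      (k : ℂ) • GradedAlgebra.proj (fun i : ℕ => ⋀[ℂ]^i g) k w := by
  induction w using DirectSum.Decomposition.inductionOn (fun i : ℕ => ⋀[ℂ]^i g) with
  | zero => simp
  | @homogeneous i m =>
    rw [euler_mem m.2, map_smul, GradedAlgebra.proj_apply]
    by_cases h : i = k
    · subst h; rfl
    · rw [DirectSum.decompose_of_mem_ne (fun i : ℕ => ⋀[ℂ]^i g) m.2 h, smul_zero, smul_zero]
  | add a b ha hb => simp only [map_add, ha, hb, smul_add]

/-- an exterior vector killed by all contractions is constant -/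
theorem eq_algebraMap_of_ct (w : ExteriorAlgebra ℂ g) (h : ∀ d : Module.Dual ℂ g, ct d w = 0) :
    w = algebraMap ℂ (ExteriorAlgebra ℂ g) (eps w) := by
  classical
  have h1 : derivLin (LinearMap.id : g →ₗ[ℂ] g) w = 0 := by
    rw [deriv_apply]
    exact Finset.sum_eq_zero fun i _ => by
      have := h ((Module.finBasis ℂ g).coord i)
      change _ * ct _ w = 0
      rw [this, mul_zero]
  have h2 : ∀ k : ℕ, k ≠ 0 → GradedAlgebra.proj (fun i : ℕ => ⋀[ℂ]^i g) k w = 0 := by
    intro k hk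
    have h3 := euler_proj k w
    rw [h1, map_zero] at h3
    rcases smul_eq_zero.1 h3.symm with h4 | h4
    · exact absurd (Nat.cast_eq_zero.1 h4) hk
    · exact h4
  have h3 : w ∈ ⋀[ℂ]^0 g := by
    rw [← DirectSum.sum_support_decompose (fun i : ℕ => ⋀[ℂ]^i g) w]
    refine Submodule.sum_mem _ fun k _ => ?_
    by_cases hk : k = 0
    · subst hk; exact SetLike.coe_mem _
    · have := h2 k hk
      rw [GradedAlgebra.proj_apply] at this
      rw [this]; exact Submodule.zero_mem _
  change w ∈ (LinearMap.range (ExteriorAlgebra.ι ℂ : g →ₗ[ℂ] ExteriorAlgebra ℂ g)) ^ 0 at h3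
  rw [pow_zero, Submodule.mem_one] at h3
  obtain ⟨r, rfl⟩ := h3
  rw [AlgHom.commutes]
  rfl

end Euler

section filt

variable {g : Type} [AddCommGroup g] [Module ℂ g]

/-- the span of the products of less than `n` vectors -/
def fe (g : Type) [AddCommGroup g] [Module ℂ g] (n : ℕ) : Submodule ℂ (ExteriorAlgebra ℂ g) :=
  Submodule.span ℂ {p | ∃ l : List g, l.length < n ∧
    (l.map fun h => ExteriorAlgebra.ι ℂ h).prod = p}

theorem fe_mono {m n : ℕ} (h : m ≤ n) : fe g m ≤ fe g n := by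
  apply Submodule.span_mono
  rintro _ ⟨l, hl, rfl⟩
  exact ⟨l, by omega, rfl⟩

theorem ι_mul_fe (x : g) {n : ℕ} {p : ExteriorAlgebra ℂ g} (hp : p ∈ fe g n) :
    ExteriorAlgebra.ι ℂ x * p ∈ fe g (n + 1) := by
  refine Submodule.span_induction (p := fun p _ => ExteriorAlgebra.ι ℂ x * p ∈ fe g (n + 1))
    ?_ ?_ ?_ ?_ hp
  · rintro _ ⟨l, hl, rfl⟩
    exact Submodule.subset_span ⟨x :: l, by simp; omega, by simp⟩
  · simp
  · intro a b _ _ ha hb; rw [mul_add]; exact Submodule.add_mem _ ha hb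
  · intro c a _ ha; rw [mul_smul_comm]; exact Submodule.smul_mem _ _ ha

theorem mem_fe (w : ExteriorAlgebra ℂ g) : ∃ n, w ∈ fe g n := by
  induction w using left_ind with
  | h1 r =>
    refine ⟨1, ?_⟩
    rw [Algebra.algebraMap_eq_smul_one]
    exact Submodule.smul_mem _ _ (Submodule.subset_span ⟨[], by simp, by simp⟩)
  | h2 x y hx hy =>
    obtain ⟨m, hm⟩ := hx
    obtain ⟨n, hn⟩ := hy
    exact ⟨max m n, Submodule.add_mem _ (fe_mono (le_max_left _ _) hm)
      (fe_mono (le_max_right _ _) hn)⟩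
  | h3 m x hx =>
    obtain ⟨n, hn⟩ := hx
    exact ⟨n + 1, ι_mul_fe m hn⟩

theorem ct_list (d : Module.Dual ℂ g) (l : List g) :
    ct d (l.map fun h => ExteriorAlgebra.ι ℂ h).prod ∈ fe g l.length := by
  induction l with
  | nil =>
    have : ct d (1 : ExteriorAlgebra ℂ g) = 0 := by
      rw [← map_one (algebraMap ℂ (ExteriorAlgebra ℂ g)), ct_algebraMap]
    simp [this]
  | cons x l ih =>
    rw [List.map_cons, List.prod_cons, ct_ι_mul]
    refine Submodule.sub_mem _ ?_ (ι_mul_fe x ih)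
    exact Submodule.smul_mem _ _ (Submodule.subset_span ⟨l, by simp, rfl⟩)

theorem ct_fe (d : Module.Dual ℂ g) {n : ℕ} {p : ExteriorAlgebra ℂ g} (hp : p ∈ fe g n) :
    ct d p ∈ fe g (n - 1) := by
  refine Submodule.span_induction (p := fun p _ => ct d p ∈ fe g (n - 1)) ?_ ?_ ?_ ?_ hp
  · rintro _ ⟨l, hl, rfl⟩
    exact fe_mono (by omega) (ct_list d l)
  · simp
  · intro a b _ _ ha hb; rw [map_add]; exact Submodule.add_mem _ ha hb
  · intro c a _ ha; rw [map_smul]; exact Submodule.smul_mem _ _ ha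

end filt

section nondeg

variable {g : Type} [LieRing g] [LieAlgebra ℂ g] [FiniteDimensional ℂ g]
variable [LieAlgebra.IsKilling ℂ g]

theorem exists_kill (d : Module.Dual ℂ g) : ∃ x : g, killingForm ℂ g x = d := by
  have h := LieAlgebra.IsKilling.killingForm_nondegenerate ℂ g
  refine ⟨(LinearMap.BilinForm.toDual (killingForm ℂ g) h).symm d, ?_⟩
  exact (LinearMap.BilinForm.toDual (killingForm ℂ g) h).apply_symm_apply d

/-- the pairing is nondegenerate -/
theorem pair_nondeg : ∀ w : ExteriorAlgebra ℂ g,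
    (∀ u, pairLin (killingForm ℂ g) w u = 0) → w = 0 := by
  have key : ∀ n, ∀ w ∈ fe g n, (∀ u, pairLin (killingForm ℂ g) w u = 0) → w = 0 := by
    intro n
    induction n with
    | zero =>
      intro w hw _
      have h4 : fe g 0 = ⊥ := by
        rw [fe, Submodule.span_eq_bot]
        rintro _ ⟨l, hl, rfl⟩
        omega
      rwa [h4, Submodule.mem_bot] at hw
    | succ n ih =>
      intro w hw h
      have h1 : ∀ d : Module.Dual ℂ g, ct d w = 0 := by
        intro d
        obtain ⟨x, rfl⟩ := exists_kill d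
        have h5 : ct (killingForm ℂ g x) w ∈ fe g n :=
          fe_mono (show n + 1 - 1 ≤ n by omega) (ct_fe (killingForm ℂ g x) hw)
        have h6 : ∀ u, pairLin (killingForm ℂ g) (ct (killingForm ℂ g x) w) u = 0 := by
          intro u
          rw [← pair_mul (killingForm ℂ g) kill_symm x w u]
          exact h _
        exact ih _ h5 h6
      rw [eq_algebraMap_of_ct w h1]
      have h2 := h 1
      rw [pairing_one_right] at h2
      rw [h2, map_zero]
  intro w h
  obtain ⟨n, hn⟩ := mem_fe w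
  exact key n w hn h

theorem eps_lie (x : g) (u : ExteriorAlgebra ℂ g) : eps ⁅x, u⁆ = 0 := by
  induction u using left_ind with
  | h1 r => rw [lie_ext_def, deriv_algebraMap, map_zero]
  | h2 a b ha hb => rw [lie_add, map_add, ha, hb, add_zero]
  | h3 m v _ => rw [lie_ι_mul, map_add, eps_ι_mul, eps_ι_mul, add_zero]

theorem lie_ct (x y : g) (w : ExteriorAlgebra ℂ g) :
    ⁅x, ct (killingForm ℂ g y) w⁆ =
      ct (killingForm ℂ g y) ⁅x, w⁆ + ct (killingForm ℂ g ⁅x, y⁆) w := by
  rw [lie_ext_def, lie_ext_def]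
  have h2 := ct_deriv (killingForm ℂ g y) (LieAlgebra.ad ℂ g x : g →ₗ[ℂ] g) w
  have h3 : (killingForm ℂ g y : Module.Dual ℂ g) ∘ₗ (LieAlgebra.ad ℂ g x : g →ₗ[ℂ] g) =
      -(killingForm ℂ g ⁅x, y⁆ : Module.Dual ℂ g) := by
    refine LinearMap.ext fun v => ?_
    rw [LinearMap.comp_apply, LieAlgebra.ad_apply, ← kill_inv, ← lie_skew x y, map_neg]
    simp
  rw [h3] at h2
  have h4 : ct (-(killingForm ℂ g ⁅x, y⁆ : Module.Dual ℂ g)) w =
      -ct (killingForm ℂ g ⁅x, y⁆) w := by simp [ct]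
  rw [h4] at h2
  rw [h2]
  abel

/-- the pairing is invariant -/
theorem pair_lie (x : g) (w u : ExteriorAlgebra ℂ g) :
    pairLin (killingForm ℂ g) ⁅x, w⁆ u = -pairLin (killingForm ℂ g) w ⁅x, u⁆ := by
  induction w using left_ind generalizing u with
  | h1 r =>
    have h1 : ⁅x, algebraMap ℂ (ExteriorAlgebra ℂ g) r⁆ = 0 := by
      rw [lie_ext_def, deriv_algebraMap]
    rw [h1, map_zero, LinearMap.zero_apply, Algebra.algebraMap_eq_smul_one, map_smul,
      LinearMap.smul_apply, pairing_one, eps_lie, smul_zero, neg_zero]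
  | h2 a b ha hb =>
    rw [lie_add, map_add, map_add, LinearMap.add_apply, LinearMap.add_apply, ha, hb]
    ring
  | h3 m v hv =>
    rw [lie_ι_mul, map_add, LinearMap.add_apply, pairing_ι_mul, pairing_ι_mul, pairing_ι_mul, hv,
      lie_ct, map_add]
    ring

end nondeg

end Pool.Agent.KS6_37.Phi
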