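import Pool.Agent.KS6_37.Phi.Blocks

/-!
# Root systems all of whose components have type `A1` or `A2`
-/

set_option autoImplicit false
set_option linter.unusedSectionVars false

noncomputable section

namespace Pool.Agent.KS6_37.Phi

open LieAlgebra LieAlgebra.IsKilling LieModule

variable {g : Type} [LieRing g] [LieAlgebra ℂ g] [FiniteDimensional ℂ g]
variable [LieAlgebra.IsKilling ℂ g]
variable {H : LieSubalgebra ℂ g} [H.IsCartanSubalgebra]

/-- the integer `⟨α, β^∨⟩` -/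
def pz (α β : Weight ℂ H g) : ℤ := chainBotCoeff β α - chainTopCoeff β α

theorem pz_cast (α β : Weight ℂ H g) : α (coroot β) = (pz α β : ℂ) := apply_coroot_eq_cast β α

theorem pz_eq {α β : Weight ℂ H g} {n : ℤ} (h : α (coroot β) = n) : pz α β = n := by
  rw [pz_cast] at h
  exact_mod_cast h

theorem pz_self {α : Weight ℂ H g} (hα : α.IsNonZero) : pz α α = 2 := by
  refine pz_eq ?_
  rw [root_apply_coroot hα]; norm_num

theorem pz_neg_left (α β : Weight ℂ H g) : pz (-α) β = -pz α β := by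
  refine pz_eq ?_
  have : (-α) (coroot β) = -(α (coroot β)) := rfl
  rw [this, pz_cast]; push_cast; rfl

theorem pz_neg_right (α β : Weight ℂ H g) : pz α (-β) = -pz α β := by
  refine pz_eq ?_
  rw [coroot_neg, map_neg, pz_cast]; push_cast; rfl

theorem pz_isZero {α : Weight ℂ H g} (hα : α.IsZero) (β : Weight ℂ H g) : pz α β = 0 := by
  refine pz_eq ?_
  have : (α : H → ℂ) = 0 := hα
  rw [this]; simp

theorem pz_mem {α β : Weight ℂ H g} (hα : α.IsNonZero) (hβ : β.IsNonZero) (h1 : α ≠ β)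
    (h2 : α ≠ -β) : (pz α β, pz β α) ∈ ({(0, 0), (1, 1), (-1, -1), (1, 2), (2, 1), (-1, -2),
      (-2, -1), (1, 3), (3, 1), (-1, -3), (-3, -1)} : Set (ℤ × ℤ)) := by
  have hi : α ∈ H.root := by simpa [LieSubalgebra.root] using hα
  have hj : β ∈ H.root := by simpa [LieSubalgebra.root] using hβ
  have h := (rootSystem H).pairingIn_pairingIn_mem_set_of_isCrystal_of_isRed' ⟨α, hi⟩ ⟨β, hj⟩ ?_ ?_
  · have e : ∀ (δ η : Weight ℂ H g) (hi : δ ∈ H.root) (hj : η ∈ H.root),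
        (rootSystem H).pairingIn ℤ ⟨δ, hi⟩ ⟨η, hj⟩ = pz δ η := by
      intro δ η hi hj
      have h3 := (rootSystem H).algebraMap_pairingIn ℤ ⟨δ, hi⟩ ⟨η, hj⟩
      rw [rootSystem_pairing_apply, pz_cast] at h3
      have h4 : (((rootSystem H).pairingIn ℤ ⟨δ, hi⟩ ⟨η, hj⟩ : ℤ) : ℂ) = (pz δ η : ℂ) := h3
      exact_mod_cast h4
    rw [e, e] at h
    exact h
  · intro h3
    apply h1
    ext x
    exact LinearMap.congr_fun h3 x
  · intro h3
    apply h2
    ext x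
    exact LinearMap.congr_fun h3 x

theorem pz_zero_symm {α β : Weight ℂ H g} (hα : α.IsNonZero) (hβ : β.IsNonZero)
    (h : pz α β = 0) : pz β α = 0 := by
  by_cases h1 : α = β
  · subst h1; exact h
  by_cases h2 : α = -β
  · subst h2; rw [pz_neg_left, pz_self hβ] at h; omega
  have := pz_mem hα hβ h1 h2
  simp only [Set.mem_insert_iff, Set.mem_singleton_iff, Prod.mk.injEq] at this
  omega

theorem pz_le (W : Weight ℂ H g) {β : Weight ℂ H g} (hβ : β.IsNonZero) :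
    -3 ≤ pz W β ∧ pz W β ≤ 3 := by
  by_cases hW : W.IsZero
  · rw [pz_isZero hW]; omega
  by_cases h1 : W = β
  · subst h1; rw [pz_self hβ]; omega
  by_cases h2 : W = -β
  · subst h2; rw [pz_neg_left, pz_self hβ]; omega
  have := pz_mem hW hβ h1 h2
  simp only [Set.mem_insert_iff, Set.mem_singleton_iff, Prod.mk.injEq] at this
  omega

variable (H) in
/-- the root system is simply laced -/
def C1 : Prop := ∀ α β : Weight ℂ H g, α.IsNonZero → β.IsNonZero → α ≠ β → α ≠ -β →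
  -1 ≤ pz α β ∧ pz α β ≤ 1

variable (H) in
/-- there is no subsystem of type `A3` -/
def C2 : Prop := ∀ α β γ : Weight ℂ H g, α.IsNonZero → β.IsNonZero → γ.IsNonZero →
  ¬ (pz α β = -1 ∧ pz β γ = -1 ∧ pz α γ = 0)

theorem C1.le (h : C1 H) (W : Weight ℂ H g) {β : Weight ℂ H g} (hβ : β.IsNonZero) :
    -2 ≤ pz W β ∧ pz W β ≤ 2 := by
  by_cases hW : W.IsZero
  · rw [pz_isZero hW]; omega
  by_cases h1 : W = β
  · subst h1; rw [pz_self hβ]; omega
  by_cases h2 : W = -β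
  · subst h2; rw [pz_neg_left, pz_self hβ]; omega
  have := h W β hW hβ h1 h2
  omega

theorem C1.eq (h : C1 H) {W : Weight ℂ H g} {β : Weight ℂ H g} (hβ : β.IsNonZero)
    (h2 : pz W β = 2) : W = β := by
  by_contra h1
  by_cases hW : W.IsZero
  · rw [pz_isZero hW] at h2; omega
  by_cases h3 : W = -β
  · subst h3; rw [pz_neg_left, pz_self hβ] at h2; omega
  have := h W β hW hβ h1 h3
  omega

theorem C1.symm (h : C1 H) {α β : Weight ℂ H g} (hα : α.IsNonZero) (hβ : β.IsNonZero)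
    (h1 : pz α β = -1) : pz β α = -1 := by
  have h2 : α ≠ β := by rintro rfl; rw [pz_self hα] at h1; omega
  have h3 : α ≠ -β := by rintro rfl; rw [pz_neg_left, pz_self hβ] at h1; omega
  have h4 := pz_mem hα hβ h2 h3
  have h5 : β ≠ -α := fun h => h3 (by rw [h, neg_neg])
  have h6 := h β α hβ hα h2.symm h5
  simp only [Set.mem_insert_iff, Set.mem_singleton_iff, Prod.mk.injEq] at h4
  omega

/-- no root space when some value is too large -/
theorem bot_of_big {χ : H → ℂ} {β : Weight ℂ H g} (hβ : β.IsNonZero) (n : ℤ)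
    (h : χ (coroot β) = n) (hn : n < -3 ∨ 3 < n) : rootSpace H χ = ⊥ := by
  by_contra hne
  have h1 := pz_le (⟨χ, hne⟩ : Weight ℂ H g) hβ
  have h2 : pz (⟨χ, hne⟩ : Weight ℂ H g) β = n := pz_eq h
  omega

theorem C1.bot (hC : C1 H) {χ : H → ℂ} {β : Weight ℂ H g} (hβ : β.IsNonZero) (n : ℤ)
    (h : χ (coroot β) = n) (hn : n < -2 ∨ 2 < n) : rootSpace H χ = ⊥ := by
  by_contra hne
  have h1 := hC.le (⟨χ, hne⟩ : Weight ℂ H g) hβ
  have h2 : pz (⟨χ, hne⟩ : Weight ℂ H g) β = n := pz_eq h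
  omega

theorem C1.bot2 (hC : C1 H) {χ : H → ℂ} {β : Weight ℂ H g} (hβ : β.IsNonZero)
    (h : χ (coroot β) = 2) (hn : χ ≠ β) : rootSpace H χ = ⊥ := by
  by_contra hne
  have h2 : pz (⟨χ, hne⟩ : Weight ℂ H g) β = 2 := pz_eq (h.trans (by norm_num))
  have h3 := hC.eq hβ h2
  apply hn
  rw [← h3]
  rfl

/-- the sum of two roots at an angle of 120 degrees -/
def sm (α β : Weight ℂ H g) : Weight ℂ H g := reflectRoot β α

theorem sm_coe {α β : Weight ℂ H g} (h : pz α β = -1) : (sm α β : H → ℂ) = α + β := by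
  have h1 : (sm α β : H → ℂ) = (α : H → ℂ) - α (coroot β) • (β : H → ℂ) := rfl
  rw [h1, pz_cast, h]
  ext x
  simp

theorem isA2_sm (hC : C1 H) {α β : Weight ℂ H g} (hα : α.IsNonZero) (hβ : β.IsNonZero)
    (h : pz α β = -1) : IsA2 α β (sm α β) := by
  have h' := hC.symm hα hβ h
  have a1 := root_apply_coroot hα
  have a2 := root_apply_coroot hβ
  have e1 : α (coroot β) = -1 := by rw [pz_cast, h]; norm_num
  have e2 : β (coroot α) = -1 := by rw [pz_cast, h']; norm_num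
  have hs := sm_coe h
  refine ⟨hα, hβ, reflectRoot_isNonZero _ _ hα, hs, e1, e2, ?_, ?_, ?_, ?_, ?_, ?_⟩
  · refine hC.bot hα 3 ?_ (by omega)
    rw [Pi.add_apply, Pi.neg_apply, a1, e2]; norm_num
  · refine hC.bot hβ 3 ?_ (by omega)
    rw [Pi.add_apply, Pi.neg_apply, a2, e1]; norm_num
  · refine hC.bot hα 3 ?_ (by omega)
    rw [hs, Pi.add_apply, Pi.add_apply, a1, e2]; norm_num
  · refine hC.bot hβ 3 ?_ (by omega)
    rw [hs, Pi.add_apply, Pi.add_apply, a2, e1]; norm_num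
  · refine hC.bot hα (-3) ?_ (by omega)
    rw [hs, Pi.add_apply, Pi.neg_apply, Pi.neg_apply, Pi.add_apply, a1, e2]; norm_num
  · refine hC.bot hβ (-3) ?_ (by omega)
    rw [hs, Pi.add_apply, Pi.neg_apply, Pi.neg_apply, Pi.add_apply, a2, e1]; norm_num

theorem perp_of_C (hC : C1 H) (hC2 : C2 H) {α β : Weight ℂ H g} (hα : α.IsNonZero)
    (hβ : β.IsNonZero) (h : pz α β = -1) (δ : Weight ℂ H g) (hδ : δ.IsNonZero)
    (h1 : δ ≠ α ∧ δ ≠ -α) (h2 : δ ≠ β ∧ δ ≠ -β) (h3 : δ ≠ sm α β ∧ δ ≠ -(sm α β)) :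
    pz δ α = 0 ∧ pz δ β = 0 := by
  have A := isA2_sm hC hα hβ h
  have h' := hC.symm hα hβ h
  have b1 := hC δ α hδ hα h1.1 h1.2
  have b2 := hC δ β hδ hβ h2.1 h2.2
  have b3 := hC δ (sm α β) hδ A.hγ h3.1 h3.2
  have s1 : ∀ η : Weight ℂ H g, pz η (sm α β) = pz η α + pz η β := by
    intro η
    refine pz_eq ?_
    rw [A.coroot, map_add, pz_cast, pz_cast]; push_cast; rfl
  have s2 := s1 δ
  have s3 := s1 α
  rw [pz_self hα, h] at s3
  have c1 := hC2 δ α β hδ hα hβ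
  have c2 := hC2 (-δ) α β hδ.neg hα hβ
  have c3 := hC2 δ β α hδ hβ hα
  have c4 := hC2 (-δ) β α hδ.neg hβ hα
  have c5 := hC2 δ α (-(sm α β)) hδ hα A.hγ.neg
  have c6 := hC2 (-δ) α (-(sm α β)) hδ.neg hα A.hγ.neg
  simp only [pz_neg_left, pz_neg_right] at c1 c2 c3 c4 c5 c6
  omega

end Pool.Agent.KS6_37.Phi

end

/-!
# Decomposition into blocks
-/

set_option autoImplicit false
set_option linter.unusedSectionVars false

noncomputable section

namespace Pool.Agent.KS6_37.Phi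

open LieAlgebra LieAlgebra.IsKilling LieModule Pool.Agent.KS6_37.Phi.Core

variable {g : Type} [LieRing g] [LieAlgebra ℂ g] [FiniteDimensional ℂ g]
variable [LieAlgebra.IsKilling ℂ g]
variable {H : LieSubalgebra ℂ g} [H.IsCartanSubalgebra]

/-- the pairs of roots and coroots for a set of roots -/
def prs (S : Set (Weight ℂ H g)) : Set (Module.Dual ℂ H × H) :=
  {r | ∃ δ ∈ S, r = (δ.toLinear, coroot δ)}

theorem prs_union (S T : Set (Weight ℂ H g)) : prs (S ∪ T) = prs S ∪ prs T := by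
  ext r
  constructor
  · rintro ⟨δ, hδ | hδ, rfl⟩
    · exact Or.inl ⟨δ, hδ, rfl⟩
    · exact Or.inr ⟨δ, hδ, rfl⟩
  · rintro (⟨δ, hδ, rfl⟩ | ⟨δ, hδ, rfl⟩)
    · exact ⟨δ, Or.inl hδ, rfl⟩
    · exact ⟨δ, Or.inr hδ, rfl⟩

theorem coroot_neg' (α : Weight ℂ H g) : coroot (-α) = -coroot α := coroot_neg α

/-- `±α` -/
def F1 (α : Weight ℂ H g) : Set (Weight ℂ H g) := {α, -α}

/-- `±α, ±β, ±γ` -/
def F2 (α β γ : Weight ℂ H g) : Set (Weight ℂ H g) := {α, -α, β, -β, γ, -γ}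

theorem prs_F1 (α : Weight ℂ H g) : prs (F1 α) = set1 α := by
  ext r
  constructor
  · rintro ⟨δ, (rfl | rfl), rfl⟩
    · exact Or.inl rfl
    · exact Or.inr (by rw [coroot_neg']; rfl)
  · rintro (rfl | rfl)
    · exact ⟨α, Or.inl rfl, rfl⟩
    · exact ⟨-α, Or.inr rfl, by rw [coroot_neg']; rfl⟩

theorem prs_F2 {α β γ : Weight ℂ H g} (A : IsA2 α β γ) : prs (F2 α β γ) = set2 α β := by
  have e3 : (γ.toLinear, coroot γ) = (α.toLinear + β.toLinear, coroot α + coroot β) := by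
    rw [A.lin, A.coroot]
  have e4 : ((-γ).toLinear, coroot (-γ)) =
      (-(α.toLinear + β.toLinear), -(coroot α + coroot β)) := by
    rw [coroot_neg', A.coroot, ← A.lin]; rfl
  have e1 : ((-α).toLinear, coroot (-α)) = (-α.toLinear, -coroot α) := by
    rw [coroot_neg']; rfl
  have e2 : ((-β).toLinear, coroot (-β)) = (-β.toLinear, -coroot β) := by
    rw [coroot_neg']; rfl
  ext r
  constructor
  · rintro ⟨δ, (rfl | rfl | rfl | rfl | rfl | rfl), rfl⟩
    · exact Or.inl rfl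
    · exact Or.inr (Or.inl e1)
    · exact Or.inr (Or.inr (Or.inl rfl))
    · exact Or.inr (Or.inr (Or.inr (Or.inl e2)))
    · exact Or.inr (Or.inr (Or.inr (Or.inr (Or.inl e3))))
    · exact Or.inr (Or.inr (Or.inr (Or.inr (Or.inr e4))))
  · rintro (rfl | rfl | rfl | rfl | rfl | rfl)
    · exact ⟨α, by simp [F2], rfl⟩
    · exact ⟨-α, by simp [F2], e1.symm⟩
    · exact ⟨β, by simp [F2], rfl⟩
    · exact ⟨-β, by simp [F2], e2.symm⟩
    · exact ⟨γ, by simp [F2], e3.symm⟩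
    · exact ⟨-γ, by simp [F2], e4.symm⟩

/-- commutation of `bs R` and `bs S` -/
theorem bs_comm {R S : Set (Module.Dual ℂ H × H)} (hO : Orth R S)
    (hw : ∀ r ∈ R, ∀ s ∈ S, ∀ x ∈ wv (g := g) r.1, ∀ y ∈ wv (g := g) s.1, ⁅x, y⁆ = 0) :
    ∀ x ∈ bs (g := g) R, ∀ y ∈ bs (g := g) S, ⁅x, y⁆ = 0 := by
  have key : ∀ x : g, (∀ s ∈ S, ⁅x, (s.2 : g)⁆ = 0) →
      (∀ s ∈ S, ∀ y ∈ wv (g := g) s.1, ⁅x, y⁆ = 0) → ∀ y ∈ bs (g := g) S, ⁅x, y⁆ = 0 := by
    intro x h1 h2 y hy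
    have h3 : bs (g := g) S ≤ LinearMap.ker (LieAlgebra.ad ℂ g x) :=
      bs_le (fun s hs => h1 s hs) (fun s hs y hy => h2 s hs y hy)
    exact h3 hy
  let W : Submodule ℂ g :=
    { carrier := {x | ∀ y ∈ bs (g := g) S, ⁅x, y⁆ = 0}
      zero_mem' := fun y _ => zero_lie y
      add_mem' := fun {a b} ha hb y hy => by rw [add_lie, ha y hy, hb y hy, add_zero]
      smul_mem' := fun c a ha y hy => by rw [smul_lie, ha y hy, smul_zero] }
  have h4 : bs (g := g) R ≤ W := by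
    refine bs_le ?_ ?_
    · intro r hr
      refine key _ (fun s _ => lie_cartan _ _) fun s hs y hy => ?_
      have h5 : ⁅(r.2 : g), y⁆ = s.1 r.2 • y := hy r.2
      rw [h5, (hO r hr s hs).2, zero_smul]
    · intro r hr x hx
      refine key x (fun s hs => ?_) fun s hs y hy => hw r hr s hs x hx y hy
      have h5 : ⁅(s.2 : g), x⁆ = r.1 s.2 • x := hx s.2
      rw [← lie_skew, h5, (hO r hr s hs).1, zero_smul, neg_zero]
  exact fun x hx => h4 hx

theorem lie_zero_of_pz (hC : C1 H) {α β : Weight ℂ H g} (hα : α.IsNonZero) (hβ : β.IsNonZero)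
    (h : pz α β = 0) {x y : g} (hx : x ∈ wv (g := g) α.toLinear)
    (hy : y ∈ wv (g := g) β.toLinear) : ⁅x, y⁆ = 0 := by
  rw [wv_eq] at hx hy
  refine lie_zero_of_bot hx hy (hC.bot2 hβ ?_ ?_)
  · change α (coroot β) + β (coroot β) = 2
    rw [pz_cast, h, root_apply_coroot hβ]; norm_num
  · intro h1
    apply hα
    have h2 : (α : H → ℂ) + β = β := h1
    exact add_eq_right.1 h2

theorem orth_prs {S T : Set (Weight ℂ H g)} (hS : ∀ δ ∈ S, δ.IsNonZero)
    (hT : ∀ δ ∈ T, δ.IsNonZero) (h : ∀ δ ∈ S, ∀ η ∈ T, pz δ η = 0) :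
    Orth (prs S) (prs T) := by
  rintro _ ⟨δ, hδ, rfl⟩ _ ⟨η, hη, rfl⟩
  constructor
  · change δ (coroot η) = 0
    rw [pz_cast, h δ hδ η hη]; norm_num
  · change η (coroot δ) = 0
    rw [pz_cast, pz_zero_symm (hS δ hδ) (hT η hη) (h δ hδ η hη)]; norm_num

theorem comm_prs (hC : C1 H) {S T : Set (Weight ℂ H g)} (hS : ∀ δ ∈ S, δ.IsNonZero)
    (hT : ∀ δ ∈ T, δ.IsNonZero) (h : ∀ δ ∈ S, ∀ η ∈ T, pz δ η = 0) :
    ∀ x ∈ bs (g := g) (prs S), ∀ y ∈ bs (g := g) (prs T), ⁅x, y⁆ = 0 := by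
  refine bs_comm (orth_prs hS hT h) ?_
  rintro _ ⟨δ, hδ, rfl⟩ _ ⟨η, hη, rfl⟩ x hx y hy
  exact lie_zero_of_pz hC (hS δ hδ) (hT η hη) (h δ hδ η hη) hx hy

theorem pz_sm_right (hC : C1 H) {α β : Weight ℂ H g} (hα : α.IsNonZero) (hβ : β.IsNonZero)
    (h : pz α β = -1) (η : Weight ℂ H g) : pz η (sm α β) = pz η α + pz η β := by
  refine pz_eq ?_
  rw [(isA2_sm hC hα hβ h).coroot, map_add, pz_cast, pz_cast]; push_cast; rfl

theorem pz_sm_left {α β : Weight ℂ H g} (h : pz α β = -1) (η : Weight ℂ H g) :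
    pz (sm α β) η = pz α η + pz β η := by
  refine pz_eq ?_
  rw [sm_coe h, Pi.add_apply, pz_cast, pz_cast]; push_cast; rfl

theorem F2_nonzero {α β γ : Weight ℂ H g} (A : IsA2 α β γ) : ∀ δ ∈ F2 α β γ, δ.IsNonZero := by
  rintro δ (rfl | rfl | rfl | rfl | rfl | rfl)
  · exact A.hα
  · exact A.hα.neg
  · exact A.hβ
  · exact A.hβ.neg
  · exact A.hγ
  · exact A.hγ.neg

theorem F1_nonzero {α : Weight ℂ H g} (hα : α.IsNonZero) : ∀ δ ∈ F1 α, δ.IsNonZero := by
  rintro δ (rfl | rfl)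
  · exact hα
  · exact hα.neg

/-- a set of roots which contains a root non-orthogonal to `α, β` -/
theorem F2_perp (hC : C1 H) (hC2 : C2 H) {α β : Weight ℂ H g} (hα : α.IsNonZero)
    (hβ : β.IsNonZero) (h : pz α β = -1) {δ : Weight ℂ H g} (hδ : δ.IsNonZero)
    (hF : δ ∉ F2 α β (sm α β)) : ∀ η ∈ F2 α β (sm α β), pz δ η = 0 := by
  have h0 : (δ ≠ α ∧ δ ≠ -α) ∧ (δ ≠ β ∧ δ ≠ -β) ∧ (δ ≠ sm α β ∧ δ ≠ -(sm α β)) := by
    refine ⟨⟨?_, ?_⟩, ⟨?_, ?_⟩, ⟨?_, ?_⟩⟩ <;> rintro rfl <;> apply hF <;> simp [F2]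
  obtain ⟨h1, h2⟩ := perp_of_C hC hC2 hα hβ h δ hδ h0.1 h0.2.1 h0.2.2
  rintro η (rfl | rfl | rfl | rfl | rfl | rfl)
  · exact h1
  · rw [pz_neg_right, h1]; rfl
  · exact h2
  · rw [pz_neg_right, h2]; rfl
  · rw [pz_sm_right hC hα hβ h, h1, h2]; rfl
  · rw [pz_neg_right, pz_sm_right hC hα hβ h, h1, h2]; rfl

theorem GB_F2 (hC : C1 H) (hC2 : C2 H) {α β : Weight ℂ H g} (hα : α.IsNonZero)
    (hβ : β.IsNonZero) (h : pz α β = -1) :
    GB (prs (F2 α β (sm α β))) (harA2 (coroot α) (coroot β)) := by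
  have A := isA2_sm hC hα hβ h
  rw [prs_F2 A]
  refine GB.a2 A fun δ hδ h1 h2 h3 => ?_
  obtain ⟨h4, h5⟩ := perp_of_C hC hC2 hα hβ h δ hδ h1 h2 h3
  rw [pz_cast, pz_cast, h4, h5]
  simp

theorem F1_perp {α : Weight ℂ H g} (h0 : ∀ β : Weight ℂ H g, β.IsNonZero → β ∉ F1 α → pz β α = 0)
    {δ : Weight ℂ H g} (hδ : δ.IsNonZero) (hF : δ ∉ F1 α) : ∀ η ∈ F1 α, pz δ η = 0 := by
  rintro η (rfl | rfl)
  · exact h0 δ hδ hF
  · rw [pz_neg_right, h0 δ hδ hF]; rfl

theorem GB_F1 {α : Weight ℂ H g} (hα : α.IsNonZero)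
    (h0 : ∀ β : Weight ℂ H g, β.IsNonZero → β ∉ F1 α → pz β α = 0) :
    GB (prs (F1 α)) {1, ιS (coroot α)} := by
  rw [prs_F1]
  refine GB.a1 hα fun δ hδ h1 h2 => ?_
  rw [pz_cast, h0 δ hδ (by rintro (h | h); exacts [h1 h, h2 h])]
  norm_num

/-- every set of roots orthogonal to its complement is a good block -/
theorem exists_GB (hC : C1 H) (hC2 : C2 H) : ∀ (n : ℕ) (S : Set (Weight ℂ H g)),
    S.ncard = n → (∀ δ ∈ S, δ.IsNonZero) →
    (∀ δ ∈ S, ∀ η : Weight ℂ H g, η.IsNonZero → η ∉ S → pz η δ = 0) → ∃ T, GB (prs S) T := by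
  intro n
  induction n using Nat.strong_induction_on with
  | _ n ih =>
    intro S hn hS hsat
    rcases S.eq_empty_or_nonempty with rfl | ⟨α, hαS⟩
    · refine ⟨{1}, ?_⟩
      have : prs (∅ : Set (Weight ℂ H g)) = ∅ := by
        ext r; simp [prs]
      rw [this]
      exact GB.empty
    have hα := hS α hαS
    have step : ∀ (F : Set (Weight ℂ H g)) (T : Set (SymmetricAlgebra ℂ H)), F ⊆ S → α ∈ F →
        (∀ δ : Weight ℂ H g, δ.IsNonZero → δ ∉ F → ∀ η ∈ F, pz δ η = 0) → GB (prs F) T →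
        ∃ T', GB (prs S) T' := by
      intro F T hFS hαF hF hG
      have hFS' : F ∪ (S \ F) = S := Set.union_sdiff_cancel hFS
      have hn1 : (S \ F).ncard < n := by
        rw [← hn]
        refine Set.ncard_lt_ncard ⟨Set.sdiff_subset, fun h => ?_⟩ (Set.toFinite S)
        exact (h hαS).2 hαF
      have hnz : ∀ δ ∈ S \ F, δ.IsNonZero := fun δ hδ => hS δ hδ.1
      have hFnz : ∀ δ ∈ F, δ.IsNonZero := fun δ hδ => hS δ (hFS hδ)
      obtain ⟨T', hT'⟩ := ih _ hn1 (S \ F) rfl hnz (by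
        intro δ hδ η hη hη'
        by_cases h1 : η ∈ S
        · have h2 : η ∈ F := by
            by_contra h3
            exact hη' ⟨h1, h3⟩
          exact pz_zero_symm (hS δ hδ.1) hη (hF δ (hS δ hδ.1) hδ.2 η h2)
        · exact hsat δ hδ.1 η hη h1)
      have h5 : ∀ δ ∈ F, ∀ η ∈ S \ F, pz δ η = 0 := fun δ hδ η hη =>
        pz_zero_symm (hnz η hη) (hFnz δ hδ) (hF η (hnz η hη) hη.2 δ hδ)
      rw [← hFS', prs_union]
      exact ⟨_, hG.union hT' (orth_prs hFnz hnz h5) (comm_prs hC hFnz hnz h5)⟩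
    by_cases hex : ∃ β ∈ S, β ∉ F1 α ∧ pz α β ≠ 0
    · obtain ⟨β₀, hβ₀S, hβ₀, hne⟩ := hex
      have hβ₀z := hS β₀ hβ₀S
      have h1 : α ≠ β₀ := fun h => hβ₀ (Or.inl h.symm)
      have h2 : α ≠ -β₀ := fun h => hβ₀ (Or.inr (by rw [h]; simp))
      obtain ⟨β, hβ, hpz⟩ : ∃ β : Weight ℂ H g, β.IsNonZero ∧ pz α β = -1 := by
        have h3 := hC α β₀ hα hβ₀z h1 h2
        rcases (by omega : pz α β₀ = -1 ∨ pz α β₀ = 1) with h4 | h4
        · exact ⟨β₀, hβ₀z, h4⟩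
        · exact ⟨-β₀, hβ₀z.neg, by rw [pz_neg_right, h4]⟩
      have A := isA2_sm hC hα hβ hpz
      have hsym := hC.symm hα hβ hpz
      refine step (F2 α β (sm α β)) _ ?_ (Or.inl rfl)
        (fun δ hδ hδF => F2_perp hC hC2 hα hβ hpz hδ hδF) (GB_F2 hC hC2 hα hβ hpz)
      intro δ hδ
      by_contra hδS
      have h5 := hsat α hαS δ (F2_nonzero A δ hδ) hδS
      rcases hδ with rfl | rfl | rfl | rfl | rfl | rfl
      · rw [pz_self hα] at h5; omega
      · rw [pz_neg_left, pz_self hα] at h5; omega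
      · omega
      · rw [pz_neg_left] at h5; omega
      · rw [pz_sm_left hpz, pz_self hα] at h5; omega
      · rw [pz_neg_left, pz_sm_left hpz, pz_self hα] at h5; omega
    · push Not at hex
      have h0 : ∀ β : Weight ℂ H g, β.IsNonZero → β ∉ F1 α → pz β α = 0 := by
        intro β hβ hβF
        by_cases hβS : β ∈ S
        · exact pz_zero_symm hα hβ (hex β hβS hβF)
        · exact hsat α hαS β hβ hβS
      refine step (F1 α) _ ?_ (Or.inl rfl) (fun δ hδ hδF => F1_perp h0 hδ hδF) (GB_F1 hα h0)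
      intro δ hδ
      by_contra hδS
      have h5 := hsat α hαS δ (F1_nonzero hα δ hδ) hδS
      rcases hδ with rfl | rfl
      · rw [pz_self hα] at h5; omega
      · rw [pz_neg_left, pz_self hα] at h5; omega

end Pool.Agent.KS6_37.Phi

end

/-!
# All maps `Φ^V` are injective when all components have type `A1` or `A2`
-/

set_option autoImplicit false
set_option linter.unusedSectionVars false

noncomputable section

namespace Pool.Agent.KS6_37.Phi

open LieAlgebra LieAlgebra.IsKilling LieModule Pool.Agent.KS6_37.Phi.Core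

variable {g : Type} [LieRing g] [LieAlgebra ℂ g] [FiniteDimensional ℂ g]
variable [LieAlgebra.IsKilling ℂ g]
variable {H : LieSubalgebra ℂ g} [H.IsCartanSubalgebra]

theorem rootPairs_eq : rootPairs H = prs {δ : Weight ℂ H g | δ.IsNonZero} := rfl

theorem co_rootPairs : co (rootPairs H) = ⊤ := by
  rw [← RootPairing.IsRootSystem.span_coroot_eq_top (P := rootSystem H), co]
  congr 1
  ext h
  constructor
  · rintro ⟨_, ⟨α, hα, rfl⟩, rfl⟩
    exact ⟨⟨α, by simpa [LieSubalgebra.root] using hα⟩, rfl⟩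
  · rintro ⟨⟨α, hα⟩, rfl⟩
    exact ⟨_, ⟨α, by simpa [LieSubalgebra.root] using hα, rfl⟩, rfl⟩

theorem bs_rootPairs : bs (g := g) (rootPairs H) = ⊤ := by
  rw [eq_top_iff]
  intro x _
  have hx := mem_iSup_rootSpace (H := H) x
  induction hx using LieSubmodule.iSup_induction' with
  | mem χ x hx =>
    by_cases hχ : χ = 0
    · subst hχ
      rw [LieAlgebra.rootSpace_zero_eq, LieSubalgebra.mem_toLieSubmodule] at hx
      refine cog_le_bs _ (cog_mem (h := (⟨x, hx⟩ : H)) ?_)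
      rw [co_rootPairs]
      trivial
    · by_cases hb : LieAlgebra.rootSpace H χ = ⊥
      · rw [hb, LieSubmodule.mem_bot] at hx
        rw [hx]
        exact zero_mem _
      · let W : Weight ℂ H g := ⟨χ, hb⟩
        have hW : (W.toLinear, coroot W) ∈ rootPairs H := ⟨W, hχ, rfl⟩
        refine wv_le_bs hW ?_
        rw [wv_eq]
        exact hx
  | zero => exact zero_mem _
  | add a b _ _ ha hb => exact add_mem (ha trivial) (hb trivial)

theorem gen_of_C (hC : C1 H) (hC2 : C2 H) : Gen (⊤ : Submodule ℂ g) (startSet H) := by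
  obtain ⟨T, hT⟩ := exists_GB hC hC2 _ {δ : Weight ℂ H g | δ.IsNonZero} rfl (fun δ hδ => hδ)
    (fun δ _ η hη h => absurd hη h)
  rw [← rootPairs_eq] at hT
  have h1 := hT.gen
  rw [bs_rootPairs] at h1
  intro P hP hE
  refine h1 P hP fun v hv => hE ?_
  obtain ⟨t, ht, η, hη, rfl⟩ := hv
  refine ⟨t, hT.hb.harm t ht, η, ?_, rfl⟩
  refine Algebra.adjoin_mono (Set.image_mono ?_) hη
  rintro _ ⟨h, _, rfl⟩
  exact ⟨h, rfl⟩

/-- **The positive half.** -/
theorem allInjective_of_C {q : g →ₗ[ℂ] H} (hq : IsProj H q) (hC : C1 H) (hC2 : C2 H) :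
    AllInjective H q :=
  allInjective_of_gen hq (gen_of_C hC hC2)

end Pool.Agent.KS6_37.Phi

end
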