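import Pool.Agent.KS6_37.Phi.Pair

/-!
# The transpose of `Φ`, and injectivity from generation
-/

set_option autoImplicit false
set_option linter.unusedSectionVars false

open scoped TensorProduct

noncomputable section

namespace Pool.Agent.KS6_37.Phi

open Pool.Agent.KS6_37.PhiRP Pool.Agent.KS6_37.Phi.Core

section contr

variable {g : Type} [LieRing g] [LieAlgebra ℂ g] [FiniteDimensional ℂ g]
variable [LieAlgebra.IsKilling ℂ g]
variable {h : Type} [AddCommGroup h] [Module ℂ h]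

theorem map_id_comp (J I : ExteriorAlgebra ℂ g →ₗ[ℂ] ExteriorAlgebra ℂ g)
    (T : ExteriorAlgebra ℂ g ⊗[ℂ] ExteriorAlgebra ℂ g) :
    TensorProduct.map LinearMap.id (J ∘ₗ I) T =
      TensorProduct.map LinearMap.id J (TensorProduct.map LinearMap.id I T) := by
  induction T using TensorProduct.induction_on with
  | zero => simp
  | add x y hx hy => simp only [map_add, hx, hy]
  | tmul u v => simp only [TensorProduct.map_tmul, LinearMap.id_apply, LinearMap.comp_apply]

/-- contraction by the even element `τ(a)` -/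
theorem exists_contr (j : h →ₗ[ℂ] g) (a : SymmetricAlgebra ℂ h) :
    ∃ I : ExteriorAlgebra ℂ g →ₗ[ℂ] ExteriorAlgebra ℂ g,
      (∀ w u, pairLin (killingForm ℂ g) w (tau j a * u) = pairLin (killingForm ℂ g) (I w) u) ∧
      (∀ w, TensorProduct.map LinearMap.id I (coproduct g w) = coproduct g (I w)) ∧
      (∀ w, I (evenProj g w) = evenProj g (I w)) := by
  induction a using SymmetricAlgebra.induction with
  | algebraMap r =>
    refine ⟨r • LinearMap.id, fun w u => ?_, fun w => ?_, fun w => ?_⟩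
    · rw [AlgHom.commutes, ← Algebra.smul_def, map_smul]
      simp
    · rw [TensorProduct.map_smul_right, TensorProduct.map_id]
      simp
    · simp
  | ι x =>
    refine ⟨Ih (j x), fun w u => ?_, fun w => cop_Ih _ w, fun w => Ih_even _ w⟩
    rw [tau_ι, pair_s]
  | mul a b ha hb =>
    obtain ⟨I, hI1, hI2, hI3⟩ := ha
    obtain ⟨J, hJ1, hJ2, hJ3⟩ := hb
    refine ⟨J ∘ₗ I, fun w u => ?_, fun w => ?_, fun w => ?_⟩
    · rw [map_mul (tau j), mul_assoc, hI1, hJ1]; rfl
    · rw [map_id_comp, hI2, hJ2]; rfl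
    · rw [LinearMap.comp_apply, hI3, hJ3]; rfl
  | add a b ha hb =>
    obtain ⟨I, hI1, hI2, hI3⟩ := ha
    obtain ⟨J, hJ1, hJ2, hJ3⟩ := hb
    refine ⟨I + J, fun w u => ?_, fun w => ?_, fun w => ?_⟩
    · rw [map_add, add_mul, map_add, hI1, hJ1, LinearMap.add_apply, map_add,
        LinearMap.add_apply]
    · rw [TensorProduct.map_add_right, LinearMap.add_apply, hI2, hJ2, LinearMap.add_apply,
        map_add]
    · rw [LinearMap.add_apply, hI3, hJ3, LinearMap.add_apply, map_add]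

theorem map_contr_of_bigPhi (q : g →ₗ[ℂ] h) (j : h →ₗ[ℂ] g)
    (A : Submodule ℂ (SymmetricAlgebra ℂ h)) (w : ExteriorAlgebra ℂ g)
    (hw : bigPhi q j A w = 0) (a : SymmetricAlgebra ℂ h) (ha : a ∈ A)
    (I : ExteriorAlgebra ℂ g →ₗ[ℂ] ExteriorAlgebra ℂ g)
    (h1 : ∀ w u, pairLin (killingForm ℂ g) w (tau j a * u) = pairLin (killingForm ℂ g) (I w) u)
    (h2 : ∀ w, TensorProduct.map LinearMap.id I (coproduct g w) = coproduct g (I w))
    (h3 : ∀ w, I (evenProj g w) = evenProj g (I w)) : ExteriorAlgebra.map q (I w) = 0 := by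
  rw [bigPhi_apply] at hw
  set T := TensorProduct.map LinearMap.id (evenProj g) (coproduct g w) with hT
  let ψ : ExteriorAlgebra ℂ g →ₗ[ℂ] ℂ := (pairLin (killingForm ℂ g)).flip (tau j a)
  have e1 : ∀ U : ExteriorAlgebra ℂ g ⊗[ℂ] ExteriorAlgebra ℂ g,
      TensorProduct.rid ℂ (ExteriorAlgebra ℂ h) (TensorProduct.map LinearMap.id
        (Module.Dual.eval ℂ A ⟨a, ha⟩) (TensorProduct.map (ExteriorAlgebra.map q).toLinearMap
          (phi j A) U)) = leg q ψ U := by
    intro U
    induction U using TensorProduct.induction_on with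
    | zero => simp
    | add x y hx hy => simp only [map_add, hx, hy]
    | tmul u v =>
      rw [leg_tmul, TensorProduct.map_tmul, TensorProduct.map_tmul, TensorProduct.rid_tmul]
      rfl
  have e2 : ψ = (eps (g := g)).toLinearMap ∘ₗ I := by
    refine LinearMap.ext fun u => ?_
    have e3 := h1 u 1
    rw [mul_one, pairing_one_right] at e3
    exact e3
  have e4 : ((eps (g := g)).toLinearMap ∘ₗ I) ∘ₗ evenProj g = (eps (g := g)).toLinearMap ∘ₗ I := by
    refine LinearMap.ext fun u => ?_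
    rw [LinearMap.comp_apply, LinearMap.comp_apply, h3]
    exact eps_even (I u)
  rw [← leg_cop q (I w), ← h2, ← leg_comp, ← e4, leg_comp, ← hT, ← e2, ← e1, hw, map_zero,
    map_zero]

theorem ct_map (f : g →ₗ[ℂ] g) (d : Module.Dual ℂ g) (w : ExteriorAlgebra ℂ g) :
    ct d (ExteriorAlgebra.map f w) = ExteriorAlgebra.map f (ct (d ∘ₗ f) w) := by
  induction w using left_ind with
  | h1 r => rw [AlgHom.commutes, ct_algebraMap, ct_algebraMap, map_zero]
  | h2 x y hx hy => simp only [map_add, hx, hy]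
  | h3 m x hx =>
    rw [map_mul, ExteriorAlgebra.map_apply_ι, ct_ι_mul, hx, ct_ι_mul, map_sub, map_smul, map_mul,
      ExteriorAlgebra.map_apply_ι]
    rfl

theorem eps_map (f : g →ₗ[ℂ] g) (w : ExteriorAlgebra ℂ g) :
    eps (ExteriorAlgebra.map f w) = eps w := by
  induction w using left_ind with
  | h1 r => rw [AlgHom.commutes, AlgHom.commutes]
  | h2 x y hx hy => simp only [map_add, hx, hy]
  | h3 m x _ => rw [map_mul, ExteriorAlgebra.map_apply_ι, eps_ι_mul, eps_ι_mul]

/-- contraction by an element of the subalgebra generated by `H` -/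
theorem exists_contr' (f : g →ₗ[ℂ] g) (V : Set g)
    (hf : ∀ v ∈ V, (killingForm ℂ g v : Module.Dual ℂ g) ∘ₗ f = killingForm ℂ g v)
    (η : ExteriorAlgebra ℂ g) (hη : η ∈ Algebra.adjoin ℂ (ExteriorAlgebra.ι ℂ '' V)) :
    ∃ C : ExteriorAlgebra ℂ g →ₗ[ℂ] ExteriorAlgebra ℂ g,
      (∀ w u, pairLin (killingForm ℂ g) w (η * u) = pairLin (killingForm ℂ g) (C w) u) ∧
      (∀ w, C (ExteriorAlgebra.map f w) = ExteriorAlgebra.map f (C w)) := by
  induction hη using Algebra.adjoin_induction with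
  | mem x hx =>
    obtain ⟨v, hv, rfl⟩ := hx
    refine ⟨ct (killingForm ℂ g v), fun w u => ?_, fun w => ?_⟩
    · exact pair_mul (killingForm ℂ g) kill_symm v w u
    · rw [ct_map, hf v hv]
  | algebraMap r =>
    refine ⟨r • LinearMap.id, fun w u => ?_, fun w => ?_⟩
    · rw [← Algebra.smul_def, map_smul]; simp
    · simp
  | mul a b _ _ ha hb =>
    obtain ⟨I, hI1, hI2⟩ := ha
    obtain ⟨J, hJ1, hJ2⟩ := hb
    refine ⟨J ∘ₗ I, fun w u => ?_, fun w => ?_⟩
    · rw [mul_assoc, hI1, hJ1]; rfl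
    · rw [LinearMap.comp_apply, hI2, hJ2]; rfl
  | add a b _ _ ha hb =>
    obtain ⟨I, hI1, hI2⟩ := ha
    obtain ⟨J, hJ1, hJ2⟩ := hb
    refine ⟨I + J, fun w u => ?_, fun w => ?_⟩
    · rw [add_mul, map_add, hI1, hJ1, LinearMap.add_apply, map_add, LinearMap.add_apply]
    · rw [LinearMap.add_apply, hI2, hJ2, LinearMap.add_apply, map_add]

/-- **The transpose of `Φ`.** -/
theorem pair_zero_of_bigPhi (q : g →ₗ[ℂ] h) (j : h →ₗ[ℂ] g)
    (hq : ∀ (x : g) (y : h), killingForm ℂ g (j y) (j (q x)) = killingForm ℂ g (j y) x)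
    (A : Submodule ℂ (SymmetricAlgebra ℂ h)) (w : ExteriorAlgebra ℂ g)
    (hw : bigPhi q j A w = 0) (a : SymmetricAlgebra ℂ h) (ha : a ∈ A) (η : ExteriorAlgebra ℂ g)
    (hη : η ∈ Algebra.adjoin ℂ (ExteriorAlgebra.ι ℂ '' Set.range j)) :
    pairLin (killingForm ℂ g) w (tau j a * η) = 0 := by
  obtain ⟨I, h1, h2, h3⟩ := exists_contr j a
  obtain ⟨C, c1, c2⟩ := exists_contr' (j ∘ₗ q) (Set.range j) (by
    rintro _ ⟨y, rfl⟩
    exact LinearMap.ext fun x => hq x y) η hη
  have e1 := map_contr_of_bigPhi q j A w hw a ha I h1 h2 h3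
  have e2 : ExteriorAlgebra.map (j ∘ₗ q) (I w) = 0 := by
    have := congrArg (ExteriorAlgebra.map j) e1
    rw [map_zero] at this
    rw [← this, ← ExteriorAlgebra.map_comp_map]
    rfl
  rw [h1]
  have e3 := c1 (I w) 1
  rw [mul_one, pairing_one_right, ← eps_map (j ∘ₗ q), ← c2, e2, map_zero, map_zero] at e3
  exact e3

end contr

end Pool.Agent.KS6_37.Phi
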